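import Pool.Agent.W_9986fc_h15.PhiA

/-!
Pullbacks by the maps `φ g` and invariant forms.
-/

set_option autoImplicit false
set_option maxSynthPendingDepth 3

open scoped ContDiff Matrix

namespace Pool.Agent.W_9986fc_h15

variable {k b : ℕ} {G : Type} [Group G] [MulAction G (R b)] (X : Bundle k b G)

/-- The derivative of a pullback. -/
theorem fderiv_pull1 {E : Type*} [NormedAddCommGroup E] [NormedSpace ℝ E] {η : E → E →L[ℝ] ℝ}
    (hη : ContDiff ℝ ∞ η) {f : E → E} (hf : ContDiff ℝ ∞ f) (x u w : E) :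
    fderiv ℝ (pull1 f η) x u w = fderiv ℝ η (f x) (fderiv ℝ f x u) (fderiv ℝ f x w) +
      η (f x) (fderiv ℝ (fderiv ℝ f) x u w) := by
  have hf1 : Differentiable ℝ f := hf.differentiable (by simp)
  have hη1 : Differentiable ℝ η := hη.differentiable (by simp)
  have hf2 : Differentiable ℝ (fderiv ℝ f) :=
    (hf.fderiv_right (m := ∞) (by simp)).differentiable (by simp)
  have h1 : HasFDerivAt (fun y => η (f y)) ((fderiv ℝ η (f x)).comp (fderiv ℝ f x)) x :=
    (hη1 (f x)).hasFDerivAt.comp x (hf1 x).hasFDerivAt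
  have h2 : HasFDerivAt (fderiv ℝ f) (fderiv ℝ (fderiv ℝ f) x) x := (hf2 x).hasFDerivAt
  have h3 := h1.clm_comp h2
  have h4 : fderiv ℝ (pull1 f η) x = _ := h3.fderiv
  rw [h4]
  simp [add_comm]

/-- The second derivative is symmetric. -/
theorem fderiv_fderiv_symm {E F : Type*} [NormedAddCommGroup E] [NormedSpace ℝ E]
    [NormedAddCommGroup F] [NormedSpace ℝ F] {f : E → F} (hf : ContDiff ℝ ∞ f) (x u w : E) :
    fderiv ℝ (fderiv ℝ f) x u w = fderiv ℝ (fderiv ℝ f) x w u := by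
  have h : IsSymmSndFDerivAt ℝ f x := by
    apply (hf.contDiffAt (x := x)).isSymmSndFDerivAt
    rw [minSmoothness_of_isRCLikeNormedField]
    exact WithTop.coe_le_coe.2 le_top
  exact h.eq u w

/-- The maps `q ↦ q (D ·) (D ·)` as continuous linear maps. -/
noncomputable def bcomp {E : Type*} [NormedAddCommGroup E] [NormedSpace ℝ E] (D : E →L[ℝ] E) :
    (E →L[ℝ] E →L[ℝ] ℝ) →L[ℝ] (E →L[ℝ] E →L[ℝ] ℝ) :=
  (ContinuousLinearMap.compL ℝ E (E →L[ℝ] ℝ) (E →L[ℝ] ℝ)
    ((ContinuousLinearMap.compL ℝ E E ℝ).flip D)).comp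
    ((ContinuousLinearMap.compL ℝ E E (E →L[ℝ] ℝ)).flip D)

theorem bcomp_apply {E : Type*} [NormedAddCommGroup E] [NormedSpace ℝ E] (D : E →L[ℝ] E)
    (q : E →L[ℝ] E →L[ℝ] ℝ) : bcomp D q = q.bilinearComp D D := by
  ext u w
  simp [bcomp]

/-- `d ∘ d = 0`. -/
theorem closed_d1 {E : Type*} [NormedAddCommGroup E] [NormedSpace ℝ E] {η : E → E →L[ℝ] ℝ}
    (hη : ContDiff ℝ ∞ η) : Closed (d1 η) := by
  intro x u v w
  have h1 : Differentiable ℝ (fderiv ℝ η) :=
    (hη.fderiv_right (m := ∞) (by simp)).differentiable (by simp)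
  have h2 : HasFDerivAt (fderiv ℝ η) (fderiv ℝ (fderiv ℝ η) x) x := (h1 x).hasFDerivAt
  have h3 : HasFDerivAt (fun y => (fderiv ℝ η y).flip)
      (((ContinuousLinearMap.flipₗᵢ ℝ E E ℝ : (E →L[ℝ] E →L[ℝ] ℝ) ≃ₗᵢ[ℝ] _)
        : (E →L[ℝ] E →L[ℝ] ℝ) →L[ℝ] (E →L[ℝ] E →L[ℝ] ℝ)).comp (fderiv ℝ (fderiv ℝ η) x)) x :=
    (((ContinuousLinearMap.flipₗᵢ ℝ E E ℝ : (E →L[ℝ] E →L[ℝ] ℝ) ≃ₗᵢ[ℝ] _)
        : (E →L[ℝ] E →L[ℝ] ℝ) →L[ℝ] (E →L[ℝ] E →L[ℝ] ℝ)).hasFDerivAt).comp x h2
  have h4 := h2.sub h3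
  have h5 : ∀ u v w, fderiv ℝ (d1 η) x u v w =
      fderiv ℝ (fderiv ℝ η) x u v w - fderiv ℝ (fderiv ℝ η) x u w v := by
    intro u v w
    have h6 : fderiv ℝ (d1 η) x = _ := h4.fderiv
    rw [h6]
    simp
  rw [h5, h5, h5, fderiv_fderiv_symm hη x u v, fderiv_fderiv_symm hη x u w,
    fderiv_fderiv_symm hη x v w]
  ring

theorem isForm_d1 {E : Type*} [NormedAddCommGroup E] [NormedSpace ℝ E] {η : E → E →L[ℝ] ℝ}
    (hη : ContDiff ℝ ∞ η) : IsForm (d1 η) := by
  have h1 : ContDiff ℝ ∞ (fderiv ℝ η) := hη.fderiv_right (m := ∞) (by simp)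
  refine ⟨?_, ?_⟩
  · have h2 : ContDiff ℝ ∞ (fun y => (fderiv ℝ η y).flip) :=
      (((ContinuousLinearMap.flipₗᵢ ℝ E E ℝ : (E →L[ℝ] E →L[ℝ] ℝ) ≃ₗᵢ[ℝ] _)
        : (E →L[ℝ] E →L[ℝ] ℝ) →L[ℝ] (E →L[ℝ] E →L[ℝ] ℝ)).contDiff).comp h1
    exact h1.sub h2
  · intro x u
    simp [d1]

namespace Bundle

/-- `F ∘ φ g` is periodic if `F` is. -/
theorem per_comp_φ {H : Type*} {F : V k b → H} (hF : Per F) (g : G) :
    Per fun x => F (X.φ g x) := by
  intro m v z
  have h : X.φ g (v + intV m, z) = (X.L g v + X.τ g z + intV (X.A g *ᵥ m), g • z) := by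
    simp only [φ, map_add, L_intV]
    congr 1
    abel
  show F (X.φ g (v + intV m, z)) = F (X.φ g (v, z))
  rw [h, hF]
  rfl

theorem fderiv_φ_eq (hB : IsBase b G) (g : G) (x y : V k b) (h : x.2 = y.2) :
    fderiv ℝ (X.φ g) x = fderiv ℝ (X.φ g) y := by
  refine ContinuousLinearMap.ext fun u => ?_
  rw [fderiv_φ X hB, fderiv_φ X hB, h]

/-- Pullbacks of periodic forms are periodic. -/
theorem per_pull1 (hB : IsBase b G) {η : V k b → V k b →L[ℝ] ℝ} (hη : Per η) (g : G) :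
    Per (pull1 (X.φ g) η) := by
  intro m v z
  simp only [pull1]
  rw [fderiv_φ_eq X hB g (v + intV m, z) (v, z) rfl]
  have := per_comp_φ X hη g m v z
  simp only at this
  rw [this]

theorem contDiff_pull1 (hB : IsBase b G) {η : V k b → V k b →L[ℝ] ℝ} (hη : ContDiff ℝ ∞ η)
    (g : G) : ContDiff ℝ ∞ (pull1 (X.φ g) η) :=
  (hη.comp (X.contDiff_φ hB g)).clm_comp ((X.contDiff_φ hB g).fderiv_right (m := ∞) (by simp))

/-- Pullback is functorial on periodic forms. -/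
theorem pull1_mul (hB : IsBase b G) {η : V k b → V k b →L[ℝ] ℝ} (hη : Per η) (g h : G)
    (x : V k b) : pull1 (X.φ (g * h)) η x = pull1 (X.φ h) (pull1 (X.φ g) η) x := by
  obtain ⟨m, hm⟩ := X.φ_mul hB g h
  simp only [pull1]
  rw [hm, (per_iff η).1 hη, X.fderiv_φ_mul hB, ContinuousLinearMap.comp_assoc]

/-- Pullback commutes with the exterior derivative. -/
theorem d1_pull1 (hB : IsBase b G) {η : V k b → V k b →L[ℝ] ℝ} (hη : ContDiff ℝ ∞ η) (g : G)
    (x : V k b) : d1 (pull1 (X.φ g) η) x = pull2 (X.φ g) (d1 η) x := by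
  refine ContinuousLinearMap.ext fun u => ContinuousLinearMap.ext fun w => ?_
  simp only [d1, pull2, _root_.sub_apply, ContinuousLinearMap.flip_apply,
    ContinuousLinearMap.bilinearComp_apply]
  rw [fderiv_pull1 hη (X.contDiff_φ hB g), fderiv_pull1 hη (X.contDiff_φ hB g),
    fderiv_fderiv_symm (X.contDiff_φ hB g) x w u]
  ring

/-- The mean commutes with `φ g`. -/
theorem mean_comp_φ {H : Type*} [NormedAddCommGroup H] [NormedSpace ℝ H] [CompleteSpace H]
    (F : V k b → H) (hF : Continuous F) (hper : Per F) (g : G) (z : R b) :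
    mean (fun x => F (X.φ g x)) z = mean F (g • z) :=
  mean_linear F hF hper (X.A g) (X.isUnit_det g) (X.τ g z) (g • z)

/-- The pullback of a 1-form of mean zero has mean zero. -/
theorem mean_pull1 (hB : IsBase b G) {η : V k b → V k b →L[ℝ] ℝ} (hη : ContDiff ℝ ∞ η)
    (hper : Per η) (hm : ∀ z, mean η z = 0) (g : G) (z : R b) :
    mean (pull1 (X.φ g) η) z = 0 := by
  have h1 : mean (pull1 (X.φ g) η) z =
      mean (fun x => ((ContinuousLinearMap.compL ℝ (V k b) (V k b) ℝ).flip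
        (fderiv ℝ (X.φ g) (0, x.2))) (η (X.φ g x))) z := by
    unfold mean
    congr 1
    funext v
    simp only [pull1]
    rw [fderiv_φ_eq X hB g (v, z) (0, z) rfl]
    rfl
  rw [h1, mean_clm (fun z => (ContinuousLinearMap.compL ℝ (V k b) (V k b) ℝ).flip
        (fderiv ℝ (X.φ g) (0, z))) (fun x => η (X.φ g x))
        (hη.continuous.comp (X.contDiff_φ hB g).continuous),
    X.mean_comp_φ η hη.continuous hper, hm, map_zero]

/-- The mean of an invariant form is invariant. -/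
theorem pull2_mean (hB : IsBase b G) {α : V k b → V k b →L[ℝ] V k b →L[ℝ] ℝ} (hα : X.Inv2 α)
    (g : G) (x : V k b) :
    pull2 (X.φ g) (fun x => mean α x.2) x = mean α x.2 := by
  have hc : Continuous α := hα.smooth.continuous
  have h1 : mean α x.2 = mean (fun y => bcomp (fderiv ℝ (X.φ g) (0, y.2)) (α (X.φ g y))) x.2 := by
    unfold mean
    congr 1
    funext v
    simp only [bcomp_apply]
    rw [← hα.invariant g (v, x.2)]
    simp only [pull2]
    rw [fderiv_φ_eq X hB g (v, x.2) (0, x.2) rfl]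
  rw [h1, mean_clm (fun z => bcomp (fderiv ℝ (X.φ g) (0, z))) (fun y => α (X.φ g y))
    (hc.comp (X.contDiff_φ hB g).continuous), X.mean_comp_φ α hc hα.periodic, bcomp_apply]
  simp only [pull2]
  rw [fderiv_φ_eq X hB g x (0, x.2) rfl]
  rfl

/-- `d1` of an invariant 1-form is an invariant 2-form, and it is closed. -/
theorem Inv1.d1_inv2 (hB : IsBase b G) {η : V k b → V k b →L[ℝ] ℝ} (hη : X.Inv1 η) :
    X.Inv2 (d1 η) := by
  refine { toIsForm := isForm_d1 hη.smooth, periodic := ?_, invariant := ?_ }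
  · have hp : ∀ (m : Fin k → ℤ) (x : V k b), η (x + vert (intV m)) = η x :=
      (per_iff η).1 hη.periodic
    have : Per (d1 η) := by
      rw [per_iff]
      intro m x
      have h1 : fderiv ℝ η (x + vert (intV m)) = fderiv ℝ η x := by
        rw [← fderiv_comp_add_right (vert (intV m))]
        congr 1
        funext y
        exact hp m y
      simp only [d1, h1]
    exact this
  · intro g x
    rw [← X.d1_pull1 hB hη.smooth]
    congr 1
    funext y
    exact hη.invariant g y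

end Bundle

end Pool.Agent.W_9986fc_h15
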