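import Pool.Agent.W_9986fc_h15.PrimA
import Pool.Agent.W_9986fc_h15.Phi

/-!
Closed 2-forms on `M` are cohomologous on `M` to their fibre means.
-/

set_option autoImplicit false
set_option maxSynthPendingDepth 3

open scoped ContDiff Matrix

namespace Pool.Agent.W_9986fc_h15

variable {k b : ℕ} {G : Type} [Group G] [MulAction G (R b)] (X : Bundle k b G)

/-- `d1` is additive. -/
theorem d1_add {E : Type*} [NormedAddCommGroup E] [NormedSpace ℝ E] {η θ : E → E →L[ℝ] ℝ}
    (hη : ContDiff ℝ ∞ η) (hθ : ContDiff ℝ ∞ θ) (x : E) :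
    d1 (fun x => η x + θ x) x = d1 η x + d1 θ x := by
  unfold d1
  rw [fderiv_fun_add (hη.differentiable (by simp) x) (hθ.differentiable (by simp) x)]
  refine ContinuousLinearMap.ext fun u => ContinuousLinearMap.ext fun w => ?_
  simp only [_root_.add_apply, _root_.sub_apply, ContinuousLinearMap.flip_apply]
  ring

/-- `d1` is compatible with subtraction. -/
theorem d1_sub {E : Type*} [NormedAddCommGroup E] [NormedSpace ℝ E] {η θ : E → E →L[ℝ] ℝ}
    (hη : ContDiff ℝ ∞ η) (hθ : ContDiff ℝ ∞ θ) (x : E) :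
    d1 (fun x => η x - θ x) x = d1 η x - d1 θ x := by
  unfold d1
  rw [fderiv_fun_sub (hη.differentiable (by simp) x) (hθ.differentiable (by simp) x)]
  refine ContinuousLinearMap.ext fun u => ContinuousLinearMap.ext fun w => ?_
  simp only [_root_.sub_apply, ContinuousLinearMap.flip_apply]
  ring

/-- `d1` of a differential is zero. -/
theorem d1_fderiv {E : Type*} [NormedAddCommGroup E] [NormedSpace ℝ E] {F : E → ℝ}
    (hF : ContDiff ℝ ∞ F) (x : E) : d1 (fderiv ℝ F) x = 0 := by
  have hs : IsSymmSndFDerivAt ℝ F x := hF.contDiffAt.isSymmSndFDerivAt (by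
    simp only [minSmoothness_of_isRCLikeNormedField]
    exact ENat.LEInfty.out)
  refine ContinuousLinearMap.ext fun u => ContinuousLinearMap.ext fun w => ?_
  have h1 := hs.eq u w
  have h2 : d1 (fderiv ℝ F) x u w = fderiv ℝ (fderiv ℝ F) x u w - fderiv ℝ (fderiv ℝ F) x w u :=
    rfl
  rw [h2, h1, sub_self]
  rfl

theorem pull1_add {E : Type*} [NormedAddCommGroup E] [NormedSpace ℝ E] (φ : E → E)
    (η θ : E → E →L[ℝ] ℝ) (x : E) :
    pull1 φ (fun x => η x + θ x) x = pull1 φ η x + pull1 φ θ x := by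
  unfold pull1
  exact ContinuousLinearMap.add_comp _ _ _

theorem pull1_sub {E : Type*} [NormedAddCommGroup E] [NormedSpace ℝ E] (φ : E → E)
    (η θ : E → E →L[ℝ] ℝ) (x : E) :
    pull1 φ (fun x => η x - θ x) x = pull1 φ η x - pull1 φ θ x := by
  unfold pull1
  exact ContinuousLinearMap.sub_comp _ _ _

theorem pull1_fderiv {E : Type*} [NormedAddCommGroup E] [NormedSpace ℝ E] {φ : E → E}
    (hφ : ContDiff ℝ ∞ φ) {F : E → ℝ} (hF : ContDiff ℝ ∞ F) (x : E) :
    pull1 φ (fderiv ℝ F) x = fderiv ℝ (fun x => F (φ x)) x := by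
  have h1 := fderiv_comp x (hF.differentiable (by simp) (φ x)) (hφ.differentiable (by simp) x)
  exact h1.symm

/-- Let `α = a + d1 η₀` as in `exists_primitive_two` and `θ g = φ g ^* η₀ - η₀`. Since `a` and `α`
are invariant, `θ g` is closed; it is periodic of mean zero, so `θ g = d (h g)` with `h g` periodic
of mean zero (`exists_primitive_one`), and `h (g g') = h g ∘ φ g' + h g'` (`eq_of_fderiv_eq`). -/
theorem exists_cocycle (hB : IsBase b G) (α : V k b → V k b →L[ℝ] V k b →L[ℝ] ℝ)
    (hα : X.Inv2 α) (hc : Closed α) :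
    ∃ (a : V k b → V k b →L[ℝ] V k b →L[ℝ] ℝ) (η : V k b → V k b →L[ℝ] ℝ) (h : G → V k b → ℝ),
      X.Inv2 a ∧ Closed a ∧ (∀ x, a x = mean α x.2) ∧
      ContDiff ℝ ∞ η ∧ Per η ∧ (∀ x, α x = a x + d1 η x) ∧
      (∀ g, ContDiff ℝ ∞ (h g)) ∧ (∀ g, Per (h g)) ∧
      (∀ g x, pull1 (X.φ g) η x = η x + fderiv ℝ (h g) x) ∧
      ∀ g g' x, h (g * g') x = h g (X.φ g' x) + h g' x := by
  obtain ⟨a, η, ha, hac, ham, hη, hηp, hηm, hsum⟩ :=
    exists_primitive_two α hα.toIsForm hc hα.periodic
  have ha2 : a = fun x => mean α x.2 := funext ham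
  have hinv : ∀ g x, pull2 (X.φ g) a x = a x := by
    intro g x
    rw [ha2]
    exact X.pull2_mean hB hα g x
  have hd : ∀ x, d1 η x = α x - a x := by
    intro x
    rw [hsum x]
    abel
  have hprim : ∀ g, ∃ h : V k b → ℝ, ContDiff ℝ ∞ h ∧ Per h ∧ (∀ z, mean h z = 0) ∧
      ∀ x, fderiv ℝ h x = pull1 (X.φ g) η x - η x := by
    intro g
    have hp1 : ContDiff ℝ ∞ (pull1 (X.φ g) η) := X.contDiff_pull1 hB hη g
    apply exists_primitive_one (fun x => pull1 (X.φ g) η x - η x) (hp1.sub hη)
    · intro x u w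
      have h1 : d1 (fun x => pull1 (X.φ g) η x - η x) x = 0 := by
        rw [d1_sub hp1 hη, X.d1_pull1 hB hη]
        have h2 : pull2 (X.φ g) (d1 η) x = pull2 (X.φ g) α x - pull2 (X.φ g) a x := by
          unfold pull2
          rw [hd]
          rfl
        rw [h2, hα.invariant, hinv, hd, sub_self]
      have h3 : d1 (fun x => pull1 (X.φ g) η x - η x) x u w =
          fderiv ℝ (fun x => pull1 (X.φ g) η x - η x) x u w -
          fderiv ℝ (fun x => pull1 (X.φ g) η x - η x) x w u := rfl
      rw [h1] at h3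
      exact (sub_eq_zero.1 h3.symm)
    · intro m v z
      show pull1 (X.φ g) η (v + intV m, z) - η (v + intV m, z) = _
      rw [X.per_pull1 hB hηp g m v z, hηp m v z]
    · intro z
      have h1 : mean (fun x => (pull1 (X.φ g) η x - η x) + η x) z =
          mean (fun x => pull1 (X.φ g) η x - η x) z + mean η z :=
        mean_add_fun _ _ (hp1.continuous.sub hη.continuous) hη.continuous z
      have h2 : (fun x => (pull1 (X.φ g) η x - η x) + η x) = pull1 (X.φ g) η := by
        funext x
        abel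
      rw [h2, X.mean_pull1 hB hη hηp hηm, hηm, add_zero] at h1
      exact h1.symm
  choose h hh hhp hhm hhd using hprim
  refine ⟨a, η, h, ⟨ha, ?_, hinv⟩, hac, ham, hη, hηp, hsum, hh, hhp, ?_, ?_⟩
  · intro m v z
    rw [ham, ham]
  · intro g x
    rw [hhd]
    abel
  · intro g g' x
    have hcomp : ContDiff ℝ ∞ (fun x => h g (X.φ g' x)) := (hh g).comp (X.contDiff_φ hB g')
    have key : h (g * g') = fun x => h g (X.φ g' x) + h g' x := by
      apply eq_of_fderiv_eq _ _ (hh _) (hcomp.add (hh g')) (hhm _)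
      · intro z
        rw [mean_add_fun _ _ hcomp.continuous (hh g').continuous,
          X.mean_comp_φ (h g) (hh g).continuous (hhp g) g' z, hhm, hhm, add_zero]
      · intro x
        rw [fderiv_fun_add (hcomp.differentiable (by simp) x)
          ((hh g').differentiable (by simp) x), hhd, ← pull1_fderiv (X.contDiff_φ hB g') (hh g),
          X.pull1_mul hB hηp, hhd]
        have h1 : fderiv ℝ (h g) = fun x => pull1 (X.φ g) η x - η x := funext (hhd g)
        rw [h1, pull1_sub]
        have h2 : pull1 (X.φ g') (pull1 (X.φ g) η) x =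
          pull1 (X.φ g') (fun x => pull1 (X.φ g) η x) x := rfl
        rw [h2]
        abel
    exact congrFun key x

/-- Closed invariant 2-forms are the sum of an invariant closed form which does not depend on the
fibre coordinate and of the differential of an invariant 1-form: with the data of `exists_cocycle`
and a partition of unity `χ` the form
`∑ g, χ (g • z) • φ g ^* η + ∑ g, h g • d (χ (g • z))` is invariant, and its differential is
`α - a`. -/
theorem exists_mean_form (hB : IsBase b G) (α : V k b → V k b →L[ℝ] V k b →L[ℝ] ℝ)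
    (hα : X.Inv2 α) (hc : Closed α) :
    ∃ (a : V k b → V k b →L[ℝ] V k b →L[ℝ] ℝ) (η : V k b → V k b →L[ℝ] ℝ),
      X.Inv2 a ∧ Closed a ∧ (∀ v z, a (v, z) = a (0, z)) ∧ X.Inv1 η ∧
      ∀ x, α x = a x + d1 η x := by
  obtain ⟨a, η, h, ha, hac, ham, hη, hηp, hsum, hh, hhp, hhd, hcoc⟩ := exists_cocycle X hB α hα hc
  obtain ⟨χ, hχ, -⟩ := exists_isPart hB
  have hsup : CSup G (fun x : V k b => x.2) (fun g x => χ (g • x.2) * h g x) :=
    csup_of_cutoff hχ.compact fun g y hy => by
      show χ (g • y.2) * h g y = 0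
      rw [hy, zero_mul]
  have hsm : ∀ g : G, ContDiff ℝ ∞ (fun x : V k b => χ (g • x.2) * h g x) := by
    intro g
    exact (hχ.smooth.comp ((hB.smooth g).comp contDiff_snd)).mul (hh g)
  set F : V k b → ℝ := fun x => ∑ᶠ g : G, χ (g • x.2) * h g x with hFdef
  have hF : ContDiff ℝ ∞ F := hsup.contDiff hB continuous_snd hsm
  have hFp : Per F := by
    intro m v z
    show (∑ᶠ g : G, χ (g • z) * h g (v + intV m, z)) = ∑ᶠ g : G, χ (g • z) * h g (v, z)
    refine finsum_congr fun g => ?_
    rw [hhp g m v z]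
  have hFφ : ∀ g' x, F (X.φ g' x) + h g' x = F x := by
    intro g' x
    have h1 : F (X.φ g' x) = ∑ᶠ g : G, (fun g => χ (g • x.2) * h g x +
        (-(χ (g • x.2) * h g' x))) (g * g') := by
      show (∑ᶠ g : G, χ (g • g' • x.2) * h g (X.φ g' x)) = _
      refine finsum_congr fun g => ?_
      show χ (g • g' • x.2) * h g (X.φ g' x) = χ ((g * g') • x.2) * h (g * g') x +
        (-(χ ((g * g') • x.2) * h g' x))
      rw [hcoc g g' x, mul_smul]
      ring
    have h1' : F (X.φ g' x) = ∑ᶠ g : G, (χ (g • x.2) * h g x + (-(χ (g • x.2) * h g' x))) :=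
      h1.trans (finsum_mul_right (fun g : G => χ (g • x.2) * h g x +
        (-(χ (g • x.2) * h g' x))) g')
    rw [h1']
    have hsup' : CSup G (fun x : V k b => x.2) (fun g x => -(χ (g • x.2) * h g' x)) :=
      csup_of_cutoff hχ.compact fun g y hy => by
        show -(χ (g • y.2) * h g' y) = 0
        rw [hy, zero_mul, neg_zero]
    have h2 := hsup.add hB hsup' x
    have h3 : ∑ᶠ g : G, -(χ (g • x.2) * h g' x) = -h g' x := by
      have hs : CSup G (fun z : R b => z) (fun g z => χ (g • z)) :=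
        csup_of_cutoff hχ.compact fun g y hy => hy
      have h4 := hs.clm hB (-(h g' x) • (LinearMap.id : ℝ →ₗ[ℝ] ℝ)) x.2
      rw [hχ.sum x.2] at h4
      simp only [LinearMap.smul_apply, LinearMap.id_apply, smul_eq_mul, mul_one] at h4
      rw [h4]
      refine finsum_congr fun g => ?_
      ring
    rw [h3] at h2
    show (∑ᶠ g : G, (χ (g • x.2) * h g x + -(χ (g • x.2) * h g' x))) + h g' x = F x
    rw [h2]
    show F x + -h g' x + h g' x = F x
    ring
  have hF' : ContDiff ℝ ∞ (fderiv ℝ F) := hF.fderiv_right (by simp)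
  refine ⟨a, fun x => η x + fderiv ℝ F x, ha, hac, ?_, ⟨hη.add hF', ?_, ?_⟩, ?_⟩
  · intro v z
    rw [ham, ham]
  · intro m v z
    show η (v + intV m, z) + fderiv ℝ F (v + intV m, z) = η (v, z) + fderiv ℝ F (v, z)
    rw [hηp m v z]
    congr 1
    have h1 : F = fun x => F (x + vert (intV m)) := by
      funext x
      exact ((per_iff F).1 hFp m x).symm
    have h2 : (v + intV m, z) = (v, z) + (vert (intV m) : V k b) := by
      simp [vert]
    conv_rhs => rw [h1]
    rw [fderiv_comp_add_right, h2]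
  · intro g x
    rw [pull1_add, hhd, pull1_fderiv (X.contDiff_φ hB g) hF]
    have hcomp : ContDiff ℝ ∞ (fun x => F (X.φ g x)) := hF.comp (X.contDiff_φ hB g)
    have h1 : fderiv ℝ F x = fderiv ℝ (fun x => F (X.φ g x)) x + fderiv ℝ (h g) x := by
      rw [← fderiv_fun_add (hcomp.differentiable (by simp) x)
        ((hh g).differentiable (by simp) x)]
      congr 1
      funext x
      exact (hFφ g x).symm
    rw [h1]
    abel
  · intro x
    rw [d1_add hη hF', d1_fderiv hF, add_zero, hsum x]

end Pool.Agent.W_9986fc_h15
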