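import Pool.Agent.W_9986fc_h15.Phi

/-!
Integration by parts and unfolding.
-/

set_option autoImplicit false
set_option maxSynthPendingDepth 3

open scoped ContDiff Matrix

namespace Pool.Agent.W_9986fc_h15

variable {k b : ℕ} {G : Type} [Group G] [MulAction G (R b)]

theorem fib_eq_mean (F : V k b → ℝ) : fib F = mean F := rfl

/-- The mean of a continuous function is continuous. -/
theorem continuous_mean (F : V k b → ℝ) (hF : Continuous F) : Continuous (mean F) := by
  unfold mean
  exact continuous_parametric_integral_of_continuous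
    (f := fun (z : R b) (v : R k) => F (v, z)) (hF.comp (continuous_snd.prodMk continuous_fst))
    isCompact_Icc

/-- The mean vanishes at the points where the function vanishes on the whole fibre. -/
theorem mean_eq_zero {F : V k b → ℝ} {z : R b} (h : ∀ v, F (v, z) = 0) : mean F z = 0 := by
  unfold mean
  simp [h]

theorem mean_congr {F F' : V k b → ℝ} {z : R b} (h : ∀ v, F (v, z) = F' (v, z)) :
    mean F z = mean F' z := by
  unfold mean
  simp [h]

/-- The mean of a finite sum. -/
theorem mean_sum {ι : Type*} (s : Finset ι) (F : ι → V k b → ℝ) (hF : ∀ i ∈ s, Continuous (F i))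
    (z : R b) : mean (fun x => ∑ i ∈ s, F i x) z = ∑ i ∈ s, mean (F i) z := by
  unfold mean
  refine MeasureTheory.integral_finsetSum s fun i hi => ?_
  exact ((hF i hi).comp (Continuous.prodMk_left z)).continuousOn.integrableOn_compact isCompact_Icc

/-- The integral of a derivative of a periodic function with compact support in the direction of
the base is zero: for vertical vectors by `mean_fderiv_vert`; for horizontal vectors it is the
integral over `ℝ^b` of a derivative of the compactly supported function `mean F`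
(`fderiv_mean`, `contDiff_mean`, `integral_bilinear_hasLineDerivAt_right_eq_neg_left_of_integrable`
or `integral_fderiv_eq_zero`-like lemmas of Mathlib). -/
theorem integral_fderiv_eq_zero (F : V k b → ℝ) (hF : ContDiff ℝ ∞ F) (hper : Per F)
    (hs : ∃ K : Set (R b), IsCompact K ∧ ∀ x, F x ≠ 0 → x.2 ∈ K) (u : V k b) :
    ∫ z, fib (fun x => fderiv ℝ F x u) z = 0 := by
  obtain ⟨K, hK, hKF⟩ := hs
  have hF' : Continuous (fderiv ℝ F) := hF.continuous_fderiv (by simp)
  have hc : ∀ w : V k b, Continuous fun x => fderiv ℝ F x w := fun w =>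
    hF'.clm_apply continuous_const
  have h1 : ∀ z, fib (fun x => fderiv ℝ F x u) z = fderiv ℝ (mean F) z u.2 := by
    intro z
    rw [fib_eq_mean, fderiv_mean F hF]
    have h2 : (fun x => fderiv ℝ F x u) =
        fun x => fderiv ℝ F x (u.1, 0) + fderiv ℝ F x (0, u.2) := by
      funext x
      rw [← map_add]
      congr 1
      ext <;> simp
    rw [h2, mean_add_fun _ _ (hc _) (hc _), mean_fderiv_vert F hF hper, zero_add]
  simp_rw [h1]
  have hM : ContDiff ℝ ∞ (mean F) := contDiff_mean F hF
  have hMs : HasCompactSupport (mean F) := by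
    refine HasCompactSupport.intro hK fun z hz => ?_
    refine mean_eq_zero fun v => ?_
    by_contra hne
    exact hz (hKF _ hne)
  have hMd : ∀ x, HasLineDerivAt ℝ (mean F) (fderiv ℝ (mean F) x u.2) x u.2 := fun x =>
    ((hM.differentiable (by simp)) x).hasFDerivAt.hasLineDerivAt u.2
  have h3 := integral_bilinear_hasLineDerivAt_right_eq_neg_left_of_integrable
    (μ := MeasureTheory.volume) (f := fun _ : R b => (1 : ℝ)) (f' := fun _ => (0 : ℝ))
    (g := mean F) (g' := fun x => fderiv ℝ (mean F) x u.2) (v := u.2)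
    (B := ContinuousLinearMap.mul ℝ ℝ) (by simp)
    (by
      simp only [ContinuousLinearMap.mul_apply', one_mul]
      refine Continuous.integrable_of_hasCompactSupport ?_ ?_
      · exact (hM.continuous_fderiv (by simp)).clm_apply continuous_const
      · exact hMs.fderiv_apply (𝕜 := ℝ) u.2)
    (by
      simp only [ContinuousLinearMap.mul_apply', one_mul]
      exact hM.continuous.integrable_of_hasCompactSupport hMs)
    (fun x _ => by
      have := (hasFDerivAt_const (𝕜 := ℝ) (1 : ℝ) x).hasLineDerivAt u.2
      simpa using this)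
    (fun x _ => hMd x)
  simpa using h3

/-- Change of variables `z ↦ g • z` in an oriented situation: here `F` is a function on `ℝ^b`. -/
theorem integral_smul (hB : IsBase b G) (g : G)
    (F : R b → ℝ) :
    ∫ z, |(fderiv ℝ (fun z : R b => g • z) z).det| * F (g • z) = ∫ z, F z := by
  have h := MeasureTheory.integral_image_eq_integral_abs_det_fderiv_smul
    (μ := (MeasureTheory.volume : MeasureTheory.Measure (R b))) (s := Set.univ)
    (f := fun z : R b => g • z) (f' := fun z => fderiv ℝ (fun z : R b => g • z) z)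
    MeasurableSet.univ (fun z _ => (smul_hasFDerivAt hB g z).hasFDerivWithinAt)
    ((MulAction.injective g).injOn) F
  rw [Set.image_univ, (MulAction.surjective g).range_eq] at h
  simpa using h.symm

/-- Change of variables `φ g`. -/
theorem integral_φ (X : Bundle k b G) (hB : IsBase b G) (hX : X.Oriented) (g : G) (F : V k b → ℝ)
    (hF : Continuous F) (hper : Per F) :
    ∫ z, fib (fun x => (fderiv ℝ (X.φ g) x).det * F (X.φ g x)) z = ∫ z, fib F z := by
  have h1 : ∀ z, fib (fun x => (fderiv ℝ (X.φ g) x).det * F (X.φ g x)) z =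
      |(fderiv ℝ (fun z : R b => g • z) z).det| * fib F (g • z) := by
    intro z
    rw [fib_eq_mean, fib_eq_mean]
    have h2 : (fun x : V k b => (fderiv ℝ (X.φ g) x).det * F (X.φ g x)) =
        fun x => (fun z : R b => |(fderiv ℝ (fun z : R b => g • z) z).det|) x.2 •
          (fun x => F (X.φ g x)) x := by
      funext x
      have h3 := hX g x
      rw [smul_eq_mul]
      congr 1
      rw [← abs_of_pos h3, X.det_fderiv_φ hB, abs_mul, X.abs_det_L, one_mul]
    rw [h2]
    refine (mean_smul_snd (fun z : R b => |(fderiv ℝ (fun z : R b => g • z) z).det|)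
      (fun x => F (X.φ g x)) z).trans ?_
    rw [X.mean_comp_φ F hF hper, smul_eq_mul]
  simp_rw [h1]
  exact integral_smul hB g (fib F)

/-- Unfolding on `M`: for a partition of unity `χ` and a periodic function `Ψ` with compact support
in the direction of the base, the integral of `Ψ` is the integral of `χ` times the sum of the
transforms of `Ψ`. Proof: insert `∑ g, χ (g • z) = 1` (only finitely many `g` matter on the support
of `Ψ`), use `integral_φ` for `g⁻¹` in every term, and reindex. -/
theorem unfold (X : Bundle k b G) (hB : IsBase b G) (hX : X.Oriented) {χ : R b → ℝ}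
    (hχ : IsPart G χ) (Ψ : V k b → ℝ) (hΨ : Continuous Ψ) (hper : Per Ψ)
    (hs : ∃ K : Set (R b), IsCompact K ∧ ∀ x, Ψ x ≠ 0 → x.2 ∈ K) :
    ∫ z, fib Ψ z =
      ∫ z, χ z * fib (fun x => ∑ᶠ g : G, (fderiv ℝ (X.φ g) x).det * Ψ (X.φ g x)) z := by
  classical
  obtain ⟨K, hK, hKΨ⟩ := hs
  have hfin : {g : G | ∃ z ∈ tsupport χ, g • z ∈ K}.Finite :=
    hB.finite K (tsupport χ) hK hχ.compact
  have hφc : ∀ g, Continuous (X.φ g) := fun g => (X.contDiff_φ hB g).continuous
  have hsm : ∀ g : G, Continuous fun z : R b => g • z := fun g => (hB.smooth g).continuous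
  have hdc : ∀ g, Continuous fun x => (fderiv ℝ (X.φ g) x).det := fun g =>
    ContinuousLinearMap.continuous_det.comp ((X.contDiff_φ hB g).continuous_fderiv (by simp))
  have hterm : ∀ g, Continuous fun x : V k b => (fderiv ℝ (X.φ g) x).det * Ψ (X.φ g x) := fun g =>
    (hdc g).mul (hΨ.comp (hφc g))
  -- the right hand side is a finite sum
  have h1 : ∀ z, χ z * fib (fun x => ∑ᶠ g : G, (fderiv ℝ (X.φ g) x).det * Ψ (X.φ g x)) z =
      ∑ g ∈ hfin.toFinset,
        fib (fun x => (fderiv ℝ (X.φ g) x).det * (χ (g⁻¹ • (X.φ g x).2) * Ψ (X.φ g x))) z := by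
    intro z
    by_cases hz : z ∈ tsupport χ
    · have h2 : fib (fun x => ∑ᶠ g : G, (fderiv ℝ (X.φ g) x).det * Ψ (X.φ g x)) z =
          mean (fun x => ∑ g ∈ hfin.toFinset, (fderiv ℝ (X.φ g) x).det * Ψ (X.φ g x)) z := by
        rw [fib_eq_mean]
        refine mean_congr fun v => ?_
        refine finsum_eq_sum_of_support_subset _ fun g hg => ?_
        rw [Function.mem_support] at hg
        have h3 : Ψ (X.φ g (v, z)) ≠ 0 := right_ne_zero_of_mul hg
        simp only [Set.Finite.coe_toFinset, Set.mem_ofPred_eq]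
        exact ⟨z, hz, hKΨ _ h3⟩
      rw [h2, mean_sum _ _ (fun g _ => hterm g), Finset.mul_sum]
      refine Finset.sum_congr rfl fun g _ => ?_
      rw [fib_eq_mean]
      have h4 : (fun x : V k b =>
          (fderiv ℝ (X.φ g) x).det * (χ (g⁻¹ • (X.φ g x).2) * Ψ (X.φ g x))) =
          fun x => χ x.2 • ((fun x => (fderiv ℝ (X.φ g) x).det * Ψ (X.φ g x)) x) := by
        funext x
        have h5 : g⁻¹ • (X.φ g x).2 = x.2 := by
          change g⁻¹ • g • x.2 = x.2
          exact inv_smul_smul g x.2
        rw [h5, smul_eq_mul]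
        ring
      rw [h4, mean_smul_snd, smul_eq_mul]
    · have h6 : χ z = 0 := image_eq_zero_of_notMem_tsupport hz
      rw [h6, zero_mul]
      symm
      refine Finset.sum_eq_zero fun g _ => ?_
      rw [fib_eq_mean]
      refine mean_eq_zero fun v => ?_
      have h5 : g⁻¹ • (X.φ g (v, z)).2 = z := by
        change g⁻¹ • g • z = z
        exact inv_smul_smul g z
      rw [h5, h6]
      ring
  simp_rw [h1]
  have hχc : Continuous χ := hχ.smooth.continuous
  have hFg : ∀ g : G, Continuous fun x : V k b => χ (g⁻¹ • x.2) * Ψ x := fun g =>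
    (hχc.comp ((hsm g⁻¹).comp continuous_snd)).mul hΨ
  have hFper : ∀ g : G, Per fun x : V k b => χ (g⁻¹ • x.2) * Ψ x := by
    intro g m v z
    change χ (g⁻¹ • z) * Ψ (v + intV m, z) = χ (g⁻¹ • z) * Ψ (v, z)
    rw [hper m v z]
  rw [MeasureTheory.integral_finsetSum]
  · have h7 : ∀ g : G, ∫ z, fib (fun x =>
        (fderiv ℝ (X.φ g) x).det * (χ (g⁻¹ • (X.φ g x).2) * Ψ (X.φ g x))) z =
        ∫ z, fib (fun x : V k b => χ (g⁻¹ • x.2) * Ψ x) z := fun g =>
      integral_φ X hB hX g (fun x : V k b => χ (g⁻¹ • x.2) * Ψ x) (hFg g) (hFper g)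
    simp_rw [h7]
    rw [← MeasureTheory.integral_finsetSum]
    · congr 1
      funext z
      by_cases hz : z ∈ K
      · have h8 : ∑ g ∈ hfin.toFinset, χ (g⁻¹ • z) = 1 := by
          have h9 : ∑ᶠ g : G, χ (g⁻¹ • z) = ∑ᶠ g : G, χ (g • z) :=
            finsum_comp_equiv (Equiv.inv G) (f := fun g : G => χ (g • z))
          rw [← hχ.sum z, ← h9]
          symm
          refine finsum_eq_sum_of_support_subset _ fun g hg => ?_
          rw [Function.mem_support] at hg
          simp only [Set.Finite.coe_toFinset, Set.mem_ofPred_eq]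
          exact ⟨g⁻¹ • z, subset_tsupport _ hg, by rwa [smul_inv_smul]⟩
        have h10 : ∀ g : G, fib (fun x : V k b => χ (g⁻¹ • x.2) * Ψ x) z =
            χ (g⁻¹ • z) * fib Ψ z := by
          intro g
          rw [fib_eq_mean, fib_eq_mean]
          exact mean_smul_snd (fun z => χ (g⁻¹ • z)) Ψ z
        simp_rw [h10]
        rw [← Finset.sum_mul, h8, one_mul]
      · have h11 : ∀ v, Ψ (v, z) = 0 := by
          intro v
          by_contra hne
          exact hz (hKΨ _ hne)
        rw [fib_eq_mean, mean_eq_zero h11]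
        symm
        refine Finset.sum_eq_zero fun g _ => ?_
        rw [fib_eq_mean]
        refine mean_eq_zero fun v => ?_
        rw [h11 v, mul_zero]
    · intro g _
      refine (continuous_mean _ (hFg g)).integrable_of_hasCompactSupport ?_
      refine HasCompactSupport.intro hK fun z hz => ?_
      refine mean_eq_zero fun v => ?_
      by_contra hne
      exact hz (hKΨ _ (right_ne_zero_of_mul hne))
  · intro g _
    refine (continuous_mean _ ((hdc g).mul ((hFg g).comp (hφc g)))).integrable_of_hasCompactSupport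
      ?_
    refine HasCompactSupport.intro hχ.compact fun z hz => ?_
    refine mean_eq_zero fun v => ?_
    have h5 : g⁻¹ • (X.φ g (v, z)).2 = z := by
      change g⁻¹ • g • z = z
      exact inv_smul_smul g z
    change (fderiv ℝ (X.φ g) (v, z)).det * (χ (g⁻¹ • (X.φ g (v, z)).2) * Ψ (X.φ g (v, z))) = 0
    rw [h5, image_eq_zero_of_notMem_tsupport hz]
    ring

/-- An invariant density: `F (φ g x) * det = F x`. Its integral does not depend on the partition of
unity (apply `unfold` to `Ψ x = χ' x.2 * F x`). -/
theorem integral_part_eq (X : Bundle k b G) (hB : IsBase b G) (hX : X.Oriented) {χ χ' : R b → ℝ}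
    (hχ : IsPart G χ) (hχ' : IsPart G χ') (F : V k b → ℝ) (hF : Continuous F) (hper : Per F)
    (hinv : ∀ g x, (fderiv ℝ (X.φ g) x).det * F (X.φ g x) = F x) :
    ∫ z, χ' z * fib F z = ∫ z, χ z * fib F z := by
  have h1 := unfold X hB hX hχ (fun x => χ' x.2 * F x)
    ((hχ'.smooth.continuous.comp continuous_snd).mul hF)
    (by
      intro m v z
      change χ' z * F (v + intV m, z) = χ' z * F (v, z)
      rw [hper m v z])
    ⟨tsupport χ', hχ'.compact, fun x hx => subset_tsupport _ (left_ne_zero_of_mul hx)⟩
  have h2 : ∀ z, fib (fun x : V k b => χ' x.2 * F x) z = χ' z * fib F z := by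
    intro z
    rw [fib_eq_mean, fib_eq_mean]
    exact mean_smul_snd χ' F z
  have h3 : (fun x : V k b => ∑ᶠ g : G,
      (fderiv ℝ (X.φ g) x).det * (χ' (X.φ g x).2 * F (X.φ g x))) = F := by
    funext x
    have h4 : ∀ g : G, (fderiv ℝ (X.φ g) x).det * (χ' (X.φ g x).2 * F (X.φ g x)) =
        χ' (g • x.2) * F x := by
      intro g
      have h5 := hinv g x
      change (fderiv ℝ (X.φ g) x).det * (χ' (g • x.2) * F (X.φ g x)) = χ' (g • x.2) * F x
      rw [← h5]
      ring
    simp_rw [h4]
    rw [← finsum_mul' , hχ'.sum, one_mul]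
    have h6 := hB.finite (tsupport χ') {x.2} hχ'.compact isCompact_singleton
    refine h6.subset fun g hg => ?_
    exact ⟨x.2, rfl, subset_tsupport _ hg⟩
  simp_rw [h2] at h1
  rw [h1, h3]

/-- The analogue on the base. -/
theorem integral_part_eq_base (hB : IsBase b G) (hG : Oriented b G) {χ χ' : R b → ℝ}
    (hχ : IsPart G χ) (hχ' : IsPart G χ') (F : R b → ℝ) (hF : Continuous F)
    (hinv : ∀ (g : G) z, (fderiv ℝ (fun z : R b => g • z) z).det * F (g • z) = F z) :
    ∫ z, χ' z * F z = ∫ z, χ z * F z := by
  let X : Bundle 0 b G :=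
    { A := 1
      τ := fun _ _ => 0
      smooth := fun _ => contDiff_const
      cocycle := fun _ _ _ => ⟨0, Subsingleton.elim _ _⟩ }
  have hL : ∀ g, (X.L g).det = 1 := by
    intro g
    have h1 : X.L g = ContinuousLinearMap.id ℝ (R 0) := by
      ext x i
      exact i.elim0
    rw [h1]
    exact LinearMap.det_id
  have hX : X.Oriented := by
    intro g x
    rw [X.det_fderiv_φ hB, hL, one_mul]
    exact hG g x.2
  have h2 := integral_part_eq X hB hX hχ hχ' (fun x => F x.2) (hF.comp continuous_snd)
    (fun _ _ _ => rfl)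
    (by
      intro g x
      rw [X.det_fderiv_φ hB, hL, one_mul]
      exact hinv g x.2)
  have h3 : ∀ z, fib (fun x : V 0 b => F x.2) z = F z := fun z => by
    rw [fib_eq_mean]
    exact mean_snd F z
  simp_rw [h3] at h2
  exact h2

end Pool.Agent.W_9986fc_h15
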