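import Pool.Agent.W_9986fc_h15.SurfA
import Pool.Agent.W_9986fc_h15.IBP

/-!
Surfaces: invariant area forms on `ℝ²` with the same integral differ by the differential of an
invariant 1-form.
-/

set_option autoImplicit false
set_option maxSynthPendingDepth 3

open scoped ContDiff Matrix

namespace Pool.Agent.W_9986fc_h15

/-- The area form of `ℝ²`. -/
noncomputable def area : R 2 →L[ℝ] R 2 →L[ℝ] ℝ :=
  wedge (ContinuousLinearMap.proj 0) (ContinuousLinearMap.proj 1)

theorem area_apply (u w : R 2) : area u w = u 0 * w 1 - u 1 * w 0 := by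
  simp [area, wedge]

theorem vec_two (u : R 2) : u = u 0 • stdR 0 + u 1 • stdR 1 := by
  ext i
  fin_cases i <;> simp [stdR]

theorem det_two (P : R 2 →L[ℝ] R 2) :
    P.det = P (stdR 0) 0 * P (stdR 1) 1 - P (stdR 0) 1 * P (stdR 1) 0 := by
  have h : P.det = (LinearMap.toMatrix' (P : R 2 →ₗ[ℝ] R 2)).det := by
    rw [LinearMap.det_toMatrix']
  rw [h, Matrix.det_fin_two]
  simp only [LinearMap.toMatrix'_apply]
  have e : ∀ i : Fin 2, (Pi.single i 1 : R 2) = stdR i := fun i => rfl
  simp only [e, ContinuousLinearMap.coe_coe]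
  ring

theorem area_bilinearComp (P : R 2 →L[ℝ] R 2) (u w : R 2) :
    area (P u) (P w) = P.det * area u w := by
  rw [det_two]
  conv_lhs => rw [vec_two u, vec_two w]
  simp only [map_add, map_smul, add_apply, smul_apply, area_apply, smul_eq_mul]
  ring

/-- Alternating forms on `ℝ²` are multiples of the area form. -/
theorem eq_area (q : R 2 →L[ℝ] R 2 →L[ℝ] ℝ) (hq : ∀ u, q u u = 0) :
    q = q (stdR 0) (stdR 1) • area := by
  have h10 : q (stdR 1) (stdR 0) = - q (stdR 0) (stdR 1) := by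
    have h := hq (stdR 0 + stdR 1)
    simp only [map_add, add_apply, hq] at h
    linarith
  ext u w
  conv_lhs => rw [vec_two u, vec_two w]
  simp only [map_add, map_smul, add_apply, smul_apply,
    smul_eq_mul, area_apply, hq, h10]
  ring

/-- Every 2-form on `ℝ²` is closed. -/
theorem closed_two (α : R 2 → R 2 →L[ℝ] R 2 →L[ℝ] ℝ) (hα : IsForm α) : Closed α := by
  intro x u v w
  have hf : HasFDerivAt (fun z => α z (stdR 0) (stdR 1))
      ((((ContinuousLinearMap.apply ℝ ℝ (stdR 1 : R 2)).comp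
        (ContinuousLinearMap.apply ℝ (R 2 →L[ℝ] ℝ) (stdR 0 : R 2)))).comp (fderiv ℝ α x)) x := by
    have h1 : HasFDerivAt α (fderiv ℝ α x) x :=
      ((hα.smooth.differentiable (by simp)) x).hasFDerivAt
    exact ((((ContinuousLinearMap.apply ℝ ℝ (stdR 1 : R 2)).comp
        (ContinuousLinearMap.apply ℝ (R 2 →L[ℝ] ℝ) (stdR 0 : R 2)))).hasFDerivAt).comp x h1
  have h2 : α = fun z => α z (stdR 0) (stdR 1) • area := by
    funext z
    exact eq_area (α z) (hα.alt z)
  have h3 := hf.smul_const area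
  obtain ⟨D, hD⟩ : ∃ D : R 2 →L[ℝ] ℝ, D = (((ContinuousLinearMap.apply ℝ ℝ (stdR 1 : R 2)).comp
        (ContinuousLinearMap.apply ℝ (R 2 →L[ℝ] ℝ) (stdR 0 : R 2)))).comp (fderiv ℝ α x) :=
    ⟨_, rfl⟩
  rw [← hD] at h3
  have h4 : fderiv ℝ α x = D.smulRight area := by
    conv_lhs => rw [h2]
    exact h3.fderiv
  rw [h4]
  simp only [ContinuousLinearMap.smulRight_apply, smul_apply, smul_eq_mul,
    area_apply]
  have e : ∀ u : R 2, D u = u 0 * D (stdR 0) + u 1 * D (stdR 1) := by
    intro u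
    conv_lhs => rw [vec_two u]
    simp
  rw [e u, e v, e w]
  ring

/-- An orientation `π : Fin m × Fin 2 ≃ Fin 2` of the plane is a sign: `m = 1` and
`top q = 2 * ε * q (stdR 0) (stdR 1)` with `ε = ±1`. -/
theorem top_two {m : ℕ} (π : Fin m × Fin 2 ≃ Fin 2) : ∃ ε : ℝ, (ε = 1 ∨ ε = -1) ∧
    ∀ q : R 2 →L[ℝ] R 2 →L[ℝ] ℝ, (∀ u, q u u = 0) →
      top (fun i => stdR (π i)) q = 2 * ε * q (stdR 0) (stdR 1) := by
  have hm : m = 1 := by
    have h := Fintype.card_congr π
    simp at h
    omega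
  subst hm
  have hu : (Finset.univ : Finset (Equiv.Perm (Fin 1 × Fin 2))) =
      {1, Equiv.swap (0, 0) (0, 1)} := by decide
  have hkey : ∀ q : R 2 →L[ℝ] R 2 →L[ℝ] ℝ, top (fun i => stdR (π i)) q =
      q (stdR (π (0, 0))) (stdR (π (0, 1))) - q (stdR (π (0, 1))) (stdR (π (0, 0))) := by
    intro q
    unfold top
    rw [hu, Finset.sum_insert (by decide), Finset.sum_singleton]
    simp
    ring
  have hne : π (0, 0) ≠ π (0, 1) := by
    intro h
    have := π.injective h
    simp at this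
  have hcase : (π (0, 0) = 0 ∧ π (0, 1) = 1) ∨ (π (0, 0) = 1 ∧ π (0, 1) = 0) := by
    revert hne
    generalize π (0, 0) = a
    generalize π (0, 1) = b
    fin_cases a <;> fin_cases b <;> simp
  have h10 : ∀ q : R 2 →L[ℝ] R 2 →L[ℝ] ℝ, (∀ u, q u u = 0) →
      q (stdR 1) (stdR 0) = - q (stdR 0) (stdR 1) := by
    intro q hq
    have h := hq (stdR 0 + stdR 1)
    simp only [map_add, add_apply, hq] at h
    linarith
  rcases hcase with ⟨ha, hb⟩ | ⟨ha, hb⟩
  · refine ⟨1, Or.inl rfl, fun q hq => ?_⟩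
    rw [hkey, ha, hb, h10 q hq]
    ring
  · refine ⟨-1, Or.inr rfl, fun q hq => ?_⟩
    rw [hkey, ha, hb, h10 q hq]
    ring

variable {G : Type} [Group G] [MulAction G (R 2)]

/-- `f • area` is an invariant form if and only if `f` is an invariant density. -/
theorem binv2_area (f : R 2 → ℝ) (hf : ContDiff ℝ ∞ f)
    (hinv : ∀ (g : G) z, (fderiv ℝ (fun z : R 2 => g • z) z).det * f (g • z) = f z) :
    BInv2 G (fun z => f z • area) := by
  refine ⟨⟨hf.smul contDiff_const, fun x u => ?_⟩, fun g z => ?_⟩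
  · simp only [smul_apply, area_apply, smul_eq_mul]
    ring
  · ext u w
    simp only [pull2, ContinuousLinearMap.bilinearComp_apply, smul_apply,
      smul_eq_mul]
    rw [area_bilinearComp, ← hinv g z]
    ring

theorem inv_of_binv2 (α : R 2 → R 2 →L[ℝ] R 2 →L[ℝ] ℝ) (hα : BInv2 G α) (g : G) (z : R 2) :
    (fderiv ℝ (fun z : R 2 => g • z) z).det * α (g • z) (stdR 0) (stdR 1) =
      α z (stdR 0) (stdR 1) := by
  have h := congrArg (fun q : R 2 →L[ℝ] R 2 →L[ℝ] ℝ => q (stdR 0) (stdR 1)) (hα.invariant g z)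
  simp only [pull2, ContinuousLinearMap.bilinearComp_apply] at h
  rw [eq_area (α (g • z)) (hα.alt _)] at h
  simp only [smul_apply, smul_eq_mul] at h
  rw [area_bilinearComp] at h
  have h1 : area (stdR 0) (stdR 1) = 1 := by
    rw [area_apply]
    simp [stdR]
  rw [h1] at h
  rw [← h]
  ring


/-- There is a positive invariant density: `s z = ∑ᶠ g, ψ (g • z) * det D g z` with `ψ` from
`exists_cutoff`. Its integral is positive (use `integral_part_eq_base` and the nonnegative partition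
of unity of `exists_isPart`). -/
theorem exists_density (hB : IsBase 2 G) (hG : Oriented 2 G) : ∃ s : R 2 → ℝ, ContDiff ℝ ∞ s ∧
    (∀ z, 0 < s z) ∧
    (∀ (g : G) z, (fderiv ℝ (fun z : R 2 => g • z) z).det * s (g • z) = s z) ∧
    ∀ χ : R 2 → ℝ, IsPart G χ → 0 < ∫ z, χ z * s z := by
  obtain ⟨ψ, hψ, hψc, hψ0, hψ1⟩ := exists_cutoff hB
  have hcs : CSup G (fun z : R 2 => z) (fun (g : G) (z : R 2) =>
      ψ (g • z) * (fderiv ℝ (fun z : R 2 => g • z) z).det) := by
    refine csup_of_cutoff hψc fun g y h => ?_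
    simp only [h, zero_mul]
  have hdet : ∀ g : G, ContDiff ℝ ∞ fun z : R 2 => (fderiv ℝ (fun z : R 2 => g • z) z).det := by
    intro g
    have h1 : ContDiff ℝ ∞ (fderiv ℝ (fun z : R 2 => g • z)) :=
      (hB.smooth g).fderiv_right (by simp)
    have h2 : ∀ (e : R 2) (i : Fin 2), ContDiff ℝ ∞
        fun z : R 2 => fderiv ℝ (fun z : R 2 => g • z) z e i := by
      intro e i
      have h3 : ContDiff ℝ ∞ fun z : R 2 => fderiv ℝ (fun z : R 2 => g • z) z e :=
        h1.clm_apply contDiff_const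
      exact (contDiff_pi.1 h3) i
    simp only [det_two]
    exact ((h2 _ _).mul (h2 _ _)).sub ((h2 _ _).mul (h2 _ _))
  have hsm : ∀ g : G, ContDiff ℝ ∞ fun z : R 2 =>
      ψ (g • z) * (fderiv ℝ (fun z : R 2 => g • z) z).det :=
    fun g => (hψ.comp (hB.smooth g)).mul (hdet g)
  have hs := CSup.contDiff hB continuous_id hcs hsm
  have hpos : ∀ z : R 2, 0 < ∑ᶠ g : G, ψ (g • z) * (fderiv ℝ (fun z : R 2 => g • z) z).det := by
    intro z
    obtain ⟨g, hg⟩ := hψ1 z
    have hfin := CSup.finite hB hcs z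
    have hnn : ∀ g : G, 0 ≤ ψ (g • z) * (fderiv ℝ (fun z : R 2 => g • z) z).det :=
      fun g => mul_nonneg (hψ0 _) (hG g z).le
    exact finsum_pos hnn ⟨g, mul_pos hg (hG g z)⟩ hfin
  have hinv : ∀ (h : G) (z : R 2), (fderiv ℝ (fun z : R 2 => h • z) z).det *
      (∑ᶠ g : G, ψ (g • h • z) * (fderiv ℝ (fun z : R 2 => g • z) (h • z)).det) =
      ∑ᶠ g : G, ψ (g • z) * (fderiv ℝ (fun z : R 2 => g • z) z).det := by
    intro h z
    rw [← finsum_mul_right (fun g : G => ψ (g • z) * (fderiv ℝ (fun z : R 2 => g • z) z).det) h]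
    rw [mul_finsum]
    refine finsum_congr fun g => ?_
    rw [fderiv_smul_mul hB, mul_smul]
    have : ((fderiv ℝ (fun z : R 2 => g • z) (h • z)).comp
        (fderiv ℝ (fun z : R 2 => h • z) z)).det =
        (fderiv ℝ (fun z : R 2 => g • z) (h • z)).det *
        (fderiv ℝ (fun z : R 2 => h • z) z).det := by
      exact LinearMap.det_comp _ _
    rw [this]
    ring
  refine ⟨fun z => ∑ᶠ g : G, ψ (g • z) * (fderiv ℝ (fun z : R 2 => g • z) z).det, hs, hpos, hinv,
    fun χ hχ => ?_⟩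
  obtain ⟨χ', hχ', hχ0⟩ := exists_isPart hB
  rw [← integral_part_eq_base hB hG hχ hχ' _ hs.continuous hinv]
  obtain ⟨g, hg⟩ : ∃ g : G, χ' (g • (0 : R 2)) ≠ 0 := by
    by_contra hcon
    push Not at hcon
    have h1 := hχ'.sum 0
    simp only [hcon, finsum_zero] at h1
    exact zero_ne_one h1
  refine Continuous.integral_pos_of_hasCompactSupport_nonneg_nonzero
    (hχ'.smooth.continuous.mul hs.continuous) (hχ'.compact.mul_right)
    (fun z => mul_nonneg (hχ0 z) (hpos z).le) (x := g • (0 : R 2)) ?_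
  exact mul_ne_zero hg (hpos _).ne'

theorem fderiv_clm_comp_apply {E : Type*} [NormedAddCommGroup E] [NormedSpace ℝ E]
    (φ : E → E) (hφ : ContDiff ℝ ∞ φ) (η : E → E →L[ℝ] ℝ) (hη : ContDiff ℝ ∞ η) (x u w : E) :
    fderiv ℝ (pull1 φ η) x u w = fderiv ℝ η (φ x) (fderiv ℝ φ x u) (fderiv ℝ φ x w) +
      η (φ x) (fderiv ℝ (fderiv ℝ φ) x u w) := by
  have hφ1 : HasFDerivAt φ (fderiv ℝ φ x) x := (hφ.differentiable (by simp) x).hasFDerivAt
  have hη1 : HasFDerivAt η (fderiv ℝ η (φ x)) (φ x) :=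
    (hη.differentiable (by simp) (φ x)).hasFDerivAt
  have hφ2 : HasFDerivAt (fderiv ℝ φ) (fderiv ℝ (fderiv ℝ φ) x) x :=
    (((hφ.fderiv_right (m := ∞) (by simp)).differentiable (by simp)) x).hasFDerivAt
  have h := (hη1.comp x hφ1).clm_comp hφ2
  have h2 : HasFDerivAt (pull1 φ η) _ x := h
  rw [h2.fderiv]
  simp
  ring

theorem d1_pull1_gen {E : Type*} [NormedAddCommGroup E] [NormedSpace ℝ E]
    (φ : E → E) (hφ : ContDiff ℝ ∞ φ) (η : E → E →L[ℝ] ℝ) (hη : ContDiff ℝ ∞ η) (x : E) :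
    d1 (pull1 φ η) x = pull2 φ (d1 η) x := by
  ext u w
  have hsymm : fderiv ℝ (fderiv ℝ φ) x u w = fderiv ℝ (fderiv ℝ φ) x w u := by
    have h1 : IsSymmSndFDerivAt ℝ φ x :=
      (hφ.contDiffAt).isSymmSndFDerivAt (by
        simp only [minSmoothness_of_isRCLikeNormedField]
        exact WithTop.coe_le_coe.2 (le_top : (2 : ℕ∞) ≤ ⊤))
    exact h1 u w
  simp only [d1, pull2, sub_apply, ContinuousLinearMap.flip_apply,
    ContinuousLinearMap.bilinearComp_apply, fderiv_clm_comp_apply φ hφ η hη, hsymm]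
  ring

/-- The sum over the group of the pullbacks of a compactly supported 1-form `μ` is an invariant
1-form, and its differential is the sum of the pullbacks of `d1 μ`. -/
theorem exists_sum_pull1 {b : ℕ} {G : Type} [Group G] [MulAction G (R b)] (hB : IsBase b G)
    (μ : R b → R b →L[ℝ] ℝ) (hμ : ContDiff ℝ ∞ μ) (hs : HasCompactSupport μ) :
    ∃ η : R b → R b →L[ℝ] ℝ, BInv1 G η ∧
      ∀ z u w, d1 η z u w = ∑ᶠ g : G, pull2 (fun z : R b => g • z) (d1 μ) z u w := by
  have hcs : CSup G (fun z : R b => z) (fun (g : G) (z : R b) =>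
      pull1 (fun z : R b => g • z) μ z) := by
    refine ⟨tsupport μ, hs, fun g y h => ?_⟩
    by_contra hcon
    apply h
    have h0 : μ (g • y) = 0 := image_eq_zero_of_notMem_tsupport hcon
    simp only [pull1, h0, ContinuousLinearMap.zero_comp]
  have hsm : ∀ g : G, ContDiff ℝ ∞ (pull1 (fun z : R b => g • z) μ) := by
    intro g
    exact (hμ.comp (hB.smooth g)).clm_comp ((hB.smooth g).fderiv_right (by simp))
  have hη := CSup.contDiff hB continuous_id hcs hsm
  refine ⟨fun z => ∑ᶠ g : G, pull1 (fun z : R b => g • z) μ z, ⟨hη, fun h z => ?_⟩,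
    fun z u w => ?_⟩
  · have hT : ∀ y : R b →L[ℝ] ℝ, y.comp (fderiv ℝ (fun z : R b => h • z) z) =
        ((ContinuousLinearMap.compL ℝ (R b) (R b) ℝ).flip
          (fderiv ℝ (fun z : R b => h • z) z) : (R b →L[ℝ] ℝ) →ₗ[ℝ] (R b →L[ℝ] ℝ)) y :=
      fun y => rfl
    rw [← finsum_mul_right (fun g : G => pull1 (fun z : R b => g • z) μ z) h]
    simp only [pull1]
    rw [hT]
    have h2 := CSup.clm hB hcs ((ContinuousLinearMap.compL ℝ (R b) (R b) ℝ).flip
          (fderiv ℝ (fun z : R b => h • z) z) : (R b →L[ℝ] ℝ) →ₗ[ℝ] (R b →L[ℝ] ℝ)) (h • z)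
    simp only [pull1] at h2
    rw [h2]
    refine finsum_congr fun g => ?_
    rw [← hT, fderiv_smul_mul hB, mul_smul]
    rfl
  · have hcd := CSup.sup_fderiv hB continuous_id hcs
    have h1 := CSup.fderiv_sum hB continuous_id hcs hsm z
    have h3 : d1 (fun z => ∑ᶠ g : G, pull1 (fun z : R b => g • z) μ z) z u w =
        fderiv ℝ (fun z => ∑ᶠ g : G, pull1 (fun z : R b => g • z) μ z) z u w -
        fderiv ℝ (fun z => ∑ᶠ g : G, pull1 (fun z : R b => g • z) μ z) z w u := rfl
    let T : (R b →L[ℝ] R b →L[ℝ] ℝ) →ₗ[ℝ] ℝ :=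
      { toFun := fun q => q u w - q w u
        map_add' := fun q q' => by simp only [add_apply]; ring
        map_smul' := fun c q => by
          simp only [smul_apply, smul_eq_mul, RingHom.id_apply]; ring }
    have h4 := CSup.clm hB hcd T z
    rw [h3, h1]
    calc _ = T (∑ᶠ g : G, fderiv ℝ (fun z => pull1 (fun z : R b => g • z) μ z) z) := rfl
      _ = ∑ᶠ g : G, T (fderiv ℝ (fun z => pull1 (fun z : R b => g • z) μ z) z) := h4
      _ = _ := by
        refine finsum_congr fun g => ?_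
        rw [← d1_pull1_gen (fun z : R b => g • z) (hB.smooth g) μ hμ z]
        rfl

/-- Invariant densities with integral zero are exact: with `exists_primitive_compact` for `χ • f`
(its integral is zero) and `μ z u = Q z * u 1 - P z * u 0` one has `d1 μ = (χ * f) • area`; use
`exists_sum_pull1`. -/
theorem exists_exact (hB : IsBase 2 G) {χ : R 2 → ℝ} (hχ : IsPart G χ) (f : R 2 → ℝ)
    (hf : ContDiff ℝ ∞ f)
    (hinv : ∀ (g : G) z, (fderiv ℝ (fun z : R 2 => g • z) z).det * f (g • z) = f z)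
    (h0 : ∫ z, χ z * f z = 0) :
    ∃ η : R 2 → R 2 →L[ℝ] ℝ, BInv1 G η ∧ ∀ z, d1 η z = f z • area := by
  obtain ⟨P, Q, hP, hPc, hQ, hQc, hPQ⟩ := exists_primitive_compact (fun z => χ z * f z)
    (hχ.smooth.mul hf) (hχ.compact.mul_right) h0
  set μ : R 2 → R 2 →L[ℝ] ℝ := fun z =>
    Q z • (ContinuousLinearMap.proj 1 : R 2 →L[ℝ] ℝ) -
      P z • (ContinuousLinearMap.proj 0 : R 2 →L[ℝ] ℝ) with hμdef
  have hμ : ContDiff ℝ ∞ μ := (hQ.smul contDiff_const).sub (hP.smul contDiff_const)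
  have hμc : HasCompactSupport μ := by
    have h1 : HasCompactSupport fun z => Q z • (ContinuousLinearMap.proj 1 : R 2 →L[ℝ] ℝ) :=
      hQc.smul_right
    have h2 : HasCompactSupport fun z => P z • (ContinuousLinearMap.proj 0 : R 2 →L[ℝ] ℝ) :=
      hPc.smul_right
    exact h1.sub h2
  obtain ⟨η, hη, hd⟩ := exists_sum_pull1 (G := G) hB μ hμ hμc
  have hdμ : ∀ z, d1 μ z = (χ z * f z) • area := by
    intro z
    have hQ1 : HasFDerivAt Q (fderiv ℝ Q z) z := (hQ.differentiable (by simp) z).hasFDerivAt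
    have hP1 : HasFDerivAt P (fderiv ℝ P z) z := (hP.differentiable (by simp) z).hasFDerivAt
    have h1 := (hQ1.smul_const (ContinuousLinearMap.proj 1 : R 2 →L[ℝ] ℝ)).sub
      (hP1.smul_const (ContinuousLinearMap.proj 0 : R 2 →L[ℝ] ℝ))
    have h2 : fderiv ℝ μ z = _ := h1.fderiv
    have eQ : ∀ u : R 2, fderiv ℝ Q z u =
        u 0 * fderiv ℝ Q z (stdR 0) + u 1 * fderiv ℝ Q z (stdR 1) := by
      intro u
      conv_lhs => rw [vec_two u]
      simp
    have eP : ∀ u : R 2, fderiv ℝ P z u =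
        u 0 * fderiv ℝ P z (stdR 0) + u 1 * fderiv ℝ P z (stdR 1) := by
      intro u
      conv_lhs => rw [vec_two u]
      simp
    ext u w
    rw [← hPQ z]
    simp only [d1, h2, sub_apply, ContinuousLinearMap.flip_apply, smul_apply,
      ContinuousLinearMap.smulRight_apply, ContinuousLinearMap.proj_apply, smul_eq_mul, area_apply]
    rw [eQ u, eP u, eQ w, eP w]
    ring
  refine ⟨η, hη, fun z => ?_⟩
  ext u w
  rw [hd]
  have h5 : ∀ g : G, pull2 (fun z : R 2 => g • z) (d1 μ) z u w =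
      χ (g • z) * (f z * area u w) := by
    intro g
    simp only [pull2, ContinuousLinearMap.bilinearComp_apply]
    rw [hdμ]
    simp only [smul_apply, smul_eq_mul]
    rw [area_bilinearComp, ← hinv g z]
    ring
  simp only [h5]
  rw [← finsum_mul, hχ.sum z]
  simp [smul_eq_mul]

/-- Moser-type statement for surfaces: every class with nonzero integral contains an area form. With
`h z = α z (stdR 0) (stdR 1)`, `s` from `exists_density`, `t = (∫ χ h) / (∫ χ s)` apply
`exists_exact` to `f = t * s - h`. -/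
theorem strongB_two (hB : IsBase 2 G) (hG : Oriented 2 G) : StrongB 2 G := by
  intro m π χ α hχ hα _ hpos
  obtain ⟨ε, hε, htop⟩ := top_two π
  obtain ⟨s, hs, hs0, hsinv, hsint⟩ := exists_density hB hG
  have hh : ContDiff ℝ ∞ fun z => α z (stdR 0) (stdR 1) :=
    (hα.smooth.clm_apply contDiff_const).clm_apply contDiff_const
  have hS := hsint χ hχ
  obtain ⟨S, hSdef⟩ : ∃ S, S = ∫ z, χ z * s z := ⟨_, rfl⟩
  obtain ⟨c, hcdef⟩ : ∃ c, c = ∫ z, χ z * α z (stdR 0) (stdR 1) := ⟨_, rfl⟩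
  rw [← hSdef] at hS
  have hc : 0 < ε * c := by
    have h1 : ∀ z, χ z * top (fun i => stdR (π i)) (α z) =
        (2 * ε) * (χ z * α z (stdR 0) (stdR 1)) := by
      intro z
      rw [htop _ (hα.alt z)]
      ring
    simp only [h1] at hpos
    rw [MeasureTheory.integral_const_mul, ← hcdef] at hpos
    linarith
  have hi1 : MeasureTheory.Integrable fun z => χ z * s z :=
    (hχ.smooth.continuous.mul hs.continuous).integrable_of_hasCompactSupport
      (hχ.compact.mul_right)
  have hi2 : MeasureTheory.Integrable fun z => χ z * α z (stdR 0) (stdR 1) :=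
    (hχ.smooth.continuous.mul hh.continuous).integrable_of_hasCompactSupport
      (hχ.compact.mul_right)
  obtain ⟨η, hη, hd⟩ := exists_exact hB hχ (fun z => c / S * s z - α z (stdR 0) (stdR 1))
    ((contDiff_const.mul hs).sub hh)
    (by
      intro g z
      rw [mul_sub, inv_of_binv2 α hα g z, ← hsinv g z]
      ring)
    (by
      have h1 : ∀ z, χ z * (c / S * s z - α z (stdR 0) (stdR 1)) =
          c / S * (χ z * s z) - χ z * α z (stdR 0) (stdR 1) := fun z => by ring
      simp only [h1]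
      rw [MeasureTheory.integral_sub (hi1.const_mul _) hi2, MeasureTheory.integral_const_mul,
        ← hSdef, ← hcdef]
      field_simp
      ring)
  refine ⟨η, hη, fun z => ?_⟩
  have h1 : α z + d1 η z = (c / S * s z) • area := by
    have e := eq_area (α z) (hα.alt z)
    calc α z + d1 η z = (α z (stdR 0) (stdR 1)) • area +
          (c / S * s z - α z (stdR 0) (stdR 1)) • area := by rw [hd z, ← e]
      _ = (c / S * s z) • area := by
        rw [← add_smul]
        congr 1
        ring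
  rw [h1, htop _ (by
    intro u
    simp only [smul_apply, area_apply, smul_eq_mul]
    ring)]
  have h2 : area (stdR 0) (stdR 1) = 1 := by
    rw [area_apply]
    simp [stdR]
  simp only [smul_apply, h2, smul_eq_mul, mul_one]
  have h3 : 2 * ε * (c / S * s z) = 2 * (ε * c) * s z / S := by ring
  rw [h3]
  exact div_pos (mul_pos (mul_pos two_pos hc) (hs0 z)) hS

end Pool.Agent.W_9986fc_h15
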