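import Pool.Agent.W_9986fc_h15.AlgA

/-!
The pointwise identity behind the Stokes theorem for top powers.
-/

set_option autoImplicit false
set_option maxSynthPendingDepth 3

open scoped ContDiff Matrix

namespace Pool.Agent.W_9986fc_h15

variable {E : Type*} [NormedAddCommGroup E] [NormedSpace ℝ E] {n : ℕ}

theorem wedge_apply (a b : E →L[ℝ] ℝ) (u w : E) : wedge a b u w = a u * b w - b u * a w := by
  simp [wedge]

theorem d1_apply (η : E → E →L[ℝ] ℝ) (x u w : E) :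
    d1 η x u w = fderiv ℝ η x u w - fderiv ℝ η x w u := by
  simp [d1]

/-- The auxiliary function of the permutation `σ`. -/
noncomputable def hfun (e : Fin n × Fin 2 → E) (i : Fin n) (χ : E → ℝ) (η : E → E →L[ℝ] ℝ)
    (a : Fin n → E → E →L[ℝ] E →L[ℝ] ℝ) (σ : Equiv.Perm (Fin n × Fin 2)) (x : E) : ℝ :=
  χ x * η x (e (σ (i, 1))) * ∏ j ∈ Finset.univ.erase i, a j x (e (σ (j, 0))) (e (σ (j, 1)))

theorem Calc_deriv (e : Fin n × Fin 2 → E) (i : Fin n) (χ : E → ℝ) (η : E → E →L[ℝ] ℝ)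
    (a : Fin n → E → E →L[ℝ] E →L[ℝ] ℝ) (hχ : ContDiff ℝ ∞ χ) (hη : ContDiff ℝ ∞ η)
    (ha : ∀ j, j ≠ i → IsForm (a j)) (σ : Equiv.Perm (Fin n × Fin 2)) (x d : E) :
    fderiv ℝ (hfun e i χ η a σ) x d =
      fderiv ℝ χ x d * η x (e (σ (i, 1))) *
          ∏ j ∈ Finset.univ.erase i, a j x (e (σ (j, 0))) (e (σ (j, 1))) +
        χ x * fderiv ℝ η x d (e (σ (i, 1))) *
          ∏ j ∈ Finset.univ.erase i, a j x (e (σ (j, 0))) (e (σ (j, 1))) +
        ∑ j ∈ Finset.univ.erase i, χ x * η x (e (σ (i, 1))) *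
          (fderiv ℝ (a j) x d (e (σ (j, 0))) (e (σ (j, 1))) *
            ∏ l ∈ (Finset.univ.erase i).erase j, a l x (e (σ (l, 0))) (e (σ (l, 1)))) := by
  have h1 : HasFDerivAt χ (fderiv ℝ χ x) x :=
    ((hχ.differentiable (by simp)) x).hasFDerivAt
  have h2 : HasFDerivAt η (fderiv ℝ η x) x :=
    ((hη.differentiable (by simp)) x).hasFDerivAt
  have h2' : HasFDerivAt (fun y => η y (e (σ (i, 1))))
      ((ContinuousLinearMap.apply ℝ ℝ (e (σ (i, 1)))).comp (fderiv ℝ η x)) x :=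
    (ContinuousLinearMap.apply ℝ ℝ (e (σ (i, 1)))).hasFDerivAt.comp x h2
  have h3 : ∀ j ∈ Finset.univ.erase i,
      HasFDerivAt (fun y => a j y (e (σ (j, 0))) (e (σ (j, 1))))
      ((ContinuousLinearMap.apply ℝ ℝ (e (σ (j, 1)))).comp
        ((ContinuousLinearMap.apply ℝ (E →L[ℝ] ℝ) (e (σ (j, 0)))).comp (fderiv ℝ (a j) x))) x := by
    intro j hj
    have hja : HasFDerivAt (a j) (fderiv ℝ (a j) x) x :=
      (((ha j (Finset.ne_of_mem_erase hj)).smooth.differentiable (by simp)) x).hasFDerivAt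
    have h4 := (ContinuousLinearMap.apply ℝ (E →L[ℝ] ℝ) (e (σ (j, 0)))).hasFDerivAt.comp x hja
    exact (ContinuousLinearMap.apply ℝ ℝ (e (σ (j, 1)))).hasFDerivAt.comp x h4
  have h4 := HasFDerivAt.finsetProd h3
  have h5 := (h1.mul h2').mul h4
  have h6 : hfun e i χ η a σ = fun y => χ y * η y (e (σ (i, 1))) *
      ∏ j ∈ Finset.univ.erase i, a j y (e (σ (j, 0))) (e (σ (j, 1))) := rfl
  have h8 := HasFDerivAt.fderiv h5
  rw [h6]
  change fderiv ℝ (fun y => χ y * η y (e (σ (i, 1))) *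
      ∏ j ∈ Finset.univ.erase i, a j y (e (σ (j, 0))) (e (σ (j, 1)))) x = _ at h8
  rw [h8]
  simp only [Pi.mul_apply, _root_.add_apply, _root_.smul_apply,
    _root_.sum_apply, ContinuousLinearMap.comp_apply,
    ContinuousLinearMap.apply_apply, smul_eq_mul, Finset.mul_sum]
  rw [← sub_eq_zero]
  have h7 : ∀ j ∈ Finset.univ.erase i, χ x * η x (e (σ (i, 1))) *
      ((∏ l ∈ (Finset.univ.erase i).erase j, a l x (e (σ (l, 0))) (e (σ (l, 1)))) *
        fderiv ℝ (a j) x d (e (σ (j, 0))) (e (σ (j, 1)))) =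
      χ x * η x (e (σ (i, 1))) *
          (fderiv ℝ (a j) x d (e (σ (j, 0))) (e (σ (j, 1))) *
            ∏ l ∈ (Finset.univ.erase i).erase j, a l x (e (σ (l, 0))) (e (σ (l, 1)))) := by
    intro j _
    ring
  rw [Finset.sum_congr rfl h7]
  ring

/-- summation over all permutations composed with a fixed permutation of the positions -/
theorem Calc_reindex (c : Equiv.Perm (Fin n × Fin 2)) (f : Equiv.Perm (Fin n × Fin 2) → ℝ) :
    ∑ σ : Equiv.Perm (Fin n × Fin 2), f σ = ∑ σ : Equiv.Perm (Fin n × Fin 2), f (σ * c) :=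
  (Fintype.sum_equiv (Equiv.mulRight c) _ _ (fun _ => rfl)).symm

omit [NormedAddCommGroup E] [NormedSpace ℝ E] in
/-- the terms with a derivative of a closed form cancel -/
theorem Calc_cyc (i j : Fin n) (hij : j ≠ i) (F : E → E → E → ℝ) (Q : Fin n → E → E → ℝ)
    (H : E → ℝ) (e : Fin n × Fin 2 → E) (hF : ∀ u v w, F u v w + F v w u + F w u v = 0) :
    ∑ σ : Equiv.Perm (Fin n × Fin 2), ((Equiv.Perm.sign σ : ℤ) : ℝ) *
      (H (e (σ (i, 1))) * (F (e (σ (i, 0))) (e (σ (j, 0))) (e (σ (j, 1))) *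
        ∏ l ∈ (Finset.univ.erase i).erase j, Q l (e (σ (l, 0))) (e (σ (l, 1))))) = 0 := by
  set f : Equiv.Perm (Fin n × Fin 2) → ℝ := fun σ => ((Equiv.Perm.sign σ : ℤ) : ℝ) *
      (H (e (σ (i, 1))) * (F (e (σ (i, 0))) (e (σ (j, 0))) (e (σ (j, 1))) *
        ∏ l ∈ (Finset.univ.erase i).erase j, Q l (e (σ (l, 0))) (e (σ (l, 1))))) with hf
  have hpq : ((i, 0) : Fin n × Fin 2) ≠ (j, 0) := fun h => hij (congrArg Prod.fst h).symm
  have hpr : ((i, 0) : Fin n × Fin 2) ≠ (j, 1) := fun h => hij (congrArg Prod.fst h).symm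
  have hqr : ((j, 0) : Fin n × Fin 2) ≠ (j, 1) := fun h => by simp at h
  obtain ⟨c, c1, c2, c3, c4, cs⟩ : ∃ c : Equiv.Perm (Fin n × Fin 2), c (i, 0) = (j, 0) ∧
      c (j, 0) = (j, 1) ∧ c (j, 1) = (i, 0) ∧
      (∀ z : Fin n × Fin 2, z ≠ (i, 0) → z ≠ (j, 0) → z ≠ (j, 1) → c z = z) ∧
      Equiv.Perm.sign c = 1 := by
    refine ⟨Equiv.swap (i, 0) (j, 0) * Equiv.swap (j, 0) (j, 1), ?_, ?_, ?_, ?_, ?_⟩
    · rw [Equiv.Perm.mul_apply, Equiv.swap_apply_of_ne_of_ne hpq hpr, Equiv.swap_apply_left]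
    · rw [Equiv.Perm.mul_apply, Equiv.swap_apply_left,
        Equiv.swap_apply_of_ne_of_ne hpr.symm hqr.symm]
    · rw [Equiv.Perm.mul_apply, Equiv.swap_apply_right, Equiv.swap_apply_right]
    · intro z h1 h2 h3
      rw [Equiv.Perm.mul_apply, Equiv.swap_apply_of_ne_of_ne h2 h3,
        Equiv.swap_apply_of_ne_of_ne h1 h2]
    · rw [Equiv.Perm.sign_mul, Equiv.Perm.sign_swap hpq, Equiv.Perm.sign_swap hqr]
      simp
  have hsign : ∀ σ : Equiv.Perm (Fin n × Fin 2), Equiv.Perm.sign (σ * c) = Equiv.Perm.sign σ := by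
    intro σ
    rw [Equiv.Perm.sign_mul, cs, mul_one]
  have c5 : c (i, 1) = (i, 1) := c4 _ (fun h => by simp at h)
    (fun h => hij (congrArg Prod.fst h).symm) (fun h => hij (congrArg Prod.fst h).symm)
  have hprod : ∀ σ : Equiv.Perm (Fin n × Fin 2),
      ∏ l ∈ (Finset.univ.erase i).erase j, Q l (e ((σ * c) (l, 0))) (e ((σ * c) (l, 1))) =
      ∏ l ∈ (Finset.univ.erase i).erase j, Q l (e (σ (l, 0))) (e (σ (l, 1))) := by
    intro σ
    refine Finset.prod_congr rfl (fun l hl => ?_)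
    have hlj : l ≠ j := Finset.ne_of_mem_erase hl
    have hli : l ≠ i := Finset.ne_of_mem_erase (Finset.mem_of_mem_erase hl)
    rw [Equiv.Perm.mul_apply, Equiv.Perm.mul_apply,
      c4 (l, 0) (fun h => hli (congrArg Prod.fst h)) (fun h => hlj (congrArg Prod.fst h))
        (fun h => hlj (congrArg Prod.fst h)),
      c4 (l, 1) (fun h => hli (congrArg Prod.fst h)) (fun h => hlj (congrArg Prod.fst h))
        (fun h => hlj (congrArg Prod.fst h))]
  have e1 : ∀ σ, f (σ * c) = ((Equiv.Perm.sign σ : ℤ) : ℝ) *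
      (H (e (σ (i, 1))) * (F (e (σ (j, 0))) (e (σ (j, 1))) (e (σ (i, 0))) *
        ∏ l ∈ (Finset.univ.erase i).erase j, Q l (e (σ (l, 0))) (e (σ (l, 1))))) := by
    intro σ
    simp only [hf]
    rw [hsign, hprod]
    simp only [Equiv.Perm.mul_apply, c1, c2, c3, c5]
  have e2 : ∀ σ, f (σ * c * c) = ((Equiv.Perm.sign σ : ℤ) : ℝ) *
      (H (e (σ (i, 1))) * (F (e (σ (j, 1))) (e (σ (i, 0))) (e (σ (j, 0))) *
        ∏ l ∈ (Finset.univ.erase i).erase j, Q l (e (σ (l, 0))) (e (σ (l, 1))))) := by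
    intro σ
    rw [e1, hsign, hprod]
    simp only [Equiv.Perm.mul_apply, c1, c2, c3, c5]
  have s1 : ∑ σ, f σ = ∑ σ, f (σ * c) := Calc_reindex c f
  have s2 : ∑ σ, f (σ * c) = ∑ σ, f (σ * c * c) := Calc_reindex c (fun σ => f (σ * c))
  have s3 : ∑ σ, (f σ + f (σ * c) + f (σ * c * c)) = 0 := by
    refine Finset.sum_eq_zero (fun σ _ => ?_)
    rw [e1, e2]
    simp only [hf]
    have h := hF (e (σ (i, 0))) (e (σ (j, 0))) (e (σ (j, 1)))
    linear_combination ((Equiv.Perm.sign σ : ℤ) : ℝ) * H (e (σ (i, 1))) *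
      (∏ l ∈ (Finset.univ.erase i).erase j, Q l (e (σ (l, 0))) (e (σ (l, 1)))) * h
  rw [Finset.sum_add_distrib, Finset.sum_add_distrib] at s3
  linarith

omit [NormedAddCommGroup E] [NormedSpace ℝ E] in
/-- antisymmetrization in the positions `(i, 0)`, `(i, 1)` -/
theorem Calc_swap (i : Fin n) (F : E → E → ℝ) (Q : Fin n → E → E → ℝ) (e : Fin n × Fin 2 → E) :
    2 * ∑ σ : Equiv.Perm (Fin n × Fin 2), ((Equiv.Perm.sign σ : ℤ) : ℝ) *
      (F (e (σ (i, 0))) (e (σ (i, 1))) *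
        ∏ l ∈ Finset.univ.erase i, Q l (e (σ (l, 0))) (e (σ (l, 1)))) =
    ∑ σ : Equiv.Perm (Fin n × Fin 2), ((Equiv.Perm.sign σ : ℤ) : ℝ) *
      ((F (e (σ (i, 0))) (e (σ (i, 1))) - F (e (σ (i, 1))) (e (σ (i, 0)))) *
        ∏ l ∈ Finset.univ.erase i, Q l (e (σ (l, 0))) (e (σ (l, 1)))) := by
  set f : Equiv.Perm (Fin n × Fin 2) → ℝ := fun σ => ((Equiv.Perm.sign σ : ℤ) : ℝ) *
      (F (e (σ (i, 0))) (e (σ (i, 1))) *
        ∏ l ∈ Finset.univ.erase i, Q l (e (σ (l, 0))) (e (σ (l, 1)))) with hf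
  have hqr : ((i, 0) : Fin n × Fin 2) ≠ (i, 1) := fun h => by simp at h
  obtain ⟨c, c1, c2, c4, cs⟩ : ∃ c : Equiv.Perm (Fin n × Fin 2), c (i, 0) = (i, 1) ∧
      c (i, 1) = (i, 0) ∧ (∀ z : Fin n × Fin 2, z ≠ (i, 0) → z ≠ (i, 1) → c z = z) ∧
      Equiv.Perm.sign c = -1 :=
    ⟨Equiv.swap (i, 0) (i, 1), Equiv.swap_apply_left _ _, Equiv.swap_apply_right _ _,
      fun z h1 h2 => Equiv.swap_apply_of_ne_of_ne h1 h2, Equiv.Perm.sign_swap hqr⟩
  have hprod : ∀ σ : Equiv.Perm (Fin n × Fin 2),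
      ∏ l ∈ Finset.univ.erase i, Q l (e ((σ * c) (l, 0))) (e ((σ * c) (l, 1))) =
      ∏ l ∈ Finset.univ.erase i, Q l (e (σ (l, 0))) (e (σ (l, 1))) := by
    intro σ
    refine Finset.prod_congr rfl (fun l hl => ?_)
    have hli : l ≠ i := Finset.ne_of_mem_erase hl
    rw [Equiv.Perm.mul_apply, Equiv.Perm.mul_apply,
      c4 (l, 0) (fun h => hli (congrArg Prod.fst h)) (fun h => hli (congrArg Prod.fst h)),
      c4 (l, 1) (fun h => hli (congrArg Prod.fst h)) (fun h => hli (congrArg Prod.fst h))]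
  have e1 : ∀ σ, f (σ * c) = - (((Equiv.Perm.sign σ : ℤ) : ℝ) *
      (F (e (σ (i, 1))) (e (σ (i, 0))) *
        ∏ l ∈ Finset.univ.erase i, Q l (e (σ (l, 0))) (e (σ (l, 1))))) := by
    intro σ
    simp only [hf]
    rw [hprod, Equiv.Perm.sign_mul, cs]
    simp only [Equiv.Perm.mul_apply, c1, c2]
    push_cast
    ring
  have s1 : ∑ σ, f σ = ∑ σ, f (σ * c) := Calc_reindex c f
  calc 2 * ∑ σ, f σ = ∑ σ, (f σ + f (σ * c)) := by
        rw [Finset.sum_add_distrib, ← s1]; ring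
    _ = _ := by
        refine Finset.sum_congr rfl (fun σ _ => ?_)
        rw [e1]
        simp only [hf]
        ring

theorem Calc_mix (e : Fin n × Fin 2 → E) (i : Fin n) (q : E →L[ℝ] E →L[ℝ] ℝ)
    (a : Fin n → E →L[ℝ] E →L[ℝ] ℝ) :
    mix e (fun j => if j = i then q else a j) =
    ∑ σ : Equiv.Perm (Fin n × Fin 2), ((Equiv.Perm.sign σ : ℤ) : ℝ) *
      (q (e (σ (i, 0))) (e (σ (i, 1))) *
        ∏ l ∈ Finset.univ.erase i, a l (e (σ (l, 0))) (e (σ (l, 1)))) := by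
  unfold mix
  refine Finset.sum_congr rfl (fun σ _ => ?_)
  congr 1
  rw [← Finset.mul_prod_erase Finset.univ _ (Finset.mem_univ i)]
  congr 1
  · simp
  · refine Finset.prod_congr rfl (fun l hl => ?_)
    change (if l = i then q else a l) (e (σ (l, 0))) (e (σ (l, 1))) = _
    rw [if_neg (Finset.ne_of_mem_erase hl)]

/-- The identity: expand the derivative of the product `hfun`. The terms in which the form `a j`,
`j ≠ i`, is differentiated in the direction `e (σ (i, 0))` cancel in the sum over `σ`: replace `σ` by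
its compositions with the two 3-cycles of the positions `(i, 0)`, `(j, 0)`, `(j, 1)` (even) and use
that `a j` is closed. The terms in which `χ` (resp. `η`) is differentiated give half of the first
(resp. second) summand on the right hand side: exchange the positions `(i, 0)` and `(i, 1)` (odd). -/
theorem sum_deriv (e : Fin n × Fin 2 → E) (i : Fin n) (χ : E → ℝ) (η : E → E →L[ℝ] ℝ)
    (a : Fin n → E → E →L[ℝ] E →L[ℝ] ℝ) (hχ : ContDiff ℝ ∞ χ) (hη : ContDiff ℝ ∞ η)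
    (ha : ∀ j, j ≠ i → IsForm (a j)) (hc : ∀ j, j ≠ i → Closed (a j)) (x : E) :
    2 * ∑ σ : Equiv.Perm (Fin n × Fin 2),
        ((Equiv.Perm.sign σ : ℤ) : ℝ) * fderiv ℝ (hfun e i χ η a σ) x (e (σ (i, 0))) =
      mix e (fun j => if j = i then wedge (fderiv ℝ χ x) (η x) else a j x) +
        χ x * mix e (fun j => if j = i then d1 η x else a j x) := by
  have h1 : ∀ σ : Equiv.Perm (Fin n × Fin 2),
      ((Equiv.Perm.sign σ : ℤ) : ℝ) * fderiv ℝ (hfun e i χ η a σ) x (e (σ (i, 0))) =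
      ((Equiv.Perm.sign σ : ℤ) : ℝ) * ((fderiv ℝ χ x (e (σ (i, 0))) * η x (e (σ (i, 1)))) *
          ∏ j ∈ Finset.univ.erase i, a j x (e (σ (j, 0))) (e (σ (j, 1)))) +
      χ x * (((Equiv.Perm.sign σ : ℤ) : ℝ) * (fderiv ℝ η x (e (σ (i, 0))) (e (σ (i, 1))) *
          ∏ j ∈ Finset.univ.erase i, a j x (e (σ (j, 0))) (e (σ (j, 1))))) +
      ∑ j ∈ Finset.univ.erase i, ((Equiv.Perm.sign σ : ℤ) : ℝ) *
        ((χ x * η x (e (σ (i, 1)))) *
          (fderiv ℝ (a j) x (e (σ (i, 0))) (e (σ (j, 0))) (e (σ (j, 1))) *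
            ∏ l ∈ (Finset.univ.erase i).erase j, a l x (e (σ (l, 0))) (e (σ (l, 1))))) := by
    intro σ
    rw [Calc_deriv e i χ η a hχ hη ha σ x (e (σ (i, 0))), mul_add, mul_add, Finset.mul_sum]
    congr 1
    ring
  rw [Finset.sum_congr rfl (fun σ _ => h1 σ), Finset.sum_add_distrib, Finset.sum_add_distrib]
  have h2 : ∑ σ : Equiv.Perm (Fin n × Fin 2),
      ∑ j ∈ Finset.univ.erase i, ((Equiv.Perm.sign σ : ℤ) : ℝ) *
        ((χ x * η x (e (σ (i, 1)))) *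
          (fderiv ℝ (a j) x (e (σ (i, 0))) (e (σ (j, 0))) (e (σ (j, 1))) *
            ∏ l ∈ (Finset.univ.erase i).erase j, a l x (e (σ (l, 0))) (e (σ (l, 1))))) = 0 := by
    rw [Finset.sum_comm]
    refine Finset.sum_eq_zero (fun j hj => ?_)
    have hji : j ≠ i := Finset.ne_of_mem_erase hj
    exact Calc_cyc i j hji (fun u v w => fderiv ℝ (a j) x u v w) (fun l u w => a l x u w)
      (fun u => χ x * η x u) e (hc j hji x)
  rw [h2, add_zero, mul_add, ← Finset.mul_sum]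
  have h3 := Calc_swap i (fun u w => fderiv ℝ χ x u * η x w) (fun l u w => a l x u w) e
  have h4 := Calc_swap i (fun u w => fderiv ℝ η x u w) (fun l u w => a l x u w) e
  rw [h3, mul_left_comm, h4, Calc_mix e i _ (fun j => a j x), Calc_mix e i _ (fun j => a j x)]
  congr 1
  · refine Finset.sum_congr rfl (fun σ _ => ?_)
    rw [wedge_apply]
    ring

end Pool.Agent.W_9986fc_h15
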