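import Pool.Agent.W_9986fc_h15.IBP
import Pool.Agent.W_9986fc_h15.Calc

/-!
The Stokes theorem for top powers of closed 2-forms on `M`.
-/

set_option autoImplicit false
set_option maxSynthPendingDepth 3

open scoped ContDiff Matrix

namespace Pool.Agent.W_9986fc_h15

variable {k b n : ℕ} {G : Type} [Group G] [MulAction G (R b)] (X : Bundle k b G)

namespace StokesAux

open MeasureTheory

/-- The integrals over the fibres of a continuous function are continuous. -/
theorem continuous_fib {F : V k b → ℝ} (hF : Continuous F) : Continuous (fib F) := by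
  have h : Continuous (Function.uncurry fun (z : R b) (v : R k) => F (v, z)) :=
    hF.comp (continuous_snd.prodMk continuous_fst)
  exact continuous_parametric_integral_of_continuous h isCompact_Icc

theorem integrable_fib {F : V k b → ℝ} (hF : Continuous F)
    (hs : ∃ K : Set (R b), IsCompact K ∧ ∀ x, F x ≠ 0 → x.2 ∈ K) : Integrable (fib F) := by
  obtain ⟨K, hK, h⟩ := hs
  refine (continuous_fib hF).integrable_of_hasCompactSupport (HasCompactSupport.intro hK ?_)
  intro z hz
  have h0 : ∀ v : R k, F (v, z) = 0 := by
    intro v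
    by_contra hne
    exact hz (h _ hne)
  simp [fib, h0]

theorem integrableOn_fib {F : V k b → ℝ} (hF : Continuous F) (z : R b) :
    IntegrableOn (fun v : R k => F (v, z)) (Set.Icc (0 : R k) 1) :=
  (hF.comp (continuous_id.prodMk continuous_const)).continuousOn.integrableOn_compact isCompact_Icc

theorem fib_sub {F F' : V k b → ℝ} (hF : Continuous F) (hF' : Continuous F') (z : R b) :
    fib (fun x => F x - F' x) z = fib F z - fib F' z :=
  integral_sub (integrableOn_fib hF z) (integrableOn_fib hF' z)

theorem fib_const_mul (c : ℝ) (F : V k b → ℝ) (z : R b) :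
    fib (fun x => c * F x) z = c * fib F z :=
  integral_const_mul c _

theorem fib_snd_mul (f : R b → ℝ) (F : V k b → ℝ) (z : R b) :
    fib (fun x => f x.2 * F x) z = f z * fib F z :=
  integral_const_mul (f z) _

theorem fib_sum {ι : Type*} (s : Finset ι) {F : ι → V k b → ℝ} (hF : ∀ i, Continuous (F i))
    (z : R b) : fib (fun x => ∑ i ∈ s, F i x) z = ∑ i ∈ s, fib (F i) z :=
  integral_finsetSum s fun i _ => integrableOn_fib (hF i) z

variable {E : Type*} [NormedAddCommGroup E] [NormedSpace ℝ E]

theorem continuous_mix {Y : Type*} [TopologicalSpace Y] (e : Fin n × Fin 2 → E)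
    {q : Fin n → Y → E →L[ℝ] E →L[ℝ] ℝ} (hq : ∀ j, Continuous (q j)) :
    Continuous fun y => mix e (fun j => q j y) := by
  unfold mix
  refine continuous_finsetSum _ fun σ _ => continuous_const.mul ?_
  exact continuous_finsetProd _ fun j _ => ((hq j).clm_apply continuous_const).clm_apply
    continuous_const

/-- `mix` is linear in every form: here for the wedge product with a covector. -/
theorem mix_wedge_linear (e : Fin n × Fin 2 → E) (i : Fin n) (η : E →L[ℝ] ℝ)
    (a : Fin n → E →L[ℝ] E →L[ℝ] ℝ) : ∃ T : (E →L[ℝ] ℝ) →ₗ[ℝ] ℝ, ∀ c,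
      T c = mix e (fun j => if j = i then wedge c η else a j) := by
  have key : ∀ c, mix e (fun j => if j = i then wedge c η else a j) =
      ∑ σ : Equiv.Perm (Fin n × Fin 2), ((Equiv.Perm.sign σ : ℤ) : ℝ) *
        ((c (e (σ (i, 0))) * η (e (σ (i, 1))) - η (e (σ (i, 0))) * c (e (σ (i, 1)))) *
          ∏ j ∈ Finset.univ.erase i, a j (e (σ (j, 0))) (e (σ (j, 1)))) := by
    intro c
    unfold mix
    refine Finset.sum_congr rfl fun σ _ => ?_
    congr 1
    rw [← Finset.mul_prod_erase Finset.univ _ (Finset.mem_univ i)]
    congr 1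
    · simp only [if_true]
      rw [wedge_apply]
    · refine Finset.prod_congr rfl fun j hj => ?_
      simp only [if_neg (Finset.ne_of_mem_erase hj)]
  refine ⟨{ toFun := fun c => mix e (fun j => if j = i then wedge c η else a j),
            map_add' := ?_, map_smul' := ?_ }, fun c => rfl⟩
  · intro c d
    rw [key, key, key, ← Finset.sum_add_distrib]
    refine Finset.sum_congr rfl fun σ _ => ?_
    simp only [_root_.add_apply]
    ring
  · intro r c
    rw [key, key, RingHom.id_apply, smul_eq_mul, Finset.mul_sum]
    refine Finset.sum_congr rfl fun σ _ => ?_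
    simp only [_root_.smul_apply, smul_eq_mul]
    ring

theorem wedge_bilinearComp (a c : E →L[ℝ] ℝ) (P : E →L[ℝ] E) :
    (wedge a c).bilinearComp P P = wedge (a.comp P) (c.comp P) := by
  ext u w
  rw [ContinuousLinearMap.bilinearComp_apply, wedge_apply, wedge_apply]
  rfl

theorem per_fderiv {H : Type*} [NormedAddCommGroup H] [NormedSpace ℝ H] {F : V k b → H}
    (hF : Per F) : Per (fderiv ℝ F) := by
  intro m v z
  have h : (fun x : V k b => F (x + (intV m, 0))) = F := by
    funext x
    obtain ⟨v, z⟩ := x
    simpa using hF m v z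
  have h2 := fderiv_comp_add_right (𝕜 := ℝ) (f := F) (x := ((v, z) : V k b)) (intV m, (0 : R b))
  rw [h] at h2
  rw [h2]
  simp

/-- The pullback to `ℝ^k × ℝ^b` of a function on the base. -/
theorem contDiff_snd_comp {χ : R b → ℝ} (hχ : ContDiff ℝ ∞ χ) :
    ContDiff ℝ ∞ fun x : V k b => χ x.2 := hχ.comp contDiff_snd

theorem fderiv_ne_zero_mem {H : Type*} [NormedAddCommGroup H] [NormedSpace ℝ H] {F : V k b → H}
    {K : Set (R b)} (hK : IsClosed K) (hs : ∀ x, F x ≠ 0 → x.2 ∈ K) (x : V k b)
    (hx : fderiv ℝ F x ≠ 0) : x.2 ∈ K := by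
  by_contra hne
  apply hx
  have hopen : IsOpen ((Prod.snd : V k b → R b) ⁻¹' Kᶜ) := hK.isOpen_compl.preimage continuous_snd
  have hev : F =ᶠ[nhds x] fun _ => 0 := by
    filter_upwards [hopen.mem_nhds (show x ∈ (Prod.snd : V k b → R b) ⁻¹' Kᶜ from hne)] with y hy
    by_contra h0
    exact hy (hs y h0)
  rw [hev.fderiv_eq]
  exact fderiv_const_apply _

end StokesAux

open StokesAux MeasureTheory


/-- The integral over `M` of a wedge product of closed 2-forms, one of which is exact, is zero.
Proof: integrate `sum_deriv` (for the function `x ↦ χ x.2`); by `integral_fderiv_eq_zero` the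
integral in question is minus the integral of
`Ψ x = mix (wedge (d (χ ∘ snd)) (η x) at i, a j x)`, which vanishes by `unfold`: the transform of
`Ψ` by `φ g` is the same expression with `χ (g • z)` in place of `χ z` (`mix_bilinearComp` and
invariance of `η` and `a j`), `mix` is linear in the entry `i`, and
`∑ g, d (χ (g • z)) = 0`. -/
theorem integral_mix_exact (hB : IsBase b G) (hX : X.Oriented) {χ : R b → ℝ} (hχ : IsPart G χ)
    (π : Fin n × Fin 2 ≃ Fin k ⊕ Fin b) (i : Fin n) (η : V k b → V k b →L[ℝ] ℝ) (hη : X.Inv1 η)
    (a : Fin n → V k b → V k b →L[ℝ] V k b →L[ℝ] ℝ) (ha : ∀ j, j ≠ i → X.Inv2 (a j))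
    (hc : ∀ j, j ≠ i → Closed (a j)) :
    ∫ z, χ z * fib (fun x =>
      mix (fun l => stdV (π l)) (fun j => if j = i then d1 η x else a j x)) z = 0 := by
  set e : Fin n × Fin 2 → V k b := fun l => stdV (π l) with he
  set χ' : V k b → ℝ := fun x => χ x.2 with hχ'
  have hχ's : ContDiff ℝ ∞ χ' := contDiff_snd_comp hχ.smooth
  have hd1 : IsForm (d1 η) := isForm_d1 hη.smooth
  -- the compact set
  have hK : IsCompact (tsupport χ) := hχ.compact
  have hKc : IsClosed (tsupport χ) := isClosed_tsupport χ
  have hχK : ∀ z, χ z ≠ 0 → z ∈ tsupport χ := fun z hz => subset_tsupport χ hz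
  -- the functions
  set F : V k b → ℝ := fun x => mix e (fun j => if j = i then d1 η x else a j x) with hF
  set Ψ : V k b → ℝ := fun x =>
    mix e (fun j => if j = i then wedge (fderiv ℝ χ' x) (η x) else a j x) with hΨ
  have hid := sum_deriv e i χ' η a hχ's hη.smooth (fun j hj => (ha j hj).toIsForm) hc
  -- continuity
  have hFc : Continuous F := by
    refine continuous_mix e (q := fun j x => if j = i then d1 η x else a j x) fun j => ?_
    by_cases hj : j = i
    · simp only [if_pos hj]
      exact hd1.smooth.continuous
    · simp only [if_neg hj]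
      exact (ha j hj).smooth.continuous
  have hdχ : Continuous (fderiv ℝ χ') := hχ's.continuous_fderiv (by simp)
  have hΨc : Continuous Ψ := by
    refine continuous_mix e (q := fun j x => if j = i then wedge (fderiv ℝ χ' x) (η x) else a j x)
      fun j => ?_
    by_cases hj : j = i
    · simp only [if_pos hj]
      unfold wedge
      have hηc : Continuous η := hη.smooth.continuous
      exact (isBoundedBilinearMap_smulRight.continuous.comp (hdχ.prodMk hηc)).sub
        (isBoundedBilinearMap_smulRight.continuous.comp (hηc.prodMk hdχ))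
    · simp only [if_neg hj]
      exact (ha j hj).smooth.continuous
  have hper' : Per χ' := fun m v z => rfl
  have hΨper : Per Ψ := by
    intro m v z
    have h1 : ∀ j, (if j = i then wedge (fderiv ℝ χ' (v + intV m, z)) (η (v + intV m, z))
        else a j (v + intV m, z)) =
        (if j = i then wedge (fderiv ℝ χ' (v, z)) (η (v, z)) else a j (v, z)) := by
      intro j
      by_cases hj : j = i
      · simp only [if_pos hj]
        rw [per_fderiv hper', hη.periodic]
      · simp only [if_neg hj]
        exact (ha j hj).periodic m v z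
    simp only [hΨ, h1]
  obtain hT := fun x => mix_wedge_linear e i (η x) (fun j => a j x)
  have hΨs : ∀ x, Ψ x ≠ 0 → x.2 ∈ tsupport χ := by
    intro x hx
    refine fderiv_ne_zero_mem hKc (F := χ') (fun y hy => hχK _ hy) x ?_
    intro h0
    apply hx
    obtain ⟨T, hT⟩ := hT x
    simp only [hΨ]
    rw [h0, ← hT 0, map_zero]
  -- the derivatives of the auxiliary functions
  have hhs : ∀ σ, ContDiff ℝ ∞ (hfun e i χ' η a σ) := by
    intro σ
    unfold hfun
    refine (hχ's.mul (hη.smooth.clm_apply contDiff_const)).mul ?_
    refine contDiff_prod fun j hj => ?_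
    exact (((ha j (Finset.ne_of_mem_erase hj)).smooth).clm_apply contDiff_const).clm_apply
      contDiff_const
  have hhper : ∀ σ, Per (hfun e i χ' η a σ) := by
    intro σ m v z
    unfold hfun
    have h1 : ∏ j ∈ Finset.univ.erase i, a j (v + intV m, z) (e (σ (j, 0))) (e (σ (j, 1))) =
        ∏ j ∈ Finset.univ.erase i, a j (v, z) (e (σ (j, 0))) (e (σ (j, 1))) := by
      refine Finset.prod_congr rfl fun j hj => ?_
      rw [(ha j (Finset.ne_of_mem_erase hj)).periodic m v z]
    rw [h1, hη.periodic, hper']
  have hhK : ∀ σ x, hfun e i χ' η a σ x ≠ 0 → x.2 ∈ tsupport χ := by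
    intro σ x hx
    refine hχK _ fun h0 => hx ?_
    unfold hfun
    have h1 : χ' x = 0 := h0
    rw [h1]
    ring
  have hhd : ∀ σ u, Continuous fun x => fderiv ℝ (hfun e i χ' η a σ) x u := fun σ u =>
    ((hhs σ).continuous_fderiv (by simp)).clm_apply continuous_const
  have hhdK : ∀ σ u x, fderiv ℝ (hfun e i χ' η a σ) x u ≠ 0 → x.2 ∈ tsupport χ := by
    intro σ u x hx
    refine fderiv_ne_zero_mem hKc (hhK σ) x ?_
    intro h0
    apply hx
    rw [h0]
    rfl
  have hint : ∀ σ, ∫ z, fib (fun x => fderiv ℝ (hfun e i χ' η a σ) x (e (σ (i, 0)))) z = 0 :=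
    fun σ => integral_fderiv_eq_zero _ (hhs σ) (hhper σ) ⟨_, hK, hhK σ⟩ _
  -- the pointwise identity on the base
  have hbase : ∀ z, χ z * fib F z =
      2 * ∑ σ : Equiv.Perm (Fin n × Fin 2), ((Equiv.Perm.sign σ : ℤ) : ℝ) *
        fib (fun x => fderiv ℝ (hfun e i χ' η a σ) x (e (σ (i, 0)))) z - fib Ψ z := by
    intro z
    rw [← fib_snd_mul]
    have h1 : (fun x : V k b => χ x.2 * F x) = fun x =>
        2 * ∑ σ : Equiv.Perm (Fin n × Fin 2), ((Equiv.Perm.sign σ : ℤ) : ℝ) *
          fderiv ℝ (hfun e i χ' η a σ) x (e (σ (i, 0))) - Ψ x := by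
      funext x
      have := hid x
      simp only [hΨ, hF]
      linarith
    rw [h1, fib_sub ?_ hΨc, fib_const_mul, fib_sum]
    · congr 2
      refine Finset.sum_congr rfl fun σ _ => ?_
      rw [fib_const_mul]
    · intro σ
      exact continuous_const.mul (hhd σ _)
    · refine continuous_const.mul (continuous_finsetSum _ fun σ _ => ?_)
      exact continuous_const.mul (hhd σ _)
  have hInt : ∀ σ, Integrable (fib (fun x => fderiv ℝ (hfun e i χ' η a σ) x (e (σ (i, 0))))) :=
    fun σ => integrable_fib (hhd σ _) ⟨_, hK, hhdK σ _⟩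
  have hΨint : Integrable (fib Ψ) := integrable_fib hΨc ⟨_, hK, hΨs⟩
  simp only [hbase]
  rw [integral_sub ?_ hΨint, integral_const_mul, integral_finsetSum]
  · simp only [integral_const_mul, hint, mul_zero, Finset.sum_const_zero, zero_sub, neg_eq_zero]
    rw [unfold X hB hX hχ Ψ hΨc hΨper ⟨_, hK, hΨs⟩]
    obtain ⟨B, hB'⟩ := exists_basisV π
    have hBe : ∀ q, mix e q = mix B q := by
      intro q
      unfold mix
      simp only [he, hB']
    -- the transforms of `Ψ`
    have htr : ∀ g x, (fderiv ℝ (X.φ g) x).det * Ψ (X.φ g x) =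
        mix e (fun j => if j = i then
          wedge (fderiv ℝ (fun x : V k b => χ (g • x.2)) x) (η x) else a j x) := by
      intro g x
      simp only [hΨ]
      rw [hBe, hBe, ← mix_bilinearComp]
      congr 1
      funext j
      by_cases hj : j = i
      · simp only [if_pos hj]
        rw [wedge_bilinearComp]
        have h1 : (η (X.φ g x)).comp (fderiv ℝ (X.φ g) x) = η x := hη.invariant g x
        rw [h1]
        have h2 : (fderiv ℝ χ' (X.φ g x)).comp (fderiv ℝ (X.φ g) x) =
            fderiv ℝ (fun x : V k b => χ (g • x.2)) x := by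
          have h3 : (fun x : V k b => χ (g • x.2)) = χ' ∘ X.φ g := rfl
          rw [h3, fderiv_comp]
          · exact (hχ's.differentiable (by simp)) _
          · exact ((X.contDiff_φ hB g).differentiable (by simp)) _
        rw [h2]
      · simp only [if_neg hj]
        exact (ha j hj).invariant g x
    have hz : ∀ x, ∑ᶠ g : G, (fderiv ℝ (X.φ g) x).det * Ψ (X.φ g x) = 0 := by
      intro x
      obtain ⟨T, hT⟩ := hT x
      have h1 : ∀ g, (fderiv ℝ (X.φ g) x).det * Ψ (X.φ g x) =
          T (fderiv ℝ (fun x : V k b => χ (g • x.2)) x) := by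
        intro g
        rw [htr, hT]
      simp only [h1]
      have hsup : CSup G (Prod.snd : V k b → R b) fun g (x : V k b) => χ (g • x.2) :=
        csup_of_cutoff hχ.compact fun g y h => h
      have hsd := hsup.sup_fderiv hB continuous_snd
      have h2 := hsd.clm hB T x
      rw [← h2, ← hsup.fderiv_sum hB continuous_snd]
      · have h3 : (fun y : V k b => ∑ᶠ g : G, χ (g • y.2)) = fun _ => 1 := by
          funext y
          exact hχ.sum y.2
        rw [h3]
        simp
      · intro g
        exact hχ.smooth.comp ((hB.smooth g).comp contDiff_snd)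
    simp only [hz]
    simp [fib]
  · intro σ _
    exact (hInt σ).const_mul _
  · refine Integrable.const_mul ?_ _
    exact integrable_finsetSum _ fun σ _ => (hInt σ).const_mul _

/-- The integral of the top power of a closed form depends only on the cohomology class
(`top_add_sub`). -/
theorem integral_top_add (hB : IsBase b G) (hX : X.Oriented) {χ : R b → ℝ} (hχ : IsPart G χ)
    (π : Fin n × Fin 2 ≃ Fin k ⊕ Fin b) (a : V k b → V k b →L[ℝ] V k b →L[ℝ] ℝ) (ha : X.Inv2 a)
    (hc : Closed a) (η : V k b → V k b →L[ℝ] ℝ) (hη : X.Inv1 η) :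
    ∫ z, χ z * fib (fun x => top (fun l => stdV (π l)) (a x + d1 η x)) z =
      ∫ z, χ z * fib (fun x => top (fun l => stdV (π l)) (a x)) z := by
  set e : Fin n × Fin 2 → V k b := fun l => stdV (π l) with he
  have hd := hη.d1_inv2 X hB
  have hdc : Closed (d1 η) := closed_d1 hη.smooth
  have hχK : ∀ z, χ z ≠ 0 → z ∈ tsupport χ := fun z hz => subset_tsupport χ hz
  -- sums of forms
  have hadd : X.Inv2 (fun x => a x + d1 η x) := by
    refine { smooth := ha.smooth.add hd.smooth, alt := ?_, periodic := ?_, invariant := ?_ }
    · intro x u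
      have h1 := ha.alt x u
      have h2 := hd.alt x u
      simp only [_root_.add_apply]
      rw [h1, h2, add_zero]
    · intro m v z
      rw [ha.periodic, hd.periodic]
    · intro g x
      have h1 := ha.invariant g x
      have h2 := hd.invariant g x
      refine ContinuousLinearMap.ext fun u => ContinuousLinearMap.ext fun w => ?_
      have h3 := congrArg (fun q => q u w) h1
      have h4 := congrArg (fun q => q u w) h2
      simp only [pull2, ContinuousLinearMap.bilinearComp_apply] at h3 h4
      simp only [pull2, ContinuousLinearMap.bilinearComp_apply, _root_.add_apply]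
      rw [h3, h4]
  have haddc : Closed (fun x => a x + d1 η x) := by
    intro x u v w
    have h1 : fderiv ℝ (fun x => a x + d1 η x) x = fderiv ℝ a x + fderiv ℝ (d1 η) x := by
      apply fderiv_fun_add
      · exact (ha.smooth.differentiable (by simp)) x
      · exact (hd.smooth.differentiable (by simp)) x
    rw [h1]
    have h2 := hc x u v w
    have h3 := hdc x u v w
    simp only [_root_.add_apply]
    linarith
  have hcq : ∀ (q : Fin n → V k b → V k b →L[ℝ] V k b →L[ℝ] ℝ), (∀ j, Continuous (q j)) →
      Integrable fun z => χ z * fib (fun x => mix e (fun j => q j x)) z := by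
    intro q hq
    have h1 : (fun z => χ z * fib (fun x => mix e (fun j => q j x)) z) =
        fib (fun x => χ x.2 * mix e (fun j => q j x)) := by
      funext z
      exact (fib_snd_mul _ _ _).symm
    rw [h1]
    refine integrable_fib ?_ ⟨_, hχ.compact, ?_⟩
    · exact (hχ.smooth.continuous.comp continuous_snd).mul (continuous_mix e hq)
    · intro x hx
      exact hχK _ (left_ne_zero_of_mul hx)
  rw [← sub_eq_zero, ← integral_sub]
  · have h1 : ∀ z, χ z * fib (fun x => top e (a x + d1 η x)) z -
        χ z * fib (fun x => top e (a x)) z = ∑ i : Fin n, χ z * fib (fun x => mix e (fun j =>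
          if j = i then d1 η x else if j < i then a x + d1 η x else a x)) z := by
      intro z
      rw [← mul_sub, ← fib_sub, ← Finset.mul_sum, ← fib_sum]
      · congr 2
        funext x
        exact top_add_sub e (a x) (d1 η x)
      · intro i
        refine continuous_mix e (q := fun j x =>
          if j = i then d1 η x else if j < i then a x + d1 η x else a x) fun j => ?_
        by_cases hj : j = i
        · simp only [if_pos hj]
          exact hd.smooth.continuous
        · simp only [if_neg hj]
          by_cases hj' : j < i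
          · simp only [if_pos hj']
            exact hadd.smooth.continuous
          · simp only [if_neg hj']
            exact ha.smooth.continuous
      · exact continuous_mix e (q := fun _ x => a x + d1 η x) fun _ => hadd.smooth.continuous
      · exact continuous_mix e (q := fun _ x => a x) fun _ => ha.smooth.continuous
    simp only [h1]
    rw [integral_finsetSum]
    · refine Finset.sum_eq_zero fun i _ => ?_
      refine integral_mix_exact X hB hX hχ π i η hη
        (fun j x => if j < i then a x + d1 η x else a x) ?_ ?_
      · intro j _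
        by_cases hj' : j < i
        · simp only [if_pos hj']
          exact hadd
        · simp only [if_neg hj']
          exact ha
      · intro j _
        by_cases hj' : j < i
        · simp only [if_pos hj']
          exact haddc
        · simp only [if_neg hj']
          exact hc
    · intro i _
      refine hcq (fun j x => if j = i then d1 η x else if j < i then a x + d1 η x else a x) ?_
      intro j
      by_cases hj : j = i
      · simp only [if_pos hj]
        exact hd.smooth.continuous
      · simp only [if_neg hj]
        by_cases hj' : j < i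
        · simp only [if_pos hj']
          exact hadd.smooth.continuous
        · simp only [if_neg hj']
          exact ha.smooth.continuous
  · exact hcq (fun _ x => a x + d1 η x) fun _ => hadd.smooth.continuous
  · exact hcq (fun _ x => a x) fun _ => ha.smooth.continuous

/-- The top power of an invariant form is an invariant density. -/
theorem top_inv (hB : IsBase b G) (π : Fin n × Fin 2 ≃ Fin k ⊕ Fin b)
    (a : V k b → V k b →L[ℝ] V k b →L[ℝ] ℝ) (ha : X.Inv2 a) (g : G) (x : V k b) :
    (fderiv ℝ (X.φ g) x).det * top (fun l => stdV (π l)) (a (X.φ g x)) =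
      top (fun l => stdV (π l)) (a x) := by
  obtain ⟨B, hB'⟩ := exists_basisV π
  have hBe : (fun l => stdV (π l)) = (B : Fin n × Fin 2 → V k b) := by
    funext l
    exact (hB' l).symm
  rw [hBe, ← top_bilinearComp]
  congr 1
  exact ha.invariant g x

end Pool.Agent.W_9986fc_h15
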