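import Pool.Agent.W_9986fc_h15.AlgB

/-!
Algebra: the top power of an orthogonal sum.
-/

set_option autoImplicit false
set_option maxSynthPendingDepth 3

open scoped ContDiff Matrix

namespace Pool.Agent.W_9986fc_h15

/-- Permutation of the vectors. -/
theorem top_perm {E : Type*} [NormedAddCommGroup E] [NormedSpace ℝ E] {n : ℕ}
    (e : Fin n × Fin 2 → E) (α : E →L[ℝ] E →L[ℝ] ℝ) (ρ : Equiv.Perm (Fin n × Fin 2)) :
    top (fun i => e (ρ i)) α = ((Equiv.Perm.sign ρ : ℤ) : ℝ) * top e α := by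
  unfold top
  rw [Finset.mul_sum]
  refine Fintype.sum_equiv (Equiv.mulLeft ρ) _ _ fun σ => ?_
  have h1 : ((Equiv.Perm.sign ρ : ℤ) : ℝ) * ((Equiv.Perm.sign ρ : ℤ) : ℝ) = 1 := by
    rcases Int.units_eq_one_or (Equiv.Perm.sign ρ) with h | h <;> rw [h] <;> simp
  have h2 : ((Equiv.Perm.sign (ρ * σ) : ℤ) : ℝ) =
      ((Equiv.Perm.sign ρ : ℤ) : ℝ) * ((Equiv.Perm.sign σ : ℤ) : ℝ) := by
    rw [Equiv.Perm.sign_mul]
    push_cast
    rfl
  simp only [Equiv.coe_mulLeft, Equiv.Perm.mul_apply]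
  rw [h2, ← mul_assoc, ← mul_assoc, h1, one_mul]

theorem liftC_apply {k b : ℕ} (c : R k →L[ℝ] R k →L[ℝ] ℝ) (x y : V k b) :
    liftC c x y = c x.1 y.1 := rfl

theorem liftB_apply {k b : ℕ} (q : R b →L[ℝ] R b →L[ℝ] ℝ) (x y : V k b) :
    liftB q x y = q x.2 y.2 := rfl

private theorem algC_J_alt {E : Type*} [NormedAddCommGroup E] [NormedSpace ℝ E]
    [FiniteDimensional ℝ E] {m : ℕ} (B : Module.Basis (Fin m × Fin 2) ℝ E) (u : E) :
    J B u u = 0 := by
  rw [J_apply]
  refine Finset.sum_eq_zero fun i _ => ?_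
  ring

private theorem algC_J_nd {E : Type*} [NormedAddCommGroup E] [NormedSpace ℝ E]
    [FiniteDimensional ℝ E] {m : ℕ} (B : Module.Basis (Fin m × Fin 2) ℝ E) (w : E)
    (h : ∀ u, J B w u = 0) : w = 0 := by
  by_contra hw
  have h1 := top_eq_zero B (J B) (algC_J_alt B) w hw h
  have h2 := top_J_pos B
  linarith

private theorem algC_alt {k b : ℕ} (c : R k →L[ℝ] R k →L[ℝ] ℝ) (hc : ∀ u, c u u = 0)
    (q : R b →L[ℝ] R b →L[ℝ] ℝ) (hq : ∀ u, q u u = 0) (x : V k b) :
    (liftC c + liftB q : V k b →L[ℝ] V k b →L[ℝ] ℝ) x x = 0 := by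
  have h : (liftC c + liftB q : V k b →L[ℝ] V k b →L[ℝ] ℝ) x x = c x.1 x.1 + q x.2 x.2 := rfl
  rw [h, hc, hq, add_zero]

/-- The top power of the orthogonal sum `c + q` is proportional to the top power of `q`.
Proof: for `P : R b →L[ℝ] R b` the form `liftC c + liftB (q.bilinearComp P P)` is the pullback of
`liftC c + liftB q` by the map `(v, z) ↦ (v, P z)`, of determinant `P.det`; so both sides are
multiplied by `P.det` when `q` is replaced by `q.bilinearComp P P`; both sides are zero for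
degenerate `q` (`top_eq_zero`); for nondegenerate `q` use `exists_pullback`. The constant is
nonzero if `c` is nondegenerate, by `top_ne_zero` for `q = J`. -/
theorem exists_const {k b n m : ℕ} (π : Fin n × Fin 2 ≃ Fin k ⊕ Fin b) (π' : Fin m × Fin 2 ≃ Fin b)
    (c : R k →L[ℝ] R k →L[ℝ] ℝ) (hc : ∀ u, c u u = 0) :
    ∃ K : ℝ, (kerC c = ⊥ → K ≠ 0) ∧ ∀ q : R b →L[ℝ] R b →L[ℝ] ℝ, (∀ u, q u u = 0) →
      top (fun i => stdV (π i)) (liftC c + liftB q) = K * top (fun i => stdR (π' i)) q := by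
  obtain ⟨BV, hBV⟩ := exists_basisV π
  obtain ⟨BR, hBR⟩ := exists_basisR π'
  have hV : (fun i => stdV (π i)) = (BV : Fin n × Fin 2 → V k b) := by
    funext i
    exact (hBV i).symm
  have hR : (fun i => stdR (π' i)) = (BR : Fin m × Fin 2 → R b) := by
    funext i
    exact (hBR i).symm
  rw [hV, hR]
  have hJ := top_J_pos BR
  refine ⟨top BV (liftC c + liftB (J BR)) / top BR (J BR), ?_, ?_⟩
  · intro hker
    refine div_ne_zero (top_ne_zero BV _ (algC_alt c hc _ (algC_J_alt BR)) ?_) hJ.ne'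
    intro w hw
    have h1 : ∀ x : V k b, c w.1 x.1 + J BR w.2 x.2 = 0 := hw
    have h2 : c w.1 = 0 := by
      refine ContinuousLinearMap.ext fun x => ?_
      have h3 := h1 (x, 0)
      simpa using h3
    have h4 : w.1 = 0 := by
      have h5 : w.1 ∈ kerC c := by
        rw [kerC, LinearMap.mem_ker]
        exact h2
      rw [hker] at h5
      exact (Submodule.mem_bot ℝ).1 h5
    have h6 : w.2 = 0 := by
      apply algC_J_nd BR
      intro u
      have h7 := h1 (0, u)
      simpa using h7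
    exact Prod.ext h4 h6
  · intro q hq
    by_cases hnd : ∀ w, (∀ u, q w u = 0) → w = 0
    · obtain ⟨P, _, hP⟩ := exists_pullback BR q hq hnd
      have h1 : liftC c + liftB q = ((liftC c + liftB (J BR)) :
          V k b →L[ℝ] V k b →L[ℝ] ℝ).bilinearComp
          ((ContinuousLinearMap.id ℝ (R k)).prodMap P)
          ((ContinuousLinearMap.id ℝ (R k)).prodMap P) := by
        rw [hP]
        rfl
      have h2 : ((ContinuousLinearMap.id ℝ (R k)).prodMap P).det = P.det := by
        have h3 : (((ContinuousLinearMap.id ℝ (R k)).prodMap P : V k b →L[ℝ] V k b) :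
            V k b →ₗ[ℝ] V k b) = (LinearMap.id : R k →ₗ[ℝ] R k).prodMap (P : R b →ₗ[ℝ] R b) := rfl
        rw [ContinuousLinearMap.det, h3, LinearMap.det_prodMap, LinearMap.det_id, one_mul,
          ContinuousLinearMap.det]
      have h4 : top BR q = P.det * top BR (J BR) := by
        conv_lhs => rw [hP]
        exact top_bilinearComp BR P (J BR)
      rw [h1, top_bilinearComp, h2, h4]
      field_simp
    · push Not at hnd
      obtain ⟨w, hw, hw0⟩ := hnd
      have h1 : top BR q = 0 := top_eq_zero BR q hq w hw0 hw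
      have h2 : top BV (liftC c + liftB q) = 0 := by
        refine top_eq_zero BV _ (algC_alt c hc q hq) (0, w) ?_ ?_
        · intro h
          exact hw0 (Prod.ext_iff.1 h).2
        · intro u
          have h3 : (liftC c + liftB q : V k b →L[ℝ] V k b →L[ℝ] ℝ) ((0, w) : V k b) u =
              c 0 u.1 + q w u.2 := rfl
          rw [h3, hw, map_zero]
          simp
      rw [h1, h2, mul_zero]

end Pool.Agent.W_9986fc_h15
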