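import Pool.Agent.W_9986fc_h15.Defs

/-!
Algebra of top powers of 2-forms: change of basis, degenerate forms, telescoping.
-/

set_option autoImplicit false
set_option maxSynthPendingDepth 3

open scoped ContDiff Matrix

namespace Pool.Agent.W_9986fc_h15

variable {E : Type*} [NormedAddCommGroup E] [NormedSpace ℝ E] {n : ℕ}

theorem top_eq_mix (e : Fin n × Fin 2 → E) (α : E →L[ℝ] E →L[ℝ] ℝ) :
    top e α = mix e (fun _ => α) := rfl

/-- the multilinear map `v ↦ ∏ i, q i (v (i, 0)) (v (i, 1))` -/
noncomputable def AlgA_ml (q : Fin n → E →L[ℝ] E →L[ℝ] ℝ) :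
    MultilinearMap ℝ (fun _ : Fin n × Fin 2 => E) ℝ where
  toFun v := ∏ i, q i (v (i, 0)) (v (i, 1))
  map_update_add' := by
    intro _ v j x y
    obtain ⟨i, c⟩ := j
    have hd : ∀ (z : E), ∏ i', q i' (Function.update v (i, c) z (i', 0))
        (Function.update v (i, c) z (i', 1)) =
        q i (Function.update v (i, c) z (i, 0)) (Function.update v (i, c) z (i, 1)) *
          ∏ i' ∈ Finset.univ.erase i, q i' (v (i', 0)) (v (i', 1)) := by
      intro z
      rw [← Finset.mul_prod_erase Finset.univ _ (Finset.mem_univ i)]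
      congr 1
      refine Finset.prod_congr rfl (fun i' hi' => ?_)
      have hne : i' ≠ i := Finset.ne_of_mem_erase hi'
      rw [Function.update_of_ne (fun h => hne (congrArg Prod.fst h)),
        Function.update_of_ne (fun h => hne (congrArg Prod.fst h))]
    rw [hd, hd, hd, ← add_mul]
    congr 1
    fin_cases c
    · have h1 : ((i, (1 : Fin 2)) : Fin n × Fin 2) ≠ (i, (0 : Fin 2)) := by simp
      simp only [Fin.zero_eta, Function.update_self]
      rw [Function.update_of_ne h1, Function.update_of_ne h1, Function.update_of_ne h1, map_add]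
      rfl
    · have h1 : ((i, (0 : Fin 2)) : Fin n × Fin 2) ≠ (i, (1 : Fin 2)) := by simp
      simp only [Fin.mk_one, Function.update_self]
      rw [Function.update_of_ne h1, Function.update_of_ne h1, Function.update_of_ne h1, map_add]
  map_update_smul' := by
    intro _ v j r x
    obtain ⟨i, c⟩ := j
    have hd : ∀ (z : E), ∏ i', q i' (Function.update v (i, c) z (i', 0))
        (Function.update v (i, c) z (i', 1)) =
        q i (Function.update v (i, c) z (i, 0)) (Function.update v (i, c) z (i, 1)) *
          ∏ i' ∈ Finset.univ.erase i, q i' (v (i', 0)) (v (i', 1)) := by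
      intro z
      rw [← Finset.mul_prod_erase Finset.univ _ (Finset.mem_univ i)]
      congr 1
      refine Finset.prod_congr rfl (fun i' hi' => ?_)
      have hne : i' ≠ i := Finset.ne_of_mem_erase hi'
      rw [Function.update_of_ne (fun h => hne (congrArg Prod.fst h)),
        Function.update_of_ne (fun h => hne (congrArg Prod.fst h))]
    rw [hd, hd, smul_eq_mul, ← mul_assoc]
    congr 1
    fin_cases c
    · have h1 : ((i, (1 : Fin 2)) : Fin n × Fin 2) ≠ (i, (0 : Fin 2)) := by simp
      simp only [Fin.zero_eta, Function.update_self]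
      rw [Function.update_of_ne h1, Function.update_of_ne h1, map_smul]
      rfl
    · have h1 : ((i, (0 : Fin 2)) : Fin n × Fin 2) ≠ (i, (1 : Fin 2)) := by simp
      simp only [Fin.mk_one, Function.update_self]
      rw [Function.update_of_ne h1, Function.update_of_ne h1, map_smul]
      rfl

theorem AlgA_ml_apply (q : Fin n → E →L[ℝ] E →L[ℝ] ℝ) (v : Fin n × Fin 2 → E) :
    AlgA_ml q v = ∏ i, q i (v (i, 0)) (v (i, 1)) := rfl

theorem AlgA_mix_eq (e : Fin n × Fin 2 → E) (q : Fin n → E →L[ℝ] E →L[ℝ] ℝ) :
    mix e q = MultilinearMap.alternatization (AlgA_ml q) e := by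
  rw [MultilinearMap.alternatization_apply, mix]
  refine Finset.sum_congr rfl (fun σ _ => ?_)
  rw [MultilinearMap.domDomCongr_apply, AlgA_ml_apply, Units.smul_def, zsmul_eq_mul]

/-- Change of basis. Proof: `mix e q` is the value at `e` of the alternatization of the multilinear
map `v ↦ ∏ i, q i (v (i, 0)) (v (i, 1))` (`MultilinearMap.alternatization_apply`), an alternating
map `f` indexed by `Fin n × Fin 2`, and `f (P ∘ B) = det P * f B` by `AlternatingMap.eq_smul_basis_det`
and `Module.Basis.det_comp`. -/
theorem mix_comp (B : Module.Basis (Fin n × Fin 2) ℝ E) (P : E →L[ℝ] E)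
    (q : Fin n → E →L[ℝ] E →L[ℝ] ℝ) :
    mix (fun i => P (B i)) q = P.det * mix B q := by
  rw [AlgA_mix_eq, AlgA_mix_eq]
  have h := congrArg (fun f : E [⋀^(Fin n × Fin 2)]→ₗ[ℝ] ℝ => f (fun i => P (B i)))
    (AlternatingMap.eq_smul_basis_det B (MultilinearMap.alternatization (AlgA_ml q)))
  have h2 : B.det (fun i => P (B i)) = P.det := by
    have := B.det_comp (P : E →ₗ[ℝ] E) B
    rw [B.det_self, mul_one] at this
    exact this
  rw [AlternatingMap.smul_apply, h2, smul_eq_mul] at h
  rw [mul_comm]
  exact h

theorem mix_bilinearComp (B : Module.Basis (Fin n × Fin 2) ℝ E) (P : E →L[ℝ] E)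
    (q : Fin n → E →L[ℝ] E →L[ℝ] ℝ) :
    mix B (fun i => (q i).bilinearComp P P) = P.det * mix B q := by
  rw [← mix_comp]
  rfl

theorem top_bilinearComp (B : Module.Basis (Fin n × Fin 2) ℝ E) (P : E →L[ℝ] E)
    (α : E →L[ℝ] E →L[ℝ] ℝ) :
    top B (α.bilinearComp P P) = P.det * top B α := by
  rw [top_eq_mix, top_eq_mix]
  exact mix_bilinearComp B P (fun _ => α)

/-- The top power of a degenerate alternating form is zero. Proof: with `f` the alternating map
above and `w = ∑ j, w j • B j`, `w j₀ ≠ 0`: `f (update B j₀ w) = w j₀ * f B`, and every term of the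
sum over permutations which gives `f (update B j₀ w)` has a factor `α w _ = 0` or `α _ w = 0`. -/
theorem top_eq_zero (B : Module.Basis (Fin n × Fin 2) ℝ E) (α : E →L[ℝ] E →L[ℝ] ℝ)
    (halt : ∀ u, α u u = 0) (w : E) (hw : w ≠ 0) (h : ∀ u, α w u = 0) : top B α = 0 := by
  obtain ⟨j, hj⟩ : ∃ j, B.repr w j ≠ 0 := by
    by_contra hcon
    push Not at hcon
    apply hw
    apply B.repr.injective
    ext i
    rw [hcon i, map_zero]
    rfl
  have h' : ∀ u, α u w = 0 := by
    intro u
    have h1 := halt (u + w)
    rw [map_add, map_add, ContinuousLinearMap.add_apply, ContinuousLinearMap.add_apply, halt u,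
      halt w, h u] at h1
    linarith
  rw [top_eq_mix, AlgA_mix_eq]
  have h1 := congrArg (fun f : E [⋀^(Fin n × Fin 2)]→ₗ[ℝ] ℝ => f (Function.update B j w))
    (AlternatingMap.eq_smul_basis_det B (MultilinearMap.alternatization (AlgA_ml fun _ => α)))
  have h2 : B.det (Function.update B j w) = B.repr w j := by
    rw [Module.Basis.det_apply, Module.Basis.toMatrix_update, Module.Basis.toMatrix_self,
      ← Matrix.cramer_apply, Matrix.cramer_one]
    rfl
  have h3 : MultilinearMap.alternatization (AlgA_ml fun _ => α) (Function.update B j w) = 0 := by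
    rw [← AlgA_mix_eq, mix]
    apply Finset.sum_eq_zero
    intro σ _
    rw [mul_eq_zero]
    right
    obtain ⟨⟨i, c⟩, hic⟩ : ∃ ic : Fin n × Fin 2, σ ic = j := ⟨σ.symm j, σ.apply_symm_apply j⟩
    refine Finset.prod_eq_zero (Finset.mem_univ i) ?_
    fin_cases c
    · have : σ (i, 0) = j := hic
      rw [this, Function.update_self, h]
    · have : σ (i, 1) = j := hic
      rw [this, Function.update_self, h']
  rw [AlternatingMap.smul_apply, h2, smul_eq_mul] at h1
  have h4 : MultilinearMap.alternatization (AlgA_ml fun _ => α) B * B.repr w j = 0 := by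
    rw [← h3]
    exact h1.symm
  exact (mul_eq_zero.mp h4).resolve_right hj

/-- Telescoping (`Finset.prod_add_ordered`). -/
theorem top_add_sub (e : Fin n × Fin 2 → E) (α δ : E →L[ℝ] E →L[ℝ] ℝ) :
    top e (α + δ) - top e α =
      ∑ i : Fin n, mix e (fun j => if j = i then δ else if j < i then α + δ else α) := by
  simp only [top, mix]
  rw [Finset.sum_comm, ← Finset.sum_sub_distrib]
  refine Finset.sum_congr rfl (fun σ _ => ?_)
  rw [← Finset.mul_sum, ← mul_sub]
  congr 1
  simp only [ContinuousLinearMap.add_apply]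
  rw [Finset.prod_add_ordered, add_sub_cancel_left]
  refine Finset.sum_congr rfl (fun i _ => ?_)
  rw [← Finset.mul_prod_erase Finset.univ _ (Finset.mem_univ i), if_pos rfl, mul_assoc]
  congr 1
  rw [← Finset.prod_filter_mul_prod_filter_not (Finset.univ.erase i) (fun j => j < i)]
  congr 1
  · have : (Finset.univ.erase i).filter (fun j => j < i) =
        Finset.univ.filter (fun j => j < i) := by
      ext j
      simp only [Finset.mem_filter, Finset.mem_erase, Finset.mem_univ, and_true, true_and]
      constructor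
      · exact fun h => h.2
      · exact fun h => ⟨ne_of_lt h, h⟩
    rw [this]
    refine Finset.prod_congr rfl (fun j hj => ?_)
    have hj' : j < i := (Finset.mem_filter.mp hj).2
    rw [if_neg (ne_of_lt hj'), if_pos hj']
    rfl
  · have : (Finset.univ.erase i).filter (fun j => ¬ j < i) =
        Finset.univ.filter (fun j => i < j) := by
      ext j
      simp only [Finset.mem_filter, Finset.mem_erase, Finset.mem_univ, and_true, true_and, not_lt]
      constructor
      · exact fun h => lt_of_le_of_ne h.2 (Ne.symm h.1)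
      · exact fun h => ⟨ne_of_gt h, h.le⟩
    rw [this]
    refine Finset.prod_congr rfl (fun j hj => ?_)
    have hj' : i < j := (Finset.mem_filter.mp hj).2
    rw [if_neg (ne_of_gt hj'), if_neg (not_lt.mpr hj'.le)]

/-- The standard bases as bases. -/
theorem exists_basisV {k b : ℕ} (π : Fin n × Fin 2 ≃ Fin k ⊕ Fin b) :
    ∃ B : Module.Basis (Fin n × Fin 2) ℝ (V k b), ∀ i, B i = stdV (π i) := by
  refine ⟨((Pi.basisFun ℝ (Fin k)).prod (Pi.basisFun ℝ (Fin b))).reindex π.symm, fun i => ?_⟩
  rw [Module.Basis.reindex_apply, Equiv.symm_symm]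
  rcases π i with j | j
  · simp [stdV]
  · simp [stdV]

theorem exists_basisR {b : ℕ} (π : Fin n × Fin 2 ≃ Fin b) :
    ∃ B : Module.Basis (Fin n × Fin 2) ℝ (R b), ∀ i, B i = stdR (π i) := by
  refine ⟨(Pi.basisFun ℝ (Fin b)).reindex π.symm, fun i => ?_⟩
  rw [Module.Basis.reindex_apply, Equiv.symm_symm, Pi.basisFun_apply]
  rfl

end Pool.Agent.W_9986fc_h15
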