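import Pool.Agent.W_9986fc_h15.AlgJ

/-!
Algebra: symplectic bases and nondegenerate forms.
-/

set_option autoImplicit false
set_option maxSynthPendingDepth 3

open scoped ContDiff Matrix

namespace Pool.Agent.W_9986fc_h15

universe u

/-- the relations of a symplectic basis -/
structure AlgB_Rel {F : Type*} [AddCommGroup F] [Module ℝ F] (β : F →ₗ[ℝ] F →ₗ[ℝ] ℝ) {m : ℕ}
    (e f : Fin m → F) : Prop where
  ee : ∀ i j, β (e i) (e j) = 0
  ff : ∀ i j, β (f i) (f j) = 0
  ef : ∀ i j, β (e i) (f j) = if i = j then 1 else 0

theorem AlgB_swap {F : Type*} [AddCommGroup F] [Module ℝ F] (β : F →ₗ[ℝ] F →ₗ[ℝ] ℝ)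
    (halt : ∀ u, β u u = 0) (u w : F) : β w u = -β u w := by
  have h := halt (u + w)
  simp only [map_add, LinearMap.add_apply, halt, zero_add, add_zero] at h
  linarith

theorem AlgB_exists (N : ℕ) : ∀ (F : Type u) [AddCommGroup F] [Module ℝ F]
    [FiniteDimensional ℝ F] (β : F →ₗ[ℝ] F →ₗ[ℝ] ℝ), Module.finrank ℝ F = N →
    (∀ u, β u u = 0) → (∀ w, (∀ u, β w u = 0) → w = 0) →
    ∃ (m : ℕ) (e f : Fin m → F), Module.finrank ℝ F = 2 * m ∧ AlgB_Rel β e f := by
  induction N using Nat.strong_induction_on with
  | _ N ih =>
    intro F _ _ _ β hN halt hnd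
    rcases Nat.eq_zero_or_pos N with h0 | hpos
    · exact ⟨0, Fin.elim0, Fin.elim0, by omega, ⟨fun i => i.elim0, fun i => i.elim0,
        fun i => i.elim0⟩⟩
    · have hnt : Nontrivial F := Module.nontrivial_of_finrank_pos (R := ℝ) (by omega)
      obtain ⟨u, hu⟩ := exists_ne (0 : F)
      obtain ⟨w0, hw0⟩ : ∃ w, β u w ≠ 0 := by
        by_contra hcon
        push Not at hcon
        exact hu (hnd u hcon)
      set w : F := (β u w0)⁻¹ • w0 with hw
      have huw : β u w = 1 := by
        rw [hw, map_smul, smul_eq_mul, inv_mul_cancel₀ hw0]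
      have hsw := AlgB_swap β halt
      have hwu : β w u = -1 := by rw [hsw u w, huw]
      set φ : F →ₗ[ℝ] ℝ × ℝ := (β u).prod (β w) with hφ
      have hsurj : LinearMap.range φ = ⊤ := by
        rw [LinearMap.range_eq_top]
        rintro ⟨a, c⟩
        refine ⟨a • w - c • u, ?_⟩
        show (β u (a • w - c • u), β w (a • w - c • u)) = (a, c)
        simp only [map_sub, map_smul, smul_eq_mul, huw, hwu, halt]
        simp
      have hker : ∀ x, x ∈ LinearMap.ker φ ↔ β u x = 0 ∧ β w x = 0 := by
        intro x
        rw [LinearMap.mem_ker]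
        show (β u x, β w x) = ((0 : ℝ), (0 : ℝ)) ↔ _
        rw [Prod.mk.injEq]
      have hdim := LinearMap.finrank_range_add_finrank_ker φ
      rw [hsurj, finrank_top, Module.finrank_prod, Module.finrank_self] at hdim
      set γ : LinearMap.ker φ →ₗ[ℝ] LinearMap.ker φ →ₗ[ℝ] ℝ :=
        (β.compl₁₂ (LinearMap.ker φ).subtype (LinearMap.ker φ).subtype) with hγ
      have hγa : ∀ x y, γ x y = β (x : F) (y : F) := fun x y => rfl
      obtain ⟨m, e, f, hm, hrel⟩ := ih (Module.finrank ℝ (LinearMap.ker φ)) (by omega)
        (LinearMap.ker φ) γ rfl (fun x => halt x) (by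
          intro x hx
          apply Subtype.ext
          apply hnd
          intro z
          obtain ⟨hx1, hx2⟩ := (hker x).1 x.2
          have hz' : z - β u z • w + β w z • u ∈ LinearMap.ker φ := by
            rw [hker]
            simp only [map_add, map_sub, map_smul, smul_eq_mul, huw, hwu, halt]
            constructor <;> ring
          have h1 := hx ⟨_, hz'⟩
          rw [hγa] at h1
          simp only [map_add, map_sub, map_smul, smul_eq_mul] at h1
          rw [hsw w x, hsw u x, hx1, hx2] at h1
          simpa using h1)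
      refine ⟨m + 1, Fin.cons u (fun i => (e i : F)), Fin.cons w (fun i => (f i : F)),
        by omega, ?_, ?_, ?_⟩
      · intro i j
        refine Fin.cases ?_ (fun i => ?_) i <;> refine Fin.cases ?_ (fun j => ?_) j
        · simp only [Fin.cons_zero, halt]
        · simp only [Fin.cons_zero, Fin.cons_succ]
          exact ((hker _).1 (e j).2).1
        · simp only [Fin.cons_zero, Fin.cons_succ]
          rw [hsw u, ((hker _).1 (e i).2).1, neg_zero]
        · simp only [Fin.cons_succ]
          exact hrel.ee i j
      · intro i j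
        refine Fin.cases ?_ (fun i => ?_) i <;> refine Fin.cases ?_ (fun j => ?_) j
        · simp only [Fin.cons_zero, halt]
        · simp only [Fin.cons_zero, Fin.cons_succ]
          exact ((hker _).1 (f j).2).2
        · simp only [Fin.cons_zero, Fin.cons_succ]
          rw [hsw w, ((hker _).1 (f i).2).2, neg_zero]
        · simp only [Fin.cons_succ]
          exact hrel.ff i j
      · intro i j
        refine Fin.cases ?_ (fun i => ?_) i <;> refine Fin.cases ?_ (fun j => ?_) j
        · simp only [Fin.cons_zero, huw, if_true]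
        · simp only [Fin.cons_zero, Fin.cons_succ]
          rw [if_neg (Fin.succ_ne_zero j).symm]
          exact ((hker _).1 (f j).2).1
        · simp only [Fin.cons_zero, Fin.cons_succ]
          rw [if_neg (Fin.succ_ne_zero i), hsw w, ((hker _).1 (e i).2).2, neg_zero]
        · simp only [Fin.cons_succ, Fin.succ_inj]
          exact hrel.ef i j

section General

variable {E : Type*} [NormedAddCommGroup E] [NormedSpace ℝ E] [FiniteDimensional ℝ E] {m : ℕ}

/-- the symplectic basis as a basis -/
theorem AlgB_basis (α : E →L[ℝ] E →L[ℝ] ℝ)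
    (halt : ∀ u, α u u = 0) (hnd : ∀ w, (∀ u, α w u = 0) → w = 0) :
    ∃ (m : ℕ) (B : Module.Basis (Fin m × Fin 2) ℝ E), Module.finrank ℝ E = 2 * m ∧
      (∀ i j, α (B (i, 0)) (B (j, 0)) = 0) ∧ (∀ i j, α (B (i, 1)) (B (j, 1)) = 0) ∧
      (∀ i j, α (B (i, 0)) (B (j, 1)) = if i = j then 1 else 0) := by
  set β : E →ₗ[ℝ] E →ₗ[ℝ] ℝ := LinearMap.mk₂ ℝ (fun u w => α u w)
    (fun u u' w => by simp) (fun c u w => by simp) (fun u w w' => by simp)
    (fun c u w => by simp) with hβ
  have hβa : ∀ u w, β u w = α u w := fun u w => rfl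
  obtain ⟨m, e, f, hm, hrel⟩ := AlgB_exists (Module.finrank ℝ E) E β rfl halt hnd
  have hsw := AlgB_swap β halt
  set v : Fin m × Fin 2 → E := fun p => if p.2 = 0 then e p.1 else f p.1 with hv
  have hv0 : ∀ i, v (i, 0) = e i := fun i => by simp [hv]
  have hv1 : ∀ i, v (i, 1) = f i := fun i => by simp [hv]
  have hli : LinearIndependent ℝ v := by
    rw [Fintype.linearIndependent_iff]
    intro g hg p
    obtain ⟨k, l⟩ := p
    rw [Fintype.sum_prod_type] at hg
    simp only [Fin.sum_univ_two, hv0, hv1] at hg
    have h1 := congrArg (β (e k)) hg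
    have h2 := congrArg (β (f k)) hg
    simp only [map_sum, map_add, map_smul, smul_eq_mul, map_zero, hrel.ee, hrel.ef] at h1
    have h3 : ∀ i, β (f k) (e i) = if i = k then -1 else 0 := by
      intro i
      rw [hsw (e i) (f k), hrel.ef]
      split_ifs <;> simp
    simp only [map_sum, map_add, map_smul, smul_eq_mul, map_zero, hrel.ff, h3] at h2
    simp at h1 h2
    fin_cases l
    · exact h2
    · exact h1
  have hcard : Fintype.card (Fin m × Fin 2) = Module.finrank ℝ E := by
    rw [Fintype.card_prod, Fintype.card_fin, Fintype.card_fin, hm, mul_comm]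
  rcases Nat.eq_zero_or_pos m with h0 | hpos
  · subst h0
    have hE : Module.finrank ℝ E = 0 := by omega
    have hsub : Subsingleton E := Module.finrank_zero_iff.1 hE
    exact ⟨0, Module.Basis.empty E, by omega, fun i => i.elim0, fun i => i.elim0,
      fun i => i.elim0⟩
  · haveI : Nonempty (Fin m × Fin 2) := ⟨(⟨0, hpos⟩, 0)⟩
    refine ⟨m, basisOfLinearIndependentOfCardEqFinrank hli hcard, hm, ?_, ?_, ?_⟩
    · intro i j
      rw [coe_basisOfLinearIndependentOfCardEqFinrank, hv0, hv0]
      exact hrel.ee i j
    · intro i j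
      rw [coe_basisOfLinearIndependentOfCardEqFinrank, hv1, hv1]
      exact hrel.ff i j
    · intro i j
      rw [coe_basisOfLinearIndependentOfCardEqFinrank, hv0, hv1]
      exact hrel.ef i j

/-- Symplectic bases exist: a nondegenerate alternating form is a pullback of the standard
form. Proof: induction on the dimension (take `u ≠ 0`, `w` with `α u w = 1`, and the orthogonal
complement of the span of `u` and `w`); this gives a basis `B'` in which `α` is standard, and `P` is
the linear map with `P (B' i) = B i`. -/
theorem exists_pullback (B : Module.Basis (Fin m × Fin 2) ℝ E) (α : E →L[ℝ] E →L[ℝ] ℝ)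
    (halt : ∀ u, α u u = 0) (hnd : ∀ w, (∀ u, α w u = 0) → w = 0) :
    ∃ P : E →L[ℝ] E, P.det ≠ 0 ∧ α = (J B).bilinearComp P P := by
  obtain ⟨m', B', hm', h00, h11, h01⟩ := AlgB_basis α halt hnd
  have hfin : Module.finrank ℝ E = 2 * m := by
    rw [Module.finrank_eq_card_basis B, Fintype.card_prod, Fintype.card_fin, Fintype.card_fin,
      mul_comm]
  have hmm : m' = m := by omega
  subst hmm
  set e : E ≃ₗ[ℝ] E := B'.equiv B (Equiv.refl _) with he
  have heB : ∀ i, e (B' i) = B i := fun i => by
    rw [he, Module.Basis.equiv_apply, Equiv.refl_apply]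
  refine ⟨LinearMap.toContinuousLinearMap (e : E →ₗ[ℝ] E), ?_, ?_⟩
  · have h1 : (LinearMap.toContinuousLinearMap (e : E →ₗ[ℝ] E)).det =
        LinearMap.det (e : E →ₗ[ℝ] E) := rfl
    rw [h1]
    exact (LinearEquiv.isUnit_det' e).ne_zero
  · have hsw : ∀ u w, α w u = -α u w := by
      intro u w
      have h := halt (u + w)
      simp only [map_add, ContinuousLinearMap.add_apply, halt, zero_add, add_zero] at h
      linarith
    have hkey : ∀ i j, α (B' i) (B' j) = J B (B i) (B j) := by
      rintro ⟨i, a⟩ ⟨j, c⟩
      rw [J_apply]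
      simp only [Module.Basis.coord_apply, Module.Basis.repr_self]
      fin_cases a <;> fin_cases c
      · show α (B' (i, 0)) (B' (j, 0)) = _
        rw [h00]
        symm
        apply Finset.sum_eq_zero
        intro k _
        simp [Finsupp.single_apply]
      · show α (B' (i, 0)) (B' (j, 1)) = _
        rw [h01]
        simp only [Finsupp.single_apply]
        by_cases hij : i = j
        · subst hij
          rw [if_pos rfl, Finset.sum_eq_single i]
          · simp
          · intro k _ hk
            simp [Ne.symm hk]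
          · intro h
            exact absurd (Finset.mem_univ i) h
        · rw [if_neg hij]
          symm
          apply Finset.sum_eq_zero
          intro k _
          by_cases hk : i = k
          · subst hk
            simp [Ne.symm hij]
          · simp [hk]
      · show α (B' (i, 1)) (B' (j, 0)) = _
        rw [hsw, h01]
        simp only [Finsupp.single_apply]
        by_cases hij : j = i
        · subst hij
          rw [if_pos rfl, Finset.sum_eq_single j]
          · simp
          · intro k _ hk
            simp [Ne.symm hk]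
          · intro h
            exact absurd (Finset.mem_univ j) h
        · rw [if_neg hij, neg_zero]
          symm
          apply Finset.sum_eq_zero
          intro k _
          by_cases hk : i = k
          · subst hk
            simp [hij]
          · simp [hk]
      · show α (B' (i, 1)) (B' (j, 1)) = _
        rw [h11]
        symm
        apply Finset.sum_eq_zero
        intro k _
        simp [Finsupp.single_apply]
    refine ContinuousLinearMap.ext fun u => ContinuousLinearMap.ext fun w => ?_
    rw [ContinuousLinearMap.bilinearComp_apply]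
    show α u w = J B (e u) (e w)
    have hu : u = ∑ i, B'.repr u i • B' i := (B'.sum_repr u).symm
    have hw : w = ∑ i, B'.repr w i • B' i := (B'.sum_repr w).symm
    rw [hu, hw]
    simp only [map_sum, map_smul, ContinuousLinearMap.sum_apply, ContinuousLinearMap.smul_apply,
      hkey, heB]

/-- There is no nondegenerate alternating form on an odd dimensional space. -/
theorem even_of_nondegenerate (α : E →L[ℝ] E →L[ℝ] ℝ)
    (halt : ∀ u, α u u = 0) (hnd : ∀ w, (∀ u, α w u = 0) → w = 0) :
    ∃ m, Module.finrank ℝ E = 2 * m := by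
  obtain ⟨m, _, hm, _⟩ := AlgB_basis α halt hnd
  exact ⟨m, hm⟩

theorem top_ne_zero (B : Module.Basis (Fin m × Fin 2) ℝ E) (α : E →L[ℝ] E →L[ℝ] ℝ)
    (halt : ∀ u, α u u = 0) (hnd : ∀ w, (∀ u, α w u = 0) → w = 0) : top B α ≠ 0 := by
  obtain ⟨P, hP, hα⟩ := exists_pullback B α halt hnd
  rw [hα, top_bilinearComp]
  exact mul_ne_zero hP (top_J_pos B).ne'

/-- A linear map which preserves a nondegenerate alternating form has determinant one. -/
theorem det_eq_one (α : E →L[ℝ] E →L[ℝ] ℝ) (halt : ∀ u, α u u = 0)
    (hnd : ∀ w, (∀ u, α w u = 0) → w = 0) (P : E →L[ℝ] E) (hP : ∀ u w, α (P u) (P w) = α u w) :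
    P.det = 1 := by
  obtain ⟨m, B, _, _⟩ := AlgB_basis α halt hnd
  have h1 : α.bilinearComp P P = α :=
    ContinuousLinearMap.ext fun u => ContinuousLinearMap.ext fun w => by
      rw [ContinuousLinearMap.bilinearComp_apply]
      exact hP u w
  have h2 := top_bilinearComp B P α
  rw [h1] at h2
  have h3 := top_ne_zero B α halt hnd
  exact mul_right_cancel₀ h3 (by rw [one_mul]; exact h2.symm)

end General

/-- The dimension of the kernel of an alternating form has the parity of the dimension (apply
`even_of_nondegenerate` to a complement of the kernel). -/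
theorem even_rank {k : ℕ} (c : R k →L[ℝ] R k →L[ℝ] ℝ) (halt : ∀ u, c u u = 0) :
    ∃ r, Module.finrank ℝ (kerC c) + 2 * r = k := by
  obtain ⟨W, hW⟩ := Submodule.exists_isCompl (kerC c)
  have hsw : ∀ u w, c w u = -c u w := by
    intro u w
    have h := halt (u + w)
    simp only [map_add, ContinuousLinearMap.add_apply, halt, zero_add, add_zero] at h
    linarith
  have hmem : ∀ x, x ∈ kerC c ↔ c x = 0 := fun x => LinearMap.mem_ker
  obtain ⟨r, hr⟩ := even_of_nondegenerate (c.bilinearComp W.subtypeL W.subtypeL)
    (fun u => halt u) (by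
      intro w hw
      have h1 : (w : R k) ∈ kerC c := by
        rw [hmem]
        refine ContinuousLinearMap.ext fun v => ?_
        obtain ⟨a, ha, d, hd, rfl⟩ := Submodule.mem_sup.1
          (show v ∈ kerC c ⊔ W by rw [hW.sup_eq_top]; exact Submodule.mem_top)
        have h2 : c w d = 0 := hw ⟨d, hd⟩
        have h3 : c w a = 0 := by
          rw [hsw a w, (hmem a).1 ha]
          simp
        rw [map_add, h2, h3, add_zero]
        rfl
      have h4 : (w : R k) ∈ kerC c ⊓ W := ⟨h1, w.2⟩
      rw [hW.inf_eq_bot, Submodule.mem_bot] at h4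
      exact Subtype.ext h4)
  refine ⟨r, ?_⟩
  have h5 := Submodule.finrank_add_eq_of_isCompl hW
  rw [hr, Module.finrank_fin_fun] at h5
  exact h5

end Pool.Agent.W_9986fc_h15
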