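import Pool.Agent.W_9986fc_h15.AlgA

/-!
The standard symplectic form.
-/

set_option autoImplicit false
set_option maxSynthPendingDepth 3

open scoped ContDiff Matrix

namespace Pool.Agent.W_9986fc_h15

section General

variable {E : Type*} [NormedAddCommGroup E] [NormedSpace ℝ E] [FiniteDimensional ℝ E] {m : ℕ}

/-- The coordinate functional. -/
noncomputable def coordL {ι : Type*} (B : Module.Basis ι ℝ E) (i : ι) : E →L[ℝ] ℝ :=
  LinearMap.toContinuousLinearMap (B.coord i)

/-- The standard symplectic form of the basis `B`. -/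
noncomputable def J (B : Module.Basis (Fin m × Fin 2) ℝ E) : E →L[ℝ] E →L[ℝ] ℝ :=
  ∑ i : Fin m, wedge (coordL B (i, 0)) (coordL B (i, 1))

theorem J_apply (B : Module.Basis (Fin m × Fin 2) ℝ E) (u w : E) :
    J B u w = ∑ i : Fin m, (B.coord (i, 0) u * B.coord (i, 1) w -
      B.coord (i, 1) u * B.coord (i, 0) w) := by
  simp [J, wedge, coordL]

theorem AlgJ_val (B : Module.Basis (Fin m × Fin 2) ℝ E) (p r : Fin m × Fin 2) :
    J B (B p) (B r) = if p.1 = r.1 then
      (if p.2 = 0 then (1 : ℝ) else 0) * (if r.2 = 1 then 1 else 0) -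
        (if p.2 = 1 then 1 else 0) * (if r.2 = 0 then 1 else 0) else 0 := by
  rw [J_apply]
  simp only [Module.Basis.coord_apply, Module.Basis.repr_self, Finsupp.single_apply, Prod.ext_iff]
  by_cases h : p.1 = r.1
  · rw [if_pos h, Finset.sum_eq_single p.1]
    · simp [h]
    · intro i _ hi
      have hi' : ¬ (p.1 = i) := fun h' => hi h'.symm
      simp [hi']
    · intro h'
      exact absurd (Finset.mem_univ _) h'
  · rw [if_neg h]
    refine Finset.sum_eq_zero fun i _ => ?_
    by_cases h1 : p.1 = i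
    · have h2 : ¬ (r.1 = i) := fun h' => h (h1.trans h'.symm)
      simp [h2]
    · simp [h1]

theorem AlgJ_fin2 (a b : Fin 2) (h : a ≠ b) : b = if a = 0 then 1 else 0 := by
  revert a b
  decide

theorem AlgJ_term (B : Module.Basis (Fin m × Fin 2) ℝ E) (σ : Equiv.Perm (Fin m × Fin 2)) :
    0 ≤ ((Equiv.Perm.sign σ : ℤ) : ℝ) * ∏ i, J B (B (σ (i, 0))) (B (σ (i, 1))) := by
  by_cases h : ∀ i, (σ (i, 0)).1 = (σ (i, 1)).1
  · have hne : ∀ i, (σ (i, 0)).2 ≠ (σ (i, 1)).2 := by
      intro i hi
      have h1 : σ (i, 0) = σ (i, 1) := Prod.ext (h i) hi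
      have h2 : (0 : Fin 2) = 1 := congrArg Prod.snd (σ.injective h1)
      exact absurd h2 (by decide)
    have hsnd : ∀ i, (σ (i, 1)).2 = if (σ (i, 0)).2 = 0 then 1 else 0 := fun i =>
      AlgJ_fin2 _ _ (hne i)
    have hinj : Function.Injective fun i => (σ (i, 0)).1 := by
      intro i j hij
      have hij' : (σ (i, 0)).1 = (σ (j, 0)).1 := hij
      by_cases h2 : (σ (i, 0)).2 = (σ (j, 0)).2
      · exact congrArg Prod.fst (σ.injective (Prod.ext hij' h2))
      · have h3 : (σ (j, 1)).2 = (σ (i, 0)).2 := by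
          rw [AlgJ_fin2 _ _ (Ne.symm h2)]
          exact hsnd j
        have h4 : σ (i, 0) = σ (j, 1) := Prod.ext (hij'.trans (h j)) h3.symm
        exact congrArg Prod.fst (σ.injective h4)
    obtain ⟨π, hπ⟩ : ∃ π : Equiv.Perm (Fin m), ∀ i, π i = (σ (i, 0)).1 :=
      ⟨Equiv.ofBijective _ (Finite.injective_iff_bijective.1 hinj), fun _ => rfl⟩
    obtain ⟨F, hF⟩ : ∃ F : Fin m → Equiv.Perm (Fin 2),
        ∀ i, F i = if (σ (i, 0)).2 = 0 then 1 else Equiv.swap 0 1 := ⟨_, fun _ => rfl⟩
    have hσ : σ = Equiv.prodCongrLeft (fun _ : Fin 2 => π) * Equiv.prodCongrRight F := by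
      ext x : 1
      obtain ⟨i, b⟩ := x
      show σ (i, b) = (π i, F i b)
      fin_cases b
      · refine Prod.ext (hπ i).symm ?_
        show (σ (i, 0)).2 = F i 0
        rw [hF]
        generalize (σ (i, 0)).2 = c
        revert c
        decide
      · refine Prod.ext ((h i).symm.trans (hπ i).symm) ?_
        show (σ (i, 1)).2 = F i 1
        rw [hF, hsnd i]
        generalize (σ (i, 0)).2 = c
        revert c
        decide
    have hsign : Equiv.Perm.sign σ = ∏ i, Equiv.Perm.sign (F i) := by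
      conv_lhs => rw [hσ]
      rw [Equiv.Perm.sign_mul, Equiv.Perm.sign_prodCongrLeft, Equiv.Perm.sign_prodCongrRight,
        Fin.prod_univ_two, Int.units_mul_self, one_mul]
    have hval : ∀ i, J B (B (σ (i, 0))) (B (σ (i, 1))) = ((Equiv.Perm.sign (F i) : ℤ) : ℝ) := by
      intro i
      rw [AlgJ_val, if_pos (h i), hF, hsnd i]
      generalize (σ (i, 0)).2 = c
      fin_cases c <;> simp
    have hprod : ∏ i, J B (B (σ (i, 0))) (B (σ (i, 1))) =
        ((Equiv.Perm.sign σ : ℤ) : ℝ) := by
      rw [hsign, Finset.prod_congr rfl fun i _ => hval i]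
      push_cast
      rfl
    rw [hprod]
    exact mul_self_nonneg _
  · rw [not_forall] at h
    obtain ⟨i, hi⟩ := h
    rw [Finset.prod_eq_zero (Finset.mem_univ i), mul_zero]
    rw [AlgJ_val, if_neg hi]

/-- The top power of the standard form is positive. Proof: a permutation `σ` gives a nonzero term
only if `σ (i, 1)` is the partner of `σ (i, 0)` for all `i`; then `σ` is a permutation of the pairs
(of sign one: it acts twice by the same permutation of `Fin m`) composed with flips of pairs, and
the term is the square of the product of the signs of the flips (see `Equiv.Perm.sign_prodCongrRight`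
and `Equiv.Perm.sign_prodCongrLeft`). So every term is nonnegative and the term of `σ = 1` is one. -/
theorem top_J_pos (B : Module.Basis (Fin m × Fin 2) ℝ E) : 0 < top B (J B) := by
  unfold top
  refine Finset.sum_pos' (fun σ _ => AlgJ_term B σ) ⟨1, Finset.mem_univ _, ?_⟩
  rw [Equiv.Perm.sign_one]
  have h : ∀ i : Fin m, J B (B ((1 : Equiv.Perm (Fin m × Fin 2)) (i, 0)))
      (B ((1 : Equiv.Perm (Fin m × Fin 2)) (i, 1))) = 1 := by
    intro i
    rw [Equiv.Perm.one_apply, Equiv.Perm.one_apply, AlgJ_val]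
    simp
  rw [Finset.prod_congr rfl fun i _ => h i]
  simp

end General

end Pool.Agent.W_9986fc_h15
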