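import Pool.Agent.W_9986fc_h15.Defs

/-!
Averages and primitives in the direction of one vector.
-/

set_option autoImplicit false
set_option maxSynthPendingDepth 3

open scoped ContDiff Matrix

namespace Pool.Agent.W_9986fc_h15

variable {E : Type*} [NormedAddCommGroup E] [NormedSpace ℝ E]
  {H : Type*} [NormedAddCommGroup H] [NormedSpace ℝ H] [CompleteSpace H]

/-- `x ↦ ∫ t in 0..1, w t • F (x + t • e)`. -/
noncomputable def wavg (w : ℝ → ℝ) (e : E) (F : E → H) (x : E) : H :=
  ∫ t in (0 : ℝ)..1, w t • F (x + t • e)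

/-- The average in the direction `e`. -/
noncomputable def avg (e : E) (F : E → H) (x : E) : H := ∫ t in (0 : ℝ)..1, F (x + t • e)

/-- The primitive in the direction `e`. -/
noncomputable def prim (e : E) (F : E → H) (x : E) : H :=
  ∫ t in (0 : ℝ)..1, (t - 1 / 2) • F (x + t • e)

theorem wavg_one (e : E) (F : E → H) : wavg (fun _ => 1) e F = avg e F := by
  funext x
  simp [wavg, avg]

theorem wavg_prim (e : E) (F : E → H) : wavg (fun t => t - 1 / 2) e F = prim e F := rfl

theorem Avg_seg (e : E) : Continuous fun p : E × ℝ => p.1 + p.2 • e :=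
  continuous_fst.add (continuous_snd.smul continuous_const)

theorem Avg_line (e x : E) : Continuous fun t : ℝ => x + t • e :=
  continuous_const.add (continuous_id.smul continuous_const)

theorem Avg_int (w : ℝ → ℝ) (hw : Continuous w) (e : E) (F : E → H) (hF : Continuous F) (x : E) :
    IntervalIntegrable (fun t => w t • F (x + t • e)) MeasureTheory.volume 0 1 :=
  (hw.smul (hF.comp (Avg_line e x))).intervalIntegrable 0 1

/-- Differentiation under the integral sign
(`intervalIntegral.hasFDerivAt_integral_of_dominated_of_fderiv_le` on a small ball; the derivative of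
`F` is bounded on a neighbourhood of the compact segment). -/
theorem hasFDerivAt_wavg (w : ℝ → ℝ) (hw : Continuous w) (e : E) (F : E → H)
    (hF : ContDiff ℝ 1 F) (x : E) :
    HasFDerivAt (wavg w e F) (wavg w e (fderiv ℝ F) x) x := by
  have hc' : Continuous (fderiv ℝ F) := hF.continuous_fderiv (by norm_num)
  have hd : Differentiable ℝ F := hF.differentiable (by norm_num)
  have hcont : Continuous fun p : E × ℝ => w p.2 • fderiv ℝ F (p.1 + p.2 • e) :=
    (hw.comp continuous_snd).smul (hc'.comp (Avg_seg e))
  have hx : Continuous fun t : ℝ => w t • fderiv ℝ F (x + t • e) :=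
    hw.smul (hc'.comp (Avg_line e x))
  obtain ⟨C, hC⟩ := (isCompact_Icc (a := (0 : ℝ)) (b := 1)).exists_bound_of_continuousOn
    hx.continuousOn
  have hev : ∀ᶠ y in nhds x, ∀ t ∈ Set.Icc (0 : ℝ) 1,
      ‖w t • fderiv ℝ F (y + t • e)‖ < C + 1 := by
    refine (isCompact_Icc (a := (0 : ℝ)) (b := 1)).eventually_forall_of_forall_eventually
      (P := fun y t => ‖w t • fderiv ℝ F (y + t • e)‖ < C + 1) ?_
    intro t ht
    have h1 : ‖w t • fderiv ℝ F (x + t • e)‖ < C + 1 := by
      have := hC t ht
      linarith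
    exact (hcont.norm.tendsto (x, t)).eventually (gt_mem_nhds h1)
  have key := intervalIntegral.hasFDerivAt_integral_of_dominated_of_fderiv_le
    (𝕜 := ℝ) (μ := MeasureTheory.volume) (a := 0) (b := 1)
    (F := fun y t => w t • F (y + t • e)) (F' := fun y t => w t • fderiv ℝ F (y + t • e))
    (x₀ := x) (bound := fun _ => C + 1) hev ?_ ?_ ?_ ?_ ?_ ?_
  · exact key
  · refine Filter.Eventually.of_forall fun y => ?_
    exact (hw.smul (hF.continuous.comp (Avg_line e y))).aestronglyMeasurable
  · exact Avg_int w hw e F hF.continuous x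
  · exact hx.aestronglyMeasurable
  · refine Filter.Eventually.of_forall fun t ht y hy => ?_
    have ht' : t ∈ Set.Icc (0 : ℝ) 1 := by
      rw [Set.uIoc_of_le zero_le_one] at ht
      exact ⟨ht.1.le, ht.2⟩
    exact (hy t ht').le
  · exact intervalIntegrable_const
  · refine Filter.Eventually.of_forall fun t _ y _ => ?_
    exact ((hasFDerivAt_comp_add_right (t • e)).2 (hd (y + t • e)).hasFDerivAt).const_smul (w t)

theorem fderiv_wavg (w : ℝ → ℝ) (hw : Continuous w) (e : E) (F : E → H)
    (hF : ContDiff ℝ 1 F) (x : E) : fderiv ℝ (wavg w e F) x = wavg w e (fderiv ℝ F) x := by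
  exact (hasFDerivAt_wavg w hw e F hF x).fderiv

theorem Avg_clm {H' : Type*} [NormedAddCommGroup H'] [NormedSpace ℝ H'] [CompleteSpace H']
    (T : H →L[ℝ] H') (w : ℝ → ℝ) (hw : Continuous w) (e : E) (F : E → H) (hF : Continuous F)
    (x : E) : wavg w e (fun y => T (F y)) x = T (wavg w e F x) := by
  rw [wavg, wavg, ← ContinuousLinearMap.intervalIntegral_comp_comm T (Avg_int w hw e F hF x)]
  simp only [map_smul]

theorem Avg_iter (w : ℝ → ℝ) (hw : Continuous w) (e : E) (F : E → H) (hF : ContDiff ℝ ∞ F)
    (m : ℕ) : iteratedFDeriv ℝ m (wavg w e F) = wavg w e (iteratedFDeriv ℝ m F) := by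
  induction m with
  | zero =>
    funext x
    rw [iteratedFDeriv_zero_eq_comp, iteratedFDeriv_zero_eq_comp]
    exact (Avg_clm
      (continuousMultilinearCurryFin0 ℝ E H).symm.toContinuousLinearEquiv.toContinuousLinearMap
      w hw e F hF.continuous x).symm
  | succ m ih =>
    have h1 : ContDiff ℝ 1 (iteratedFDeriv ℝ m F) := by
      refine (hF.iteratedFDeriv_right (m := 1) (i := m) ?_)
      exact_mod_cast le_top
    funext x
    rw [iteratedFDeriv_succ_eq_comp_left, ih, iteratedFDeriv_succ_eq_comp_left]
    rw [Function.comp_apply, fderiv_wavg w hw e (iteratedFDeriv ℝ m F) h1 x]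
    exact (Avg_clm (continuousMultilinearCurryLeftEquiv ℝ
      (fun _ : Fin (m + 1) => E) H).symm.toContinuousLinearEquiv.toContinuousLinearMap w hw e
      (fderiv ℝ (iteratedFDeriv ℝ m F)) (h1.continuous_fderiv (by norm_num)) x).symm

/-- By induction on the order of differentiability. -/
theorem contDiff_wavg (w : ℝ → ℝ) (hw : Continuous w) (e : E) (F : E → H)
    (hF : ContDiff ℝ ∞ F) : ContDiff ℝ ∞ (wavg w e F) := by
  refine contDiff_of_differentiable_iteratedFDeriv (n := ⊤) fun m _ x => ?_
  rw [Avg_iter w hw e F hF m]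
  refine (hasFDerivAt_wavg w hw e (iteratedFDeriv ℝ m F) ?_ x).differentiableAt
  refine (hF.iteratedFDeriv_right (m := 1) (i := m) ?_)
  exact_mod_cast le_top

theorem contDiff_avg (e : E) (F : E → H) (hF : ContDiff ℝ ∞ F) : ContDiff ℝ ∞ (avg e F) := by
  rw [← wavg_one]
  exact contDiff_wavg _ continuous_const e F hF

theorem contDiff_prim (e : E) (F : E → H) (hF : ContDiff ℝ ∞ F) : ContDiff ℝ ∞ (prim e F) := by
  rw [← wavg_prim]
  exact contDiff_wavg _ (continuous_id.sub continuous_const) e F hF

theorem fderiv_avg (e : E) (F : E → H) (hF : ContDiff ℝ ∞ F) (x : E) :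
    fderiv ℝ (avg e F) x = avg e (fderiv ℝ F) x := by
  rw [← wavg_one, ← wavg_one]
  exact fderiv_wavg _ continuous_const e F (hF.of_le (by exact_mod_cast le_top)) x

theorem fderiv_prim (e : E) (F : E → H) (hF : ContDiff ℝ ∞ F) (x : E) :
    fderiv ℝ (prim e F) x = prim e (fderiv ℝ F) x := by
  rw [← wavg_prim, ← wavg_prim]
  exact fderiv_wavg _ (continuous_id.sub continuous_const) e F
    (hF.of_le (by exact_mod_cast le_top)) x

/-- Averages and primitives commute with continuous linear maps. -/
theorem wavg_clm {H' : Type*} [NormedAddCommGroup H'] [NormedSpace ℝ H'] [CompleteSpace H']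
    (T : H →L[ℝ] H') (w : ℝ → ℝ) (hw : Continuous w) (e : E) (F : E → H) (hF : Continuous F)
    (x : E) : wavg w e (fun y => T (F y)) x = T (wavg w e F x) := by
  exact Avg_clm T w hw e F hF x

/-- The derivative of the primitive in the direction `e` (integration by parts). -/
theorem fderiv_prim_self (e : E) (F : E → H) (hF : ContDiff ℝ ∞ F) (hper : ∀ x, F (x + e) = F x)
    (x : E) : fderiv ℝ (prim e F) x e = F x - avg e F x := by
  have hd : Differentiable ℝ F := hF.differentiable (by norm_num)
  have hc' : Continuous (fderiv ℝ F) :=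
    hF.continuous_fderiv (by norm_num)
  have hw : Continuous fun t : ℝ => t - 1 / 2 := continuous_id.sub continuous_const
  have h1 : fderiv ℝ (prim e F) x e = ∫ t in (0 : ℝ)..1, (t - 1 / 2) • fderiv ℝ F (x + t • e) e := by
    rw [fderiv_prim e F hF x, ← wavg_prim]
    have h := Avg_clm (ContinuousLinearMap.apply ℝ H e) (fun t : ℝ => t - 1 / 2) hw e
      (fderiv ℝ F) hc' x
    simp only [ContinuousLinearMap.apply_apply] at h
    rw [← h]
    rfl
  have hderiv : ∀ t : ℝ, HasDerivAt (fun s : ℝ => (s - 1 / 2) • F (x + s • e))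
      ((t - 1 / 2) • fderiv ℝ F (x + t • e) e + (1 : ℝ) • F (x + t • e)) t := by
    intro t
    have hline : HasDerivAt (fun s : ℝ => x + s • e) e t := by
      have := ((hasDerivAt_id t).smul_const e).const_add x
      simpa using this
    have hFl : HasDerivAt (fun s : ℝ => F (x + s • e)) (fderiv ℝ F (x + t • e) e) t :=
      (hd (x + t • e)).hasFDerivAt.comp_hasDerivAt t hline
    exact ((hasDerivAt_id t).sub_const (1 / 2)).smul hFl
  have hi1 : IntervalIntegrable (fun t : ℝ => (t - 1 / 2) • fderiv ℝ F (x + t • e) e)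
      MeasureTheory.volume 0 1 :=
    (hw.smul ((hc'.comp (Avg_line e x)).clm_apply continuous_const)).intervalIntegrable 0 1
  have hi2 : IntervalIntegrable (fun t : ℝ => (1 : ℝ) • F (x + t • e))
      MeasureTheory.volume 0 1 :=
    (continuous_const.smul (hF.continuous.comp (Avg_line e x))).intervalIntegrable 0 1
  have h2 := intervalIntegral.integral_eq_sub_of_hasDerivAt (a := (0 : ℝ)) (b := 1)
    (fun t _ => hderiv t) (hi1.add hi2)
  rw [intervalIntegral.integral_add hi1 hi2] at h2
  rw [h1, eq_sub_iff_add_eq]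
  have h3 : avg e F x = ∫ t in (0 : ℝ)..1, (1 : ℝ) • F (x + t • e) := by
    simp [avg]
  rw [h3, h2]
  have h4 : F (x + (1 : ℝ) • e) = F x := by rw [one_smul]; exact hper x
  rw [h4]
  simp only [zero_smul, add_zero]
  rw [← sub_smul]
  norm_num

/-- The average of an `e`-periodic function does not change under translations in the direction
`e`. -/
theorem avg_add_smul (e : E) (F : E → H) (hF : Continuous F) (hper : ∀ x, F (x + e) = F x)
    (x : E) (s : ℝ) : avg e F (x + s • e) = avg e F x := by
  have hper' : Function.Periodic (fun t : ℝ => F (x + t • e)) 1 := by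
    intro t
    change F (x + (t + 1) • e) = F (x + t • e)
    rw [add_smul, one_smul, ← add_assoc]
    exact hper _
  have h1 : avg e F (x + s • e) = ∫ t in (0 : ℝ)..1, (fun u : ℝ => F (x + u • e)) (t + s) := by
    unfold avg
    refine intervalIntegral.integral_congr fun t _ => ?_
    change F (x + s • e + t • e) = F (x + (t + s) • e)
    rw [add_smul]
    congr 1
    abel
  rw [h1, intervalIntegral.integral_comp_add_right (fun u : ℝ => F (x + u • e)) s]
  have h2 := hper'.intervalIntegral_add_eq s 0
  have h3 : ∫ t in (0 + s)..(1 + s), F (x + t • e) = ∫ t in s..(s + 1), F (x + t • e) := by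
    rw [zero_add, add_comm 1 s]
  rw [h3, h2, zero_add]
  rfl

/-- Periods of `F` are periods of its averages and primitives. -/
theorem wavg_add (w : ℝ → ℝ) (e : E) (F : E → H) (p : E) (hper : ∀ x, F (x + p) = F x) (x : E) :
    wavg w e F (x + p) = wavg w e F x := by
  unfold wavg
  refine intervalIntegral.integral_congr fun t _ => ?_
  rw [show x + p + t • e = x + t • e + p by abel, hper]

end Pool.Agent.W_9986fc_h15
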