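import Pool.Agent.W_9986fc_h15.CubeA

/-!
Means over the cube `[0,1]^k`: derivatives.
-/

set_option autoImplicit false
set_option maxSynthPendingDepth 3

open scoped ContDiff Matrix

namespace Pool.Agent.W_9986fc_h15

section Aux

open MeasureTheory

universe u

variable {k : ℕ} {P : Type*} [NormedAddCommGroup P] [NormedSpace ℝ P]
  {H : Type*} [NormedAddCommGroup H] [NormedSpace ℝ H]

theorem Cube_intble (g : R k × P → H) (hg : Continuous g) (z : P) :
    Integrable (fun v : R k => g (v, z)) (volume.restrict (Set.Icc (0 : R k) 1)) := by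
  have h : Continuous (fun v : R k => g (v, z)) := hg.comp (by fun_prop)
  exact h.continuousOn.integrableOn_compact isCompact_Icc

theorem Cube_hasFDerivAt [ProperSpace P] (g : R k × P → H)
    (hg : ContDiff ℝ 1 g) (z : P) :
    HasFDerivAt (fun z => ∫ v in Set.Icc (0 : R k) 1, g (v, z))
      (∫ v in Set.Icc (0 : R k) 1,
        (fderiv ℝ g (v, z)).comp (ContinuousLinearMap.inr ℝ (R k) P)) z := by
  have hc : Continuous (fun x : R k × P =>
      (fderiv ℝ g x).comp (ContinuousLinearMap.inr ℝ (R k) P)) :=
    (hg.continuous_fderiv one_ne_zero).clm_comp continuous_const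
  have hK : IsCompact (Set.Icc (0 : R k) 1 ×ˢ Metric.closedBall z 1) :=
    isCompact_Icc.prod (isCompact_closedBall z 1)
  obtain ⟨C, hC⟩ := hK.exists_bound_of_continuousOn hc.continuousOn
  refine hasFDerivAt_integral_of_dominated_of_fderiv_le (bound := fun _ => C)
    (F' := fun z v => (fderiv ℝ g (v, z)).comp (ContinuousLinearMap.inr ℝ (R k) P))
    (Metric.closedBall_mem_nhds z one_pos) ?_ ?_ ?_ ?_ ?_ ?_
  · exact Filter.Eventually.of_forall fun z' =>
      (Cube_intble g hg.continuous z').aestronglyMeasurable
  · exact Cube_intble g hg.continuous z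
  · exact (Cube_intble _ hc z).aestronglyMeasurable
  · exact (ae_restrict_iff' measurableSet_Icc).2
      (Filter.Eventually.of_forall fun v hv z' hz' => hC (v, z') ⟨hv, hz'⟩)
  · exact continuousOn_const.integrableOn_compact isCompact_Icc
  · refine Filter.Eventually.of_forall fun v z' _ => ?_
    have h1 : HasFDerivAt g (fderiv ℝ g (v, z')) (v, z') :=
      (hg.differentiable one_ne_zero _).hasFDerivAt
    exact h1.comp z' (hasFDerivAt_prodMk_right v z')

theorem Cube_contDiff (b : ℕ) (n : ℕ) : ∀ {H : Type u} [NormedAddCommGroup H] [NormedSpace ℝ H]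
    (F : V k b → H), ContDiff ℝ ∞ F → ContDiff ℝ n (mean F) := by
  induction n with
  | zero =>
    intro H _ _ F hF
    refine contDiff_zero.2 ?_
    refine continuous_parametric_integral_of_continuous (s := Set.Icc (0 : R k) 1)
      (f := fun (z : R b) (v : R k) => F (v, z)) ?_ isCompact_Icc
    exact hF.continuous.comp (by fun_prop)
  | succ n ih =>
    intro H _ _ F hF
    have h1 : ContDiff ℝ 1 F := hF.of_le (by exact_mod_cast le_top)
    have h2 : ∀ z, HasFDerivAt (mean F)
        (mean (fun x => (fderiv ℝ F x).comp (ContinuousLinearMap.inr ℝ (R k) (R b))) z) z :=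
      fun z => Cube_hasFDerivAt F h1 z
    have h3 : fderiv ℝ (mean F) =
        mean (fun x => (fderiv ℝ F x).comp (ContinuousLinearMap.inr ℝ (R k) (R b))) :=
      funext fun z => (h2 z).fderiv
    have h4 : ContDiff ℝ ∞ (fderiv ℝ F) := (contDiff_infty_iff_fderiv.1 hF).2
    have h5 : ContDiff ℝ ∞
        (fun x : V k b => (fderiv ℝ F x).comp (ContinuousLinearMap.inr ℝ (R k) (R b))) :=
      h4.clm_comp contDiff_const
    push_cast
    rw [contDiff_succ_iff_fderiv]
    refine ⟨fun z => (h2 z).differentiableAt, fun h => ?_, ?_⟩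
    · exact absurd h (by simp)
    · rw [h3]
      exact ih _ h5

end Aux

variable {k b : ℕ} {H : Type*} [NormedAddCommGroup H] [NormedSpace ℝ H] [CompleteSpace H]

/-- The mean of a function which does not depend on the fibre coordinate. -/
theorem mean_snd (F : R b → H) (z : R b) : mean (k := k) (fun x : V k b => F x.2) z = F z :=
  mean_const (F z) z

theorem mean_add_fun (F F' : V k b → H) (hF : Continuous F) (hF' : Continuous F') (z : R b) :
    mean (fun x => F x + F' x) z = mean F z + mean F' z :=
  MeasureTheory.integral_add (Cube_intble F hF z) (Cube_intble F' hF' z)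

theorem mean_smul_snd (f : R b → ℝ) (F : V k b → H) (z : R b) :
    mean (fun x => f x.2 • F x) z = f z • mean F z :=
  MeasureTheory.integral_smul (f z) (fun v => F (v, z))

theorem mean_clm {H' : Type*} [NormedAddCommGroup H'] [NormedSpace ℝ H'] [CompleteSpace H']
    (T : R b → H →L[ℝ] H') (F : V k b → H) (hF : Continuous F) (z : R b) :
    mean (fun x => T x.2 (F x)) z = T z (mean F z) :=
  (T z).integral_comp_comm (Cube_intble F hF z)

/-- The mean of a smooth function is smooth, and it commutes with derivatives in the direction of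
the base. -/
theorem contDiff_mean (F : V k b → H) (hF : ContDiff ℝ ∞ F) : ContDiff ℝ ∞ (mean F) :=
  contDiff_infty.2 fun n => Cube_contDiff b n F hF

theorem fderiv_mean (F : V k b → H) (hF : ContDiff ℝ ∞ F) (z u : R b) :
    fderiv ℝ (mean F) z u = mean (fun x => fderiv ℝ F x (0, u)) z := by
  have h1 : ContDiff ℝ 1 F := hF.of_le (by exact_mod_cast le_top)
  have h2 : HasFDerivAt (mean F)
      (∫ v in Set.Icc (0 : R k) 1,
        (fderiv ℝ F (v, z)).comp (ContinuousLinearMap.inr ℝ (R k) (R b))) z :=
    Cube_hasFDerivAt F h1 z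
  have hc : Continuous (fun x : V k b =>
      (fderiv ℝ F x).comp (ContinuousLinearMap.inr ℝ (R k) (R b))) :=
    (h1.continuous_fderiv one_ne_zero).clm_comp continuous_const
  rw [h2.fderiv, ContinuousLinearMap.integral_apply (Cube_intble _ hc z)]
  rfl

/-- The mean of a derivative in the direction of the fibre is zero (from `mean_add`, differentiate
`s ↦ mean (F (· + s • w))`). -/
theorem mean_fderiv_vert (F : V k b → H) (hF : ContDiff ℝ ∞ F) (hper : Per F) (w : R k) (z : R b) :
    mean (fun x => fderiv ℝ F x (w, 0)) z = 0 := by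
  have h1 : ContDiff ℝ 1 F := hF.of_le (by exact_mod_cast le_top)
  set g : R k × ℝ → H := fun x => F (x.1 + x.2 • w, z) with hg
  have hg1 : ContDiff ℝ 1 g := h1.comp (by fun_prop)
  have h2 := Cube_hasFDerivAt g hg1 0
  have hconst : (fun s : ℝ => ∫ v in Set.Icc (0 : R k) 1, g (v, s)) = fun _ => mean F z := by
    funext s
    have h3 := mean_add F hF.continuous hper (s • w) z
    rw [← h3]
    refine MeasureTheory.integral_congr_ae (Filter.Eventually.of_forall fun v => ?_)
    simp only [hg, vert, Prod.mk_add_mk, add_zero]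
  rw [hconst] at h2
  have h4 := h2.unique (hasFDerivAt_const (mean F z) (0 : ℝ))
  have hc : Continuous (fun x : R k × ℝ =>
      (fderiv ℝ g x).comp (ContinuousLinearMap.inr ℝ (R k) ℝ)) :=
    (hg1.continuous_fderiv one_ne_zero).clm_comp continuous_const
  have h5 := congrArg (fun T : ℝ →L[ℝ] H => T 1) h4
  simp only [zero_apply] at h5
  rw [ContinuousLinearMap.integral_apply (Cube_intble _ hc 0)] at h5
  rw [← h5]
  refine MeasureTheory.integral_congr_ae (Filter.Eventually.of_forall fun v => ?_)
  have h6 : HasFDerivAt F (fderiv ℝ F (v, z)) (v, z) :=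
    (h1.differentiable one_ne_zero _).hasFDerivAt
  have h7 : HasDerivAt (fun s : ℝ => ((v + s • w, z) : V k b)) (w, 0) 0 := by
    have h8 : HasDerivAt (fun s : ℝ => v + s • w) w 0 := by
      simpa using ((hasDerivAt_id (0 : ℝ)).smul_const w).const_add v
    exact h8.prodMk (hasDerivAt_const 0 z)
  have h9 : HasDerivAt (fun s : ℝ => g (v, s)) (fderiv ℝ F (v, z) (w, 0)) 0 := by
    have h10 : HasFDerivAt F (fderiv ℝ F (v, z)) (v + (0 : ℝ) • w, z) := by
      rw [zero_smul, add_zero]
      exact h6
    exact h10.comp_hasDerivAt 0 h7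
  have h11 : HasDerivAt (fun s : ℝ => g (v, s)) (fderiv ℝ g (v, 0) (0, 1)) 0 := by
    have h12 : HasFDerivAt g (fderiv ℝ g (v, 0)) (v, 0) :=
      (hg1.differentiable one_ne_zero _).hasFDerivAt
    exact h12.comp_hasDerivAt 0 ((hasDerivAt_const 0 v).prodMk (hasDerivAt_id 0))
  exact h9.unique h11

/-- The mean of the primitive in a vertical direction is zero (Fubini and `mean_add`,
`∫ t in 0..1, (t - 1/2) = 0`). -/
theorem mean_prim (F : V k b → H) (hF : Continuous F) (hper : Per F) (w : R k) (z : R b) :
    mean (prim (vert w) F) z = 0 := by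
  have hle : (0 : ℝ) ≤ 1 := zero_le_one
  have hint : MeasureTheory.Integrable
      (Function.uncurry fun (v : R k) (t : ℝ) => (t - 1 / 2) • F ((v, z) + t • vert w))
      ((MeasureTheory.volume.restrict (Set.Icc (0 : R k) 1)).prod
        (MeasureTheory.volume.restrict (Set.Ioc (0 : ℝ) 1))) := by
    rw [MeasureTheory.Measure.prod_restrict]
    have hcont : Continuous
        (Function.uncurry fun (v : R k) (t : ℝ) => (t - 1 / 2) • F ((v, z) + t • vert w)) := by
      have h1 : Continuous (fun x : R k × ℝ => (x.2 - 1 / 2) • F ((x.1, z) + x.2 • vert w)) := by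
        fun_prop
      exact h1
    refine MeasureTheory.IntegrableOn.mono_set
      (hcont.continuousOn.integrableOn_compact
        ((isCompact_Icc (a := (0 : R k)) (b := 1)).prod
          (isCompact_Icc (a := (0 : ℝ)) (b := 1)))) ?_
    exact Set.prod_mono_right Set.Ioc_subset_Icc_self
  have h1 : mean (prim (vert w) F) z = ∫ v in Set.Icc (0 : R k) 1, ∫ t in Set.Ioc (0 : ℝ) 1,
      (t - 1 / 2) • F ((v, z) + t • vert w) := by
    unfold mean prim
    simp only [intervalIntegral.integral_of_le hle]
  rw [h1, MeasureTheory.integral_integral_swap hint]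
  have h2 : ∀ t : ℝ, ∫ v in Set.Icc (0 : R k) 1, (t - 1 / 2) • F ((v, z) + t • vert w) =
      (t - 1 / 2) • mean F z := by
    intro t
    rw [MeasureTheory.integral_smul]
    congr 1
    rw [← mean_add F hF hper (t • w) z]
    refine MeasureTheory.integral_congr_ae (Filter.Eventually.of_forall fun v => ?_)
    simp only [vert, Prod.smul_mk, smul_zero]
  simp only [h2]
  rw [integral_smul_const, ← intervalIntegral.integral_of_le hle]
  have h3 : ∫ t in (0 : ℝ)..1, (t - 1 / 2) = 0 := by
    rw [intervalIntegral.integral_sub (by simp) (by simp)]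
    simp
  rw [h3, zero_smul]

end Pool.Agent.W_9986fc_h15
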