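import Pool.Agent.W_9986fc_h15.GSum
import Pool.Agent.W_9986fc_h15.Cube

/-!
The maps `φ g`.
-/

set_option autoImplicit false
set_option maxSynthPendingDepth 3

open scoped ContDiff Matrix

namespace Pool.Agent.W_9986fc_h15

variable {k b : ℕ} {G : Type} [Group G] [MulAction G (R b)] (X : Bundle k b G)

theorem smul_hasFDerivAt (hB : IsBase b G) (g : G) (z : R b) :
    HasFDerivAt (fun z : R b => g • z) (fderiv ℝ (fun z : R b => g • z) z) z :=
  (((hB.smooth g).differentiable (by simp)) z).hasFDerivAt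

theorem fderiv_smul_mul (hB : IsBase b G) (g h : G) (z : R b) :
    fderiv ℝ (fun z : R b => (g * h) • z) z =
      (fderiv ℝ (fun z : R b => g • z) (h • z)).comp (fderiv ℝ (fun z : R b => h • z) z) := by
  have h1 := (smul_hasFDerivAt hB g (h • z)).comp z (smul_hasFDerivAt hB h z)
  have h2 : ((fun z : R b => g • z) ∘ fun z : R b => h • z) = fun z : R b => (g * h) • z := by
    funext y
    simp [mul_smul]
  rw [h2] at h1
  exact h1.fderiv

/-- The derivatives of the base diffeomorphisms are invertible. -/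
theorem fderiv_smul_bijective (hB : IsBase b G) (g : G) (z : R b) :
    Function.Bijective (fderiv ℝ (fun z : R b => g • z) z) := by
  have h1 : ∀ y : R b, fderiv ℝ (fun z : R b => (1 : G) • z) y = ContinuousLinearMap.id ℝ (R b) := by
    intro y
    have : (fun z : R b => (1 : G) • z) = id := by
      funext w
      simp
    rw [this, fderiv_id]
  have hl := fderiv_smul_mul hB g⁻¹ g z
  rw [inv_mul_cancel, h1] at hl
  have hr := fderiv_smul_mul hB g g⁻¹ (g • z)
  rw [mul_inv_cancel, h1, inv_smul_smul] at hr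
  rw [Function.bijective_iff_has_inverse]
  refine ⟨fderiv ℝ (fun z : R b => g⁻¹ • z) (g • z), ?_, ?_⟩
  · intro u
    have := congrArg (fun T : R b →L[ℝ] R b => T u) hl
    exact this.symm
  · intro u
    have := congrArg (fun T : R b →L[ℝ] R b => T u) hr
    exact this.symm

namespace Bundle

theorem L_apply (g : G) (x : R k) :
    X.L g x = (X.A g).map (Int.cast : ℤ → ℝ) *ᵥ x := rfl

theorem L_mul (g h : G) : X.L (g * h) = (X.L g).comp (X.L h) := by
  apply ContinuousLinearMap.ext
  intro x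
  rw [ContinuousLinearMap.comp_apply, L_apply, L_apply, L_apply, map_mul, Matrix.mulVec_mulVec]
  congr 1
  have := Matrix.map_mul (M := X.A h) (L := X.A g) (f := Int.castRingHom ℝ)
  exact this

theorem L_one : X.L 1 = ContinuousLinearMap.id ℝ (R k) := by
  apply ContinuousLinearMap.ext
  intro x
  rw [L_apply, map_one, Matrix.map_one _ (by simp) (by simp), Matrix.one_mulVec]
  rfl

theorem L_inv_apply (g : G) (x : R k) : X.L g⁻¹ (X.L g x) = x := by
  have h := X.L_mul g⁻¹ g
  rw [inv_mul_cancel, L_one] at h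
  have := congrArg (fun T : R k →L[ℝ] R k => T x) h
  exact this.symm

theorem L_apply_inv (g : G) (x : R k) : X.L g (X.L g⁻¹ x) = x := by
  have h := X.L_mul g g⁻¹
  rw [mul_inv_cancel, L_one] at h
  have := congrArg (fun T : R k →L[ℝ] R k => T x) h
  exact this.symm

theorem L_intV (g : G) (m : Fin k → ℤ) : X.L g (intV m) = intV (X.A g *ᵥ m) := by
  rw [L_apply]
  funext i
  simp only [Matrix.mulVec, dotProduct, intV, Matrix.map_apply]
  push_cast
  rfl

theorem isUnit_det (g : G) : IsUnit (X.A g).det := by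
  have h : X.A g * X.A g⁻¹ = 1 := by
    rw [← map_mul, mul_inv_cancel, map_one]
  have h2 := congrArg Matrix.det h
  rw [Matrix.det_mul, Matrix.det_one] at h2
  exact IsUnit.of_mul_eq_one _ h2

/-- The determinant of the monodromy. -/
theorem det_L (g : G) : (X.L g).det = ((X.A g).det : ℝ) := by
  have h1 : (X.L g).det = LinearMap.det ((X.A g).map (Int.cast : ℤ → ℝ)).mulVecLin := rfl
  rw [h1, ← Matrix.toLin'_apply', LinearMap.det_toLin']
  have := (Int.castRingHom ℝ).map_det (X.A g)
  exact this.symm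

/-- `det (X.L g) = ±1`. -/
theorem abs_det_L (g : G) : |(X.L g).det| = 1 := by
  rw [det_L]
  rcases Int.isUnit_iff.1 (X.isUnit_det g) with h | h <;> rw [h] <;> simp

theorem contDiff_φ (hB : IsBase b G) (g : G) : ContDiff ℝ ∞ (X.φ g) := by
  unfold φ
  refine ContDiff.prodMk (ContDiff.add ((X.L g).contDiff.comp contDiff_fst)
    ((X.smooth g).comp contDiff_snd)) ?_
  exact (hB.smooth g).comp contDiff_snd

theorem hasFDerivAt_φ (hB : IsBase b G) (g : G) (x : V k b) :
    HasFDerivAt (X.φ g) ((((X.L g).comp (ContinuousLinearMap.fst ℝ (R k) (R b))) +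
      (fderiv ℝ (X.τ g) x.2).comp (ContinuousLinearMap.snd ℝ (R k) (R b))).prod
      ((fderiv ℝ (fun z : R b => g • z) x.2).comp (ContinuousLinearMap.snd ℝ (R k) (R b)))) x := by
  have h1 : HasFDerivAt (fun x : V k b => X.L g x.1)
      ((X.L g).comp (ContinuousLinearMap.fst ℝ (R k) (R b))) x :=
    (X.L g).hasFDerivAt.comp x hasFDerivAt_fst
  have h2 : HasFDerivAt (fun x : V k b => X.τ g x.2)
      ((fderiv ℝ (X.τ g) x.2).comp (ContinuousLinearMap.snd ℝ (R k) (R b))) x :=
    HasFDerivAt.comp x (((X.smooth g).differentiable (by simp)) x.2).hasFDerivAt hasFDerivAt_snd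
  have h3 : HasFDerivAt (fun x : V k b => g • x.2)
      ((fderiv ℝ (fun z : R b => g • z) x.2).comp (ContinuousLinearMap.snd ℝ (R k) (R b))) x :=
    HasFDerivAt.comp x (smul_hasFDerivAt hB g x.2) hasFDerivAt_snd
  exact (h1.add h2).prodMk h3

theorem fderiv_φ (hB : IsBase b G) (g : G) (x u : V k b) :
    fderiv ℝ (X.φ g) x u =
      (X.L g u.1 + fderiv ℝ (X.τ g) x.2 u.2, fderiv ℝ (fun z : R b => g • z) x.2 u.2) := by
  rw [(X.hasFDerivAt_φ hB g x).fderiv]
  rfl

/-- Determinant of a block triangular map. -/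
theorem det_block {k b : ℕ} (P : R k →ₗ[ℝ] R k) (Q : R b →ₗ[ℝ] R k) (S : R b →ₗ[ℝ] R b)
    (T : V k b →ₗ[ℝ] V k b) (hT : ∀ u, T u = (P u.1 + Q u.2, S u.2)) :
    LinearMap.det T = LinearMap.det P * LinearMap.det S := by
  rw [← LinearMap.det_toMatrix ((Pi.basisFun ℝ (Fin k)).prod (Pi.basisFun ℝ (Fin b))) T,
    ← LinearMap.det_toMatrix (Pi.basisFun ℝ (Fin k)) P,
    ← LinearMap.det_toMatrix (Pi.basisFun ℝ (Fin b)) S,
    ← Matrix.det_fromBlocks_zero₂₁ _
      (LinearMap.toMatrix (Pi.basisFun ℝ (Fin b)) (Pi.basisFun ℝ (Fin k)) Q)]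
  congr 1
  apply Matrix.ext
  rintro (i | i) (j | j) <;>
    simp [LinearMap.toMatrix_apply, hT, Module.Basis.prod_apply, Pi.basisFun_repr]

theorem det_fderiv_φ (hB : IsBase b G) (g : G) (x : V k b) :
    (fderiv ℝ (X.φ g) x).det =
      (X.L g).det * (fderiv ℝ (fun z : R b => g • z) x.2).det := by
  refine det_block (X.L g : R k →ₗ[ℝ] R k) (fderiv ℝ (X.τ g) x.2 : R b →ₗ[ℝ] R k)
    (fderiv ℝ (fun z : R b => g • z) x.2 : R b →ₗ[ℝ] R b) _ ?_
  intro u
  exact X.fderiv_φ hB g x u

/-- `φ (g h)` and `φ g ∘ φ h` differ by a translation by an integer vector (depending on the base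
point, hence locally constant, hence constant since `ℝ^b` is connected). -/
theorem φ_mul (hB : IsBase b G) (g h : G) : ∃ m : Fin k → ℤ, ∀ x,
    X.φ (g * h) x = X.φ g (X.φ h x) + vert (intV m) := by
  choose m hm using X.cocycle g h
  have hc : ∀ i, Continuous fun z => m z i := by
    intro i
    rw [Int.isClosedEmbedding_coe_real.isEmbedding.continuous_iff]
    have h1 : (Int.cast : ℤ → ℝ) ∘ (fun z => m z i) = fun z => (X.τ (g * h) z -
        (X.L g (X.τ h z) + X.τ g (h • z))) i := by
      funext z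
      rw [hm z, L_apply]
      simp [intV]
    rw [h1]
    have h2 : Continuous fun z => (X.τ (g * h) z - (X.L g (X.τ h z) + X.τ g (h • z))) :=
      (X.smooth (g * h)).continuous.sub (((X.L g).continuous.comp (X.smooth h).continuous).add
        ((X.smooth g).continuous.comp (hB.smooth h).continuous))
    exact (continuous_apply i).comp h2
  refine ⟨m 0, fun x => ?_⟩
  have h3 : m x.2 = m 0 := by
    funext i
    exact PreconnectedSpace.constant inferInstance (hc i)
  unfold φ vert
  refine Prod.ext ?_ ?_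
  · simp only [Prod.mk_add_mk]
    rw [hm x.2, h3, L_mul, ContinuousLinearMap.comp_apply, map_add, ← L_apply]
    abel
  · simp [mul_smul]

theorem fderiv_φ_mul (hB : IsBase b G) (g h : G) (x : V k b) :
    fderiv ℝ (X.φ (g * h)) x = (fderiv ℝ (X.φ g) (X.φ h x)).comp (fderiv ℝ (X.φ h) x) := by
  obtain ⟨m, hm⟩ := X.φ_mul hB g h
  have h1 : X.φ (g * h) = fun x => (X.φ g ∘ X.φ h) x + vert (intV m) := by
    funext y
    exact hm y
  rw [h1, fderiv_add_const]
  have hd : ∀ (g : G) x, DifferentiableAt ℝ (X.φ g) x := fun g x =>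
    ((X.contDiff_φ hB g).differentiable (by simp)) x
  exact fderiv_comp x (hd g _) (hd h _)

/-- Differentiate `φ_mul`: the derivatives of the translation parts. -/
theorem fderiv_τ_mul (hB : IsBase b G) (g h : G) (z u : R b) :
    fderiv ℝ (X.τ (g * h)) z u = X.L g (fderiv ℝ (X.τ h) z u) +
      fderiv ℝ (X.τ g) (h • z) (fderiv ℝ (fun z : R b => h • z) z u) := by
  have h1 := congrArg (fun T : V k b →L[ℝ] V k b => (T (0, u)).1) (X.fderiv_φ_mul hB g h (0, z))
  simp only [ContinuousLinearMap.comp_apply] at h1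
  rw [X.fderiv_φ hB, X.fderiv_φ hB, X.fderiv_φ hB] at h1
  simpa [φ] using h1

end Bundle

end Pool.Agent.W_9986fc_h15
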