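import Pool.Agent.W_9986fc_h15.AlgC
import Pool.Agent.W_9986fc_h15.PhiA

/-!
Completely reducible monodromy: linear algebra.
-/

set_option autoImplicit false
set_option maxSynthPendingDepth 3

open scoped ContDiff Matrix

namespace Pool.Agent.W_9986fc_h15

variable {k b : ℕ} {G : Type} [Group G] [MulAction G (R b)] (X : Bundle k b G)

/-- The monodromy is completely reducible over `ℝ`: every invariant subspace has an invariant
complement. -/
def Bundle.CompletelyReducible : Prop :=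
  ∀ W : Submodule ℝ (R k), (∀ g, ∀ x ∈ W, X.L g x ∈ W) →
    ∃ W' : Submodule ℝ (R k), (∀ g, ∀ x ∈ W', X.L g x ∈ W') ∧ IsCompl W W'

theorem mem_kerC_crA (c : R k →L[ℝ] R k →L[ℝ] ℝ) (x : R k) : x ∈ kerC c ↔ ∀ y, c x y = 0 := by
  unfold kerC
  rw [LinearMap.mem_ker]
  constructor
  · intro h y
    have h' : c x = 0 := h
    rw [h']; rfl
  · intro h
    exact ContinuousLinearMap.ext h

/-- The kernel of an invariant form is invariant. -/
theorem kerC_invariant (c : R k →L[ℝ] R k →L[ℝ] ℝ) (hcc : X.InvC c) (g : G) (x : R k)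
    (hx : x ∈ kerC c) : X.L g x ∈ kerC c := by
  rw [mem_kerC_crA] at hx ⊢
  intro y
  rw [← X.L_apply_inv g y, hcc.invariant]
  exact hx _

/-- The determinant of a map preserving two complementary subspaces. -/
theorem det_eq_mul_of_isCompl_crA {E : Type*} [AddCommGroup E] [Module ℝ E] [FiniteDimensional ℝ E]
    (p q : Submodule ℝ E) (h : IsCompl p q) (f : E →ₗ[ℝ] E) (hp : ∀ x ∈ p, f x ∈ p)
    (hq : ∀ x ∈ q, f x ∈ q) :
    LinearMap.det f = LinearMap.det (f.restrict hp) * LinearMap.det (f.restrict hq) := by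
  have h1 : f = ((Submodule.prodEquivOfIsCompl p q h : (p × q) →ₗ[ℝ] E) ∘ₗ
      ((f.restrict hp).prodMap (f.restrict hq))) ∘ₗ
      ((Submodule.prodEquivOfIsCompl p q h).symm : E →ₗ[ℝ] (p × q)) := by
    apply LinearMap.ext
    intro x
    obtain ⟨y, rfl⟩ := (Submodule.prodEquivOfIsCompl p q h).surjective x
    simp
  conv_lhs => rw [h1]
  rw [LinearMap.comp_assoc, LinearMap.det_conj, LinearMap.det_prodMap]

/-- Let `c` be an invariant form whose kernel is a plane. Let `p` be the projection to the plane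
with kernel an invariant complement `W'`. Since `c` is nondegenerate on `W'`, the monodromy has
determinant one on `W'` (`det_eq_one`), hence also on the plane, so that the plane has an invariant
area form `ν`, and `c + ν` is nondegenerate. -/
theorem exists_area_kernel (hdet : ∀ g, (X.L g).det = 1)
    (c : R k →L[ℝ] R k →L[ℝ] ℝ) (hcc : X.InvC c) (h2 : Module.finrank ℝ (kerC c) = 2)
    (W' : Submodule ℝ (R k)) (hW' : ∀ g, ∀ x ∈ W', X.L g x ∈ W') (hcompl : IsCompl (kerC c) W') :
    ∃ (p : R k →L[ℝ] R k) (ν : R k →L[ℝ] R k →L[ℝ] ℝ),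
      (∀ x, p x ∈ kerC c) ∧ (∀ x ∈ kerC c, p x = x) ∧ (∀ x ∈ W', p x = 0) ∧
      (∀ g x, p (X.L g x) = X.L g (p x)) ∧
      X.InvC ν ∧ (∀ x y, ν (p x) (p y) = ν x y) ∧ kerC (c + ν) = ⊥ := by
  have hK : ∀ g, ∀ x ∈ kerC c, X.L g x ∈ kerC c := fun g x hx => kerC_invariant X c hcc g x hx
  have hanti : ∀ x y, c x y = - c y x := by
    intro x y
    have h := hcc.alt (x + y)
    simp only [map_add, add_apply, hcc.alt] at h
    linarith
  -- the projection
  set p0 : R k →ₗ[ℝ] R k := (kerC c).projection W' hcompl with hp0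
  set p : R k →L[ℝ] R k := LinearMap.toContinuousLinearMap p0 with hpdef
  have hpp : ∀ x, p x = p0 x := fun x => rfl
  have hp1 : ∀ x, p x ∈ kerC c := fun x => Submodule.projection_apply_mem hcompl x
  have hp2 : ∀ x ∈ kerC c, p x = x := fun x hx =>
    Submodule.projection_apply_of_mem_left hcompl hx
  have hp3 : ∀ x ∈ W', p x = 0 := fun x hx =>
    (Submodule.projection_apply_eq_zero_iff hcompl).2 hx
  have hp4 : ∀ x, x - p x ∈ W' := by
    intro x
    rw [← Submodule.projection_apply_eq_zero_iff hcompl, map_sub]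
    change p x - p (p x) = 0
    rw [hp2 (p x) (hp1 x), sub_self]
  have hpL : ∀ g x, p (X.L g x) = X.L g (p x) := by
    intro g x
    have h1 : X.L g x = X.L g (p x) + X.L g (x - p x) := by
      rw [← map_add]; congr 1; abel
    rw [h1, map_add, hp2 _ (hK g _ (hp1 x)), hp3 _ (hW' g _ (hp4 x)), add_zero]
  -- a basis of the kernel
  set B : Module.Basis (Fin 2) ℝ (kerC c) := Module.finBasisOfFinrankEq ℝ (kerC c) h2 with hB
  set pK : R k →ₗ[ℝ] kerC c := (kerC c).projectionOnto W' hcompl with hpK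
  have hpKp : ∀ x, ((pK x : kerC c) : R k) = p x := fun x => rfl
  set a0 : Fin 2 → R k →L[ℝ] ℝ :=
    fun i => LinearMap.toContinuousLinearMap ((B.coord i) ∘ₗ pK) with ha0
  have ha : ∀ i x, a0 i x = B.repr (pK x) i := fun i x => rfl
  set ν : R k →L[ℝ] R k →L[ℝ] ℝ := wedge (a0 0) (a0 1) with hν
  have hνa : ∀ x y, ν x y = a0 0 x * a0 1 y - a0 1 x * a0 0 y := by
    intro x y
    rw [hν]
    unfold wedge
    simp [ContinuousLinearMap.smulRight_apply]
  have hpKpK : ∀ x, pK (p x) = pK x := by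
    intro x
    apply Subtype.ext
    rw [hpKp, hpKp, hp2 _ (hp1 x)]
  have hap : ∀ i x, a0 i (p x) = a0 i x := by
    intro i x
    rw [ha, ha, hpKpK]
  have hdecomp : ∀ x, p x = a0 0 x • ((B 0 : kerC c) : R k) + a0 1 x • ((B 1 : kerC c) : R k) := by
    intro x
    have h1 := B.sum_repr (pK x)
    rw [Fin.sum_univ_two] at h1
    have h3 := congrArg (fun t : kerC c => (t : R k)) h1
    simp only [Submodule.coe_add, Submodule.coe_smul] at h3
    rw [ha, ha, h3, hpKp]
  -- determinants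
  have hdetK : ∀ g, LinearMap.det (((X.L g : R k →L[ℝ] R k) : R k →ₗ[ℝ] R k).restrict
      (hK g)) = 1 := by
    intro g
    have h1 := det_eq_mul_of_isCompl_crA (kerC c) W' hcompl
      ((X.L g : R k →L[ℝ] R k) : R k →ₗ[ℝ] R k) (hK g) (hW' g)
    have h3 : LinearMap.det ((X.L g : R k →L[ℝ] R k) : R k →ₗ[ℝ] R k) = 1 := hdet g
    have h4 : (LinearMap.toContinuousLinearMap
        (((X.L g : R k →L[ℝ] R k) : R k →ₗ[ℝ] R k).restrict (hW' g))).det = 1 := by
      apply det_eq_one (c.bilinearComp W'.subtypeL W'.subtypeL)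
      · intro u
        exact hcc.alt _
      · intro w hw
        have hwK : (w : R k) ∈ kerC c := by
          rw [mem_kerC_crA]
          intro y
          have e1 : y = p y + (y - p y) := by abel
          rw [e1, map_add, hanti (w : R k) (p y), (mem_kerC_crA c _).1 (hp1 y) _]
          have := hw ⟨y - p y, hp4 y⟩
          have h6 : c (w : R k) (y - p y) = 0 := this
          rw [h6]; simp
        have h7 : (w : R k) ∈ kerC c ⊓ W' := ⟨hwK, w.2⟩
        rw [hcompl.inf_eq_bot] at h7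
        exact Subtype.ext ((Submodule.mem_bot ℝ).1 h7)
      · intro u w
        exact hcc.invariant g _ _
    rw [h3] at h1
    have h5 : LinearMap.det (((X.L g : R k →L[ℝ] R k) : R k →ₗ[ℝ] R k).restrict (hW' g)) = 1 := h4
    rw [h5, mul_one] at h1
    exact h1.symm
  have hmat : ∀ g i x, a0 i (X.L g x) =
      a0 0 x * a0 i (X.L g (B 0 : kerC c)) + a0 1 x * a0 i (X.L g (B 1 : kerC c)) := by
    intro g i x
    rw [← hap i (X.L g x), hpL, hdecomp x, map_add, map_smul, map_smul, map_add, map_smul,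
      map_smul, smul_eq_mul, smul_eq_mul]
  have hdet2 : ∀ g, a0 0 (X.L g (B 0 : kerC c)) * a0 1 (X.L g (B 1 : kerC c)) -
      a0 0 (X.L g (B 1 : kerC c)) * a0 1 (X.L g (B 0 : kerC c)) = 1 := by
    intro g
    have h1 := hdetK g
    rw [← LinearMap.det_toMatrix B, Matrix.det_fin_two] at h1
    simp only [LinearMap.toMatrix_apply] at h1
    have h6 : ∀ i j, B.repr ((((X.L g : R k →L[ℝ] R k) : R k →ₗ[ℝ] R k).restrict
        (hK g)) (B j)) i = a0 i (X.L g (B j : kerC c)) := by
      intro i j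
      rw [ha]
      congr 2
      apply Subtype.ext
      rw [hpKp, hp2 _ (hK g _ (B j).2)]
      rfl
    rw [h6, h6, h6, h6] at h1
    exact h1
  refine ⟨p, ν, hp1, hp2, hp3, hpL, ⟨?_, ?_⟩, ?_, ?_⟩
  · intro x
    rw [hνa]; ring
  · intro g x y
    rw [hνa, hνa, hmat g 0 x, hmat g 1 y, hmat g 1 x, hmat g 0 y]
    linear_combination (a0 0 x * a0 1 y - a0 1 x * a0 0 y) * hdet2 g
  · intro x y
    rw [hνa, hνa, hap, hap, hap, hap]
  · rw [eq_bot_iff]
    intro x hx
    rw [mem_kerC_crA] at hx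
    have hx' : ∀ y, c x y + ν x y = 0 := hx
    have ha0B : a0 0 (B 0 : kerC c) = 1 := by
      rw [ha]
      have : pK (B 0 : kerC c) = B 0 := Subtype.ext (by rw [hpKp, hp2 _ (B 0).2])
      rw [this]; simp
    have ha1B : a0 1 (B 0 : kerC c) = 0 := by
      rw [ha]
      have : pK (B 0 : kerC c) = B 0 := Subtype.ext (by rw [hpKp, hp2 _ (B 0).2])
      rw [this]; simp
    have hb0B : a0 0 (B 1 : kerC c) = 0 := by
      rw [ha]
      have : pK (B 1 : kerC c) = B 1 := Subtype.ext (by rw [hpKp, hp2 _ (B 1).2])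
      rw [this]; simp
    have hb1B : a0 1 (B 1 : kerC c) = 1 := by
      rw [ha]
      have : pK (B 1 : kerC c) = B 1 := Subtype.ext (by rw [hpKp, hp2 _ (B 1).2])
      rw [this]; simp
    have e0 := hx' (B 0 : kerC c)
    have e1 := hx' (B 1 : kerC c)
    rw [hanti x, (mem_kerC_crA c _).1 (B 0).2, hνa, ha0B, ha1B] at e0
    rw [hanti x, (mem_kerC_crA c _).1 (B 1).2, hνa, hb0B, hb1B] at e1
    have hx0 : a0 0 x = 0 := by linarith
    have hx1 : a0 1 x = 0 := by linarith
    have hpx : p x = 0 := by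
      rw [hdecomp, hx0, hx1]; simp
    have hxK : x ∈ kerC c := by
      rw [mem_kerC_crA]
      intro y
      have := hx' y
      rw [hνa, hx0, hx1] at this
      linarith
    rw [Submodule.mem_bot, ← hp2 x hxK, hpx]

/-- If the monodromy is completely reducible without nonzero fixed vectors, then every invariant
subspace `W` is spanned by the vectors `w - L g⁻¹ w`, `w ∈ W`. Proof: their span `U` is invariant;
let `C` be an invariant complement of `U`. For `x ∈ C ⊓ W` the vectors `x - L g⁻¹ x` are in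
`U ⊓ C = 0`, so `x` is fixed, so `x = 0`; by the modular law `W = U`. -/
theorem le_span_coinv (hcr : X.CompletelyReducible) (hfix : ∀ x, (∀ g, X.L g x = x) → x = 0)
    (W : Submodule ℝ (R k)) (hW : ∀ g, ∀ x ∈ W, X.L g x ∈ W) :
    W ≤ Submodule.span ℝ {y | ∃ g : G, ∃ w ∈ W, y = w - X.L g⁻¹ w} := by
  set U : Submodule ℝ (R k) := Submodule.span ℝ {y | ∃ g : G, ∃ w ∈ W, y = w - X.L g⁻¹ w} with hU
  have hmem : ∀ g, ∀ w ∈ W, w - X.L g w ∈ U := by
    intro g w hw
    apply Submodule.subset_span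
    refine ⟨g⁻¹, w, hw, ?_⟩
    rw [inv_inv]
  have hUW : U ≤ W := by
    rw [hU, Submodule.span_le]
    rintro y ⟨g, w, hw, rfl⟩
    exact W.sub_mem hw (hW _ _ hw)
  have hUinv : ∀ h, ∀ x ∈ U, X.L h x ∈ U := by
    intro h x hx
    have h1 : X.L h x = x - (x - X.L h x) := by abel
    rw [h1]
    exact U.sub_mem hx (hmem h x (hUW hx))
  obtain ⟨C, hC, hcompl⟩ := hcr U hUinv
  intro w hw
  have hwtop : w ∈ U ⊔ C := by rw [hcompl.sup_eq_top]; exact Submodule.mem_top
  obtain ⟨u, hu, x, hx, rfl⟩ := Submodule.mem_sup.1 hwtop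
  have hxW : x ∈ W := by
    have h1 : x = (u + x) - u := by abel
    rw [h1]
    exact W.sub_mem hw (hUW hu)
  have hx0 : x = 0 := by
    apply hfix
    intro g
    have h1 : x - X.L g x ∈ U ⊓ C := ⟨hmem g x hxW, C.sub_mem hx (hC g x hx)⟩
    rw [hcompl.inf_eq_bot, Submodule.mem_bot] at h1
    exact (sub_eq_zero.1 h1).symm
  rw [hx0, add_zero]
  exact hu

/-- If every invariant linear functional on the invariant subspace `W` is zero, then `W` is spanned
by the vectors `w - L g⁻¹ w`, `w ∈ W`. -/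
theorem le_span_of_functional (W : Submodule ℝ (R k)) (hW : ∀ g, ∀ x ∈ W, X.L g x ∈ W)
    (h : ∀ l : R k →ₗ[ℝ] ℝ, (∀ g, ∀ x ∈ W, l (X.L g x) = l x) → ∀ x ∈ W, l x = 0) :
    W ≤ Submodule.span ℝ {y | ∃ g : G, ∃ w ∈ W, y = w - X.L g⁻¹ w} := by
  intro x hx
  by_contra hn
  obtain ⟨l, hl, hle⟩ := Submodule.exists_le_ker_of_notMem hn
  refine hl (h l (fun g y hy => ?_) x hx)
  have h1 : X.L g y - X.L g⁻¹ (X.L g y) ∈
      Submodule.span ℝ {y | ∃ g : G, ∃ w ∈ W, y = w - X.L g⁻¹ w} :=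
    Submodule.subset_span ⟨g, X.L g y, hW g y hy, rfl⟩
  have h2 := hle h1
  rw [LinearMap.mem_ker, map_sub, X.L_inv_apply] at h2
  exact sub_eq_zero.mp h2

end Pool.Agent.W_9986fc_h15
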