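import Pool.Agent.W_9986fc_h15.Phi

/-!
Connections and extension of equivariant functions.
-/

set_option autoImplicit false
set_option maxSynthPendingDepth 3

open scoped ContDiff Matrix

namespace Pool.Agent.W_9986fc_h15

variable {k b : ℕ} {G : Type} [Group G] [MulAction G (R b)] (X : Bundle k b G)

theorem conn_csup_smul {χ : R b → ℝ} (hχ : IsPart G χ) {H : Type*} [NormedAddCommGroup H]
    [NormedSpace ℝ H] (f : G → R b → H) : CSup G id fun (g : G) (z : R b) => χ (g • z) • f g z :=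
  csup_of_cutoff hχ.compact fun g y h => by
    have h' : χ (g • y) = 0 := h
    rw [h', zero_smul]

theorem conn_contDiff_sum (hB : IsBase b G) {χ : R b → ℝ} (hχ : IsPart G χ) {H : Type*}
    [NormedAddCommGroup H] [NormedSpace ℝ H] (f : G → R b → H) (hf : ∀ g, ContDiff ℝ ∞ (f g)) :
    ContDiff ℝ ∞ fun z => ∑ᶠ g : G, χ (g • z) • f g z :=
  (conn_csup_smul hχ f).contDiff hB continuous_id fun g =>
    (hχ.smooth.comp (hB.smooth g)).smul (hf g)

/-- the value at `z` commutes with linear maps -/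
theorem conn_sum_apply (hB : IsBase b G) {χ : R b → ℝ} (hχ : IsPart G χ) {H H' : Type*}
    [NormedAddCommGroup H] [NormedSpace ℝ H] [AddCommGroup H'] [Module ℝ H'] (f : G → R b → H)
    (T : H →ₗ[ℝ] H') (z : R b) :
    T (∑ᶠ g : G, χ (g • z) • f g z) = ∑ᶠ g : G, χ (g • z) • T (f g z) := by
  rw [(conn_csup_smul hχ f).clm hB T z]
  exact finsum_congr fun g => map_smul T _ _

theorem conn_sum_const {χ : R b → ℝ} (hχ : IsPart G χ) {H : Type*}
    [NormedAddCommGroup H] [NormedSpace ℝ H] (a : H) (z : R b) :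
    ∑ᶠ g : G, χ (g • z) • a = a := by
  rw [← finsum_smul, hχ.sum, one_smul]

/-- A connection: `dv + lam z` is an equivariant `ℝ^k`-valued 1-form. Proof:
`lam z = ∑ h, χ (h • z) • L h⁻¹ ∘ D (τ h) z`; use `fderiv_τ_mul` and `∑ h, χ (h • z) = 1`. -/
theorem exists_connection (hB : IsBase b G) : ∃ lam : R b → R b →L[ℝ] R k, ContDiff ℝ ∞ lam ∧
    ∀ g z u, X.L g (lam z u) =
      lam (g • z) (fderiv ℝ (fun z : R b => g • z) z u) + fderiv ℝ (X.τ g) z u := by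
  obtain ⟨χ, hχ, -⟩ := exists_isPart hB
  refine ⟨fun z => ∑ᶠ h : G, χ (h • z) • (X.L h⁻¹).comp (fderiv ℝ (X.τ h) z), ?_, ?_⟩
  · refine conn_contDiff_sum hB hχ (fun h z => (X.L h⁻¹).comp (fderiv ℝ (X.τ h) z)) fun h => ?_
    exact contDiff_const.clm_comp ((X.smooth h).fderiv_right (m := ∞) le_rfl)
  · intro g z u
    have e1 : ∀ (z u : R b), (∑ᶠ h : G, χ (h • z) • (X.L h⁻¹).comp (fderiv ℝ (X.τ h) z)) u =
        ∑ᶠ h : G, χ (h • z) • X.L h⁻¹ (fderiv ℝ (X.τ h) z u) := by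
      intro z u
      exact conn_sum_apply hB hχ (fun h z => (X.L h⁻¹).comp (fderiv ℝ (X.τ h) z))
        (ContinuousLinearMap.apply ℝ (R k) u : (R b →L[ℝ] R k) →ₗ[ℝ] R k) z
    have e2 : ∀ h : G, χ (h • g • z) • X.L h⁻¹ (fderiv ℝ (X.τ h) (g • z)
        (fderiv ℝ (fun z : R b => g • z) z u)) + χ (h • g • z) • fderiv ℝ (X.τ g) z u =
        χ ((h * g) • z) • X.L g (X.L (h * g)⁻¹ (fderiv ℝ (X.τ (h * g)) z u)) := by
      intro h
      have e3 : X.L g (X.L (h * g)⁻¹ (fderiv ℝ (X.τ (h * g)) z u)) =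
          X.L h⁻¹ (fderiv ℝ (X.τ (h * g)) z u) := by
        have e4 : X.L h⁻¹ = (X.L g).comp (X.L (h * g)⁻¹) := by
          rw [← X.L_mul]
          congr 1
          group
        rw [e4]
        rfl
      rw [e3, X.fderiv_τ_mul hB, map_add, X.L_inv_apply, ← smul_add, smul_smul h g z,
        add_comm (fderiv ℝ (X.τ g) z u)]
    show X.L g ((∑ᶠ h : G, χ (h • z) • (X.L h⁻¹).comp (fderiv ℝ (X.τ h) z)) u) =
      (∑ᶠ h : G, χ (h • g • z) • (X.L h⁻¹).comp (fderiv ℝ (X.τ h) (g • z)))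
        (fderiv ℝ (fun z : R b => g • z) z u) + fderiv ℝ (X.τ g) z u
    rw [e1, e1]
    have e5 := (conn_csup_smul (b := b) hχ (fun (h : G) (z' : R b) =>
      X.L h⁻¹ (fderiv ℝ (X.τ h) z' (fderiv ℝ (fun z : R b => g • z) z u)))).add hB
      (conn_csup_smul (b := b) hχ (fun (h : G) (_ : R b) => fderiv ℝ (X.τ g) z u)) (g • z)
    have e6 := conn_sum_const hχ (fderiv ℝ (X.τ g) z u) (g • z)
    have e7 := conn_sum_apply hB hχ (fun h z => X.L h⁻¹ (fderiv ℝ (X.τ h) z u))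
      (X.L g : R k →ₗ[ℝ] R k) z
    have e8 := finsum_mul_right (fun h : G =>
      χ (h • z) • X.L g (X.L h⁻¹ (fderiv ℝ (X.τ h) z u))) g
    refine e7.trans (e8.symm.trans ?_)
    rw [← finsum_congr e2]
    exact e5.trans (congrArg _ e6)

/-- A function with values in the dual of `ℝ^k` which is equivariant on the invariant subspace `W`
can be replaced by an equivariant function with the same values on `W`:
`ψ' z = ∑ g, χ (g • z) • ψ (g • z) ∘ L g`. -/
theorem exists_equivariant (hB : IsBase b G) (W : Submodule ℝ (R k)) (ψ : R b → R k →L[ℝ] ℝ)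
    (hψ : ContDiff ℝ ∞ ψ) (he : ∀ g z, ∀ x ∈ W, ψ (g • z) (X.L g x) = ψ z x) :
    ∃ ψ' : R b → R k →L[ℝ] ℝ, ContDiff ℝ ∞ ψ' ∧ (∀ g z x, ψ' (g • z) (X.L g x) = ψ' z x) ∧
      ∀ z, ∀ x ∈ W, ψ' z x = ψ z x := by
  obtain ⟨χ, hχ, -⟩ := exists_isPart hB
  have e1 : ∀ (z : R b) (x : R k), (∑ᶠ g : G, χ (g • z) • (ψ (g • z)).comp (X.L g)) x =
      ∑ᶠ g : G, χ (g • z) • ψ (g • z) (X.L g x) := by
    intro z x
    exact conn_sum_apply hB hχ (fun g z => (ψ (g • z)).comp (X.L g))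
      (ContinuousLinearMap.apply ℝ ℝ x : (R k →L[ℝ] ℝ) →ₗ[ℝ] ℝ) z
  refine ⟨fun z => ∑ᶠ g : G, χ (g • z) • (ψ (g • z)).comp (X.L g), ?_, ?_, ?_⟩
  · refine conn_contDiff_sum hB hχ (fun g z => (ψ (g • z)).comp (X.L g)) fun g => ?_
    exact (hψ.comp (hB.smooth g)).clm_comp contDiff_const
  · intro g z x
    show (∑ᶠ h : G, χ (h • g • z) • (ψ (h • g • z)).comp (X.L h)) (X.L g x) =
      (∑ᶠ g : G, χ (g • z) • (ψ (g • z)).comp (X.L g)) x
    rw [e1 (g • z), e1 z, ← finsum_mul_right (fun h : G => χ (h • z) • ψ (h • z) (X.L h x)) g]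
    refine finsum_congr fun h => ?_
    rw [smul_smul, X.L_mul]
    rfl
  · intro z x hx
    show (∑ᶠ g : G, χ (g • z) • (ψ (g • z)).comp (X.L g)) x = ψ z x
    rw [e1 z]
    have e2 : ∀ g : G, χ (g • z) • ψ (g • z) (X.L g x) = χ (g • z) • ψ z x := fun g => by
      rw [he g z x hx]
    rw [finsum_congr e2]
    exact conn_sum_const hχ _ z

/-- The 1-form `ψ (dv + lam)` on `ℝ^k × ℝ^b`. -/
noncomputable def zeta (lam : R b → R b →L[ℝ] R k) (ψ : R b → R k →L[ℝ] ℝ) (x : V k b) :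
    V k b →L[ℝ] ℝ :=
  (ψ x.2).comp (ContinuousLinearMap.fst ℝ (R k) (R b) +
    (lam x.2).comp (ContinuousLinearMap.snd ℝ (R k) (R b)))

theorem zeta_apply (lam : R b → R b →L[ℝ] R k) (ψ : R b → R k →L[ℝ] ℝ) (x u : V k b) :
    zeta lam ψ x u = ψ x.2 (u.1 + lam x.2 u.2) := rfl

/-- It is an invariant form if `lam` is a connection and `ψ` is equivariant. -/
theorem inv1_zeta (hB : IsBase b G) (lam : R b → R b →L[ℝ] R k) (hlam : ContDiff ℝ ∞ lam)
    (hl : ∀ g z u, X.L g (lam z u) =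
      lam (g • z) (fderiv ℝ (fun z : R b => g • z) z u) + fderiv ℝ (X.τ g) z u)
    (ψ : R b → R k →L[ℝ] ℝ) (hψ : ContDiff ℝ ∞ ψ)
    (he : ∀ g z x, ψ (g • z) (X.L g x) = ψ z x) : X.Inv1 (zeta lam ψ) := by
  refine ⟨?_, fun m v z => rfl, ?_⟩
  · exact (hψ.comp contDiff_snd).clm_comp
      (contDiff_const.add ((hlam.comp contDiff_snd).clm_comp contDiff_const))
  · intro g x
    refine ContinuousLinearMap.ext fun u => ?_
    show zeta lam ψ (X.φ g x) (fderiv ℝ (X.φ g) x u) = zeta lam ψ x u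
    rw [zeta_apply, zeta_apply, X.fderiv_φ hB]
    show ψ (g • x.2) (X.L g u.1 + fderiv ℝ (X.τ g) x.2 u.2 +
      lam (g • x.2) (fderiv ℝ (fun z : R b => g • z) x.2 u.2)) = _
    rw [add_assoc, add_comm (fderiv ℝ (X.τ g) x.2 u.2), ← hl, ← map_add, he]

/-- The differential of `ψ (dv + lam)` on a vertical vector and an arbitrary vector. -/
theorem d1_zeta_vert (lam : R b → R b →L[ℝ] R k) (hlam : ContDiff ℝ ∞ lam)
    (ψ : R b → R k →L[ℝ] ℝ) (hψ : ContDiff ℝ ∞ ψ) (x : V k b) (y : R k) (u : V k b) :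
    d1 (zeta lam ψ) x (y, 0) u = - fderiv ℝ ψ x.2 u.2 y := by
  have h1 : HasFDerivAt ψ (fderiv ℝ ψ x.2) x.2 :=
    (hψ.differentiable (by simp) x.2).hasFDerivAt
  have h2 : HasFDerivAt lam (fderiv ℝ lam x.2) x.2 :=
    (hlam.differentiable (by simp) x.2).hasFDerivAt
  have h3 : HasFDerivAt (fun x : V k b => ψ x.2)
      ((fderiv ℝ ψ x.2).comp (ContinuousLinearMap.snd ℝ (R k) (R b))) x :=
    h1.comp x hasFDerivAt_snd
  have h4 : HasFDerivAt (fun x : V k b => lam x.2)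
      ((fderiv ℝ lam x.2).comp (ContinuousLinearMap.snd ℝ (R k) (R b))) x :=
    h2.comp x hasFDerivAt_snd
  have h5 : ∀ w : V k b, fderiv ℝ (zeta lam ψ) x w =
      (fderiv ℝ ψ x.2 w.2).comp (ContinuousLinearMap.fst ℝ (R k) (R b) +
        (lam x.2).comp (ContinuousLinearMap.snd ℝ (R k) (R b))) +
      (ψ x.2).comp ((fderiv ℝ lam x.2 w.2).comp (ContinuousLinearMap.snd ℝ (R k) (R b))) := by
    intro w
    have h6 := h3.clm_comp ((hasFDerivAt_const (ContinuousLinearMap.fst ℝ (R k) (R b)) x).add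
      (h4.clm_comp (hasFDerivAt_const (ContinuousLinearMap.snd ℝ (R k) (R b)) x)))
    have h7 : fderiv ℝ (zeta lam ψ) x = _ := h6.fderiv
    rw [h7]
    refine ContinuousLinearMap.ext fun v => ?_
    simp
    ring
  have h8 : d1 (zeta lam ψ) x (y, 0) u =
      fderiv ℝ (zeta lam ψ) x (y, 0) u - fderiv ℝ (zeta lam ψ) x u (y, 0) := rfl
  rw [h8, h5, h5]
  simp

end Pool.Agent.W_9986fc_h15
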