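import Pool.Agent.W_9986fc_h15.CRA
import Pool.Agent.W_9986fc_h15.SurfB
import Pool.Agent.W_9986fc_h15.Conn

/-!
Completely reducible monodromy over a surface: flat connections.
-/

set_option autoImplicit false
set_option maxSynthPendingDepth 3

open scoped ContDiff Matrix

namespace Pool.Agent.W_9986fc_h15

section Aux

variable {E : Type*} [NormedAddCommGroup E] [NormedSpace ℝ E]
  {H : Type*} [NormedAddCommGroup H] [NormedSpace ℝ H]

theorem CRB_symm (f : E → H) (hf : ContDiff ℝ ∞ f) (x u w : E) :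
    fderiv ℝ (fderiv ℝ f) x u w = fderiv ℝ (fderiv ℝ f) x w u := by
  refine (hf.contDiffAt.isSymmSndFDerivAt ?_).eq u w
  simp only [minSmoothness_of_isRCLikeNormedField]
  exact WithTop.coe_le_coe.mpr le_top

theorem CRB_cd_fderiv (f : E → H) (hf : ContDiff ℝ ∞ f) : ContDiff ℝ ∞ (fderiv ℝ f) :=
  hf.fderiv_right (by simp)

theorem CRB_hd (f : E → H) (hf : ContDiff ℝ ∞ f) (x : E) : HasFDerivAt f (fderiv ℝ f x) x :=
  (hf.differentiable (by simp) x).hasFDerivAt

/-- the derivative of a transformed 1-form with values in `H` -/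
theorem CRB_pull (L : H →L[ℝ] H) (A : E → E →L[ℝ] H) (hA : ContDiff ℝ ∞ A) (φ : E → E)
    (hφ : ContDiff ℝ ∞ φ) (z u w : E) :
    fderiv ℝ (fun z => L.comp ((A (φ z)).comp (fderiv ℝ φ z))) z u w =
      L (fderiv ℝ A (φ z) (fderiv ℝ φ z u) (fderiv ℝ φ z w) +
        A (φ z) (fderiv ℝ (fderiv ℝ φ) z u w)) := by
  have h1 : HasFDerivAt (fun z => A (φ z)) ((fderiv ℝ A (φ z)).comp (fderiv ℝ φ z)) z :=
    (CRB_hd A hA (φ z)).comp z (CRB_hd φ hφ z)
  have h2 : HasFDerivAt (fderiv ℝ φ) (fderiv ℝ (fderiv ℝ φ) z) z :=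
    CRB_hd _ (CRB_cd_fderiv φ hφ) z
  have h3 := (hasFDerivAt_const L z).clm_comp (h1.clm_comp h2)
  rw [h3.fderiv]
  simp only [ContinuousLinearMap.add_apply, ContinuousLinearMap.comp_apply,
    ContinuousLinearMap.compL_apply, ContinuousLinearMap.flip_apply,
    ContinuousLinearMap.zero_apply, ContinuousLinearMap.comp_zero, map_add, add_zero]
  rw [add_comm]

end Aux

section Sum

variable {k b : ℕ} {G : Type} [Group G] [MulAction G (R b)] (X : Bundle k b G)

/-- The sum over the group of the transforms of a compactly supported `ℝ^k`-valued 1-form `μ₀`: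
`μ z u = ∑ᶠ h, L h⁻¹ (μ₀ (h • z) (D h z u))`. -/
theorem exists_sum_pullv (hB : IsBase b G) (μ₀ : R b → R b →L[ℝ] R k) (hμ : ContDiff ℝ ∞ μ₀)
    (hs : HasCompactSupport μ₀) :
    ∃ μ : R b → R b →L[ℝ] R k, ContDiff ℝ ∞ μ ∧
      (∀ g z u, μ (g • z) (fderiv ℝ (fun z : R b => g • z) z u) = X.L g (μ z u)) ∧
      ∀ z u w, fderiv ℝ μ z u w - fderiv ℝ μ z w u =
        ∑ᶠ h : G, X.L h⁻¹ (
          fderiv ℝ μ₀ (h • z) (fderiv ℝ (fun z : R b => h • z) z u)
            (fderiv ℝ (fun z : R b => h • z) z w) -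
          fderiv ℝ μ₀ (h • z) (fderiv ℝ (fun z : R b => h • z) z w)
            (fderiv ℝ (fun z : R b => h • z) z u)) := by
  have hsm : ∀ h : G, ContDiff ℝ ∞ (fun z : R b => h • z) := hB.smooth
  let F : G → R b → R b →L[ℝ] R k := fun h z =>
    (X.L h⁻¹).comp ((μ₀ (h • z)).comp (fderiv ℝ (fun z : R b => h • z) z))
  have hF : CSup G (fun z : R b => z) F := by
    refine ⟨tsupport μ₀, hs, fun h z hne => ?_⟩
    by_contra hcon
    apply hne
    have : μ₀ (h • z) = 0 := image_eq_zero_of_notMem_tsupport hcon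
    show (X.L h⁻¹).comp ((μ₀ (h • z)).comp (fderiv ℝ (fun z : R b => h • z) z)) = 0
    rw [this, ContinuousLinearMap.zero_comp, ContinuousLinearMap.comp_zero]
  have hFd : ∀ h, ContDiff ℝ ∞ (F h) := by
    intro h
    exact contDiff_const.clm_comp ((hμ.comp (hsm h)).clm_comp (CRB_cd_fderiv _ (hsm h)))
  refine ⟨fun z => ∑ᶠ h, F h z, hF.contDiff hB continuous_id hFd, ?_, ?_⟩
  · intro g z u
    have e1 : (∑ᶠ h, F h (g • z)) (fderiv ℝ (fun z : R b => g • z) z u) =
        ∑ᶠ h, F h (g • z) (fderiv ℝ (fun z : R b => g • z) z u) :=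
      hF.clm hB (((ContinuousLinearMap.apply ℝ (R k)
        (fderiv ℝ (fun z : R b => g • z) z u)) : (R b →L[ℝ] R k) →ₗ[ℝ] R k)) (g • z)
    have e2 : (∑ᶠ h, F h z) u = ∑ᶠ h, F h z u :=
      hF.clm hB (((ContinuousLinearMap.apply ℝ (R k) u) : (R b →L[ℝ] R k) →ₗ[ℝ] R k)) z
    have e3 : X.L g (∑ᶠ h, F h z u) = ∑ᶠ h, X.L g (F h z u) := by
      have := hF.clm hB ((((X.L g).comp (ContinuousLinearMap.apply ℝ (R k) u)) :
        (R b →L[ℝ] R k) →ₗ[ℝ] R k)) z
      rw [← e2]
      exact this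
    show (∑ᶠ h, F h (g • z)) (fderiv ℝ (fun z : R b => g • z) z u) = X.L g ((∑ᶠ h, F h z) u)
    rw [e1, e2, e3, ← finsum_mul_right (fun h => X.L g (F h z u)) g]
    refine finsum_congr (fun h => ?_)
    show X.L h⁻¹ (μ₀ (h • g • z) (fderiv ℝ (fun z : R b => h • z) (g • z)
      (fderiv ℝ (fun z : R b => g • z) z u))) =
      X.L g (X.L (h * g)⁻¹ (μ₀ ((h * g) • z) (fderiv ℝ (fun z : R b => (h * g) • z) z u)))
    rw [fderiv_smul_mul hB, mul_smul, mul_inv_rev, X.L_mul, ContinuousLinearMap.comp_apply,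
      ContinuousLinearMap.comp_apply, X.L_apply_inv]
  · intro z u w
    have e1 : fderiv ℝ (fun z => ∑ᶠ h, F h z) z = ∑ᶠ h, fderiv ℝ (F h) z :=
      hF.fderiv_sum hB continuous_id hFd z
    let Λ : (R b →L[ℝ] R b →L[ℝ] R k) →ₗ[ℝ] R k :=
      { toFun := fun A => A u w - A w u
        map_add' := by
          intro A B
          simp only [ContinuousLinearMap.add_apply]
          abel
        map_smul' := by
          intro c A
          simp only [ContinuousLinearMap.smul_apply, RingHom.id_apply, smul_sub] }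
    have e2 : Λ (∑ᶠ h, fderiv ℝ (F h) z) = ∑ᶠ h, Λ (fderiv ℝ (F h) z) :=
      (hF.sup_fderiv hB continuous_id).clm hB Λ z
    show fderiv ℝ (fun z => ∑ᶠ h, F h z) z u w - fderiv ℝ (fun z => ∑ᶠ h, F h z) z w u = _
    rw [e1]
    refine e2.trans (finsum_congr (fun h => ?_))
    show fderiv ℝ (F h) z u w - fderiv ℝ (F h) z w u = _
    rw [CRB_pull (X.L h⁻¹) μ₀ hμ _ (hsm h) z u w, CRB_pull (X.L h⁻¹) μ₀ hμ _ (hsm h) z w u,
      ← map_sub, CRB_symm _ (hsm h) z u w, add_sub_add_right_eq_sub]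

end Sum

section Plane

variable {H : Type*} [NormedAddCommGroup H] [NormedSpace ℝ H]

theorem CRB_dec (u : R 2) : u = u 0 • stdR 0 + u 1 • stdR 1 := by
  ext i
  fin_cases i <;> simp [stdR]

theorem CRB_alt (B : R 2 →L[ℝ] R 2 →L[ℝ] H) (u w : R 2) :
    B u w - B w u = (u 0 * w 1 - u 1 * w 0) • (B (stdR 0) (stdR 1) - B (stdR 1) (stdR 0)) := by
  conv_lhs => rw [CRB_dec u, CRB_dec w]
  simp only [map_add, map_smul, ContinuousLinearMap.add_apply, ContinuousLinearMap.smul_apply]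
  module

theorem CRB_det (P : R 2 →L[ℝ] R 2) :
    P.det = P (stdR 0) 0 * P (stdR 1) 1 - P (stdR 0) 1 * P (stdR 1) 0 := by
  have h := area_bilinearComp P (stdR 0) (stdR 1)
  rw [area_apply, area_apply] at h
  rw [h]
  simp [stdR]

theorem CRB_alt_comp (B : R 2 →L[ℝ] R 2 →L[ℝ] H) (P : R 2 →L[ℝ] R 2) (u w : R 2) :
    B (P u) (P w) - B (P w) (P u) =
      P.det • (B u w - B w u) := by
  rw [CRB_alt B (P u) (P w), CRB_alt B u w, smul_smul]
  congr 1
  have h := area_bilinearComp P u w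
  rw [area_apply, area_apply] at h
  exact h

theorem CRB_cd_det (φ : R 2 → R 2) (hφ : ContDiff ℝ ∞ φ) :
    ContDiff ℝ ∞ (fun z => (fderiv ℝ φ z).det) := by
  have h : ∀ i j : Fin 2, ContDiff ℝ ∞ (fun z => fderiv ℝ φ z (stdR i) j) := by
    intro i j
    have h1 : ContDiff ℝ ∞ (fun z => fderiv ℝ φ z (stdR i)) :=
      (CRB_cd_fderiv φ hφ).clm_apply contDiff_const
    exact (contDiff_apply ℝ ℝ j).comp h1
  simp only [CRB_det]
  exact ((h 0 0).mul (h 1 1)).sub ((h 0 1).mul (h 1 0))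

end Plane

variable {k : ℕ} {G : Type} [Group G] [MulAction G (R 2)] (X : Bundle k 2 G)

theorem CRB_fin {Y : Type*} [Zero Y] (hB : IsBase 2 G) (ψ : R 2 → Y) (hs : HasCompactSupport ψ)
    (z : R 2) : {h : G | ψ (h • z) ≠ 0}.Finite := by
  refine (hB.finite (tsupport ψ) {z} hs isCompact_singleton).subset ?_
  intro h hh
  refine ⟨z, rfl, ?_⟩
  by_contra hcon
  exact hh (image_eq_zero_of_notMem_tsupport hcon)

theorem CRB_fin2 (hB : IsBase 2 G) (ψ : R 2 → R k) (hs : HasCompactSupport ψ) (z : R 2) :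
    (Function.support fun h : G =>
      (fderiv ℝ (fun z : R 2 => h • z) z).det • X.L h⁻¹ (ψ (h • z))).Finite := by
  refine (CRB_fin hB ψ hs z).subset ?_
  intro h hh h0
  apply hh
  show (fderiv ℝ (fun z : R 2 => h • z) z).det • X.L h⁻¹ (ψ (h • z)) = 0
  rw [h0, map_zero, smul_zero]

/-- Compactly supported densities with vanishing orbit sum and given integral. Proof:
`Submodule.span_induction`; for `w = x - L g⁻¹ x` take
`ψ z = ρ z • x - (det (D g z) * ρ (g • z)) • L g⁻¹ x` with a smooth compactly supported function `ρ`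
of integral one (`integral_smul`; reindex the sum over the group). -/
theorem exists_zero_sum (hB : IsBase 2 G) (hG : Oriented 2 G) (W : Submodule ℝ (R k))
    (hW : ∀ g, ∀ x ∈ W, X.L g x ∈ W) (w : R k)
    (hw : w ∈ Submodule.span ℝ {y | ∃ g : G, ∃ w ∈ W, y = w - X.L g⁻¹ w}) :
    ∃ ψ : R 2 → R k, ContDiff ℝ ∞ ψ ∧ HasCompactSupport ψ ∧ (∀ z, ψ z ∈ W) ∧ ∫ z, ψ z = w ∧
      ∀ z, ∑ᶠ h : G, (fderiv ℝ (fun z : R 2 => h • z) z).det • X.L h⁻¹ (ψ (h • z)) = 0 := by
  have hsm : ∀ h : G, ContDiff ℝ ∞ (fun z : R 2 => h • z) := hB.smooth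
  induction hw using Submodule.span_induction with
  | mem y hy =>
    obtain ⟨g, x, hx, rfl⟩ := hy
    -- a bump function
    obtain ⟨ρ, hρ, hρs, hρ1⟩ : ∃ ρ : R 2 → ℝ, ContDiff ℝ ∞ ρ ∧ HasCompactSupport ρ ∧
        ∫ z, ρ z = 1 := by
      let f : ContDiffBump (0 : R 2) := ⟨1, 2, one_pos, one_lt_two⟩
      exact ⟨f.normed MeasureTheory.volume, f.contDiff_normed, f.hasCompactSupport_normed,
        f.integral_normed⟩
    let δ : R 2 → ℝ := fun z => (fderiv ℝ (fun z : R 2 => g • z) z).det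
    have hδ : ContDiff ℝ ∞ δ := CRB_cd_det _ (hsm g)
    have hρg : HasCompactSupport (fun z : R 2 => ρ (g • z)) := by
      have hK : IsCompact ((fun z : R 2 => g⁻¹ • z) '' tsupport ρ) :=
        hρs.isCompact.image (hsm g⁻¹).continuous
      refine HasCompactSupport.intro hK (fun z hz => ?_)
      apply image_eq_zero_of_notMem_tsupport
      intro hcon
      exact hz ⟨g • z, hcon, inv_smul_smul g z⟩
    have hc1 : ContDiff ℝ ∞ (fun z => ρ z • x) := hρ.smul contDiff_const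
    have hc2 : ContDiff ℝ ∞ (fun z => (δ z * ρ (g • z)) • X.L g⁻¹ x) :=
      (hδ.mul (hρ.comp (hsm g))).smul contDiff_const
    have hs1 : HasCompactSupport (fun z => ρ z • x) := hρs.smul_right
    have hs2' : HasCompactSupport (fun z => δ z * ρ (g • z)) := hρg.mul_left
    have hs2 : HasCompactSupport (fun z => (δ z * ρ (g • z)) • X.L g⁻¹ x) := hs2'.smul_right
    refine ⟨fun z => ρ z • x - (δ z * ρ (g • z)) • X.L g⁻¹ x, hc1.sub hc2, ?_, ?_, ?_, ?_⟩
    · exact hs1.sub hs2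
    · intro z
      exact W.sub_mem (W.smul_mem _ hx) (W.smul_mem _ (hW _ x hx))
    · rw [MeasureTheory.integral_sub (hc1.continuous.integrable_of_hasCompactSupport hs1)
        (hc2.continuous.integrable_of_hasCompactSupport hs2), integral_smul_const,
        integral_smul_const, hρ1]
      have h1 : ∫ z, δ z * ρ (g • z) = 1 := by
        rw [← hρ1, ← integral_smul hB g ρ]
        refine MeasureTheory.integral_congr_ae (Filter.Eventually.of_forall (fun z => ?_))
        show δ z * ρ (g • z) = |δ z| * ρ (g • z)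
        rw [abs_of_pos (hG g z)]
      rw [h1, one_smul, one_smul]
    · intro z
      let a : G → R k := fun h =>
        ((fderiv ℝ (fun z : R 2 => h • z) z).det * ρ (h • z)) • X.L h⁻¹ x
      have ha : (Function.support a).Finite := by
        refine (CRB_fin hB ρ hρs z).subset ?_
        intro h hh h0
        apply hh
        show ((fderiv ℝ (fun z : R 2 => h • z) z).det * ρ (h • z)) • X.L h⁻¹ x = 0
        rw [h0, mul_zero, zero_smul]
      have hag : (Function.support fun h => a (g * h)).Finite := by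
        have := ha.preimage (f := fun h => g * h) (mul_right_injective g).injOn
        exact this
      have e1 : ∀ h : G, (fderiv ℝ (fun z : R 2 => h • z) z).det •
          X.L h⁻¹ (ρ (h • z) • x - (δ (h • z) * ρ (g • h • z)) • X.L g⁻¹ x) =
          a h - a (g * h) := by
        intro h
        show _ = ((fderiv ℝ (fun z : R 2 => h • z) z).det * ρ (h • z)) • X.L h⁻¹ x -
          ((fderiv ℝ (fun z : R 2 => (g * h) • z) z).det * ρ ((g * h) • z)) • X.L (g * h)⁻¹ x
        have hd : (fderiv ℝ (fun z : R 2 => (g * h) • z) z).det =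
            δ (h • z) * (fderiv ℝ (fun z : R 2 => h • z) z).det := by
          rw [fderiv_smul_mul hB]
          exact LinearMap.det_comp _ _
        rw [hd, show (g * h) • z = g • h • z from mul_smul g h z, mul_inv_rev, X.L_mul,
          ContinuousLinearMap.comp_apply, map_sub, map_smul, map_smul]
        module
      rw [finsum_congr e1, finsum_sub_distrib ha hag]
      have e2 : ∑ᶠ h, a (g * h) = ∑ᶠ h, a h := finsum_comp_equiv (Equiv.mulLeft g)
      rw [e2, sub_self]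
  | zero =>
    refine ⟨fun _ => 0, contDiff_const, ?_, fun _ => W.zero_mem, by simp, fun z => ?_⟩
    · exact HasCompactSupport.zero
    · simp
  | add y y' _ _ ih ih' =>
    obtain ⟨ψ, h1, h2, h3, h4, h5⟩ := ih
    obtain ⟨ψ', h1', h2', h3', h4', h5'⟩ := ih'
    refine ⟨fun z => ψ z + ψ' z, h1.add h1', h2.add h2', fun z => W.add_mem (h3 z) (h3' z), ?_, ?_⟩
    · rw [MeasureTheory.integral_add (h1.continuous.integrable_of_hasCompactSupport h2)
        (h1'.continuous.integrable_of_hasCompactSupport h2'), h4, h4']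
    · intro z
      have e : ∀ h : G, (fderiv ℝ (fun z : R 2 => h • z) z).det •
          X.L h⁻¹ (ψ (h • z) + ψ' (h • z)) =
          (fderiv ℝ (fun z : R 2 => h • z) z).det • X.L h⁻¹ (ψ (h • z)) +
          (fderiv ℝ (fun z : R 2 => h • z) z).det • X.L h⁻¹ (ψ' (h • z)) := by
        intro h
        rw [map_add, smul_add]
      rw [finsum_congr e, finsum_add_distrib (CRB_fin2 X hB ψ h2 z) (CRB_fin2 X hB ψ' h2' z),
        h5, h5', add_zero]
  | smul c y _ ih =>
    obtain ⟨ψ, h1, h2, h3, h4, h5⟩ := ih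
    refine ⟨fun z => c • ψ z, h1.const_smul c,
      (h2.smul_left : HasCompactSupport ((fun _ : R 2 => c) • ψ)),
      fun z => W.smul_mem c (h3 z), ?_, ?_⟩
    · rw [MeasureTheory.integral_smul, h4]
    · intro z
      have e : ∀ h : G, (fderiv ℝ (fun z : R 2 => h • z) z).det • X.L h⁻¹ (c • ψ (h • z)) =
          c • ((fderiv ℝ (fun z : R 2 => h • z) z).det • X.L h⁻¹ (ψ (h • z))) := by
        intro h
        rw [map_smul, smul_comm]
      rw [finsum_congr e, ← smul_finsum' c (CRB_fin2 X hB ψ h2 z), h5, smul_zero]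

/-- The curvature of a connection is an equivariant density. Proof: differentiate the equation which
says that `lam` is a connection, and antisymmetrize (second derivatives are symmetric). -/
theorem curvature_equivariant (hB : IsBase 2 G) (lam : R 2 → R 2 →L[ℝ] R k)
    (hlam : ContDiff ℝ ∞ lam) (hl : ∀ g z u, X.L g (lam z u) =
      lam (g • z) (fderiv ℝ (fun z : R 2 => g • z) z u) + fderiv ℝ (X.τ g) z u) (g : G) (z : R 2) :
    X.L g (fderiv ℝ lam z (stdR 0) (stdR 1) - fderiv ℝ lam z (stdR 1) (stdR 0)) =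
      (fderiv ℝ (fun z : R 2 => g • z) z).det •
        (fderiv ℝ lam (g • z) (stdR 0) (stdR 1) - fderiv ℝ lam (g • z) (stdR 1) (stdR 0)) := by
  have hsm : ContDiff ℝ ∞ (fun z : R 2 => g • z) := hB.smooth g
  have hτ : ContDiff ℝ ∞ (X.τ g) := X.smooth g
  have hfun : (fun z => (X.L g).comp (lam z)) =
      fun z => (ContinuousLinearMap.id ℝ (R k)).comp
        ((lam (g • z)).comp (fderiv ℝ (fun z : R 2 => g • z) z)) + fderiv ℝ (X.τ g) z := by
    funext z
    ext1 u
    exact hl g z u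
  have key : ∀ u w : R 2, X.L g (fderiv ℝ lam z u w) =
      (fderiv ℝ lam (g • z) (fderiv ℝ (fun z : R 2 => g • z) z u)
        (fderiv ℝ (fun z : R 2 => g • z) z w) +
        lam (g • z) (fderiv ℝ (fderiv ℝ (fun z : R 2 => g • z)) z u w)) +
        fderiv ℝ (fderiv ℝ (X.τ g)) z u w := by
    intro u w
    have h1 : fderiv ℝ (fun z => (X.L g).comp (lam z)) z u w = X.L g (fderiv ℝ lam z u w) := by
      have := (hasFDerivAt_const (X.L g) z).clm_comp (CRB_hd lam hlam z)
      rw [this.fderiv]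
      simp
    have hA : ContDiff ℝ ∞ (fun z => (ContinuousLinearMap.id ℝ (R k)).comp
        ((lam (g • z)).comp (fderiv ℝ (fun z : R 2 => g • z) z))) :=
      contDiff_const.clm_comp ((hlam.comp hsm).clm_comp (CRB_cd_fderiv _ hsm))
    have h2 := CRB_pull (ContinuousLinearMap.id ℝ (R k)) lam hlam _ hsm z u w
    rw [← h1, hfun]
    have h3 := ((CRB_hd _ hA z).add (CRB_hd _ (CRB_cd_fderiv _ hτ) z)).fderiv
    refine (congrArg (fun T : R 2 →L[ℝ] R 2 →L[ℝ] R k => T u w) h3).trans ?_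
    show fderiv ℝ (fun z => (ContinuousLinearMap.id ℝ (R k)).comp
        ((lam (g • z)).comp (fderiv ℝ (fun z : R 2 => g • z) z))) z u w +
      fderiv ℝ (fderiv ℝ (X.τ g)) z u w = _
    rw [h2]
    rfl
  rw [map_sub, key, key, ← CRB_alt_comp, CRB_symm _ hsm z (stdR 0) (stdR 1),
    CRB_symm _ hτ z (stdR 0) (stdR 1)]
  abel

/-- A flat connection on the plane `W`, if there are no fixed vectors. Proof: let `lam` be a
connection (`exists_connection`), `f z ∈ W` the image under `p` of its curvature, `w = ∫ χ • f`,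
`ψ₀` from `exists_zero_sum` for `w` (`le_span_coinv`), `ψ = χ • f - ψ₀`, of integral zero, `P`, `Q`
from `exists_primitive_compact` for `ψ`, `μ₀ z u = u 1 • Q z - u 0 • P z`, `μ` from
`exists_sum_pullv` and `lam' z u = p (lam z u - μ z u)`. -/
theorem exists_flat_connection (hB : IsBase 2 G) (hG : Oriented 2 G)
    (W : Submodule ℝ (R k)) (hW : ∀ g, ∀ x ∈ W, X.L g x ∈ W)
    (hspan : W ≤ Submodule.span ℝ {y | ∃ g : G, ∃ w ∈ W, y = w - X.L g⁻¹ w})
    (p : R k →L[ℝ] R k)
    (hpW : ∀ x, p x ∈ W) (hpid : ∀ x ∈ W, p x = x) (hpg : ∀ g x, p (X.L g x) = X.L g (p x)) :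
    ∃ lam' : R 2 → R 2 →L[ℝ] R k, ContDiff ℝ ∞ lam' ∧
      (∀ g z u, X.L g (lam' z u) =
        lam' (g • z) (fderiv ℝ (fun z : R 2 => g • z) z u) + p (fderiv ℝ (X.τ g) z u)) ∧
      ∀ z u w, fderiv ℝ lam' z u w = fderiv ℝ lam' z w u := by
  obtain ⟨lam, hlam, hl⟩ := exists_connection X hB
  obtain ⟨χ, hχ, -⟩ := exists_isPart hB
  obtain ⟨cu, hcu⟩ : ∃ cu : R 2 → R k, ∀ z, cu z =
      fderiv ℝ lam z (stdR 0) (stdR 1) - fderiv ℝ lam z (stdR 1) (stdR 0) := ⟨_, fun _ => rfl⟩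
  have hcus : ContDiff ℝ ∞ cu := by
    have : cu = fun z => fderiv ℝ lam z (stdR 0) (stdR 1) - fderiv ℝ lam z (stdR 1) (stdR 0) :=
      funext hcu
    rw [this]
    have hd := CRB_cd_fderiv lam hlam
    exact ((hd.clm_apply contDiff_const).clm_apply contDiff_const).sub
      ((hd.clm_apply contDiff_const).clm_apply contDiff_const)
  have hcue : ∀ g z, X.L g (cu z) = (fderiv ℝ (fun z : R 2 => g • z) z).det • cu (g • z) := by
    intro g z
    rw [hcu, hcu]
    exact curvature_equivariant X hB lam hlam hl g z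
  obtain ⟨f, hf⟩ : ∃ f : R 2 → R k, ∀ z, f z = p (cu z) := ⟨_, fun _ => rfl⟩
  have hfs : ContDiff ℝ ∞ f := by
    have : f = fun z => p (cu z) := funext hf
    rw [this]
    exact p.contDiff.comp hcus
  have hfW : ∀ z, f z ∈ W := fun z => by rw [hf]; exact hpW _
  have hpf : ∀ z, p (f z) = f z := fun z => hpid _ (hfW z)
  have hfe : ∀ g z, X.L g (f z) = (fderiv ℝ (fun z : R 2 => g • z) z).det • f (g • z) := by
    intro g z
    rw [hf, hf, ← hpg, hcue, map_smul]
  have h1s : ContDiff ℝ ∞ (fun z => χ z • f z) := hχ.smooth.smul hfs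
  have h1c : HasCompactSupport (fun z => χ z • f z) := hχ.compact.smul_right
  have h1i : MeasureTheory.Integrable (fun z => χ z • f z) :=
    h1s.continuous.integrable_of_hasCompactSupport h1c
  have hwW : (∫ z, χ z • f z) ∈ W := by
    have : p (∫ z, χ z • f z) = ∫ z, χ z • f z := by
      rw [← ContinuousLinearMap.integral_comp_comm p h1i]
      refine MeasureTheory.integral_congr_ae (Filter.Eventually.of_forall (fun z => ?_))
      show p (χ z • f z) = χ z • f z
      rw [map_smul, hpf]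
    rw [← this]
    exact hpW _
  obtain ⟨ψ₀, h2s, h2c, -, h2w, h20⟩ := exists_zero_sum X hB hG W hW _
    (hspan hwW)
  have h2i : MeasureTheory.Integrable ψ₀ := h2s.continuous.integrable_of_hasCompactSupport h2c
  obtain ⟨ψ, hψ⟩ : ∃ ψ : R 2 → R k, ∀ z, ψ z = χ z • f z - ψ₀ z := ⟨_, fun _ => rfl⟩
  have hψf : ψ = fun z => χ z • f z - ψ₀ z := funext hψ
  have hψs : ContDiff ℝ ∞ ψ := by rw [hψf]; exact h1s.sub h2s
  have hψc : HasCompactSupport ψ := by rw [hψf]; exact h1c.sub h2c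
  have hψ0 : ∫ z, ψ z = 0 := by
    rw [hψf, MeasureTheory.integral_sub h1i h2i, h2w, sub_self]
  obtain ⟨P, Q, hP, hPc, hQ, hQc, hPQ⟩ := exists_primitive_compact ψ hψs hψc hψ0
  let c0 : R 2 →L[ℝ] ℝ := ContinuousLinearMap.proj 0
  let c1 : R 2 →L[ℝ] ℝ := ContinuousLinearMap.proj 1
  let S0 : R k →L[ℝ] R 2 →L[ℝ] R k := ContinuousLinearMap.smulRightL ℝ (R 2) (R k) c0
  let S1 : R k →L[ℝ] R 2 →L[ℝ] R k := ContinuousLinearMap.smulRightL ℝ (R 2) (R k) c1
  obtain ⟨μ₀, hμ₀⟩ : ∃ μ₀ : R 2 → R 2 →L[ℝ] R k, ∀ z, μ₀ z = S1 (Q z) - S0 (P z) :=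
    ⟨_, fun _ => rfl⟩
  have hμ₀f : μ₀ = fun z => S1 (Q z) - S0 (P z) := funext hμ₀
  have hμ₀s : ContDiff ℝ ∞ μ₀ := by
    rw [hμ₀f]
    exact (S1.contDiff.comp hQ).sub (S0.contDiff.comp hP)
  have hμ₀c : HasCompactSupport μ₀ := by
    rw [hμ₀f]
    exact (hQc.comp_left (map_zero S1)).sub (hPc.comp_left (map_zero S0))
  have hμ₀d : ∀ z u w, fderiv ℝ μ₀ z u w = w 1 • fderiv ℝ Q z u - w 0 • fderiv ℝ P z u := by
    intro z u w
    have h := ((S1.hasFDerivAt.comp z (CRB_hd Q hQ z)).sub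
      (S0.hasFDerivAt.comp z (CRB_hd P hP z))).fderiv
    rw [hμ₀f]
    refine (congrArg (fun T : R 2 →L[ℝ] R 2 →L[ℝ] R k => T u w) h).trans ?_
    rfl
  have hcurl : ∀ z, fderiv ℝ μ₀ z (stdR 0) (stdR 1) - fderiv ℝ μ₀ z (stdR 1) (stdR 0) = ψ z := by
    intro z
    rw [hμ₀d, hμ₀d, ← hPQ]
    simp [stdR]
  obtain ⟨μ, hμs, hμe, hμc⟩ := exists_sum_pullv X hB μ₀ hμ₀s hμ₀c
  have hsum : ∀ z, ∑ᶠ h : G, (fderiv ℝ (fun z : R 2 => h • z) z).det • X.L h⁻¹ (ψ (h • z)) =
      f z := by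
    intro z
    have e : ∀ h : G, (fderiv ℝ (fun z : R 2 => h • z) z).det • X.L h⁻¹ (ψ (h • z)) =
        χ (h • z) • f z -
          (fderiv ℝ (fun z : R 2 => h • z) z).det • X.L h⁻¹ (ψ₀ (h • z)) := by
      intro h
      rw [hψ, map_sub, smul_sub]
      congr 1
      rw [map_smul, smul_comm, ← map_smul, ← hfe, X.L_inv_apply]
    have hfin : (Function.support fun h : G => χ (h • z)).Finite := CRB_fin hB χ hχ.compact z
    have hfin' : (Function.support fun h : G => χ (h • z) • f z).Finite := by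
      refine hfin.subset ?_
      intro h hh h0
      apply hh
      have h0' : χ (h • z) = 0 := h0
      show χ (h • z) • f z = 0
      rw [h0', zero_smul]
    rw [finsum_congr e, finsum_sub_distrib hfin' (CRB_fin2 X hB ψ₀ h2c z), h20, sub_zero,
      ← finsum_smul' hfin, hχ.sum, one_smul]
  have hμcurl : ∀ z u w, fderiv ℝ μ z u w - fderiv ℝ μ z w u =
      (u 0 * w 1 - u 1 * w 0) • f z := by
    intro z u w
    rw [hμc]
    have e : ∀ h : G, X.L h⁻¹ (
          fderiv ℝ μ₀ (h • z) (fderiv ℝ (fun z : R 2 => h • z) z u)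
            (fderiv ℝ (fun z : R 2 => h • z) z w) -
          fderiv ℝ μ₀ (h • z) (fderiv ℝ (fun z : R 2 => h • z) z w)
            (fderiv ℝ (fun z : R 2 => h • z) z u)) = (u 0 * w 1 - u 1 * w 0) •
          ((fderiv ℝ (fun z : R 2 => h • z) z).det • X.L h⁻¹ (ψ (h • z))) := by
      intro h
      rw [CRB_alt_comp, CRB_alt, hcurl, map_smul, map_smul, smul_comm]
    rw [finsum_congr e, ← smul_finsum' _ (CRB_fin2 X hB ψ hψc z), hsum]
  refine ⟨fun z => p.comp (lam z - μ z), contDiff_const.clm_comp (hlam.sub hμs), ?_, ?_⟩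
  · intro g z u
    show X.L g (p (lam z u - μ z u)) =
      p (lam (g • z) (fderiv ℝ (fun z : R 2 => g • z) z u) -
        μ (g • z) (fderiv ℝ (fun z : R 2 => g • z) z u)) + p (fderiv ℝ (X.τ g) z u)
    rw [← hpg, ← map_add, map_sub, hl, hμe]
    congr 1
    abel
  · intro z u w
    have hd : ∀ u w : R 2, fderiv ℝ (fun z => p.comp (lam z - μ z)) z u w =
        p (fderiv ℝ lam z u w - fderiv ℝ μ z u w) := by
      intro u w
      have h := ((hasFDerivAt_const p z).clm_comp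
        ((CRB_hd lam hlam z).sub (CRB_hd μ hμs z))).fderiv
      refine (congrArg (fun T : R 2 →L[ℝ] R 2 →L[ℝ] R k => T u w) h).trans ?_
      simp
    rw [hd, hd, ← sub_eq_zero, ← map_sub]
    have e : fderiv ℝ lam z u w - fderiv ℝ μ z u w - (fderiv ℝ lam z w u - fderiv ℝ μ z w u) =
        (u 0 * w 1 - u 1 * w 0) • cu z - (u 0 * w 1 - u 1 * w 0) • f z := by
      rw [← hμcurl, hcu, ← CRB_alt]
      abel
    rw [e, map_sub, map_smul, map_smul, hpf, ← hf, sub_self]

end Pool.Agent.W_9986fc_h15
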