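import Pool.Agent.W_9986fc_h15.GeneralB
import Pool.Agent.W_9986fc_h15.SurfB

/-!
The first theorem for surface bases.
-/

set_option autoImplicit false
set_option maxSynthPendingDepth 3

open scoped ContDiff Matrix

namespace Pool.Agent.W_9986fc_h15

variable {k b : ℕ} {G : Type} [Group G]

/-- Surfaces: if the monodromy preserves no alternating form whose kernel is a plane, then every
class with positive top power contains a symplectic form. -/
theorem strongM_two [MulAction G (R 2)] (X : Bundle k 2 G) (hB : IsBase 2 G) (hX : X.Oriented)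
    (h : ∀ c, X.InvC c → Module.finrank ℝ (kerC c) ≠ 2) : StrongM X := by
  intro n π χ α hχ hα hc hpos
  refine general_strong X hB hX (strongB_two hB) π χ α hχ hα hc ?_ hpos
  intro c hcc _ hne hle
  exfalso
  obtain ⟨r, hr⟩ := even_rank c hcc.alt
  have h2 := Fintype.card_congr π
  simp only [Fintype.card_prod, Fintype.card_fin, Fintype.card_sum] at h2
  have h3 := h c hcc
  have h4 : Module.finrank ℝ (kerC c) ≠ 0 := by
    intro h5
    exact hne (Submodule.finrank_eq_zero.mp h5)
  omega

/-- Top powers of continuous families are continuous. -/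
theorem continuous_top {E Y : Type*} [NormedAddCommGroup E] [NormedSpace ℝ E] [TopologicalSpace Y]
    {n : ℕ} (e : Fin n × Fin 2 → E) {α : Y → E →L[ℝ] E →L[ℝ] ℝ} (hα : Continuous α) :
    Continuous fun x => top e (α x) := by
  unfold top
  refine continuous_finsetSum _ fun σ _ => continuous_const.mul (continuous_finsetProd _ fun i _ => ?_)
  exact (hα.clm_apply continuous_const).clm_apply continuous_const

/-- The integral of a top power over `M` does not depend on the partition of unity. -/
theorem integral_indep {n : ℕ} [MulAction G (R b)] (X : Bundle k b G) (hB : IsBase b G)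
    (hX : X.Oriented) (π : Fin n × Fin 2 ≃ Fin k ⊕ Fin b) (χ χ' : R b → ℝ) (hχ : IsPart G χ)
    (hχ' : IsPart G χ') (α : V k b → V k b →L[ℝ] V k b →L[ℝ] ℝ) (hα : X.Inv2 α) :
    ∫ z, χ' z * fib (fun x => top (fun i => stdV (π i)) (α x)) z =
      ∫ z, χ z * fib (fun x => top (fun i => stdV (π i)) (α x)) z := by
  refine integral_part_eq X hB hX hχ hχ' _ ?_ ?_ fun g x => top_inv X hB π α hα g x
  · exact continuous_top _ hα.smooth.continuous
  · intro m v z
    simp only [hα.periodic]

end Pool.Agent.W_9986fc_h15
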