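import Pool.Agent.W_9986fc_h15.CRB
import Pool.Agent.W_9986fc_h15.ClausesA

/-!
The second theorem for surface bases: completely reducible monodromy.
-/

set_option autoImplicit false
set_option maxSynthPendingDepth 3

open scoped ContDiff Matrix

namespace Pool.Agent.W_9986fc_h15

variable {k : ℕ} {G : Type} [Group G]

/-- The component of the real Euler class of the bundle in `ℝ^k / W` is zero: after the gauge
transformation `s` the translation parts are constant modulo `W`. -/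
def Bundle.FlatMod {b : ℕ} [MulAction G (R b)] (X : Bundle k b G) (W : Submodule ℝ (R k)) : Prop :=
  ∃ s : R b → R k, ContDiff ℝ ∞ s ∧
    ∀ g, ∃ w : R k, ∀ z, X.τ g z + s (g • z) - X.L g (s z) - w ∈ W

/-- The flat connection of a flat bundle: `lam' z u = p (D s z u)`. -/
theorem exists_flat_connection' {b : ℕ} [MulAction G (R b)] (X : Bundle k b G) (hB : IsBase b G)
    (W : Submodule ℝ (R k)) (hX : X.FlatMod W) (p : R k →L[ℝ] R k) (hpW : ∀ x ∈ W, p x = 0)
    (hpg : ∀ g x, p (X.L g x) = X.L g (p x)) :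
    ∃ lam' : R b → R b →L[ℝ] R k, ContDiff ℝ ∞ lam' ∧
      (∀ g z u, X.L g (lam' z u) =
        lam' (g • z) (fderiv ℝ (fun z : R b => g • z) z u) + p (fderiv ℝ (X.τ g) z u)) ∧
      ∀ z u w, fderiv ℝ lam' z u w = fderiv ℝ lam' z w u := by
  obtain ⟨s, hs, h⟩ := hX
  have hds : ContDiff ℝ ∞ (fderiv ℝ s) := hs.fderiv_right (m := ∞) (by simp)
  have hsd : ∀ z, HasFDerivAt s (fderiv ℝ s z) z := fun z =>
    (hs.differentiable (by simp)).differentiableAt.hasFDerivAt
  refine ⟨fun z => p.comp (fderiv ℝ s z), contDiff_const.clm_comp hds, ?_, ?_⟩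
  · intro g z u
    obtain ⟨w, hw⟩ := h g
    have h1 : HasFDerivAt (fun z => X.τ g z + s (g • z) - X.L g (s z))
        (fderiv ℝ (X.τ g) z + (fderiv ℝ s (g • z)).comp (fderiv ℝ (fun z : R b => g • z) z) -
          (X.L g).comp (fderiv ℝ s z)) z := by
      refine HasFDerivAt.sub (HasFDerivAt.add ?_ ?_) ?_
      · exact ((X.smooth g).differentiable (by simp)).differentiableAt.hasFDerivAt
      · exact (hsd (g • z)).comp z (smul_hasFDerivAt hB g z)
      · exact (X.L g).hasFDerivAt.comp z (hsd z)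
    have h1' : HasFDerivAt (fun z => p (X.τ g z + s (g • z) - X.L g (s z)))
        (p.comp (fderiv ℝ (X.τ g) z + (fderiv ℝ s (g • z)).comp
          (fderiv ℝ (fun z : R b => g • z) z) - (X.L g).comp (fderiv ℝ s z))) z :=
      p.hasFDerivAt.comp z h1
    have h2 : HasFDerivAt (fun z => p (X.τ g z + s (g • z) - X.L g (s z)))
        (0 : R b →L[ℝ] R k) z := by
      have h3 : (fun z => p (X.τ g z + s (g • z) - X.L g (s z))) = fun _ => p w := by
        funext y
        have := hpW _ (hw y)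
        rw [map_sub, sub_eq_zero] at this
        exact this
      rw [h3]
      exact hasFDerivAt_const (p w) z
    have h4 := congrArg (fun T : R b →L[ℝ] R k => T u) (h1'.unique h2)
    have h5 : p (fderiv ℝ (X.τ g) z u + fderiv ℝ s (g • z) (fderiv ℝ (fun z : R b => g • z) z u) -
        X.L g (fderiv ℝ s z u)) = 0 := h4
    rw [map_sub, map_add] at h5
    have h6 := sub_eq_zero.1 h5
    show X.L g (p (fderiv ℝ s z u)) =
      p (fderiv ℝ s (g • z) (fderiv ℝ (fun z : R b => g • z) z u)) + p (fderiv ℝ (X.τ g) z u)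
    rw [← hpg, ← h6, add_comm]
  · intro z u w
    have h1 : ∀ z, HasFDerivAt (fun z => p.comp (fderiv ℝ s z))
        ((ContinuousLinearMap.compL ℝ (R b) (R k) (R k) p).comp (fderiv ℝ (fderiv ℝ s) z)) z :=
      fun z => (ContinuousLinearMap.compL ℝ (R b) (R k) (R k) p).hasFDerivAt.comp z
        (hds.differentiable (by simp)).differentiableAt.hasFDerivAt
    rw [(h1 z).fderiv]
    show p (fderiv ℝ (fderiv ℝ s) z u w) = p (fderiv ℝ (fderiv ℝ s) z w u)
    have h2 : IsSymmSndFDerivAt ℝ s z := hs.contDiffAt.isSymmSndFDerivAt (by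
      rw [minSmoothness_of_isRCLikeNormedField]
      exact WithTop.coe_le_coe.2 le_top)
    rw [h2.eq]

/-- The 2-form `ν (p dv + lam', p dv + lam')`. -/
noncomputable def nuForm {b : ℕ} (p : R k →L[ℝ] R k) (ν : R k →L[ℝ] R k →L[ℝ] ℝ)
    (lam' : R b → R b →L[ℝ] R k) (x : V k b) : V k b →L[ℝ] V k b →L[ℝ] ℝ :=
  ν.bilinearComp
    (p.comp (ContinuousLinearMap.fst ℝ (R k) (R b)) +
      (lam' x.2).comp (ContinuousLinearMap.snd ℝ (R k) (R b)))
    (p.comp (ContinuousLinearMap.fst ℝ (R k) (R b)) +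
      (lam' x.2).comp (ContinuousLinearMap.snd ℝ (R k) (R b)))

theorem CRC_apply {b : ℕ} (p : R k →L[ℝ] R k) (ν : R k →L[ℝ] R k →L[ℝ] ℝ)
    (lam' : R b → R b →L[ℝ] R k) (x u v : V k b) :
    nuForm p ν lam' x u v = ν (p u.1 + lam' x.2 u.2) (p v.1 + lam' x.2 v.2) := rfl

theorem CRC_smooth {b : ℕ} (p : R k →L[ℝ] R k) (ν : R k →L[ℝ] R k →L[ℝ] ℝ)
    (lam' : R b → R b →L[ℝ] R k) (hlam : ContDiff ℝ ∞ lam') :
    ContDiff ℝ ∞ (nuForm p ν lam') := by
  have hA : ContDiff ℝ ∞ (fun x : V k b => p.comp (ContinuousLinearMap.fst ℝ (R k) (R b)) +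
      (lam' x.2).comp (ContinuousLinearMap.snd ℝ (R k) (R b))) :=
    contDiff_const.add ((hlam.comp contDiff_snd).clm_comp contDiff_const)
  have h1 : ContDiff ℝ ∞ (fun x : V k b =>
      (ContinuousLinearMap.flipₗᵢ ℝ (V k b) (R k) ℝ).toContinuousLinearEquiv (ν.comp
      (p.comp (ContinuousLinearMap.fst ℝ (R k) (R b)) +
      (lam' x.2).comp (ContinuousLinearMap.snd ℝ (R k) (R b))))) :=
    (ContinuousLinearEquiv.contDiff _).comp (contDiff_const.clm_comp hA)
  exact (ContinuousLinearEquiv.contDiff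
    (ContinuousLinearMap.flipₗᵢ ℝ (V k b) (V k b) ℝ).toContinuousLinearEquiv).comp
    (h1.clm_comp hA)

theorem CRC_fderiv {b : ℕ} (p : R k →L[ℝ] R k) (ν : R k →L[ℝ] R k →L[ℝ] ℝ)
    (lam' : R b → R b →L[ℝ] R k) (hlam : ContDiff ℝ ∞ lam') (x w u v : V k b) :
    fderiv ℝ (nuForm p ν lam') x w u v =
      ν (p u.1 + lam' x.2 u.2) (fderiv ℝ lam' x.2 w.2 v.2) +
        ν (fderiv ℝ lam' x.2 w.2 u.2) (p v.1 + lam' x.2 v.2) := by
  have hα : HasFDerivAt (nuForm p ν lam') (fderiv ℝ (nuForm p ν lam') x) x :=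
    ((CRC_smooth p ν lam' hlam).differentiable (by simp)).differentiableAt.hasFDerivAt
  have h1 := (hα.clm_apply (hasFDerivAt_const u x)).clm_apply (hasFDerivAt_const v x)
  have hl : HasFDerivAt (fun y : V k b => lam' y.2)
      ((fderiv ℝ lam' x.2).comp (ContinuousLinearMap.snd ℝ (R k) (R b))) x :=
    HasFDerivAt.comp x (hlam.differentiable (by simp)).differentiableAt.hasFDerivAt
      hasFDerivAt_snd
  have hθ : ∀ u : V k b, HasFDerivAt (fun y : V k b => p u.1 + lam' y.2 u.2)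
      (((fderiv ℝ lam' x.2).comp (ContinuousLinearMap.snd ℝ (R k) (R b))).flip u.2) x := by
    intro u
    have h2 := (hasFDerivAt_const (p u.1) x).add (hl.clm_apply (hasFDerivAt_const u.2 x))
    refine h2.congr_fderiv ?_
    ext w <;> simp
  have h3 := (ν.hasFDerivAt.comp x (hθ u)).clm_apply (hθ v)
  have h4 := congrArg (fun T : V k b →L[ℝ] ℝ => T w) (h1.unique h3)
  simpa using h4

theorem nuForm_inv2 {b : ℕ} [MulAction G (R b)] (X : Bundle k b G) (hB : IsBase b G)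
    (p : R k →L[ℝ] R k) (ν : R k →L[ℝ] R k →L[ℝ] ℝ) (hν : X.InvC ν)
    (hpg : ∀ g x, p (X.L g x) = X.L g (p x)) (lam' : R b → R b →L[ℝ] R k)
    (hlam : ContDiff ℝ ∞ lam')
    (hl : ∀ g z u, X.L g (lam' z u) =
        lam' (g • z) (fderiv ℝ (fun z : R b => g • z) z u) + p (fderiv ℝ (X.τ g) z u)) :
    X.Inv2 (nuForm p ν lam') := by
  refine ⟨⟨CRC_smooth p ν lam' hlam, fun x u => ?_⟩, fun m v z => rfl, fun g x => ?_⟩
  · rw [CRC_apply]
    exact hν.alt _
  · have key : ∀ u : V k b, p (fderiv ℝ (X.φ g) x u).1 +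
        lam' (X.φ g x).2 (fderiv ℝ (X.φ g) x u).2 = X.L g (p u.1 + lam' x.2 u.2) := by
      intro u
      rw [X.fderiv_φ hB]
      show p (X.L g u.1 + fderiv ℝ (X.τ g) x.2 u.2) +
        lam' (g • x.2) (fderiv ℝ (fun z : R b => g • z) x.2 u.2) = _
      rw [map_add, map_add, hl, hpg]
      abel
    refine ContinuousLinearMap.ext fun u => ContinuousLinearMap.ext fun w => ?_
    show nuForm p ν lam' (X.φ g x) (fderiv ℝ (X.φ g) x u) (fderiv ℝ (X.φ g) x w) = _
    rw [CRC_apply, CRC_apply, key, key, hν.invariant]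

theorem nuForm_closed {b : ℕ} (p : R k →L[ℝ] R k) (ν : R k →L[ℝ] R k →L[ℝ] ℝ)
    (hν : ∀ x, ν x x = 0) (lam' : R b → R b →L[ℝ] R k) (hlam : ContDiff ℝ ∞ lam')
    (hc : ∀ z u w, fderiv ℝ lam' z u w = fderiv ℝ lam' z w u) :
    Closed (nuForm p ν lam') := by
  have hanti : ∀ x y, ν x y = - ν y x := by
    intro x y
    have h1 := hν (x + y)
    rw [map_add, map_add, add_apply, add_apply, hν, hν] at h1
    linarith
  intro x u v w
  rw [CRC_fderiv p ν lam' hlam, CRC_fderiv p ν lam' hlam, CRC_fderiv p ν lam' hlam]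
  rw [hanti (fderiv ℝ lam' x.2 u.2 v.2), hanti (fderiv ℝ lam' x.2 v.2 w.2),
    hanti (fderiv ℝ lam' x.2 w.2 u.2), hc x.2 u.2 v.2, hc x.2 v.2 w.2, hc x.2 w.2 u.2]
  ring

end Pool.Agent.W_9986fc_h15
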