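import Pool.Agent.W_9986fc_h15.CRC

/-!
The second theorem for surface bases: assembly.
-/

set_option autoImplicit false
set_option maxSynthPendingDepth 3

open scoped ContDiff Matrix

namespace Pool.Agent.W_9986fc_h15

variable {k : ℕ} {G : Type} [Group G]

theorem nuForm_apply {b : ℕ} (p : R k →L[ℝ] R k) (ν : R k →L[ℝ] R k →L[ℝ] ℝ)
    (lam' : R b → R b →L[ℝ] R k) (x u w : V k b) :
    nuForm p ν lam' x u w = ν (p u.1 + lam' x.2 u.2) (p w.1 + lam' x.2 w.2) := rfl

theorem InvC.add {b : ℕ} [MulAction G (R b)] {X : Bundle k b G} {c ν : R k →L[ℝ] R k →L[ℝ] ℝ}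
    (hc : X.InvC c) (hν : X.InvC ν) : X.InvC (c + ν) where
  alt := fun x => by
    have h1 := hc.alt x
    have h2 := hν.alt x
    show c x x + ν x x = 0
    rw [h1, h2, add_zero]
  invariant := fun g x y => by
    show c _ _ + ν _ _ = c x y + ν x y
    rw [hc.invariant, hν.invariant]

/-- A closed invariant form with nondegenerate fibre part over an oriented surface gives symplectic
forms of both orientations. -/
theorem exists_symplectic_of_nondegenerate [MulAction G (R 2)] {n : ℕ} (X : Bundle k 2 G)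
    (hB : IsBase 2 G) (hG : Oriented 2 G) (π : Fin n × Fin 2 ≃ Fin k ⊕ Fin 2)
    (a : V k 2 → V k 2 →L[ℝ] V k 2 →L[ℝ] ℝ) (ha : X.Inv2 a) (hc : Closed a)
    (hv : ∀ v z, a (v, z) = a (0, z)) (c : R k →L[ℝ] R k →L[ℝ] ℝ) (hcc : X.InvC c)
    (hac : ∀ x y y', a x (y, 0) (y', 0) = c y y') (hk : kerC c = ⊥) :
    ∃ s, X.Inv2 s ∧ Closed s ∧ ∀ x, 0 < top (fun i => stdV (π i)) (s x) := by
  obtain ⟨γ, hγ, hγc, hγt⟩ := exists_base_form X hB π a ha hc hv c hcc hac hk
  obtain ⟨m, ⟨π'⟩⟩ := exists_base_equiv π c hcc.alt hk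
  obtain ⟨K, hK0, hK⟩ := exists_const π π' c hcc.alt
  have hK0 := hK0 hk
  obtain ⟨ε, hε, htop⟩ := top_two π'
  obtain ⟨f, hf, hfpos, hfinv, -⟩ := exists_density hB hG
  have hε0 : ε ≠ 0 := by rcases hε with h | h <;> rw [h] <;> norm_num
  have hKε : K * ε ≠ 0 := mul_ne_zero hK0 hε0
  have hs : BInv2 G (fun z => (K * ε * f z) • area) := by
    refine binv2_area (fun z => K * ε * f z) (contDiff_const.mul hf) fun g z => ?_
    have := hfinv g z
    show _ * (K * ε * f (g • z)) = K * ε * f z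
    rw [← this]
    ring
  have hsc : Closed (fun z => (K * ε * f z) • area) := closed_two _ hs.toIsForm
  have hd : BInv2 G (fun z => (K * ε * f z) • area + -γ z) := hs.add hγ.neg
  have hdc : Closed (fun z => (K * ε * f z) • area + -γ z) :=
    Closed.add hs.smooth hγ.neg.smooth hsc (Closed.neg hγc)
  have hl : X.Inv2 (fun x => liftB ((K * ε * f x.2) • area + -γ x.2)) :=
    inv2_lift X hB (fun z => (K * ε * f z) • area + -γ z) hd
  have hlc : Closed (fun x : V k 2 => liftB (k := k) ((K * ε * f x.2) • area + -γ x.2)) :=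
    closed_lift (fun z => (K * ε * f z) • area + -γ z) hd.smooth hdc
  have e1 : X.Inv2 (fun x => a x + liftB ((K * ε * f x.2) • area + -γ x.2)) := ha.add hl
  have e2 : Closed (fun x => a x + liftB ((K * ε * f x.2) • area + -γ x.2)) :=
    Closed.add ha.smooth hl.smooth hc hlc
  have e3 : ∀ x, 0 < top (fun i => stdV (π i))
      (a x + liftB ((K * ε * f x.2) • area + -γ x.2)) := by
    intro x
    have e4 : γ x.2 + ((K * ε * f x.2) • area + -γ x.2) = (K * ε * f x.2) • area := by abel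
    rw [hγt x, e4, hK _ (hs.alt x.2), htop _ (hs.alt x.2)]
    have e5 : ((K * ε * f x.2) • area) (stdR 0) (stdR 1) = K * ε * f x.2 := by
      show (K * ε * f x.2) • area (stdR 0) (stdR 1) = _
      rw [area_apply]
      simp [stdR]
    rw [e5]
    have e6 : K * (2 * ε * (K * ε * f x.2)) = 2 * (K * ε) ^ 2 * f x.2 := by ring
    rw [e6]
    have := hfpos x.2
    positivity
  exact ⟨fun x => a x + liftB ((K * ε * f x.2) • area + -γ x.2), e1, e2, e3⟩

/-- The hypothesis of the second theorem on an invariant plane `L` (the kernel of an invariant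
form): the base is oriented, `L` has an invariant complement `W`, and either the dual of `L` has no
nonzero invariant vector or the component of the real Euler class in `ℝ^k / W = L` is zero. -/
def Bundle.Good [MulAction G (R 2)] (X : Bundle k 2 G) (L : Submodule ℝ (R k)) : Prop :=
  Pool.Agent.W_9986fc_h15.Oriented 2 G ∧ ∃ W : Submodule ℝ (R k), (∀ g, ∀ x ∈ W, X.L g x ∈ W) ∧ IsCompl L W ∧
    ((∀ l : R k →ₗ[ℝ] ℝ, (∀ g, ∀ x ∈ L, l (X.L g x) = l x) → ∀ x ∈ L, l x = 0) ∨ X.FlatMod W)

/-- Surfaces: if `α` has positive top power, and the kernel of its fibre part is good if it has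
dimension two, then `M` is symplectic. -/
theorem weak_two [MulAction G (R 2)] {n : ℕ} (X : Bundle k 2 G) (hB : IsBase 2 G)
    (hX : X.Oriented) (π : Fin n × Fin 2 ≃ Fin k ⊕ Fin 2) (χ : R 2 → ℝ)
    (α : V k 2 → V k 2 →L[ℝ] V k 2 →L[ℝ] ℝ) (hχ : IsPart G χ) (hα : X.Inv2 α) (hc : Closed α)
    (h : ∀ c, X.InvC c → IsFibre α c → Module.finrank ℝ (kerC c) = 2 → X.Good (kerC c))
    (hpos : 0 < ∫ z, χ z * fib (fun x => top (fun i => stdV (π i)) (α x)) z) :
    ∃ s, X.Inv2 s ∧ Closed s ∧ ∀ x, 0 < top (fun i => stdV (π i)) (s x) := by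
  obtain ⟨a, η, ha, hac, hv, hη, hαa⟩ := exists_mean_form X hB α hα hc
  have hpos' : 0 < ∫ z, χ z * fib (fun x => top (fun i => stdV (π i)) (a x)) z := by
    rw [← integral_top_add X hB hX hχ π a ha hac η hη]
    simpa only [hαa] using hpos
  obtain ⟨c, hcc, hcv⟩ := exists_fibre_part X hB a ha hac hv
  by_cases hk : kerC c = ⊥
  · exact exists_symplectic_of_nondegenerate X hB (oriented_base X hB hX c hcc hk) π a ha hac hv c
      hcc hcv hk
  have hle : Module.finrank ℝ (kerC c) ≤ 2 := by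
    by_contra hlt
    have h0 : ∀ x, top (fun i => stdV (π i)) (a x) = 0 := fun x =>
      top_eq_zero_of_large_kernel π (a x) (ha.alt x) c (hcv x) (not_le.mp hlt)
    simp only [h0] at hpos'
    simp [fib] at hpos'
  have h2 : Module.finrank ℝ (kerC c) = 2 := by
    obtain ⟨r, hr⟩ := even_rank c hcc.alt
    have h2 := Fintype.card_congr π
    simp only [Fintype.card_prod, Fintype.card_fin, Fintype.card_sum] at h2
    have h4 : Module.finrank ℝ (kerC c) ≠ 0 := fun h5 => hk (Submodule.finrank_eq_zero.mp h5)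
    omega
  obtain ⟨hG, W, hW, hcompl, hor⟩ := h c hcc (isFibre_of X α a η c hη hαa hcv) h2
  have hdet : ∀ g, (X.L g).det = 1 := by
    intro g
    have h3 := hX g 0
    rw [X.det_fderiv_φ hB g 0] at h3
    have h4 : 0 < (X.L g).det := (mul_pos_iff_of_pos_right (hG g _)).mp h3
    have h5 := X.abs_det_L g
    rwa [abs_of_pos h4] at h5
  obtain ⟨p, ν, hpW, hpid, hpW0, hpg, hν, hνp, hkν⟩ :=
    exists_area_kernel X hdet c hcc h2 W hW hcompl
  obtain ⟨lam', hlam, hl, hlc⟩ : ∃ lam' : R 2 → R 2 →L[ℝ] R k, ContDiff ℝ ∞ lam' ∧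
      (∀ g z u, X.L g (lam' z u) =
        lam' (g • z) (fderiv ℝ (fun z : R 2 => g • z) z u) + p (fderiv ℝ (X.τ g) z u)) ∧
      ∀ z u w, fderiv ℝ lam' z u w = fderiv ℝ lam' z w u := by
    rcases hor with h | h
    · exact exists_flat_connection X hB hG (kerC c) (kerC_invariant X c hcc)
        (le_span_of_functional X (kerC c) (kerC_invariant X c hcc) h) p hpW hpid hpg
    · exact exists_flat_connection' X hB W h p hpW0 hpg
  have e1 : X.Inv2 (fun x => a x + nuForm p ν lam' x) := ha.add (nuForm_inv2 X hB p ν hν hpg lam' hlam hl)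
  have e2 : Closed (fun x => a x + nuForm p ν lam' x) :=
    Closed.add ha.smooth (nuForm_inv2 X hB p ν hν hpg lam' hlam hl).smooth hac
      (nuForm_closed p ν hν.alt lam' hlam hlc)
  refine exists_symplectic_of_nondegenerate X hB hG π _ e1 e2 ?_ (c + ν) (InvC.add hcc hν) ?_ hkν
  · intro v z
    show a (v, z) + nuForm p ν lam' (v, z) = a (0, z) + nuForm p ν lam' (0, z)
    rw [hv v z]
    rfl
  · intro x y y'
    show a x (y, 0) (y', 0) + nuForm p ν lam' x (y, 0) (y', 0) = c y y' + ν y y'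
    rw [hcv, nuForm_apply]
    simp only [map_zero, add_zero]
    rw [hνp]

end Pool.Agent.W_9986fc_h15
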