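import Pool.Agent.W_9986fc_h15.ClausesA

/-!
Bases of dimension at most three.
-/

set_option autoImplicit false
set_option maxSynthPendingDepth 3

open scoped ContDiff Matrix

namespace Pool.Agent.W_9986fc_h15

variable {k b : ℕ} {G : Type} [Group G]

theorem strongB_zero [MulAction G (R 0)] : StrongB 0 G := by
  intro m π χ α _ _ _ _
  have hm : m = 0 := by
    have h2 := Fintype.card_congr π
    simp only [Fintype.card_prod, Fintype.card_fin] at h2
    omega
  subst hm
  refine ⟨fun _ => 0, ⟨contDiff_const, fun g z => ?_⟩, fun z => ?_⟩
  · unfold pull1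
    simp
  · unfold top
    rw [Finset.sum_eq_single (1 : Equiv.Perm (Fin 0 × Fin 2))]
    · simp
    · intro σ _ hσ
      exact absurd (Subsingleton.elim σ 1) hσ
    · simp

/-- In odd dimensions there is nothing to prove. -/
theorem strongB_odd [MulAction G (R b)] (hb : Odd b) : StrongB b G := by
  intro m π
  exfalso
  have h2 := Fintype.card_congr π
  simp only [Fintype.card_prod, Fintype.card_fin] at h2
  obtain ⟨r, hr⟩ := hb
  omega

/-- Bases of dimension at most three satisfy the strong form of Q1. -/
theorem strongB_low [MulAction G (R b)] (hB : IsBase b G) (hG : Oriented b G) (hb : b < 4) :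
    StrongB b G := by
  interval_cases b
  · exact strongB_zero
  · exact strongB_odd ⟨0, rfl⟩
  · exact strongB_two hB hG
  · exact strongB_odd ⟨1, rfl⟩

end Pool.Agent.W_9986fc_h15
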