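import Pool.Agent.W_9986fc_h15.Coord
import Pool.Agent.W_9986fc_h15.Phi

/-!
Bridge between forms in coordinates (`Coord.lean`) and forms with values in continuous (bi)linear
maps (`Defs.lean`). `T : ℝ^ι ≃ E` is a linear coordinate system on `E`.
-/

set_option autoImplicit false
set_option maxSynthPendingDepth 3

open scoped ContDiff Matrix

namespace Pool.Agent.W_9986fc_h15

variable {E : Type*} [NormedAddCommGroup E] [NormedSpace ℝ E]
  {ι : Type} [Fintype ι] [DecidableEq ι] (T : (ι → ℝ) ≃L[ℝ] E)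

/-- The basis vector `e_i` of `E`. -/
noncomputable def bv (i : ι) : E := T (Pi.single i 1)

/-- The `i`-th coordinate on `E`. -/
noncomputable def cf (i : ι) : E →L[ℝ] ℝ :=
  (ContinuousLinearMap.proj (R := ℝ) (φ := fun _ : ι => ℝ) i).comp
    (T.symm : E →L[ℝ] (ι → ℝ))

/-- The 1-form with the coefficients `η`. -/
noncomputable def toForm1 (η : ι → (ι → ℝ) → ℝ) (y : E) : E →L[ℝ] ℝ :=
  ∑ i, η i (T.symm y) • cf T i

/-- The 2-form with the coefficients `α`. -/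
noncomputable def toForm2 (α : ι → ι → (ι → ℝ) → ℝ) (y : E) : E →L[ℝ] E →L[ℝ] ℝ :=
  ∑ i, ∑ j, α i j (T.symm y) • (cf T i).smulRight (cf T j)

/-- The coefficients of a 1-form. -/
noncomputable def ofForm1 (η : E → E →L[ℝ] ℝ) (i : ι) (x : ι → ℝ) : ℝ := η (T x) (bv T i)

/-- The coefficients of a 2-form. -/
noncomputable def ofForm2 (α : E → E →L[ℝ] E →L[ℝ] ℝ) (i j : ι) (x : ι → ℝ) : ℝ :=
  α (T x) (bv T i) (bv T j)

theorem cf_bv (i j : ι) : cf T i (bv T j) = if i = j then 1 else 0 := by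
  simp only [cf, bv, ContinuousLinearMap.comp_apply, ContinuousLinearMap.proj_apply,
    ContinuousLinearEquiv.coe_coe, ContinuousLinearEquiv.symm_apply_apply]
  rw [Pi.single_apply]

/-- Expansion in the basis. -/
theorem sum_bv (u : E) : u = ∑ i, cf T i u • bv T i := by
  have h1 : T.symm u = ∑ i, (T.symm u) i • (Pi.single i (1 : ℝ) : ι → ℝ) := by
    ext l
    simp [Finset.sum_apply, Pi.single_apply]
  have h2 := congrArg T h1
  rw [T.apply_symm_apply, map_sum] at h2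
  rw [h2]
  refine Finset.sum_congr rfl fun i _ => ?_
  rw [map_smul, ← h2]
  rfl

omit [DecidableEq ι] in
/-- The `i`-th coordinate of `T x`. -/
theorem cf_T (i : ι) (x : ι → ℝ) : cf T i (T x) = x i := by
  simp [cf]

/-- Two linear maps with the same values on the basis are equal. -/
theorem ext_bv {F : Type*} [NormedAddCommGroup F] [NormedSpace ℝ F] (p q : E →L[ℝ] F)
    (h : ∀ i, p (bv T i) = q (bv T i)) : p = q := by
  ext u
  rw [sum_bv T u, map_sum, map_sum]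
  refine Finset.sum_congr rfl fun i _ => ?_
  rw [map_smul, map_smul, h]

/-- Two bilinear forms with the same coefficients are equal. -/
theorem ext_bv2 (p q : E →L[ℝ] E →L[ℝ] ℝ) (h : ∀ i j, p (bv T i) (bv T j) = q (bv T i) (bv T j)) :
    p = q := by
  exact ext_bv T p q fun i => ext_bv T _ _ fun j => h i j

theorem ext_bv1 (p q : E →L[ℝ] ℝ) (h : ∀ i, p (bv T i) = q (bv T i)) : p = q := by
  exact ext_bv T p q h

/-- The chain rule: partial derivatives of `F ∘ T`. -/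
theorem pd_comp {F : E → ℝ} {x : ι → ℝ} (hF : DifferentiableAt ℝ F (T x)) (i : ι) :
    Co.pd i (fun x => F (T x)) x = fderiv ℝ F (T x) (bv T i) := by
  unfold Co.pd bv
  have h1 : HasFDerivAt (fun x => F (T x)) ((fderiv ℝ F (T x)).comp (T : (ι → ℝ) →L[ℝ] E)) x :=
    hF.hasFDerivAt.comp x T.hasFDerivAt
  rw [h1.fderiv]
  rfl

omit [DecidableEq ι] in
/-- The derivative of `φ = T ∘ ψ ∘ T⁻¹`. -/
theorem hasFDerivAt_conj {ψ : (ι → ℝ) → ι → ℝ} (hψ : ∀ l, Co.Smooth fun x => ψ x l) {φ : E → E}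
    (hφ : ∀ x, φ (T x) = T (ψ x)) (x : ι → ℝ) :
    HasFDerivAt φ ((T : (ι → ℝ) →L[ℝ] E).comp
      ((fderiv ℝ ψ x).comp (T.symm : E →L[ℝ] (ι → ℝ)))) (T x) := by
  have h0 : φ = fun y => T (ψ (T.symm y)) := by
    ext y
    have h := hφ (T.symm y)
    rwa [T.apply_symm_apply] at h
  have h2 : ContDiff ℝ ∞ ψ := contDiff_pi.2 hψ
  have h1 : HasFDerivAt ψ (fderiv ℝ ψ x) (T.symm (T x)) := by
    rw [T.symm_apply_apply]
    exact (h2.differentiable (by simp) x).hasFDerivAt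
  rw [h0]
  exact (T.hasFDerivAt (x := ψ (T.symm (T x)))).comp (T x)
    (h1.comp (T x) (T.symm.hasFDerivAt (x := T x)))

/-- The components of the derivative of `ψ`. -/
theorem fderiv_pi_single {ψ : (ι → ℝ) → ι → ℝ} (hψ : ∀ l, Co.Smooth fun x => ψ x l)
    (x : ι → ℝ) (i l : ι) :
    fderiv ℝ ψ x (Pi.single i 1) l = Co.pd i (fun y => ψ y l) x := by
  have h2 : ContDiff ℝ ∞ ψ := contDiff_pi.2 hψ
  have h3 : HasFDerivAt ψ (fderiv ℝ ψ x) x := (h2.differentiable (by simp) x).hasFDerivAt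
  have h4 : HasFDerivAt (fun y => ψ y l)
      ((ContinuousLinearMap.proj (R := ℝ) (φ := fun _ : ι => ℝ) l).comp (fderiv ℝ ψ x)) x :=
    (ContinuousLinearMap.proj (R := ℝ) (φ := fun _ : ι => ℝ) l).hasFDerivAt.comp x h3
  unfold Co.pd
  rw [h4.fderiv]
  rfl

/-- The matrix of the derivative of `φ = T ∘ ψ ∘ T⁻¹`:
`D φ (T x) (bv i) = ∑ l, ∂_i ψ_l (x) bv l`. -/
theorem fderiv_conj {ψ : (ι → ℝ) → ι → ℝ} (hψ : ∀ l, Co.Smooth fun x => ψ x l) {φ : E → E}
    (hφ : ∀ x, φ (T x) = T (ψ x)) (x : ι → ℝ) (i : ι) :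
    fderiv ℝ φ (T x) (bv T i) = ∑ l, Co.pd i (fun y => ψ y l) x • bv T l := by
  rw [(hasFDerivAt_conj T hψ hφ x).fderiv]
  have h1 : ((T : (ι → ℝ) →L[ℝ] E).comp
      ((fderiv ℝ ψ x).comp (T.symm : E →L[ℝ] (ι → ℝ)))) (bv T i) =
      T (fderiv ℝ ψ x (Pi.single i 1)) := by
    simp [bv]
  rw [h1, sum_bv T (T (fderiv ℝ ψ x (Pi.single i 1)))]
  refine Finset.sum_congr rfl fun l _ => ?_
  rw [cf_T, fderiv_pi_single hψ]

/-- The Jacobi determinant. -/
theorem det_conj {ψ : (ι → ℝ) → ι → ℝ} (hψ : ∀ l, Co.Smooth fun x => ψ x l) {φ : E → E}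
    (hφ : ∀ x, φ (T x) = T (ψ x)) (x : ι → ℝ) :
    (fderiv ℝ φ (T x)).det =
      Matrix.det (Matrix.of fun l i => Co.pd i (fun y => ψ y l) x) := by
  rw [(hasFDerivAt_conj T hψ hφ x).fderiv]
  have h1 : (((T : (ι → ℝ) →L[ℝ] E).comp
      ((fderiv ℝ ψ x).comp (T.symm : E →L[ℝ] (ι → ℝ))) : E →L[ℝ] E) : E →ₗ[ℝ] E) =
      (T.toLinearEquiv : (ι → ℝ) →ₗ[ℝ] E) ∘ₗ
        ((fderiv ℝ ψ x : (ι → ℝ) →L[ℝ] ι → ℝ) : (ι → ℝ) →ₗ[ℝ] ι → ℝ) ∘ₗ
        (T.toLinearEquiv.symm : E →ₗ[ℝ] ι → ℝ) := rfl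
  unfold ContinuousLinearMap.det
  rw [h1, LinearMap.det_conj, ← LinearMap.det_toMatrix']
  congr 1
  ext l i
  rw [LinearMap.toMatrix'_apply, Matrix.of_apply, ← fderiv_pi_single hψ]
  rfl

/-- Values of a bilinear form at linear combinations of the basis. -/
theorem bil_sum (q : E →L[ℝ] E →L[ℝ] ℝ) (a c : ι → ℝ) :
    q (∑ l, a l • bv T l) (∑ m, c m • bv T m) =
      ∑ l, ∑ m, a l * c m * q (bv T l) (bv T m) := by
  have h1 : q (∑ l, a l • bv T l) = ∑ l, a l • q (bv T l) := by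
    rw [map_sum]
    exact Finset.sum_congr rfl fun l _ => map_smul _ _ _
  rw [h1, ContinuousLinearMap.sum_apply]
  refine Finset.sum_congr rfl fun l _ => ?_
  rw [ContinuousLinearMap.smul_apply, map_sum, Finset.smul_sum]
  refine Finset.sum_congr rfl fun m _ => ?_
  rw [map_smul]
  simp only [smul_eq_mul]
  ring

/-- The derivative of a 1-form on the basis. -/
theorem fderiv1_bv {η : E → E →L[ℝ] ℝ} (h : ContDiff ℝ ∞ η) (x : ι → ℝ) (i j : ι) :
    fderiv ℝ η (T x) (bv T i) (bv T j) = Co.pd i (fun x => η (T x) (bv T j)) x := by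
  have h1 : HasFDerivAt η (fderiv ℝ η (T x)) (T x) :=
    (h.differentiable (by simp) (T x)).hasFDerivAt
  have h2 : HasFDerivAt (fun y => η y (bv T j))
      ((ContinuousLinearMap.apply ℝ ℝ (bv T j)).comp (fderiv ℝ η (T x))) (T x) :=
    (ContinuousLinearMap.apply ℝ ℝ (bv T j)).hasFDerivAt.comp (T x) h1
  rw [pd_comp T (F := fun y => η y (bv T j)) h2.differentiableAt i, h2.fderiv]
  rfl

/-- The derivative of a 2-form on the basis. -/
theorem fderiv2_bv {α : E → E →L[ℝ] E →L[ℝ] ℝ} (h : ContDiff ℝ ∞ α) (x : ι → ℝ) (i j l : ι) :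
    fderiv ℝ α (T x) (bv T i) (bv T j) (bv T l) =
      Co.pd i (fun x => α (T x) (bv T j) (bv T l)) x := by
  have h1 : HasFDerivAt α (fderiv ℝ α (T x)) (T x) :=
    (h.differentiable (by simp) (T x)).hasFDerivAt
  have h2 : HasFDerivAt (fun y => α y (bv T j) (bv T l))
      ((ContinuousLinearMap.apply ℝ ℝ (bv T l)).comp
        ((ContinuousLinearMap.apply ℝ (E →L[ℝ] ℝ) (bv T j)).comp (fderiv ℝ α (T x)))) (T x) :=
    (ContinuousLinearMap.apply ℝ ℝ (bv T l)).hasFDerivAt.comp (T x)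
      ((ContinuousLinearMap.apply ℝ (E →L[ℝ] ℝ) (bv T j)).hasFDerivAt.comp (T x) h1)
  rw [pd_comp T (F := fun y => α y (bv T j) (bv T l)) h2.differentiableAt i, h2.fderiv]
  rfl

/-- Expansion of a trilinear form. -/
theorem expand3 (A : E →L[ℝ] E →L[ℝ] E →L[ℝ] ℝ) (u v w : E) :
    A u v w = ∑ i, ∑ j, ∑ l, cf T i u * (cf T j v * (cf T l w * A (bv T i) (bv T j) (bv T l))) := by
  conv_lhs => rw [sum_bv T u, map_sum]
  rw [ContinuousLinearMap.sum_apply, ContinuousLinearMap.sum_apply]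
  refine Finset.sum_congr rfl fun i _ => ?_
  rw [map_smul, ContinuousLinearMap.smul_apply, ContinuousLinearMap.smul_apply]
  conv_lhs => rw [sum_bv T v, map_sum]
  rw [ContinuousLinearMap.sum_apply, Finset.smul_sum]
  refine Finset.sum_congr rfl fun j _ => ?_
  rw [map_smul, ContinuousLinearMap.smul_apply]
  conv_lhs => rw [sum_bv T w, map_sum]
  rw [Finset.smul_sum, Finset.smul_sum]
  refine Finset.sum_congr rfl fun l _ => ?_
  rw [map_smul]
  simp only [smul_eq_mul]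

/-- A cyclic sum vanishes if it vanishes on the basis. -/
theorem cyc_zero (A : E →L[ℝ] E →L[ℝ] E →L[ℝ] ℝ)
    (h : ∀ i j l, A (bv T i) (bv T j) (bv T l) + A (bv T j) (bv T l) (bv T i) +
      A (bv T l) (bv T i) (bv T j) = 0) (u v w : E) :
    A u v w + A v w u + A w u v = 0 := by
  have h2 : A v w u = ∑ i, ∑ j, ∑ l,
      cf T i u * (cf T j v * (cf T l w * A (bv T j) (bv T l) (bv T i))) := by
    rw [expand3 T A v w u]
    have e1 : ∀ j, (∑ l, ∑ i, cf T j v * (cf T l w * (cf T i u * A (bv T j) (bv T l) (bv T i)))) =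
        ∑ i, ∑ l, cf T i u * (cf T j v * (cf T l w * A (bv T j) (bv T l) (bv T i))) := by
      intro j
      rw [Finset.sum_comm]
      refine Finset.sum_congr rfl fun i _ => Finset.sum_congr rfl fun l _ => ?_
      ring
    rw [Finset.sum_congr rfl fun j _ => e1 j, Finset.sum_comm]
  have h3 : A w u v = ∑ i, ∑ j, ∑ l,
      cf T i u * (cf T j v * (cf T l w * A (bv T l) (bv T i) (bv T j))) := by
    rw [expand3 T A w u v, Finset.sum_comm]
    refine Finset.sum_congr rfl fun i _ => ?_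
    rw [Finset.sum_comm]
    refine Finset.sum_congr rfl fun j _ => Finset.sum_congr rfl fun l _ => ?_
    ring
  rw [expand3 T A u v w, h2, h3, ← Finset.sum_add_distrib, ← Finset.sum_add_distrib]
  refine Finset.sum_eq_zero fun i _ => ?_
  rw [← Finset.sum_add_distrib, ← Finset.sum_add_distrib]
  refine Finset.sum_eq_zero fun j _ => ?_
  rw [← Finset.sum_add_distrib, ← Finset.sum_add_distrib]
  refine Finset.sum_eq_zero fun l _ => ?_
  have h4 := h i j l
  linear_combination (cf T i u * (cf T j v * cf T l w)) * h4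

section To

theorem toForm2_bv (α : ι → ι → (ι → ℝ) → ℝ) (x : ι → ℝ) (i j : ι) :
    toForm2 T α (T x) (bv T i) (bv T j) = α i j x := by
  unfold toForm2
  simp only [ContinuousLinearMap.sum_apply, ContinuousLinearMap.smul_apply,
    ContinuousLinearMap.smulRight_apply, cf_bv, ContinuousLinearEquiv.symm_apply_apply,
    smul_eq_mul]
  simp

theorem toForm1_bv (η : ι → (ι → ℝ) → ℝ) (x : ι → ℝ) (i : ι) :
    toForm1 T η (T x) (bv T i) = η i x := by
  unfold toForm1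
  simp only [ContinuousLinearMap.sum_apply, ContinuousLinearMap.smul_apply, cf_bv,
    ContinuousLinearEquiv.symm_apply_apply, smul_eq_mul]
  simp

theorem contDiff_toForm2 (α : ι → ι → (ι → ℝ) → ℝ) (h : ∀ i j, Co.Smooth (α i j)) :
    ContDiff ℝ ∞ (toForm2 T α) := by
  unfold toForm2
  refine ContDiff.sum fun i _ => ContDiff.sum fun j _ => ?_
  exact ((h i j).comp T.symm.contDiff).smul contDiff_const

theorem contDiff_toForm1 (η : ι → (ι → ℝ) → ℝ) (h : ∀ i, Co.Smooth (η i)) :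
    ContDiff ℝ ∞ (toForm1 T η) := by
  unfold toForm1
  refine ContDiff.sum fun i _ => ?_
  exact ((h i).comp T.symm.contDiff).smul contDiff_const

theorem isForm_toForm2 (α : ι → ι → (ι → ℝ) → ℝ) (h : ∀ i j, Co.Smooth (α i j))
    (ha : ∀ i j x, α i j x = - α j i x) : IsForm (toForm2 T α) := by
  refine ⟨contDiff_toForm2 T α h, fun y u => ?_⟩
  have h1 : toForm2 T α y u u = ∑ i, ∑ j, α i j (T.symm y) * (cf T i u * cf T j u) := by
    unfold toForm2
    simp only [ContinuousLinearMap.sum_apply, ContinuousLinearMap.smul_apply,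
      ContinuousLinearMap.smulRight_apply, smul_eq_mul]
  have h2 : toForm2 T α y u u = - toForm2 T α y u u := by
    rw [h1]
    conv_lhs => rw [Finset.sum_comm]
    rw [← Finset.sum_neg_distrib]
    refine Finset.sum_congr rfl fun i _ => ?_
    rw [← Finset.sum_neg_distrib]
    refine Finset.sum_congr rfl fun j _ => ?_
    rw [ha j i]
    ring
  linarith

theorem closed_toForm2 (α : ι → ι → (ι → ℝ) → ℝ) (h : ∀ i j, Co.Smooth (α i j))
    (hc : ∀ i j l x, Co.pd i (α j l) x + Co.pd j (α l i) x + Co.pd l (α i j) x = 0) :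
    Closed (toForm2 T α) := by
  intro y u v w
  refine cyc_zero T (fderiv ℝ (toForm2 T α) y) (fun i j l => ?_) u v w
  obtain ⟨x, rfl⟩ := T.surjective y
  have h1 := contDiff_toForm2 T α h
  rw [fderiv2_bv T h1, fderiv2_bv T h1, fderiv2_bv T h1]
  simp only [toForm2_bv]
  exact hc i j l x

/-- Exterior derivatives. -/
theorem d1_toForm1 (η : ι → (ι → ℝ) → ℝ) (h : ∀ i, Co.Smooth (η i)) (x : ι → ℝ) (i j : ι) :
    d1 (toForm1 T η) (T x) (bv T i) (bv T j) = Co.d η i j x := by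
  have h1 := contDiff_toForm1 T η h
  unfold d1 Co.d
  rw [ContinuousLinearMap.sub_apply, ContinuousLinearMap.sub_apply,
    ContinuousLinearMap.flip_apply, fderiv1_bv T h1, fderiv1_bv T h1]
  simp only [toForm1_bv]

/-- Pullbacks. -/
theorem pull2_toForm2 (α : ι → ι → (ι → ℝ) → ℝ) {ψ : (ι → ℝ) → ι → ℝ}
    (hψ : ∀ l, Co.Smooth fun x => ψ x l) {φ : E → E} (hφ : ∀ x, φ (T x) = T (ψ x))
    (hinv : ∀ i j x, Co.pull2 ψ α i j x = α i j x) (y : E) :
    pull2 φ (toForm2 T α) y = toForm2 T α y := by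
  obtain ⟨x, rfl⟩ := T.surjective y
  refine ext_bv2 T _ _ fun i j => ?_
  rw [toForm2_bv, ← hinv i j x]
  unfold pull2 Co.pull2
  rw [ContinuousLinearMap.bilinearComp_apply, hφ, fderiv_conj T hψ hφ, fderiv_conj T hψ hφ,
    bil_sum]
  refine Finset.sum_congr rfl fun l _ => Finset.sum_congr rfl fun m _ => ?_
  rw [toForm2_bv]

theorem pull1_toForm1 (η : ι → (ι → ℝ) → ℝ) {ψ : (ι → ℝ) → ι → ℝ}
    (hψ : ∀ l, Co.Smooth fun x => ψ x l) {φ : E → E} (hφ : ∀ x, φ (T x) = T (ψ x))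
    (hinv : ∀ i x, Co.pull1 ψ η i x = η i x) (y : E) :
    pull1 φ (toForm1 T η) y = toForm1 T η y := by
  obtain ⟨x, rfl⟩ := T.surjective y
  refine ext_bv1 T _ _ fun i => ?_
  rw [toForm1_bv, ← hinv i x]
  unfold pull1 Co.pull1
  rw [ContinuousLinearMap.comp_apply, hφ, fderiv_conj T hψ hφ, map_sum]
  refine Finset.sum_congr rfl fun l _ => ?_
  rw [map_smul, toForm1_bv]
  simp only [smul_eq_mul]

end To

section Of

theorem smooth_ofForm1 (η : E → E →L[ℝ] ℝ) (h : ContDiff ℝ ∞ η) (i : ι) :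
    Co.Smooth (ofForm1 T η i) := by
  exact (h.comp T.contDiff).clm_apply contDiff_const

theorem smooth_ofForm2 (α : E → E →L[ℝ] E →L[ℝ] ℝ) (h : ContDiff ℝ ∞ α) (i j : ι) :
    Co.Smooth (ofForm2 T α i j) := by
  exact ((h.comp T.contDiff).clm_apply contDiff_const).clm_apply contDiff_const

theorem d_ofForm1 (η : E → E →L[ℝ] ℝ) (h : ContDiff ℝ ∞ η) (i j : ι) (x : ι → ℝ) :
    Co.d (ofForm1 T η) i j x = d1 η (T x) (bv T i) (bv T j) := by
  unfold d1 Co.d
  rw [ContinuousLinearMap.sub_apply, ContinuousLinearMap.sub_apply,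
    ContinuousLinearMap.flip_apply, fderiv1_bv T h, fderiv1_bv T h]
  rfl

theorem antisymm_ofForm2 (α : E → E →L[ℝ] E →L[ℝ] ℝ) (h : ∀ x u, α x u u = 0) (i j : ι)
    (x : ι → ℝ) : ofForm2 T α i j x = - ofForm2 T α j i x := by
  have h1 := h (T x) (bv T i + bv T j)
  have h2 : α (T x) (bv T i + bv T j) = α (T x) (bv T i) + α (T x) (bv T j) := map_add _ _ _
  rw [h2, ContinuousLinearMap.add_apply, map_add, map_add, h, h] at h1
  unfold ofForm2
  linarith

theorem closed_ofForm2 (α : E → E →L[ℝ] E →L[ℝ] ℝ) (h : ContDiff ℝ ∞ α) (hc : Closed α)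
    (i j l : ι) (x : ι → ℝ) :
    Co.pd i (ofForm2 T α j l) x + Co.pd j (ofForm2 T α l i) x + Co.pd l (ofForm2 T α i j) x = 0 := by
  have h1 := hc (T x) (bv T i) (bv T j) (bv T l)
  rw [fderiv2_bv T h, fderiv2_bv T h, fderiv2_bv T h] at h1
  exact h1

theorem pull1_ofForm1 (η : E → E →L[ℝ] ℝ) {ψ : (ι → ℝ) → ι → ℝ}
    (hψ : ∀ l, Co.Smooth fun x => ψ x l) {φ : E → E} (hφ : ∀ x, φ (T x) = T (ψ x))
    (hinv : ∀ y, pull1 φ η y = η y) (i : ι) (x : ι → ℝ) :
    Co.pull1 ψ (ofForm1 T η) i x = ofForm1 T η i x := by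
  have h1 := congrArg (fun q : E →L[ℝ] ℝ => q (bv T i)) (hinv (T x))
  unfold ofForm1
  rw [← h1]
  unfold pull1 Co.pull1
  simp only []
  rw [ContinuousLinearMap.comp_apply, hφ, fderiv_conj T hψ hφ, map_sum]
  refine Finset.sum_congr rfl fun l _ => ?_
  rw [map_smul]
  rfl

theorem pull2_ofForm2 (α : E → E →L[ℝ] E →L[ℝ] ℝ) {ψ : (ι → ℝ) → ι → ℝ}
    (hψ : ∀ l, Co.Smooth fun x => ψ x l) {φ : E → E} (hφ : ∀ x, φ (T x) = T (ψ x))
    (hinv : ∀ y, pull2 φ α y = α y) (i j : ι) (x : ι → ℝ) :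
    Co.pull2 ψ (ofForm2 T α) i j x = ofForm2 T α i j x := by
  have h1 := congrArg (fun q : E →L[ℝ] E →L[ℝ] ℝ => q (bv T i) (bv T j)) (hinv (T x))
  unfold ofForm2
  rw [← h1]
  unfold pull2 Co.pull2
  simp only []
  rw [ContinuousLinearMap.bilinearComp_apply, hφ, fderiv_conj T hψ hφ, fderiv_conj T hψ hφ,
    bil_sum]

end Of

/-- Top powers. -/
theorem top_co {n : ℕ} (π : Fin n × Fin 2 ≃ ι) (a : ι → ι → ℝ) (q : E →L[ℝ] E →L[ℝ] ℝ)
    (h : ∀ i j, a i j = q (bv T i) (bv T j)) :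
    Co.top π a = top (fun l => bv T (π l)) q := by
  unfold Co.top top
  simp only [h]

end Pool.Agent.W_9986fc_h15
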