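import Pool.Agent.W_9986fc_h15.CoA

/-!
Bridge: bases and bundles.
-/

set_option autoImplicit false
set_option maxSynthPendingDepth 3

open scoped ContDiff Matrix

namespace Pool.Agent.W_9986fc_h15

/-- The coordinate system of `ℝ^b`. -/
noncomputable def TB (b : ℕ) : (Fin b → ℝ) ≃L[ℝ] R b := ContinuousLinearEquiv.refl ℝ (Fin b → ℝ)

/-- The coordinate system of `ℝ^k × ℝ^b`: `x ↦ (x ∘ inl, x ∘ inr)`. -/
noncomputable def TM (k b : ℕ) : (Fin k ⊕ Fin b → ℝ) ≃L[ℝ] V k b :=
  (LinearEquiv.sumArrowLequivProdArrow (Fin k) (Fin b) ℝ ℝ).toContinuousLinearEquiv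

theorem TM_apply {k b : ℕ} (x : Fin k ⊕ Fin b → ℝ) :
    TM k b x = (fun i => x (.inl i), fun l => x (.inr l)) := by
  rfl

theorem TM_elim {k b : ℕ} (v : R k) (z : R b) : TM k b (Sum.elim v z) = (v, z) := by
  rw [TM_apply]
  rfl

theorem TM_symm {k b : ℕ} (v : R k) (z : R b) : (TM k b).symm (v, z) = Sum.elim v z := by
  rw [ContinuousLinearEquiv.symm_apply_eq, TM_elim]

theorem bv_TM {k b : ℕ} (i : Fin k ⊕ Fin b) : bv (TM k b) i = stdV i := by
  rw [bv, TM_apply]
  rcases i with i | i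
  · refine Prod.ext (funext fun j => ?_) (funext fun j => ?_)
    · simp [stdV, Pi.single_apply]
    · simp [stdV]
  · refine Prod.ext (funext fun j => ?_) (funext fun j => ?_)
    · simp [stdV]
    · simp [stdV, Pi.single_apply]

theorem bv_TB {b : ℕ} (i : Fin b) : bv (TB b) i = stdR i := by
  rfl

/-- The action as a function. -/
def sm (b : ℕ) (G : Type) [Group G] [MulAction G (R b)] (g : G) (z : Fin b → ℝ) : Fin b → ℝ := g • z

variable {k b : ℕ} {G : Type} [Group G] [MulAction G (R b)]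

theorem isBase_of (h : Co.IsBase (sm b G)) : IsBase b G := by
  refine ⟨fun g => contDiff_pi.2 fun i => h.smooth g i, h.proper, h.cocompact⟩

theorem isPart_iff (χ : R b → ℝ) : Co.IsPart (sm b G) χ ↔ IsPart G χ := by
  exact ⟨fun h => ⟨h.smooth, h.compact, h.sum⟩, fun h => ⟨h.smooth, h.compact, h.sum⟩⟩

theorem oriented_iff (h : Co.IsBase (sm b G)) :
    Co.Oriented (Set.range (sm b G)) ↔ Oriented b G := by
  have key : ∀ (g : G) (z : R b), (fderiv ℝ (fun z : R b => g • z) z).det =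
      Matrix.det (Matrix.of fun l i => Co.pd i (fun y => sm b G g y l) z) := fun g z =>
    det_conj (TB b) (ψ := sm b G g) (h.smooth g) (φ := fun z : R b => g • z) (fun _ => rfl) z
  constructor
  · intro H g z
    rw [key g z]
    exact H _ ⟨g, rfl⟩ z
  · rintro H ψ ⟨g, rfl⟩ z
    rw [← key g z]
    exact H g z

/-- Closed invariant 2-forms on the base. -/
theorem base_closedForm2 (h : Co.IsBase (sm b G)) (α : R b → R b →L[ℝ] R b →L[ℝ] ℝ)
    (hα : BInv2 G α) (hc : Closed α) :
    Co.ClosedForm2 (Set.range (sm b G)) (ofForm2 (TB b) α) := by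
  refine ⟨smooth_ofForm2 (TB b) α hα.smooth, fun i j x => antisymm_ofForm2 (TB b) α hα.alt i j x,
    fun i j l x => closed_ofForm2 (TB b) α hα.smooth hc i j l x, ?_⟩
  rintro ψ ⟨g, rfl⟩ i j x
  exact pull2_ofForm2 (TB b) α (ψ := sm b G g) (h.smooth g) (φ := fun z : R b => g • z)
    (fun _ => rfl) (hα.invariant g) i j x

/-- Invariant 1-forms on the base. -/
theorem base_form1 (h : Co.IsBase (sm b G)) (η : Fin b → (Fin b → ℝ) → ℝ)
    (hη : Co.Form1 (Set.range (sm b G)) η) : BInv1 G (toForm1 (TB b) η) := by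
  refine ⟨contDiff_toForm1 (TB b) η hη.smooth, fun g z => ?_⟩
  exact pull1_toForm1 (TB b) η (ψ := sm b G g) (h.smooth g) (φ := fun z : R b => g • z)
    (fun _ => rfl) (hη.invariant _ ⟨g, rfl⟩) z

/-- Q1 for the base: from `base_closedForm2`, `base_form1`, `d1_toForm1` and `top_co`. -/
theorem strongB_of (h : Co.IsBase (sm b G)) (hS : Co.BaseEveryClass (sm b G)) : StrongB b G := by
  intro m π χ α hχ hα hc hint
  have e1 : ∀ z : R b, Co.top π (fun i j => ofForm2 (TB b) α i j z) =
      top (fun i => stdR (π i)) (α z) := fun z =>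
    top_co (TB b) π (fun i j => ofForm2 (TB b) α i j z) (α z) fun _ _ => rfl
  obtain ⟨η, hη, hpos⟩ := hS χ ((isPart_iff χ).2 hχ) m π (ofForm2 (TB b) α)
    (base_closedForm2 h α hα hc) (by simpa only [e1] using hint)
  refine ⟨toForm1 (TB b) η, base_form1 h η hη, fun z => ?_⟩
  have e2 := top_co (TB b) π (fun i j => ofForm2 (TB b) α i j z + Co.d η i j z)
    (α z + d1 (toForm1 (TB b) η) z) fun i j => by
      rw [ContinuousLinearMap.add_apply, ContinuousLinearMap.add_apply,
        ← d1_toForm1 (TB b) η hη.smooth z i j]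
      rfl
  have e3 := hpos z
  rw [e2] at e3
  exact e3

end Pool.Agent.W_9986fc_h15
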