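import Pool.Agent.W_9986fc_h15.CoB

/-!
Bridge: bundles.
-/

set_option autoImplicit false
set_option maxSynthPendingDepth 3

open scoped ContDiff Matrix

namespace Pool.Agent.W_9986fc_h15

namespace Co.Bundle

variable {k b : ℕ} {G : Type} [Group G] {f : G → (Fin b → ℝ) → Fin b → ℝ} (X : Co.Bundle k f)

/-- Q1 in every class for `M`. -/
def EveryClass : Prop := ∀ χ, IsPart f χ → Co.EveryClass X.maps (intM χ)

/-- Q1 for `M`. -/
def SomeClass : Prop := ∀ χ, IsPart f χ → Co.SomeClass X.maps (intM χ)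

end Co.Bundle

variable {k b : ℕ} {G : Type} [Group G] [MulAction G (R b)]

/-- The bundle data. -/
noncomputable def toBundle (X : Co.Bundle k (sm b G)) : Bundle k b G where
  A := X.A
  τ := X.τ
  smooth := fun g => contDiff_pi.2 fun i => X.smooth g i
  cocycle := fun g h z => by
    choose m hm using X.cocycle g h z
    refine ⟨m, funext fun i => ?_⟩
    rw [hm i]
    simp only [Pi.add_apply, Matrix.mulVec, dotProduct, Matrix.map_apply, intV]
    rfl

variable (X : Co.Bundle k (sm b G))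

theorem CoBB_smooth_inr : ContDiff ℝ ∞ (fun (x : Fin k ⊕ Fin b → ℝ) (l : Fin b) => x (.inr l)) :=
  contDiff_pi.2 fun l => contDiff_apply ℝ ℝ (Sum.inr l : Fin k ⊕ Fin b)

theorem smooth_act (h : Co.IsBase (sm b G)) (g : G) (l : Fin k ⊕ Fin b) :
    Co.Smooth fun x => X.act g x l := by
  have h0 := CoBB_smooth_inr (k := k) (b := b)
  rcases l with i | l
  · show ContDiff ℝ ∞ (fun x : Fin k ⊕ Fin b → ℝ =>
      ∑ j, (X.A g i j : ℝ) * x (.inl j) + X.τ g (fun l => x (.inr l)) i)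
    have h1 : ContDiff ℝ ∞ (fun x : Fin k ⊕ Fin b → ℝ =>
        ∑ j : Fin k, (X.A g i j : ℝ) * x (.inl j)) :=
      ContDiff.sum fun j _ => contDiff_const.mul (contDiff_apply ℝ ℝ (Sum.inl j : Fin k ⊕ Fin b))
    have h2 : ContDiff ℝ ∞ (fun z : Fin b → ℝ => X.τ g z i) := X.smooth g i
    exact h1.add (h2.comp h0)
  · have h2 : ContDiff ℝ ∞ (fun z : Fin b → ℝ => sm b G g z l) := h.smooth g l
    exact h2.comp h0

theorem smooth_shift (m : Fin k → ℤ) (l : Fin k ⊕ Fin b) :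
    Co.Smooth fun x => Co.Bundle.shift (b := b) m x l := by
  rcases l with i | l
  · show ContDiff ℝ ∞ (fun x : Fin k ⊕ Fin b → ℝ => x (.inl i) + (m i : ℝ))
    exact (contDiff_apply ℝ ℝ (Sum.inl i : Fin k ⊕ Fin b)).add contDiff_const
  · exact contDiff_apply ℝ ℝ (Sum.inr l : Fin k ⊕ Fin b)

theorem φ_TM (g : G) (x : Fin k ⊕ Fin b → ℝ) :
    (toBundle X).φ g (TM k b x) = TM k b (X.act g x) := by
  rw [TM_apply, TM_apply]
  rfl

theorem shift_TM (m : Fin k → ℤ) (x : Fin k ⊕ Fin b → ℝ) :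
    TM k b (Co.Bundle.shift m x) = TM k b x + vert (intV m) := by
  rw [TM_apply, TM_apply]
  refine Prod.ext ?_ ?_
  · rfl
  · funext l
    show x (.inr l) = x (.inr l) + 0
    rw [add_zero]

theorem CoBB_pd_shift (m : Fin k → ℤ) (i l : Fin k ⊕ Fin b) (x : Fin k ⊕ Fin b → ℝ) :
    Co.pd i (fun y => Co.Bundle.shift (b := b) m y l) x = if l = i then 1 else 0 := by
  have hc : ∃ c : ℝ, (fun y : Fin k ⊕ Fin b → ℝ => Co.Bundle.shift (b := b) m y l) =
      fun y => y l + c := by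
    rcases l with j | j
    · exact ⟨m j, rfl⟩
    · exact ⟨0, by funext y; rw [add_zero]; rfl⟩
  obtain ⟨c, hc⟩ := hc
  unfold Co.pd
  rw [hc, fderiv_add_const]
  have h1 : fderiv ℝ (fun y : Fin k ⊕ Fin b → ℝ => y l) x =
      ContinuousLinearMap.proj (R := ℝ) (φ := fun _ : Fin k ⊕ Fin b => ℝ) l :=
    (ContinuousLinearMap.proj (R := ℝ) (φ := fun _ : Fin k ⊕ Fin b => ℝ) l).fderiv
  rw [h1, ContinuousLinearMap.proj_apply, Pi.single_apply]

/-- The pullback by a translation (its Jacobi matrix is the unit matrix). -/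
theorem pull1_shift (m : Fin k → ℤ) (η : (Fin k ⊕ Fin b) → (Fin k ⊕ Fin b → ℝ) → ℝ)
    (i : Fin k ⊕ Fin b) (x : Fin k ⊕ Fin b → ℝ) :
    Co.pull1 (Co.Bundle.shift m) η i x = η i (Co.Bundle.shift m x) := by
  unfold Co.pull1
  simp only [CoBB_pd_shift, ite_mul, one_mul, zero_mul, Finset.sum_ite_eq', Finset.mem_univ,
    if_true]

theorem pull2_shift (m : Fin k → ℤ)
    (α : (Fin k ⊕ Fin b) → (Fin k ⊕ Fin b) → (Fin k ⊕ Fin b → ℝ) → ℝ)
    (i j : Fin k ⊕ Fin b) (x : Fin k ⊕ Fin b → ℝ) :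
    Co.pull2 (Co.Bundle.shift m) α i j x = α i j (Co.Bundle.shift m x) := by
  unfold Co.pull2
  simp only [CoBB_pd_shift, ite_mul, one_mul, zero_mul, Finset.sum_ite_eq', Finset.mem_univ,
    if_true, Finset.sum_const_zero, mul_ite, mul_one, mul_zero]

theorem toBundle_oriented (h : Co.IsBase (sm b G)) (hX : Co.Oriented X.maps) :
    (toBundle X).Oriented := by
  intro g x
  obtain ⟨y, rfl⟩ := (TM k b).surjective x
  rw [det_conj (TM k b) (ψ := X.act g) (fun l => smooth_act X h g l) (φ_TM X g) y]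
  exact hX _ (Or.inl ⟨g, rfl⟩) y

theorem inv2_toForm2 (h : Co.IsBase (sm b G))
    (α : (Fin k ⊕ Fin b) → (Fin k ⊕ Fin b) → (Fin k ⊕ Fin b → ℝ) → ℝ)
    (hα : Co.ClosedForm2 X.maps α) :
    (toBundle X).Inv2 (toForm2 (TM k b) α) ∧ Closed (toForm2 (TM k b) α) := by
  have h1 := isForm_toForm2 (TM k b) α hα.smooth hα.antisymm
  refine ⟨⟨h1, ?_, ?_⟩, closed_toForm2 (TM k b) α hα.smooth hα.closed⟩
  · intro m v z
    have e1 : ((v + intV m, z) : V k b) = TM k b (Co.Bundle.shift m ((TM k b).symm (v, z))) := by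
      rw [shift_TM, ContinuousLinearEquiv.apply_symm_apply]
      refine Prod.ext rfl ?_
      show z = z + 0
      rw [add_zero]
    have e2 : ((v, z) : V k b) = TM k b ((TM k b).symm (v, z)) := by
      rw [ContinuousLinearEquiv.apply_symm_apply]
    rw [e1]
    nth_rewrite 2 [e2]
    refine ext_bv2 (TM k b) _ _ fun i j => ?_
    rw [toForm2_bv, toForm2_bv, ← pull2_shift m α i j]
    exact hα.invariant _ (Or.inr ⟨m, rfl⟩) i j _
  · intro g x
    exact pull2_toForm2 (TM k b) α (ψ := X.act g) (fun l => smooth_act X h g l) (φ_TM X g)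
      (fun i j y => hα.invariant _ (Or.inl ⟨g, rfl⟩) i j y) x

theorem form1_ofForm1 (h : Co.IsBase (sm b G)) (η : V k b → V k b →L[ℝ] ℝ)
    (hη : (toBundle X).Inv1 η) : Co.Form1 X.maps (ofForm1 (TM k b) η) := by
  refine ⟨smooth_ofForm1 (TM k b) η hη.smooth, ?_⟩
  rintro ψ (⟨g, rfl⟩ | ⟨m, rfl⟩) i x
  · exact pull1_ofForm1 (TM k b) η (ψ := X.act g) (fun l => smooth_act X h g l) (φ_TM X g)
      (hη.invariant g) i x
  · rw [pull1_shift]
    unfold ofForm1
    rw [shift_TM]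
    have h1 := hη.periodic m (TM k b x).1 (TM k b x).2
    have e1 : TM k b x + vert (intV m) = ((TM k b x).1 + intV m, (TM k b x).2) := by
      refine Prod.ext rfl ?_
      show (TM k b x).2 + 0 = _
      rw [add_zero]
    rw [e1, h1]

theorem closedForm2_ofForm2 (h : Co.IsBase (sm b G))
    (s : V k b → V k b →L[ℝ] V k b →L[ℝ] ℝ) (hs : (toBundle X).Inv2 s) (hc : Closed s) :
    Co.ClosedForm2 X.maps (ofForm2 (TM k b) s) := by
  refine ⟨smooth_ofForm2 (TM k b) s hs.smooth, antisymm_ofForm2 (TM k b) s hs.alt,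
    closed_ofForm2 (TM k b) s hs.smooth hc, ?_⟩
  rintro ψ (⟨g, rfl⟩ | ⟨m, rfl⟩) i j x
  · exact pull2_ofForm2 (TM k b) s (ψ := X.act g) (fun l => smooth_act X h g l) (φ_TM X g)
      (hs.invariant g) i j x
  · rw [pull2_shift]
    unfold ofForm2
    rw [shift_TM]
    have h1 := hs.periodic m (TM k b x).1 (TM k b x).2
    have e1 : TM k b x + vert (intV m) = ((TM k b x).1 + intV m, (TM k b x).2) := by
      refine Prod.ext rfl ?_
      show (TM k b x).2 + 0 = _
      rw [add_zero]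
    rw [e1, h1]

theorem intM_eq {n : ℕ} (π : Fin n × Fin 2 ≃ Fin k ⊕ Fin b) (χ : R b → ℝ)
    (α : (Fin k ⊕ Fin b) → (Fin k ⊕ Fin b) → (Fin k ⊕ Fin b → ℝ) → ℝ) :
    Co.Bundle.intM χ (fun x => Co.top π fun i j => α i j x) =
      ∫ z, χ z * fib (fun y => top (fun i => stdV (π i)) (toForm2 (TM k b) α y)) z := by
  unfold Co.Bundle.intM fib
  congr 1
  funext z
  congr 1
  refine MeasureTheory.integral_congr_ae (Filter.Eventually.of_forall fun v => ?_)
  show Co.top π (fun i j => α i j (Sum.elim v z)) = _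
  rw [top_co (TM k b) π _ (toForm2 (TM k b) α (v, z)) ?_]
  · simp only [bv_TM]
  · intro i j
    rw [← TM_elim, toForm2_bv]

theorem everyClass_of (h : Co.IsBase (sm b G)) (hS : StrongM (toBundle X)) : X.EveryClass := by
  intro χ hχ n π α hα hpos
  obtain ⟨h1, h2⟩ := inv2_toForm2 X h α hα
  rw [intM_eq] at hpos
  obtain ⟨η, hη, hη2⟩ := hS n π χ (toForm2 (TM k b) α) ((isPart_iff χ).1 hχ) h1 h2 hpos
  refine ⟨ofForm1 (TM k b) η, form1_ofForm1 X h η hη, fun x => ?_⟩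
  rw [top_co (TM k b) π _ (toForm2 (TM k b) α (TM k b x) + d1 η (TM k b x)) ?_]
  · simp only [bv_TM]
    exact hη2 (TM k b x)
  · intro i j
    rw [d_ofForm1 (TM k b) η hη.smooth, ← toForm2_bv (TM k b) α x i j]
    rfl

theorem someClass_of (h : Co.IsBase (sm b G)) (hS : WeakM (toBundle X)) : X.SomeClass := by
  intro χ hχ n π α hα hpos
  obtain ⟨h1, h2⟩ := inv2_toForm2 X h α hα
  rw [intM_eq] at hpos
  obtain ⟨s, hs, hs2, hs3⟩ := hS n π χ (toForm2 (TM k b) α) ((isPart_iff χ).1 hχ) h1 h2 hpos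
  refine ⟨ofForm2 (TM k b) s, closedForm2_ofForm2 X h s hs hs2, fun x => ?_⟩
  rw [top_co (TM k b) π _ (s (TM k b x)) ?_]
  · simp only [bv_TM]
    exact hs3 (TM k b x)
  · intro i j
    rfl

end Pool.Agent.W_9986fc_h15
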