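import Pool.Agent.W_9986fc_h15.CoBB
import Pool.Agent.W_9986fc_h15.CRD

/-!
Bridge: invariant forms on the fibre as matrices.
-/

set_option autoImplicit false
set_option maxSynthPendingDepth 3

open scoped ContDiff Matrix

namespace Pool.Agent.W_9986fc_h15

/-- The matrix of a bilinear form. -/
noncomputable def mat {k : ℕ} (c : R k →L[ℝ] R k →L[ℝ] ℝ) : Matrix (Fin k) (Fin k) ℝ :=
  Matrix.of fun i j => c (Pi.single i 1) (Pi.single j 1)

theorem CoC_sum_single {k : ℕ} (x : R k) :
    x = ∑ i, x i • (Pi.single i (1 : ℝ) : R k) := by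
  ext j
  rw [Finset.sum_apply, Finset.sum_eq_single j]
  · simp
  · intro i _ hij
    simp [Pi.single_apply, hij.symm]
  · intro h
    exact absurd (Finset.mem_univ j) h

theorem CoC_lin {k : ℕ} (f : R k →L[ℝ] ℝ) (x : R k) :
    f x = ∑ i, x i * f (Pi.single i 1) := by
  conv_lhs => rw [CoC_sum_single x]
  rw [map_sum]
  apply Finset.sum_congr rfl
  intro i _
  rw [map_smul, smul_eq_mul]

theorem mat_apply {k : ℕ} (c : R k →L[ℝ] R k →L[ℝ] ℝ) (x y : R k) :
    c x y = x ⬝ᵥ (mat c *ᵥ y) := by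
  have h1 : c x y = ∑ i, x i * c (Pi.single i 1) y := CoC_lin (c.flip y) x
  rw [h1]
  unfold dotProduct Matrix.mulVec dotProduct
  apply Finset.sum_congr rfl
  intro i _
  congr 1
  rw [CoC_lin (c (Pi.single i 1)) y]
  apply Finset.sum_congr rfl
  intro j _
  rw [mul_comm]
  rfl

theorem CoC_alt {k : ℕ} (c : R k →L[ℝ] R k →L[ℝ] ℝ) (hc : ∀ x, c x x = 0) (x y : R k) :
    c x y = - c y x := by
  have h1 := hc (x + y)
  simp only [map_add, ContinuousLinearMap.add_apply, hc, zero_add, add_zero] at h1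
  linarith

theorem CoC_mulVec {k : ℕ} (c : R k →L[ℝ] R k →L[ℝ] ℝ) (w : R k) (i : Fin k) :
    (mat c *ᵥ w) i = c (Pi.single i 1) w := by
  rw [mat_apply, single_one_dotProduct]

theorem mem_kerC_iff {k : ℕ} (c : R k →L[ℝ] R k →L[ℝ] ℝ) (hc : ∀ x, c x x = 0) (w : R k) :
    w ∈ kerC c ↔ mat c *ᵥ w = 0 := by
  constructor
  · intro h
    have h1 : c w = 0 := h
    ext i
    rw [CoC_mulVec, CoC_alt c hc, h1]
    simp
  · intro h
    have h1 : c w = 0 := by
      ext1 y
      rw [CoC_alt c hc, mat_apply, h, dotProduct_zero]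
      simp
    exact h1

theorem finrank_kerC {k : ℕ} (c : R k →L[ℝ] R k →L[ℝ] ℝ) (hc : ∀ x, c x x = 0) :
    Module.finrank ℝ (kerC c) + (mat c).rank = k := by
  have h1 : kerC c = LinearMap.ker (mat c).mulVecLin := by
    ext w
    rw [mem_kerC_iff c hc, LinearMap.mem_ker, Matrix.mulVecLin_apply]
  have h2 := LinearMap.finrank_range_add_finrank_ker (mat c).mulVecLin
  rw [Module.finrank_fintype_fun_eq_card, Fintype.card_fin] at h2
  rw [h1, add_comm]
  exact h2

variable {k b : ℕ} {G : Type} [Group G] [MulAction G (R b)] (X : Co.Bundle k (sm b G))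

theorem toBundle_L (g : G) (x : R k) : (toBundle X).L g x = X.Ar g *ᵥ x := rfl

theorem invForm_mat (c : R k →L[ℝ] R k →L[ℝ] ℝ) (hc : (toBundle X).InvC c) :
    X.InvForm (mat c) where
  antisymm := by
    ext i j
    show c (Pi.single j 1) (Pi.single i 1) = - c (Pi.single i 1) (Pi.single j 1)
    exact CoC_alt c hc.alt _ _
  invariant := fun g => by
    ext i j
    have h1 := hc.invariant g (Pi.single i 1) (Pi.single j 1)
    rw [toBundle_L, toBundle_L, mat_apply] at h1
    have h2 : ((X.Ar g)ᵀ * mat c * X.Ar g) i j =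
        (X.Ar g *ᵥ Pi.single i 1) ⬝ᵥ (mat c *ᵥ (X.Ar g *ᵥ Pi.single j 1)) := by
      have h3 : ((X.Ar g)ᵀ * mat c * X.Ar g) i j =
          (Pi.single i (1 : ℝ) : R k) ⬝ᵥ
            (((X.Ar g)ᵀ * mat c * X.Ar g) *ᵥ (Pi.single j (1 : ℝ) : R k)) := by
        rw [single_one_dotProduct, Matrix.mulVec_single_one]
        rfl
      rw [h3, ← Matrix.mulVec_mulVec, ← Matrix.mulVec_mulVec, Matrix.mulVec_transpose,
        dotProduct_comm, ← Matrix.dotProduct_mulVec, dotProduct_comm]
    rw [h2, h1]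
    rfl

/-- Partial derivatives and the derivative: `D u z w = ∑ l, w l * ∂_l u z`. -/
theorem fderiv_eq_sum_pd {u : R b → ℝ} (hu : ContDiff ℝ ∞ u) (z w : R b) :
    fderiv ℝ u z w = ∑ l, w l * Co.pd l u z :=
  CoC_lin (fderiv ℝ u z) w

theorem CoC_psi {k : ℕ} (v x : R k) :
    (∑ i, v i • ContinuousLinearMap.proj (R := ℝ) (φ := fun _ : Fin k => ℝ) i) x = v ⬝ᵥ x := by
  rw [ContinuousLinearMap.sum_apply]
  rfl

theorem h1Zero_of (h : Co.IsBase (sm b G)) (c : R k →L[ℝ] R k →L[ℝ] ℝ)
    (hc : (toBundle X).InvC c) (h1 : X.H1Zero (mat c)) : (toBundle X).H1Zero (kerC c) := by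
  intro β hβ hcl hinv
  have hβd : ∀ z, HasFDerivAt β (fderiv ℝ β z) z := fun z =>
    (hβ.differentiable (by simp) z).hasFDerivAt
  have e1 : ∀ (j : Fin b) (z : R b) (w : R k),
      (fun i => β z (Pi.single j 1) (Pi.single i 1)) ⬝ᵥ w = β z (Pi.single j 1) w := by
    intro j z w
    rw [CoC_lin (β z (Pi.single j 1)) w]
    unfold dotProduct
    apply Finset.sum_congr rfl
    intro i _
    rw [mul_comm]
  have e2 : ∀ (j l : Fin b) (z : R b) (w : R k),
      Co.pd l (fun y => β y (Pi.single j 1) w) z =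
        fderiv ℝ β z (Pi.single l 1) (Pi.single j 1) w := by
    intro j l z w
    unfold Co.pd
    have h2 : HasFDerivAt (fun y => β y (Pi.single j 1) w)
        ((ContinuousLinearMap.apply ℝ ℝ w).comp
          ((ContinuousLinearMap.apply ℝ (R k →L[ℝ] ℝ) (Pi.single j (1 : ℝ) : R b)).comp
            (fderiv ℝ β z))) z := by
      have h3 := (ContinuousLinearMap.apply ℝ (R k →L[ℝ] ℝ)
        (Pi.single j (1 : ℝ) : R b)).hasFDerivAt.comp z (hβd z)
      exact (ContinuousLinearMap.apply ℝ ℝ w).hasFDerivAt.comp z h3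
    rw [h2.fderiv]
    rfl
  have e3 : ∀ (g : G) (z : R b), DifferentiableAt ℝ (fun z : R b => g • z) z := by
    intro g z
    exact ((isBase_of h).smooth g).differentiable (by simp) z
  have e4 : ∀ (g : G) (j l : Fin b) (z : R b),
      Co.pd j (fun y => sm b G g y l) z =
        (fderiv ℝ (fun z : R b => g • z) z (Pi.single j 1)) l := by
    intro g j l z
    unfold Co.pd
    have h2 : HasFDerivAt (fun y : R b => sm b G g y l)
        ((ContinuousLinearMap.proj (R := ℝ) (φ := fun _ : Fin b => ℝ) l).comp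
          (fderiv ℝ (fun z : R b => g • z) z)) z := by
      exact (ContinuousLinearMap.proj (R := ℝ) (φ := fun _ : Fin b => ℝ) l).hasFDerivAt.comp z
        (e3 g z).hasFDerivAt
    rw [h2.fderiv]
    rfl
  obtain ⟨u, hu, hu1, hu2⟩ := h1 (fun j z i => β z (Pi.single j 1) (Pi.single i 1))
    (by
      intro j i
      unfold Co.Smooth
      exact (hβ.clm_apply contDiff_const).clm_apply contDiff_const)
    (by
      intro w hw j l z
      simp only [e1, e2]
      exact hcl z _ _ w ((mem_kerC_iff c hc.alt w).mpr hw))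
    (by
      intro w hw g j z
      simp only [e1, e4]
      have h2 := hinv g z (Pi.single j 1) w ((mem_kerC_iff c hc.alt w).mpr hw)
      rw [← h2, toBundle_L]
      have h3 : ∀ v : R b, β (g • z) v (X.Ar g *ᵥ w) =
          ∑ l, v l * β (g • z) (Pi.single l 1) (X.Ar g *ᵥ w) := fun v =>
        CoC_lin ((β (g • z)).flip (X.Ar g *ᵥ w)) v
      rw [h3]
      rfl)
  refine ⟨fun z => ∑ i, u z i • ContinuousLinearMap.proj (R := ℝ) (φ := fun _ : Fin k => ℝ) i,
    ?_, ?_, ?_⟩
  · exact ContDiff.sum fun i _ => ContDiff.smul (hu i) contDiff_const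
  · intro g z x hx
    have h2 := hu1 x ((mem_kerC_iff c hc.alt x).mp hx) g z
    simp only [CoC_psi]
    rw [toBundle_L]
    exact h2
  · intro z v x hx
    have h2 := hu2 x ((mem_kerC_iff c hc.alt x).mp hx)
    have h3 : ContDiff ℝ ∞ fun z =>
        ∑ i, u z i • ContinuousLinearMap.proj (R := ℝ) (φ := fun _ : Fin k => ℝ) i :=
      ContDiff.sum fun i _ => ContDiff.smul (hu i) contDiff_const
    have h4 : ContDiff ℝ ∞ fun y => u y ⬝ᵥ x := by
      unfold dotProduct
      exact ContDiff.sum fun i _ => (hu i).mul contDiff_const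
    have h5 : HasFDerivAt (fun y => u y ⬝ᵥ x)
        ((ContinuousLinearMap.apply ℝ ℝ x).comp (fderiv ℝ (fun z =>
        ∑ i, u z i • ContinuousLinearMap.proj (R := ℝ) (φ := fun _ : Fin k => ℝ) i) z)) z := by
      have h6 := (ContinuousLinearMap.apply ℝ ℝ x).hasFDerivAt.comp z
        (h3.differentiable (by simp) z).hasFDerivAt
      refine h6.congr_of_eventuallyEq (Filter.Eventually.of_forall fun y => ?_)
      exact (CoC_psi (u y) x).symm
    have h7 : fderiv ℝ (fun z =>
        ∑ i, u z i • ContinuousLinearMap.proj (R := ℝ) (φ := fun _ : Fin k => ℝ) i) z v x =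
        fderiv ℝ (fun y => u y ⬝ᵥ x) z v := by
      rw [h5.fderiv]
      rfl
    rw [h7, fderiv_eq_sum_pd h4]
    have h8 : β z v x = ∑ l, v l * β z (Pi.single l 1) x := CoC_lin ((β z).flip x) v
    rw [h8]
    apply Finset.sum_congr rfl
    intro l _
    rw [h2 l z, e1]

theorem good_of {k : ℕ} {G : Type} [Group G] [MulAction G (R 2)] (X : Co.Bundle k (sm 2 G))
    (h : Co.IsBase (sm 2 G)) (c : R k →L[ℝ] R k →L[ℝ] ℝ)
    (hc : (toBundle X).InvC c) (h1 : X.Good (mat c)) : (toBundle X).Good (kerC c) := by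
  obtain ⟨hor, P, hcP, hPw, hPg, hcase⟩ := h1
  have hPP : ∀ w, P *ᵥ (P *ᵥ w) = P *ᵥ w := by
    intro w
    apply hPw
    rw [Matrix.mulVec_mulVec, hcP, Matrix.zero_mulVec]
  have hPL : ∀ w, P *ᵥ w ∈ kerC c := by
    intro w
    rw [mem_kerC_iff c hc.alt, Matrix.mulVec_mulVec, hcP, Matrix.zero_mulVec]
  refine ⟨(oriented_iff h).mp hor, LinearMap.ker P.mulVecLin, ?_, ?_, ?_⟩
  · intro g x hx
    rw [LinearMap.mem_ker, Matrix.mulVecLin_apply] at hx ⊢
    rw [toBundle_L, Matrix.mulVec_mulVec, hPg, ← Matrix.mulVec_mulVec, hx, Matrix.mulVec_zero]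
  · constructor
    · rw [Submodule.disjoint_def]
      intro x hx hx'
      rw [LinearMap.mem_ker, Matrix.mulVecLin_apply] at hx'
      rw [← hPw x ((mem_kerC_iff c hc.alt x).mp hx)]
      exact hx'
    · rw [codisjoint_iff, Submodule.eq_top_iff']
      intro x
      rw [Submodule.mem_sup]
      refine ⟨P *ᵥ x, hPL x, x - P *ᵥ x, ?_, by abel⟩
      rw [LinearMap.mem_ker, Matrix.mulVecLin_apply, Matrix.mulVec_sub, hPP, sub_self]
  · rcases hcase with h2 | ⟨s, hs, h2⟩
    · left
      intro l hl x hx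
      have e1 : ∀ y : R k, l y = (fun i => l (Pi.single i 1)) ⬝ᵥ y := by
        intro y
        have h3 := CoC_lin (LinearMap.toContinuousLinearMap l) y
        rw [LinearMap.coe_toContinuousLinearMap'] at h3
        rw [h3]
        unfold dotProduct
        apply Finset.sum_congr rfl
        intro i _
        rw [mul_comm]
      rw [e1]
      refine h2 _ ?_ x ((mem_kerC_iff c hc.alt x).mp hx)
      intro g w hw
      rw [← e1, ← e1, ← toBundle_L]
      exact hl g w ((mem_kerC_iff c hc.alt w).mpr hw)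
    · right
      refine ⟨s, contDiff_pi.2 fun i => hs i, fun g => ?_⟩
      obtain ⟨w, hw⟩ := h2 g
      refine ⟨w, fun z => ?_⟩
      rw [LinearMap.mem_ker, Matrix.mulVecLin_apply, Matrix.mulVec_sub, toBundle_L]
      have h3 := hw z
      have h4 : P *ᵥ w = w := by
        rw [← h3]
        exact hPP _
      rw [h4, sub_eq_zero]
      exact h3

end Pool.Agent.W_9986fc_h15
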