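import Pool.Agent.W_9986fc_h15.CoC
import Pool.Agent.W_9986fc_h15.ClausesB

/-!
The theorems in coordinates.
-/

set_option autoImplicit false
set_option maxSynthPendingDepth 3

open scoped ContDiff Matrix

namespace Pool.Agent.W_9986fc_h15

section

variable {k b n : ℕ} {G : Type} [Group G] [MulAction G (R b)] (X : Co.Bundle k (sm b G))

/-- The fibre class in coordinates. -/
theorem mat_eq_of_isFibre (α : (Fin k ⊕ Fin b) → (Fin k ⊕ Fin b) → (Fin k ⊕ Fin b → ℝ) → ℝ)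
    (c : Matrix (Fin k) (Fin k) ℝ) (hc : Co.Bundle.FibreClass α c)
    (c' : R k →L[ℝ] R k →L[ℝ] ℝ) (h : IsFibre (toForm2 (TM k b) α) c') : mat c' = c := by
  ext i j
  have h1 := h 0 (Pi.single i 1) (Pi.single j 1)
  have h2 := hc i j 0
  show c' (Pi.single i 1) (Pi.single j 1) = c i j
  rw [← h1, ← h2]
  unfold mean
  refine MeasureTheory.integral_congr_ae (Filter.Eventually.of_forall fun v => ?_)
  have e1 : ((Pi.single i 1, 0) : V k b) = bv (TM k b) (.inl i) := by rw [bv_TM]; rfl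
  have e2 : ((Pi.single j 1, 0) : V k b) = bv (TM k b) (.inl j) := by rw [bv_TM]; rfl
  show toForm2 (TM k b) α (v, 0) (Pi.single i 1, 0) (Pi.single j 1, 0) =
    α (.inl i) (.inl j) (Sum.elim v 0)
  rw [e1, e2, ← TM_elim v 0, toForm2_bv]

theorem strong_co (hf : Co.IsBase (sm b G)) (hX : Co.Oriented X.maps)
    (hS : 4 ≤ b → Co.Oriented (Set.range (sm b G)) → Co.BaseEveryClass (sm b G))
    (π : Fin n × Fin 2 ≃ Fin k ⊕ Fin b) (χ : (Fin b → ℝ) → ℝ) (hχ : Co.IsPart (sm b G) χ)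
    (α : (Fin k ⊕ Fin b) → (Fin k ⊕ Fin b) → (Fin k ⊕ Fin b → ℝ) → ℝ)
    (hα : Co.ClosedForm2 X.maps α)
    (hpos : 0 < Co.Bundle.intM χ fun x => Co.top π fun i j => α i j x)
    (c : Matrix (Fin k) (Fin k) ℝ) (hc : Co.Bundle.FibreClass α c)
    (hH : c.rank < k → k ≤ c.rank + b → X.H1Zero c) :
    ∃ η, Co.Form1 X.maps η ∧ ∀ x, 0 < Co.top π fun i j => α i j x + Co.d η i j x := by
  have hB : IsBase b G := isBase_of hf
  obtain ⟨h1, h2⟩ := inv2_toForm2 X hf α hα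
  rw [intM_eq] at hpos
  obtain ⟨η, hη, hη2⟩ := general_strong (toBundle X) hB (toBundle_oriented X hf hX)
    (fun hG => (Nat.lt_or_ge b 4).elim (fun hb => strongB_low hB hG hb)
      fun hb => strongB_of hf (hS hb ((oriented_iff hf).2 hG)))
    π χ (toForm2 (TM k b) α) ((isPart_iff χ).1 hχ) h1 h2
    (by
      intro c' hc' hf' hne hle
      have hcc := mat_eq_of_isFibre α c hc c' hf'
      have hr := finrank_kerC c' hc'.alt
      have hpos : 0 < Module.finrank ℝ (kerC c') :=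
        Nat.pos_of_ne_zero fun h0 => hne (Submodule.finrank_eq_zero.mp h0)
      refine h1Zero_of X hf c' hc' ?_
      rw [hcc] at hr ⊢
      exact hH (by omega) (by omega))
    hpos
  refine ⟨ofForm1 (TM k b) η, form1_ofForm1 X hf η hη, fun x => ?_⟩
  rw [top_co (TM k b) π _ (toForm2 (TM k b) α (TM k b x) + d1 η (TM k b x)) ?_]
  · simp only [bv_TM]
    exact hη2 (TM k b x)
  · intro i j
    rw [d_ofForm1 (TM k b) η hη.smooth, ← toForm2_bv (TM k b) α x i j]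
    rfl

end

section

variable {k n : ℕ} {G : Type} [Group G] [MulAction G (R 2)] (X : Co.Bundle k (sm 2 G))

theorem weak_co (hf : Co.IsBase (sm 2 G)) (hX : Co.Oriented X.maps)
    (π : Fin n × Fin 2 ≃ Fin k ⊕ Fin 2) (χ : (Fin 2 → ℝ) → ℝ) (hχ : Co.IsPart (sm 2 G) χ)
    (α : (Fin k ⊕ Fin 2) → (Fin k ⊕ Fin 2) → (Fin k ⊕ Fin 2 → ℝ) → ℝ)
    (hα : Co.ClosedForm2 X.maps α)
    (hpos : 0 < Co.Bundle.intM χ fun x => Co.top π fun i j => α i j x)
    (c : Matrix (Fin k) (Fin k) ℝ) (hc : Co.Bundle.FibreClass α c)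
    (hH : c.rank + 2 = k → X.Good c) :
    ∃ s, Co.ClosedForm2 X.maps s ∧ ∀ x, 0 < Co.top π fun i j => s i j x := by
  have hB : IsBase 2 G := isBase_of hf
  obtain ⟨h1, h2⟩ := inv2_toForm2 X hf α hα
  rw [intM_eq] at hpos
  obtain ⟨s, hs, hs2, hs3⟩ := weak_two (toBundle X) hB (toBundle_oriented X hf hX)
    π χ (toForm2 (TM k 2) α) ((isPart_iff χ).1 hχ) h1 h2
    (by
      intro c' hc' hf' h2
      have hcc := mat_eq_of_isFibre α c hc c' hf'
      have hr := finrank_kerC c' hc'.alt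
      refine good_of X hf c' hc' ?_
      rw [hcc] at hr ⊢
      exact hH (by omega))
    hpos
  refine ⟨ofForm2 (TM k 2) s, closedForm2_ofForm2 X hf s hs hs2, fun x => ?_⟩
  rw [top_co (TM k 2) π _ (s (TM k 2 x)) ?_]
  · simp only [bv_TM]
    exact hs3 (TM k 2 x)
  · intro i j
    rfl

end

theorem strong_main (k b : ℕ) (G : Type) [Group G] (f : G → (Fin b → ℝ) → Fin b → ℝ)
    (hf : Co.IsBase f) (X : Co.Bundle k f) (hX : Co.Oriented X.maps)
    (hS : 4 ≤ b → Co.Oriented (Set.range f) → Co.BaseEveryClass f)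
    (n : ℕ) (π : Fin n × Fin 2 ≃ Fin k ⊕ Fin b) (χ : (Fin b → ℝ) → ℝ) (hχ : Co.IsPart f χ)
    (α : (Fin k ⊕ Fin b) → (Fin k ⊕ Fin b) → (Fin k ⊕ Fin b → ℝ) → ℝ)
    (hα : Co.ClosedForm2 X.maps α)
    (hpos : 0 < Co.Bundle.intM χ fun x => Co.top π fun i j => α i j x)
    (c : Matrix (Fin k) (Fin k) ℝ) (hc : Co.Bundle.FibreClass α c)
    (hH : c.rank < k → k ≤ c.rank + b → X.H1Zero c) :
    ∃ η, Co.Form1 X.maps η ∧ ∀ x, 0 < Co.top π fun i j => α i j x + Co.d η i j x := by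
  let _ : MulAction G (R b) :=
    { smul := f
      one_smul := hf.one
      mul_smul := hf.mul }
  exact strong_co (b := b) (G := G) X hf hX hS π χ hχ α hα hpos c hc hH

theorem weak_main (k : ℕ) (G : Type) [Group G] (f : G → (Fin 2 → ℝ) → Fin 2 → ℝ)
    (hf : Co.IsBase f) (X : Co.Bundle k f) (hX : Co.Oriented X.maps)
    (n : ℕ) (π : Fin n × Fin 2 ≃ Fin k ⊕ Fin 2) (χ : (Fin 2 → ℝ) → ℝ) (hχ : Co.IsPart f χ)
    (α : (Fin k ⊕ Fin 2) → (Fin k ⊕ Fin 2) → (Fin k ⊕ Fin 2 → ℝ) → ℝ)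
    (hα : Co.ClosedForm2 X.maps α)
    (hpos : 0 < Co.Bundle.intM χ fun x => Co.top π fun i j => α i j x)
    (c : Matrix (Fin k) (Fin k) ℝ) (hc : Co.Bundle.FibreClass α c)
    (hH : c.rank + 2 = k → X.Good c) :
    ∃ s, Co.ClosedForm2 X.maps s ∧ ∀ x, 0 < Co.top π fun i j => s i j x := by
  let _ : MulAction G (R 2) :=
    { smul := f
      one_smul := hf.one
      mul_smul := hf.mul }
  exact weak_co (G := G) X hf hX π χ hχ α hα hpos c hc hH

end Pool.Agent.W_9986fc_h15
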