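import Mathlib

/-!
# Differential forms on quotients of `ℝ^N` in coordinates; affine torus bundles

A 1-form `∑ η_i dx_i` on `ℝ^ι` is given by its coefficients `η i : (ι → ℝ) → ℝ`, a 2-form
`(1/2) ∑ α_ij dx_i ∧ dx_j` by the antisymmetric matrix `α i j` of its coefficients. If a group acts
on `ℝ^ι` properly discontinuously and freely with closed quotient `M`, then the forms on `M` are the
forms on `ℝ^ι` which are invariant under the group (equivalently, under a set `S` of generators).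
-/

set_option autoImplicit false
set_option maxSynthPendingDepth 3

open scoped ContDiff Matrix

namespace Pool.Agent.W_9986fc_h15.Co

section Forms

variable {ι : Type} [Fintype ι] [DecidableEq ι]

/-- The partial derivative `∂f/∂x_i`. -/
noncomputable def pd (i : ι) (f : (ι → ℝ) → ℝ) (x : ι → ℝ) : ℝ :=
  fderiv ℝ f x (Pi.single i 1)

/-- Smooth functions on `ℝ^ι`. -/
def Smooth (f : (ι → ℝ) → ℝ) : Prop := ContDiff ℝ ∞ f

/-- The coefficients of the exterior derivative of the 1-form `η`. -/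
noncomputable def d (η : ι → (ι → ℝ) → ℝ) (i j : ι) (x : ι → ℝ) : ℝ :=
  pd i (η j) x - pd j (η i) x

/-- The pullback of the 1-form `η` by `ψ : ℝ^ι → ℝ^ι`. -/
noncomputable def pull1 (ψ : (ι → ℝ) → ι → ℝ) (η : ι → (ι → ℝ) → ℝ) (i : ι) (x : ι → ℝ) : ℝ :=
  ∑ l, pd i (fun y => ψ y l) x * η l (ψ x)

/-- The pullback of the 2-form `α` by `ψ : ℝ^ι → ℝ^ι`. -/
noncomputable def pull2 (ψ : (ι → ℝ) → ι → ℝ) (α : ι → ι → (ι → ℝ) → ℝ) (i j : ι)
    (x : ι → ℝ) : ℝ :=
  ∑ l, ∑ m, pd i (fun y => ψ y l) x * pd j (fun y => ψ y m) x * α l m (ψ x)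

/-- The 1-forms on the quotient of `ℝ^ι` by the group generated by the set `S` of
diffeomorphisms. -/
structure Form1 (S : Set ((ι → ℝ) → ι → ℝ)) (η : ι → (ι → ℝ) → ℝ) : Prop where
  smooth : ∀ i, Smooth (η i)
  invariant : ∀ ψ ∈ S, ∀ i x, pull1 ψ η i x = η i x

/-- The closed 2-forms on the quotient of `ℝ^ι` by the group generated by the set `S` of
diffeomorphisms. -/
structure ClosedForm2 (S : Set ((ι → ℝ) → ι → ℝ)) (α : ι → ι → (ι → ℝ) → ℝ) : Prop where
  smooth : ∀ i j, Smooth (α i j)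
  antisymm : ∀ i j x, α i j x = - α j i x
  closed : ∀ i j l x, pd i (α j l) x + pd j (α l i) x + pd l (α i j) x = 0
  invariant : ∀ ψ ∈ S, ∀ i j x, pull2 ψ α i j x = α i j x

/-- The elements of `S` preserve the orientation (their Jacobi determinants are positive). -/
def Oriented (S : Set ((ι → ℝ) → ι → ℝ)) : Prop :=
  ∀ ψ ∈ S, ∀ x, 0 < Matrix.det (Matrix.of fun l i => pd i (fun y => ψ y l) x)

/-- For the 2-form with the coefficients `a`: the value of `2^n` times its `n`-th power at the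
standard basis of `ℝ^ι`, ordered by `π`. -/
noncomputable def top {n : ℕ} (π : Fin n × Fin 2 ≃ ι) (a : ι → ι → ℝ) : ℝ :=
  ∑ σ : Equiv.Perm (Fin n × Fin 2),
    ((Equiv.Perm.sign σ : ℤ) : ℝ) * ∏ i, a (π (σ (i, 0))) (π (σ (i, 1)))

/-- Q1 in every class, for the quotient `M` of `ℝ^ι` by the group generated by `S`, where `I` is the
integral over `M` and `π` runs over the orientations of `M`: every closed 2-form `α` on `M` with
`∫ α^n > 0` is cohomologous to a symplectic form compatible with the orientation. -/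
def EveryClass (S : Set ((ι → ℝ) → ι → ℝ)) (I : ((ι → ℝ) → ℝ) → ℝ) : Prop :=
  ∀ (n : ℕ) (π : Fin n × Fin 2 ≃ ι) (α : ι → ι → (ι → ℝ) → ℝ), ClosedForm2 S α →
    0 < I (fun x => top π fun i j => α i j x) →
    ∃ η, Form1 S η ∧ ∀ x, 0 < top π fun i j => α i j x + d η i j x

/-- Q1 for the quotient `M`: if there is a closed 2-form `α` on `M` with `∫ α^n > 0`, then there is
a symplectic form on `M` compatible with the orientation. -/
def SomeClass (S : Set ((ι → ℝ) → ι → ℝ)) (I : ((ι → ℝ) → ℝ) → ℝ) : Prop :=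
  ∀ (n : ℕ) (π : Fin n × Fin 2 ≃ ι) (α : ι → ι → (ι → ℝ) → ℝ), ClosedForm2 S α →
    0 < I (fun x => top π fun i j => α i j x) →
    ∃ s, ClosedForm2 S s ∧ ∀ x, 0 < top π fun i j => s i j x

end Forms

section Base

variable {b : ℕ} {G : Type} [Group G] (f : G → (Fin b → ℝ) → Fin b → ℝ)

/-- `f` is a smooth, properly discontinuous and cocompact action of the group `G` on `ℝ^b`. -/
structure IsBase : Prop where
  one : ∀ z, f 1 z = z
  mul : ∀ g h z, f (g * h) z = f g (f h z)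
  smooth : ∀ g i, Smooth fun z => f g z i
  proper : ∀ K : Set (Fin b → ℝ), IsCompact K → {g : G | ∃ z ∈ K, f g z ∈ K}.Finite
  cocompact : ∃ K : Set (Fin b → ℝ), IsCompact K ∧ ∀ z, ∃ g, f g z ∈ K

/-- A partition of unity: a smooth function with compact support and `∑ g, χ (g z) = 1`. -/
structure IsPart (χ : (Fin b → ℝ) → ℝ) : Prop where
  smooth : Smooth χ
  compact : HasCompactSupport χ
  sum : ∀ z, ∑ᶠ g, χ (f g z) = 1

/-- Q1 in every class for the base `B = ℝ^b / G`: the integral over `B` is `∫ z, χ z * F z`. -/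
def BaseEveryClass : Prop :=
  ∀ χ, IsPart f χ → EveryClass (Set.range f) fun F => ∫ z : Fin b → ℝ, χ z * F z

end Base

/-- An affine torus bundle `M = (T^k × ℝ^b) / G` over `ℝ^b / G` (a Seifert fibration if `G` does not
act freely on `ℝ^b`): the monodromy `A` and the translation parts `τ`. -/
structure Bundle (k : ℕ) {b : ℕ} {G : Type} [Group G] (f : G → (Fin b → ℝ) → Fin b → ℝ) where
  A : G →* Matrix (Fin k) (Fin k) ℤ
  τ : G → (Fin b → ℝ) → Fin k → ℝ
  smooth : ∀ g i, Smooth fun z => τ g z i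
  cocycle : ∀ g h z i, ∃ m : ℤ,
    τ (g * h) z i = ∑ j, (A g i j : ℝ) * τ h z j + τ g (f h z) i + m

namespace Bundle

variable {k b : ℕ} {G : Type} [Group G] {f : G → (Fin b → ℝ) → Fin b → ℝ} (X : Bundle k f)

/-- The diffeomorphism `(v, z) ↦ (A g v + τ g z, g z)` of `ℝ^k × ℝ^b`; the coordinates of
`x = (v, z)` are `v i = x (inl i)` and `z l = x (inr l)`. -/
def act (g : G) (x : Fin k ⊕ Fin b → ℝ) : Fin k ⊕ Fin b → ℝ :=
  Sum.elim (fun i => ∑ j, (X.A g i j : ℝ) * x (.inl j) + X.τ g (fun l => x (.inr l)) i)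
    (f g fun l => x (.inr l))

/-- The translation `(v, z) ↦ (v + m, z)` of `ℝ^k × ℝ^b`. -/
def shift (m : Fin k → ℤ) (x : Fin k ⊕ Fin b → ℝ) : Fin k ⊕ Fin b → ℝ :=
  Sum.elim (fun i => x (.inl i) + m i) (fun l => x (.inr l))

/-- The diffeomorphisms of `ℝ^k × ℝ^b` whose quotient is `M`. -/
def maps : Set ((Fin k ⊕ Fin b → ℝ) → Fin k ⊕ Fin b → ℝ) :=
  Set.range X.act ∪ Set.range shift

/-- The monodromy as a real matrix. -/
def Ar (g : G) : Matrix (Fin k) (Fin k) ℝ := (X.A g).map (Int.cast : ℤ → ℝ)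

/-- The integral over `M`: of `F` over `[0,1]^k × {z}`, and then over `z` with the weight `χ`. -/
noncomputable def intM (χ : (Fin b → ℝ) → ℝ) (F : (Fin k ⊕ Fin b → ℝ) → ℝ) : ℝ :=
  ∫ z : Fin b → ℝ, χ z * ∫ v in Set.Icc (0 : Fin k → ℝ) 1, F (Sum.elim v z)

/-- The matrix `c` is the restriction of the class of `α` to the fibres: `c i j` is the integral of
the coefficient `α i j` over every fibre. -/
def FibreClass (α : (Fin k ⊕ Fin b) → (Fin k ⊕ Fin b) → (Fin k ⊕ Fin b → ℝ) → ℝ)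
    (c : Matrix (Fin k) (Fin k) ℝ) : Prop :=
  ∀ i j z, ∫ v in Set.Icc (0 : Fin k → ℝ) 1, α (.inl i) (.inl j) (Sum.elim v z) = c i j

/-- The alternating form with the matrix `c` is invariant under the monodromy. -/
structure InvForm (c : Matrix (Fin k) (Fin k) ℝ) : Prop where
  antisymm : cᵀ = -c
  invariant : ∀ g, (X.Ar g)ᵀ * c * X.Ar g = c

/-- `H^1(B; W^*) = 0` for the kernel `W` of `c`: every closed equivariant `W^*`-valued 1-form `β` on
`ℝ^b` is the derivative of an equivariant `W^*`-valued function `u`. -/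
def H1Zero (c : Matrix (Fin k) (Fin k) ℝ) : Prop :=
  ∀ β : Fin b → (Fin b → ℝ) → Fin k → ℝ, (∀ j i, Smooth fun z => β j z i) →
    (∀ w, c *ᵥ w = 0 → ∀ j l z, pd l (fun y => β j y ⬝ᵥ w) z = pd j (fun y => β l y ⬝ᵥ w) z) →
    (∀ w, c *ᵥ w = 0 → ∀ g j z,
      ∑ l, pd j (fun y => f g y l) z * (β l (f g z) ⬝ᵥ (X.Ar g *ᵥ w)) = β j z ⬝ᵥ w) →
    ∃ u : (Fin b → ℝ) → Fin k → ℝ, (∀ i, Smooth fun z => u z i) ∧
      (∀ w, c *ᵥ w = 0 → ∀ g z, u (f g z) ⬝ᵥ (X.Ar g *ᵥ w) = u z ⬝ᵥ w) ∧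
      ∀ w, c *ᵥ w = 0 → ∀ j z, pd j (fun y => u y ⬝ᵥ w) z = β j z ⬝ᵥ w

/-- The hypothesis on the invariant form `c` whose kernel `L` is a plane: the base is oriented, the
matrix `P` is an equivariant projection onto `L`, and either every invariant linear functional on
`L` is zero, or the component in `L` of the real Euler class is zero (that is, for some `s` the
functions `P (τ g z + s (g z) - A g (s z))` are constant in `z`). -/
def Good (c : Matrix (Fin k) (Fin k) ℝ) : Prop :=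
  Co.Oriented (Set.range f) ∧ ∃ P : Matrix (Fin k) (Fin k) ℝ,
    c * P = 0 ∧ (∀ w, c *ᵥ w = 0 → P *ᵥ w = w) ∧ (∀ g, P * X.Ar g = X.Ar g * P) ∧
    ((∀ l : Fin k → ℝ, (∀ g w, c *ᵥ w = 0 → l ⬝ᵥ (X.Ar g *ᵥ w) = l ⬝ᵥ w) →
        ∀ w, c *ᵥ w = 0 → l ⬝ᵥ w = 0) ∨
      ∃ s : (Fin b → ℝ) → Fin k → ℝ, (∀ i, Smooth fun z => s z i) ∧
        ∀ g, ∃ w, ∀ z, P *ᵥ (X.τ g z + s (f g z) - X.Ar g *ᵥ s z) = w)

end Bundle

end Pool.Agent.W_9986fc_h15.Co
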