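import Pool.Agent.W_9986fc_h15.Avg

/-!
Means over the cube `[0,1]^k`: invariance.
-/

set_option autoImplicit false
set_option maxSynthPendingDepth 3

open scoped ContDiff Matrix

namespace Pool.Agent.W_9986fc_h15

variable {k b : ℕ} {H : Type*} [NormedAddCommGroup H] [NormedSpace ℝ H] [CompleteSpace H]

/-- The vertical vector `(v, 0)`. -/
def vert (v : R k) : V k b := (v, 0)

/-- Periodic functions have the periods `(m, 0)`. -/
theorem per_iff (F : V k b → H) : Per F ↔ ∀ (m : Fin k → ℤ) x, F (x + vert (intV m)) = F x := by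
  unfold Per vert
  constructor
  · intro h m x
    have h1 := h m x.1 x.2
    have h2 : x + ((intV m, 0) : V k b) = (x.1 + intV m, x.2) := by
      ext <;> simp
    rw [h2, h1]
  · intro h m v z
    have h1 := h m (v, z)
    have h2 : ((v, z) : V k b) + (intV m, 0) = (v + intV m, z) := by
      ext <;> simp
    rwa [h2] at h1

/-- The lattice `ℤ^k`. -/
abbrev CubeA_L (k : ℕ) : Submodule ℤ (R k) :=
  Submodule.span ℤ (Set.range (Pi.basisFun ℝ (Fin k)))

theorem CubeA_mem_L {x : R k} : x ∈ CubeA_L k ↔ ∃ m : Fin k → ℤ, intV m = x := by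
  rw [CubeA_L, Module.Basis.mem_span_iff_repr_mem]
  constructor
  · intro h
    choose m hm using h
    exact ⟨m, funext fun i => by simpa [intV] using hm i⟩
  · rintro ⟨m, rfl⟩ i
    exact ⟨m i, by simp [intV]⟩

theorem CubeA_mulVec_intV (B : Matrix (Fin k) (Fin k) ℤ) (m : Fin k → ℤ) :
    B.map (Int.cast : ℤ → ℝ) *ᵥ intV m = intV (B *ᵥ m) := by
  funext i
  simp [intV, Matrix.mulVec, dotProduct]

theorem CubeA_mulVec_mem (B : Matrix (Fin k) (Fin k) ℤ) {x : R k} (hx : x ∈ CubeA_L k) :
    B.map (Int.cast : ℤ → ℝ) *ᵥ x ∈ CubeA_L k := by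
  obtain ⟨m, rfl⟩ := CubeA_mem_L.1 hx
  rw [CubeA_mulVec_intV]
  exact CubeA_mem_L.2 ⟨_, rfl⟩

theorem CubeA_map_mul (A B : Matrix (Fin k) (Fin k) ℤ) :
    A.map (Int.cast : ℤ → ℝ) * B.map (Int.cast : ℤ → ℝ) = (A * B).map (Int.cast : ℤ → ℝ) := by
  ext i j
  simp [Matrix.mul_apply]

theorem CubeA_map_one : (1 : Matrix (Fin k) (Fin k) ℤ).map (Int.cast : ℤ → ℝ) = 1 :=
  Matrix.map_one _ Int.cast_zero Int.cast_one

theorem CubeA_cont (M : Matrix (Fin k) (Fin k) ℝ) : Continuous (fun v : R k => M *ᵥ v) :=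
  Continuous.matrix_mulVec continuous_const continuous_id

theorem CubeA_cube (f : R k → H) :
    ∫ v in Set.Icc (0 : R k) 1, f v =
      ∫ v in ZSpan.fundamentalDomain (Pi.basisFun ℝ (Fin k)), f v := by
  rw [ZSpan.fundamentalDomain_pi_basisFun]
  exact MeasureTheory.setIntegral_congr_set MeasureTheory.Measure.univ_pi_Ico_ae_eq_Icc.symm

theorem CubeA_main (f : R k → H) (hf : ∀ (m : Fin k → ℤ) v, f (v + intV m) = f v)
    (A : Matrix (Fin k) (Fin k) ℤ) (hA : IsUnit A.det) (w : R k) :
    ∫ v in Set.Icc (0 : R k) 1, f (A.map (Int.cast : ℤ → ℝ) *ᵥ v + w) =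
      ∫ v in Set.Icc (0 : R k) 1, f v := by
  set Ar : Matrix (Fin k) (Fin k) ℝ := A.map (Int.cast : ℤ → ℝ) with hAr
  set B : Matrix (Fin k) (Fin k) ℤ := A⁻¹ with hB
  set Br : Matrix (Fin k) (Fin k) ℝ := B.map (Int.cast : ℤ → ℝ) with hBr
  have hAB : A * B = 1 := Matrix.mul_nonsing_inv A hA
  have hBA : B * A = 1 := Matrix.nonsing_inv_mul A hA
  have hABr : Ar * Br = 1 := by rw [hAr, hBr, CubeA_map_mul, hAB, CubeA_map_one]
  have hBAr : Br * Ar = 1 := by rw [hAr, hBr, CubeA_map_mul, hBA, CubeA_map_one]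
  have hdet : Ar.det = ((A.det : ℤ) : ℝ) := by
    have := RingHom.map_det (Int.castRingHom ℝ) A
    simpa [hAr] using this.symm
  have hdet1 : |Ar.det| = 1 := by
    rw [hdet]
    rcases Int.isUnit_iff.1 hA with h | h <;> rw [h] <;> simp
  have hdet0 : Ar.det ≠ 0 := by
    intro h
    rw [h, abs_zero] at hdet1
    exact zero_ne_one hdet1
  let T : R k ≃ᵐ R k :=
    { toFun := fun v => Ar *ᵥ v + w
      invFun := fun u => Br *ᵥ (u - w)
      left_inv := fun v => by
        simp only [add_sub_cancel_right, Matrix.mulVec_mulVec, hBAr, Matrix.one_mulVec]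
      right_inv := fun u => by
        simp only [Matrix.mulVec_mulVec, hABr, Matrix.one_mulVec, sub_add_cancel]
      measurable_toFun := ((CubeA_cont Ar).add continuous_const).measurable
      measurable_invFun := ((CubeA_cont Br).comp (continuous_id.sub continuous_const)).measurable }
  have hTlin : MeasureTheory.MeasurePreserving (fun v : R k => Ar *ᵥ v) := by
    refine ⟨(CubeA_cont Ar).measurable, ?_⟩
    have h1 := Real.map_matrix_volume_pi_eq_smul_volume_pi hdet0
    rw [abs_inv, hdet1, inv_one, ENNReal.ofReal_one, one_smul] at h1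
    exact h1
  have hT : MeasureTheory.MeasurePreserving T := by
    have h1 := (MeasureTheory.measurePreserving_add_right
      (MeasureTheory.volume : MeasureTheory.Measure (R k)) w).comp hTlin
    exact h1
  have hTs : MeasureTheory.MeasurePreserving T.symm := hT.symm T
  have hD := ZSpan.isAddFundamentalDomain (Pi.basisFun ℝ (Fin k))
    (MeasureTheory.volume : MeasureTheory.Measure (R k))
  let e : CubeA_L k ≃ CubeA_L k :=
    { toFun := fun g => ⟨Ar *ᵥ g.1, CubeA_mulVec_mem A g.2⟩
      invFun := fun g => ⟨Br *ᵥ g.1, CubeA_mulVec_mem B g.2⟩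
      left_inv := fun g => by
        ext1
        simp only [Matrix.mulVec_mulVec, hBAr, Matrix.one_mulVec]
      right_inv := fun g => by
        ext1
        simp only [Matrix.mulVec_mulVec, hABr, Matrix.one_mulVec] }
  have hD' : MeasureTheory.IsAddFundamentalDomain (CubeA_L k)
      (T.symm ⁻¹' (ZSpan.fundamentalDomain (Pi.basisFun ℝ (Fin k)))) := by
    refine hD.preimage_of_equiv hTs.quasiMeasurePreserving (e := e) e.bijective fun g x => ?_
    change Br *ᵥ ((Ar *ᵥ g.1 + x) - w) = g.1 + Br *ᵥ (x - w)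
    rw [add_sub_assoc, Matrix.mulVec_add, Matrix.mulVec_mulVec, hBAr, Matrix.one_mulVec]
  have hinv : ∀ (g : CubeA_L k) (x : R k), f (g +ᵥ x) = f x := by
    intro g x
    obtain ⟨m, hm⟩ := CubeA_mem_L.1 g.2
    have h1 : g +ᵥ x = x + intV m := by
      rw [hm, add_comm]
      rfl
    rw [h1, hf]
  have : MeasureTheory.VAddInvariantMeasure (CubeA_L k) (R k)
      (MeasureTheory.volume : MeasureTheory.Measure (R k)) :=
    inferInstanceAs (MeasureTheory.VAddInvariantMeasure (CubeA_L k).toAddSubgroup (R k)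
      MeasureTheory.volume)
  have hset : T ⁻¹' (T.symm ⁻¹' (ZSpan.fundamentalDomain (Pi.basisFun ℝ (Fin k)))) =
      ZSpan.fundamentalDomain (Pi.basisFun ℝ (Fin k)) := by
    ext v
    simp only [Set.mem_preimage, MeasurableEquiv.symm_apply_apply]
  have h1 := hT.setIntegral_preimage_emb T.measurableEmbedding f
    (T.symm ⁻¹' (ZSpan.fundamentalDomain (Pi.basisFun ℝ (Fin k))))
  rw [hset] at h1
  rw [CubeA_cube, CubeA_cube, ← hD'.setIntegral_eq hD hinv]
  exact h1

/-- The mean commutes with translations in the direction of the fibre: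
`∫ v in [0,1]^k, F (v + w, z) = ∫ v in [0,1]^k, F (v, z)`. Both cubes are fundamental domains of
`ℤ^k`. (One can use `ZSpan.isAddFundamentalDomain` for the basis `Pi.basisFun ℝ (Fin k)` and
`MeasureTheory.IsAddFundamentalDomain.setIntegral_eq`; or Fubini and
`Function.Periodic.intervalIntegral_add_eq`.) -/
theorem mean_add (F : V k b → H) (hF : Continuous F) (hper : Per F) (w : R k) (z : R b) :
    mean (fun x => F (x + vert w)) z = mean F z := by
  have h := CubeA_main (fun v => F (v, z)) (fun m v => hper m v z) 1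
    (by rw [Matrix.det_one]; exact isUnit_one) w
  simp only [CubeA_map_one, Matrix.one_mulVec] at h
  unfold mean
  rw [← h]
  congr 1
  funext v
  have h2 : ((v, z) : V k b) + vert w = (v + w, z) := by
    unfold vert
    ext <;> simp
  change F ((v, z) + vert w) = F (v + w, z)
  rw [h2]

/-- The mean is invariant under integer matrices of determinant `±1` and translations: the image of
the cube is again a fundamental domain of `ℤ^k`. -/
theorem mean_linear (F : V k b → H) (hF : Continuous F) (hper : Per F)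
    (A : Matrix (Fin k) (Fin k) ℤ) (hA : IsUnit A.det) (w : R k) (z : R b) :
    ∫ v in Set.Icc (0 : R k) 1, F (A.map (Int.cast : ℤ → ℝ) *ᵥ v + w, z) = mean F z :=
  CubeA_main (fun v => F (v, z)) (fun m v => hper m v z) A hA w

theorem mean_const (h : H) (z : R b) : mean (k := k) (fun _ : V k b => h) z = h := by
  unfold mean
  rw [MeasureTheory.setIntegral_const, MeasureTheory.measureReal_def, Real.volume_Icc_pi]
  simp

end Pool.Agent.W_9986fc_h15
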