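import Mathlib

/-!
Definitions for MP_9986fc_gt (helper15): differential forms on `ℝ^k × ℝ^b`, top powers of 2-forms,
cocompact actions on `ℝ^b` and affine torus bundles `(T^k × ℝ^b) / G → ℝ^b / G`.
-/

set_option autoImplicit false
set_option maxSynthPendingDepth 3

open scoped ContDiff Matrix

namespace Pool.Agent.W_9986fc_h15

section Forms

variable {E : Type*} [NormedAddCommGroup E] [NormedSpace ℝ E]

/-- The exterior derivative of the 1-form `η`: `dη (u, w) = D_u η (w) - D_w η (u)`. -/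
noncomputable def d1 (η : E → E →L[ℝ] ℝ) (x : E) : E →L[ℝ] E →L[ℝ] ℝ :=
  fderiv ℝ η x - (fderiv ℝ η x).flip

/-- A smooth differential 2-form. -/
structure IsForm (α : E → E →L[ℝ] E →L[ℝ] ℝ) : Prop where
  smooth : ContDiff ℝ ∞ α
  alt : ∀ x u, α x u u = 0

/-- The 2-form `α` is closed. -/
def Closed (α : E → E →L[ℝ] E →L[ℝ] ℝ) : Prop :=
  ∀ x u v w, fderiv ℝ α x u v w + fderiv ℝ α x v w u + fderiv ℝ α x w u v = 0

/-- Pullback of a 1-form. -/
noncomputable def pull1 (φ : E → E) (η : E → E →L[ℝ] ℝ) (x : E) : E →L[ℝ] ℝ :=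
  (η (φ x)).comp (fderiv ℝ φ x)

/-- Pullback of a 2-form. -/
noncomputable def pull2 (φ : E → E) (α : E → E →L[ℝ] E →L[ℝ] ℝ) (x : E) :
    E →L[ℝ] E →L[ℝ] ℝ :=
  (α (φ x)).bilinearComp (fderiv ℝ φ x) (fderiv ℝ φ x)

/-- The value of the wedge product of the 2-forms `q i` at the vectors `e`, up to the factor
`2 ^ n`. -/
noncomputable def mix {n : ℕ} (e : Fin n × Fin 2 → E) (q : Fin n → E →L[ℝ] E →L[ℝ] ℝ) : ℝ :=
  ∑ σ : Equiv.Perm (Fin n × Fin 2),
    ((Equiv.Perm.sign σ : ℤ) : ℝ) * ∏ i, q i (e (σ (i, 0))) (e (σ (i, 1)))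

/-- The value of `α ^ n` at the vectors `e`, up to the factor `2 ^ n`. -/
noncomputable def top {n : ℕ} (e : Fin n × Fin 2 → E) (α : E →L[ℝ] E →L[ℝ] ℝ) : ℝ :=
  ∑ σ : Equiv.Perm (Fin n × Fin 2),
    ((Equiv.Perm.sign σ : ℤ) : ℝ) * ∏ i, α (e (σ (i, 0))) (e (σ (i, 1)))

end Forms

/-- The vector space `ℝ^b`. -/
abbrev R (b : ℕ) := Fin b → ℝ

/-- The vector space `ℝ^k × ℝ^b`. -/
abbrev V (k b : ℕ) := R k × R b

/-- The standard basis of `ℝ^b`. -/
def stdR {b : ℕ} (i : Fin b) : R b := Pi.single i 1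

/-- The standard basis of `ℝ^k × ℝ^b`. -/
def stdV {k b : ℕ} : Fin k ⊕ Fin b → V k b :=
  Sum.elim (fun i => (Pi.single i 1, 0)) (fun j => (0, Pi.single j 1))

/-- The integer vector `m` as a real vector. -/
def intV {k : ℕ} (m : Fin k → ℤ) : R k := fun i => (m i : ℝ)

section Base

variable (b : ℕ) (G : Type) [Group G] [MulAction G (R b)]

/-- A smooth, properly discontinuous and cocompact action of `G` on `ℝ^b`: the quotient is a closed
orbifold (a closed manifold if the action is free). -/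
structure IsBase : Prop where
  smooth : ∀ g : G, ContDiff ℝ ∞ (fun z : R b => g • z)
  proper : ∀ K : Set (R b), IsCompact K → {g : G | ∃ z ∈ K, g • z ∈ K}.Finite
  cocompact : ∃ K : Set (R b), IsCompact K ∧ ∀ z, ∃ g : G, g • z ∈ K

/-- The action preserves the orientation. -/
def Oriented : Prop := ∀ (g : G) (z : R b), 0 < (fderiv ℝ (fun z : R b => g • z) z).det

variable {b}

/-- A partition of unity: the integral over `ℝ^b / G` of an invariant density `F` is
`∫ z, χ z * F z`. -/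
structure IsPart (χ : R b → ℝ) : Prop where
  smooth : ContDiff ℝ ∞ χ
  compact : HasCompactSupport χ
  sum : ∀ z, ∑ᶠ g : G, χ (g • z) = 1

/-- Differential 2-forms on `ℝ^b / G`. -/
structure BInv2 (α : R b → R b →L[ℝ] R b →L[ℝ] ℝ) : Prop extends IsForm α where
  invariant : ∀ (g : G) z, pull2 (fun z : R b => g • z) α z = α z

/-- Differential 1-forms on `ℝ^b / G`. -/
structure BInv1 (η : R b → R b →L[ℝ] ℝ) : Prop where
  smooth : ContDiff ℝ ∞ η
  invariant : ∀ (g : G) z, pull1 (fun z : R b => g • z) η z = η z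

end Base

/-- Data for an affine torus bundle `M = (T^k × ℝ^b) / G → ℝ^b / G`: the monodromy `A` and the
translation parts `τ`. The element `g` of `G` acts on `T^k × ℝ^b` by
`(v, z) ↦ (A g v + τ g z, g • z)`. -/
structure Bundle (k b : ℕ) (G : Type) [Group G] [MulAction G (R b)] where
  A : G →* Matrix (Fin k) (Fin k) ℤ
  τ : G → R b → R k
  smooth : ∀ g, ContDiff ℝ ∞ (τ g)
  cocycle : ∀ g h z, ∃ m : Fin k → ℤ,
    τ (g * h) z = (A g).map (Int.cast : ℤ → ℝ) *ᵥ τ h z + τ g (h • z) + intV m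

namespace Bundle

variable {k b : ℕ} {G : Type} [Group G] [MulAction G (R b)] (X : Bundle k b G)

/-- The monodromy as a real linear map. -/
noncomputable def L (g : G) : R k →L[ℝ] R k :=
  LinearMap.toContinuousLinearMap ((X.A g).map (Int.cast : ℤ → ℝ)).mulVecLin

/-- The diffeomorphism `φ g (v, z) = (A g v + τ g z, g • z)` of `ℝ^k × ℝ^b`. -/
noncomputable def φ (g : G) (x : V k b) : V k b := (X.L g x.1 + X.τ g x.2, g • x.2)

/-- The maps `φ g` preserve the orientation. -/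
def Oriented : Prop := ∀ (g : G) (x : V k b), 0 < (fderiv ℝ (X.φ g) x).det

/-- Differential 1-forms on `M`. -/
structure Inv1 (η : V k b → V k b →L[ℝ] ℝ) : Prop where
  smooth : ContDiff ℝ ∞ η
  periodic : ∀ (m : Fin k → ℤ) v z, η (v + intV m, z) = η (v, z)
  invariant : ∀ g x, pull1 (X.φ g) η x = η x

/-- Differential 2-forms on `M`. -/
structure Inv2 (α : V k b → V k b →L[ℝ] V k b →L[ℝ] ℝ) : Prop extends IsForm α where
  periodic : ∀ (m : Fin k → ℤ) v z, α (v + intV m, z) = α (v, z)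
  invariant : ∀ g x, pull2 (X.φ g) α x = α x

/-- `c` is an alternating form on `ℝ^k` which is invariant under the monodromy. -/
structure InvC (c : R k →L[ℝ] R k →L[ℝ] ℝ) : Prop where
  alt : ∀ x, c x x = 0
  invariant : ∀ g x y, c (X.L g x) (X.L g y) = c x y

/-- `H^1(ℝ^b / G; W^*) = 0` for the subspace `W` of `ℝ^k` (invariant under the monodromy): every
closed equivariant 1-form with values in the dual space of `W` is the derivative of an equivariant
function with values in the dual space of `W`. -/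
def H1Zero (W : Submodule ℝ (R k)) : Prop :=
  ∀ β : R b → R b →L[ℝ] R k →L[ℝ] ℝ, ContDiff ℝ ∞ β →
    (∀ z u w, ∀ x ∈ W, fderiv ℝ β z u w x = fderiv ℝ β z w u x) →
    (∀ g z u, ∀ x ∈ W, β (g • z) (fderiv ℝ (fun z : R b => g • z) z u) (X.L g x) = β z u x) →
    ∃ ψ : R b → R k →L[ℝ] ℝ, ContDiff ℝ ∞ ψ ∧
      (∀ g z, ∀ x ∈ W, ψ (g • z) (X.L g x) = ψ z x) ∧
      ∀ z u, ∀ x ∈ W, fderiv ℝ ψ z u x = β z u x

end Bundle

/-- The integral over the fibres `[0,1]^k × {z}`. -/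
noncomputable def fib {k b : ℕ} (F : V k b → ℝ) (z : R b) : ℝ :=
  ∫ v in Set.Icc (0 : R k) 1, F (v, z)

/-- Strong form of the conclusion of Q1 for the base `ℝ^b / G` (both orientations, given by `π`):
every closed 2-form `α` with positive integral of `α ^ m` is cohomologous to a symplectic form. -/
def StrongB (b : ℕ) (G : Type) [Group G] [MulAction G (R b)] : Prop :=
  ∀ (m : ℕ) (π : Fin m × Fin 2 ≃ Fin b) (χ : R b → ℝ) (α : R b → R b →L[ℝ] R b →L[ℝ] ℝ),
    IsPart G χ → BInv2 G α → Closed α → 0 < ∫ z, χ z * top (fun i => stdR (π i)) (α z) →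
    ∃ η, BInv1 G η ∧ ∀ z, 0 < top (fun i => stdR (π i)) (α z + d1 η z)

/-- Strong form of the conclusion of Q1 for the total space `M` (both orientations). -/
def StrongM {k b : ℕ} {G : Type} [Group G] [MulAction G (R b)] (X : Bundle k b G) : Prop :=
  ∀ (n : ℕ) (π : Fin n × Fin 2 ≃ Fin k ⊕ Fin b) (χ : R b → ℝ)
    (α : V k b → V k b →L[ℝ] V k b →L[ℝ] ℝ),
    IsPart G χ → X.Inv2 α → Closed α →
    0 < ∫ z, χ z * fib (fun x => top (fun i => stdV (π i)) (α x)) z →
    ∃ η, X.Inv1 η ∧ ∀ x, 0 < top (fun i => stdV (π i)) (α x + d1 η x)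

/-- Weak form of the conclusion of Q1 for the base `ℝ^b / G` (both orientations): if there is a
closed 2-form `α` with positive integral of `α ^ m`, then there is a symplectic form. -/
def WeakB (b : ℕ) (G : Type) [Group G] [MulAction G (R b)] : Prop :=
  ∀ (m : ℕ) (π : Fin m × Fin 2 ≃ Fin b) (χ : R b → ℝ) (α : R b → R b →L[ℝ] R b →L[ℝ] ℝ),
    IsPart G χ → BInv2 G α → Closed α → 0 < ∫ z, χ z * top (fun i => stdR (π i)) (α z) →
    ∃ s, BInv2 G s ∧ Closed s ∧ ∀ z, 0 < top (fun i => stdR (π i)) (s z)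

/-- Weak form of the conclusion of Q1 for the total space `M` (both orientations). -/
def WeakM {k b : ℕ} {G : Type} [Group G] [MulAction G (R b)] (X : Bundle k b G) : Prop :=
  ∀ (n : ℕ) (π : Fin n × Fin 2 ≃ Fin k ⊕ Fin b) (χ : R b → ℝ)
    (α : V k b → V k b →L[ℝ] V k b →L[ℝ] ℝ),
    IsPart G χ → X.Inv2 α → Closed α →
    0 < ∫ z, χ z * fib (fun x => top (fun i => stdV (π i)) (α x)) z →
    ∃ s, X.Inv2 s ∧ Closed s ∧ ∀ x, 0 < top (fun i => stdV (π i)) (s x)

/-- The kernel of a bilinear form. -/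
def kerC {k : ℕ} (c : R k →L[ℝ] R k →L[ℝ] ℝ) : Submodule ℝ (R k) := LinearMap.ker (c : R k →ₗ[ℝ] R k →L[ℝ] ℝ)

/-- The wedge product of two covectors. -/
noncomputable def wedge {E : Type*} [NormedAddCommGroup E] [NormedSpace ℝ E]
    (a b : E →L[ℝ] ℝ) : E →L[ℝ] E →L[ℝ] ℝ :=
  a.smulRight b - b.smulRight a

/-- The pullback to `ℝ^k × ℝ^b` of a bilinear form on `ℝ^b`. -/
noncomputable def liftB {k b : ℕ} (q : R b →L[ℝ] R b →L[ℝ] ℝ) : V k b →L[ℝ] V k b →L[ℝ] ℝ :=
  q.bilinearComp (ContinuousLinearMap.snd ℝ (R k) (R b)) (ContinuousLinearMap.snd ℝ (R k) (R b))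

/-- The pullback to `ℝ^k × ℝ^b` of a bilinear form on `ℝ^k`. -/
noncomputable def liftC {k b : ℕ} (c : R k →L[ℝ] R k →L[ℝ] ℝ) : V k b →L[ℝ] V k b →L[ℝ] ℝ :=
  c.bilinearComp (ContinuousLinearMap.fst ℝ (R k) (R b)) (ContinuousLinearMap.fst ℝ (R k) (R b))

/-- Periodic functions on `ℝ^k × ℝ^b`: functions on `T^k × ℝ^b`. -/
def Per {k b : ℕ} {H : Type*} (F : V k b → H) : Prop :=
  ∀ (m : Fin k → ℤ) v z, F (v + intV m, z) = F (v, z)

/-- The mean of a vector valued function over `[0,1]^k × {z}`. -/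
noncomputable def mean {k b : ℕ} {H : Type*} [NormedAddCommGroup H] [NormedSpace ℝ H]
    (F : V k b → H) (z : R b) : H := ∫ v in Set.Icc (0 : R k) 1, F (v, z)

end Pool.Agent.W_9986fc_h15
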