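import Pool.Agent.W_9986fc_h15.GSumA

/-!
Partitions of unity.
-/

set_option autoImplicit false
set_option maxSynthPendingDepth 3

open scoped ContDiff Matrix

namespace Pool.Agent.W_9986fc_h15

variable {b : ℕ} {G : Type} [Group G] [MulAction G (R b)]

theorem GSum_aux1 {χ : R b → ℝ} (hχ : HasCompactSupport χ) :
    CSup G (fun z : R b => z) (fun (g : G) (z : R b) => χ (g • z)) :=
  csup_of_cutoff hχ (fun _ _ h => h)

/-- The derivative of a partition of unity is zero. -/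
theorem IsPart.fderiv_sum (hB : IsBase b G) {χ : R b → ℝ} (hχ : IsPart G χ) (z : R b) :
    ∑ᶠ g : G, fderiv ℝ (fun z : R b => χ (g • z)) z = 0 := by
  have h1 := CSup.fderiv_sum hB (continuous_id' : Continuous fun z : R b => z)
    (GSum_aux1 (G := G) hχ.compact) (fun g => hχ.smooth.comp (hB.smooth g)) z
  rw [← h1]
  have h2 : (fun y : R b => ∑ᶠ g : G, χ (g • y)) = fun _ => (1 : ℝ) := funext hχ.sum
  rw [h2]
  exact fderiv_const_apply _

/-- Positive partition: for later use, there is a smooth `ψ ≥ 0` with compact support and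
`∑ᶠ g, ψ (g • z) > 0` everywhere. -/
theorem GSum_aux2 (hB : IsBase b G) : ∃ ψ : R b → ℝ, ContDiff ℝ ∞ ψ ∧ HasCompactSupport ψ ∧
    (∀ z, 0 ≤ ψ z) ∧ ∀ z, ∃ g : G, 0 < ψ (g • z) := by
  obtain ⟨K, hK, hcov⟩ := hB.cocompact
  obtain ⟨r, hr0, hr⟩ : ∃ r : ℝ, 0 < r ∧ K ⊆ Metric.closedBall 0 r := by
    obtain ⟨r, hr⟩ := hK.isBounded.subset_closedBall (0 : R b)
    exact ⟨max r 1, lt_of_lt_of_le one_pos (le_max_right _ _),
      hr.trans (Metric.closedBall_subset_closedBall (le_max_left _ _))⟩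
  let f : ContDiffBump (0 : R b) := ⟨r, r + 1, hr0, lt_add_one r⟩
  refine ⟨f, f.contDiff, f.hasCompactSupport, fun z => f.nonneg, fun z => ?_⟩
  obtain ⟨g, hg⟩ := hcov z
  refine ⟨g, ?_⟩
  rw [f.one_of_mem_closedBall (hr hg)]
  exact one_pos

/-- Partitions of unity exist. Proof: let `ψ ≥ 0` be a smooth function with compact support which is
positive on the compact set of `IsBase.cocompact`; divide it by `∑ᶠ g, ψ (g • z) > 0`. -/
theorem exists_isPart (hB : IsBase b G) : ∃ χ : R b → ℝ, IsPart G χ ∧ ∀ z, 0 ≤ χ z := by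
  obtain ⟨ψ, hs, hc, h0, hpos⟩ := GSum_aux2 (G := G) hB
  have hC := GSum_aux1 (G := G) hc
  set S : R b → ℝ := fun z => ∑ᶠ g : G, ψ (g • z) with hS
  have hSs : ContDiff ℝ ∞ S := CSup.contDiff hB continuous_id' hC
    (fun g => hs.comp (hB.smooth g))
  have hfin : ∀ z, (Function.support fun g : G => ψ (g • z)).Finite := fun z =>
    CSup.finite hB hC z
  have hSpos : ∀ z, 0 < S z := by
    intro z
    obtain ⟨g, hg⟩ := hpos z
    rw [hS]
    simp only
    rw [finsum_eq_sum _ (hfin z)]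
    refine Finset.sum_pos' (fun i _ => h0 _) ⟨g, ?_, hg⟩
    rw [Set.Finite.mem_toFinset, Function.mem_support]
    exact hg.ne'
  have hSinv : ∀ (g : G) z, S (g • z) = S z := by
    intro g z
    rw [hS]
    simp only [smul_smul]
    exact finsum_mul_right (fun h : G => ψ (h • z)) g
  refine ⟨fun z => ψ z * (S z)⁻¹, ⟨hs.mul (hSs.inv fun z => (hSpos z).ne'), hc.mul_right, ?_⟩,
    fun z => mul_nonneg (h0 z) (inv_nonneg.2 (hSpos z).le)⟩
  intro z
  simp only [hSinv]
  rw [← finsum_mul' (fun g : G => ψ (g • z)) _ (hfin z)]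
  exact mul_inv_cancel₀ (hSpos z).ne'

/-- Positive partition: for later use, there is a smooth `ψ ≥ 0` with compact support and
`∑ᶠ g, ψ (g • z) > 0` everywhere. -/
theorem exists_cutoff (hB : IsBase b G) : ∃ ψ : R b → ℝ, ContDiff ℝ ∞ ψ ∧ HasCompactSupport ψ ∧
    (∀ z, 0 ≤ ψ z) ∧ ∀ z, ∃ g : G, 0 < ψ (g • z) :=
  GSum_aux2 hB

end Pool.Agent.W_9986fc_h15
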