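import Pool.Agent.W_9986fc_h15.Defs

/-!
Locally finite sums over the group.
-/

set_option autoImplicit false
set_option maxSynthPendingDepth 3

open scoped ContDiff Matrix

namespace Pool.Agent.W_9986fc_h15

variable {b : ℕ} {G : Type} [Group G] [MulAction G (R b)]

/-- Only finitely many `g` map a point of the compact set `C` to the compact set `K`
(`IsBase.proper` for `K ∪ C`). -/
theorem IsBase.finite (hB : IsBase b G) (K C : Set (R b)) (hK : IsCompact K) (hC : IsCompact C) :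
    {g : G | ∃ z ∈ C, g • z ∈ K}.Finite := by
  refine (hB.proper (K ∪ C) (hK.union hC)).subset ?_
  rintro g ⟨z, hz, hgz⟩
  exact ⟨z, Or.inr hz, Or.inl hgz⟩

variable {Y : Type*} [NormedAddCommGroup Y] [NormedSpace ℝ Y]
  {H : Type*} [NormedAddCommGroup H] [NormedSpace ℝ H]

/-- The family `F g`, `g ∈ G`, of functions on `Y` is supported in `g⁻¹ K` for a compact `K`. The map
`p : Y → ℝ^b` is the identity or the projection `ℝ^k × ℝ^b → ℝ^b`. -/
def CSup (G : Type) [Group G] [MulAction G (R b)] (p : Y → R b) (F : G → Y → H) : Prop :=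
  ∃ K : Set (R b), IsCompact K ∧ ∀ g y, F g y ≠ 0 → g • p y ∈ K

theorem CSup.locallyFinite (hB : IsBase b G) {p : Y → R b} (hp : Continuous p) {F : G → Y → H}
    (hF : CSup G p F) : LocallyFinite fun g => Function.support (F g) := by
  obtain ⟨K, hK, hs⟩ := hF
  intro y
  obtain ⟨C, hC, hCn⟩ := exists_compact_mem_nhds (p y)
  refine ⟨p ⁻¹' C, hp.continuousAt.preimage_mem_nhds hCn, ?_⟩
  refine (hB.finite K C hK hC).subset ?_
  rintro g ⟨y', hy', hy''⟩
  exact ⟨p y', hy'', hs g y' hy'⟩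

theorem GSumA_local (hB : IsBase b G) {p : Y → R b} (hp : Continuous p) {F : G → Y → H}
    (hF : CSup G p F) (y : Y) : ∃ s : Finset G, ∀ᶠ y' in nhds y, ∀ g, F g y' ≠ 0 → g ∈ s := by
  obtain ⟨t, ht, hf⟩ := hF.locallyFinite hB hp y
  refine ⟨hf.toFinset, ?_⟩
  filter_upwards [ht] with y' hy' g hg
  rw [Set.Finite.mem_toFinset]
  exact ⟨y', hg, hy'⟩

theorem GSumA_eq (hB : IsBase b G) {p : Y → R b} (hp : Continuous p) {F : G → Y → H}
    (hF : CSup G p F) (y : Y) : ∃ s : Finset G, (∀ᶠ y' in nhds y, ∀ g, F g y' ≠ 0 → g ∈ s) ∧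
      (fun y => ∑ᶠ g, F g y) =ᶠ[nhds y] fun y => ∑ g ∈ s, F g y := by
  obtain ⟨s, hs⟩ := GSumA_local hB hp hF y
  refine ⟨s, hs, ?_⟩
  filter_upwards [hs] with y' hy'
  exact finsum_eq_sum_of_support_subset _ (fun g hg => by simpa using hy' g hg)

theorem CSup.finite (hB : IsBase b G) {p : Y → R b} {F : G → Y → H}
    (hF : CSup G p F) (y : Y) : {g | F g y ≠ 0}.Finite := by
  obtain ⟨K, hK, hs⟩ := hF
  refine (hB.finite K {p y} hK isCompact_singleton).subset ?_
  intro g hg
  exact ⟨p y, rfl, hs g y hg⟩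

theorem CSup.contDiff (hB : IsBase b G) {p : Y → R b} (hp : Continuous p) {F : G → Y → H}
    (hF : CSup G p F) (hd : ∀ g, ContDiff ℝ ∞ (F g)) : ContDiff ℝ ∞ fun y => ∑ᶠ g, F g y := by
  rw [contDiff_iff_contDiffAt]
  intro y
  obtain ⟨s, -, hs⟩ := GSumA_eq hB hp hF y
  refine ContDiffAt.congr_of_eventuallyEq ?_ hs
  exact ContDiffAt.sum fun g _ => (hd g).contDiffAt

theorem CSup.fderiv_sum (hB : IsBase b G) {p : Y → R b} (hp : Continuous p) {F : G → Y → H}
    (hF : CSup G p F) (hd : ∀ g, ContDiff ℝ ∞ (F g)) (y : Y) :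
    fderiv ℝ (fun y => ∑ᶠ g, F g y) y = ∑ᶠ g, fderiv ℝ (F g) y := by
  obtain ⟨s, h0, hs⟩ := GSumA_eq hB hp hF y
  rw [hs.fderiv_eq, fderiv_fun_sum fun g _ => ((hd g).differentiable (by simp)).differentiableAt]
  symm
  refine finsum_eq_sum_of_support_subset _ fun g hg => ?_
  by_contra hgs
  apply hg
  have : F g =ᶠ[nhds y] fun _ => 0 := by
    filter_upwards [h0] with y' hy'
    by_contra h
    exact hgs (by simpa using hy' g h)
  change fderiv ℝ (F g) y = 0
  rw [this.fderiv_eq]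
  simp

/-- The derivatives have the same support property (outside of the closed set `p⁻¹ (g⁻¹ K)` the
function `F g` vanishes on an open set). -/
theorem CSup.sup_fderiv (hB : IsBase b G) {p : Y → R b} (hp : Continuous p) {F : G → Y → H}
    (hF : CSup G p F) : CSup G p fun g => fderiv ℝ (F g) := by
  obtain ⟨K, hK, hs⟩ := hF
  refine ⟨K, hK, fun g y hy => ?_⟩
  by_contra hn
  apply hy
  have hcont : Continuous fun y => g • p y := (hB.smooth g).continuous.comp hp
  have hopen : {y | g • p y ∉ K} ∈ nhds y :=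
    (hK.isClosed.isOpen_compl.preimage hcont).mem_nhds hn
  have : F g =ᶠ[nhds y] fun _ => 0 := by
    filter_upwards [hopen] with y' hy'
    by_contra h
    exact hy' (hs g y' h)
  change fderiv ℝ (F g) y = 0
  rw [this.fderiv_eq]
  simp

/-- Sums commute with linear maps. -/
theorem CSup.clm (hB : IsBase b G) {p : Y → R b} {F : G → Y → H} (hF : CSup G p F)
    {H' : Type*} [AddCommGroup H'] [Module ℝ H'] (T : H →ₗ[ℝ] H') (y : Y) :
    T (∑ᶠ g, F g y) = ∑ᶠ g, T (F g y) :=
  T.toAddMonoidHom.map_finsum (hF.finite hB y)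

theorem CSup.add (hB : IsBase b G) {p : Y → R b} {F F' : G → Y → H} (hF : CSup G p F)
    (hF' : CSup G p F') (y : Y) : ∑ᶠ g, (F g y + F' g y) = (∑ᶠ g, F g y) + ∑ᶠ g, F' g y :=
  finsum_add_distrib (hF.finite hB y) (hF'.finite hB y)

/-- Right translation of the index. -/
theorem finsum_mul_right {M : Type*} [AddCommMonoid M] (F : G → M) (h : G) :
    ∑ᶠ g, F (g * h) = ∑ᶠ g, F g :=
  finsum_comp_equiv (Equiv.mulRight h)

/-- A cut-off function gives a family with the support property. -/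
theorem csup_of_cutoff {χ : R b → ℝ} (hχ : HasCompactSupport χ) {p : Y → R b} {F : G → Y → H}
    (hF : ∀ g y, χ (g • p y) = 0 → F g y = 0) : CSup G p F := by
  refine ⟨tsupport χ, hχ, fun g y hy => subset_tsupport χ ?_⟩
  intro h
  exact hy (hF g y h)

end Pool.Agent.W_9986fc_h15
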