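import Pool.Agent.W_9986fc_h15.StructA

/-!
Closed invariant 2-forms with nondegenerate fibre part: the form on the base.
-/

set_option autoImplicit false
set_option maxSynthPendingDepth 3

open scoped ContDiff Matrix

namespace Pool.Agent.W_9986fc_h15

variable {k b n : ℕ} {G : Type} [Group G] [MulAction G (R b)] (X : Bundle k b G)

/-- A form on `ℝ^k` with zero kernel as an isomorphism onto the dual space. -/
theorem exists_dualEquiv (c : R k →L[ℝ] R k →L[ℝ] ℝ) (hk : kerC c = ⊥) :
    ∃ e : R k ≃L[ℝ] (R k →L[ℝ] ℝ), ∀ x, e x = c x := by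
  have hinj : Function.Injective (c : R k →ₗ[ℝ] R k →L[ℝ] ℝ) := LinearMap.ker_eq_bot.1 hk
  have hfr : Module.finrank ℝ (R k) = Module.finrank ℝ (R k →L[ℝ] ℝ) := by
    rw [← (LinearMap.toContinuousLinearMap (𝕜 := ℝ) (E := R k) (F' := ℝ)).finrank_eq]
    exact (Subspace.dual_finrank_eq (K := ℝ) (V := R k)).symm
  have hsurj : Function.Surjective (c : R k →ₗ[ℝ] R k →L[ℝ] ℝ) :=
    (LinearMap.injective_iff_surjective_of_finrank_eq_finrank hfr).1 hinj
  refine ⟨(LinearEquiv.ofBijective (c : R k →ₗ[ℝ] R k →L[ℝ] ℝ)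
    ⟨hinj, hsurj⟩).toContinuousLinearEquiv, fun x => rfl⟩

/-- Forms which do not depend on `v`. -/
theorem eq_zero_left {a : V k b → V k b →L[ℝ] V k b →L[ℝ] ℝ}
    (hv : ∀ v z, a (v, z) = a (0, z)) (x : V k b) : a x = a (0, x.2) := hv x.1 x.2

theorem hasFDerivAt_right {a : V k b → V k b →L[ℝ] V k b →L[ℝ] ℝ}
    (ha : ContDiff ℝ ∞ a) (z : R b) :
    HasFDerivAt (fun z : R b => a (0, z))
      ((fderiv ℝ a (0, z)).comp (ContinuousLinearMap.inr ℝ (R k) (R b))) z := by
  have h1 : HasFDerivAt a (fderiv ℝ a (0, z)) ((0 : R k), z) :=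
    ((ha.differentiable (by simp)) (0, z)).hasFDerivAt
  exact h1.comp z (ContinuousLinearMap.inr ℝ (R k) (R b)).hasFDerivAt

/-- The derivative of an alternating form is alternating. -/
theorem fderiv_alt_sB {E : Type*} [NormedAddCommGroup E] [NormedSpace ℝ E]
    {α : E → E →L[ℝ] E →L[ℝ] ℝ} (hα : IsForm α) (x u v w : E) :
    fderiv ℝ α x u v w = - fderiv ℝ α x u w v := by
  have hd : HasFDerivAt α (fderiv ℝ α x) x :=
    ((hα.smooth.differentiable (by simp)) x).hasFDerivAt
  have h1 : ∀ v w : E, HasFDerivAt (fun y => α y v w)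
      (((ContinuousLinearMap.apply ℝ ℝ w).comp
        (ContinuousLinearMap.apply ℝ (E →L[ℝ] ℝ) v)).comp (fderiv ℝ α x)) x := by
    intro v w
    have := ((ContinuousLinearMap.apply ℝ ℝ w).comp
        (ContinuousLinearMap.apply ℝ (E →L[ℝ] ℝ) v)).hasFDerivAt.comp x hd
    exact this
  have halt : ∀ y : E, α y v w = - α y w v := by
    intro y
    have h := hα.alt y (v + w)
    simp only [map_add, ContinuousLinearMap.add_apply, hα.alt, zero_add, add_zero] at h
    linarith
  have h2 := h1 v w
  have h3 := (h1 w v).neg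
  have h4 : (fun y => α y v w) = fun y => - α y w v := funext halt
  rw [h4] at h2
  have h5 := h2.unique h3
  have h6 := congrArg (fun T : E →L[ℝ] ℝ => T u) h5
  simpa using h6

theorem alt_swap {E : Type*} [NormedAddCommGroup E] [NormedSpace ℝ E]
    {α : E → E →L[ℝ] E →L[ℝ] ℝ} (hα : IsForm α) (x v w : E) : α x v w = - α x w v := by
  have h := hα.alt x (v + w)
  simp only [map_add, ContinuousLinearMap.add_apply, hα.alt, zero_add, add_zero] at h
  linarith

/-- The horizontal lift: for nondegenerate `c` there is a unique linear map `s z : ℝ^b → ℝ^k` with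
`a (0,z) (s z u, u) (y, 0) = 0` for all `y`; it is smooth in `z`, equivariant and closed. -/
theorem exists_lift (hB : IsBase b G) (a : V k b → V k b →L[ℝ] V k b →L[ℝ] ℝ)
    (ha : X.Inv2 a) (hc : Closed a) (hv : ∀ v z, a (v, z) = a (0, z))
    (c : R k →L[ℝ] R k →L[ℝ] ℝ) (hcc : X.InvC c) (hac : ∀ x y y', a x (y, 0) (y', 0) = c y y')
    (hk : kerC c = ⊥) :
    ∃ s : R b → R b →L[ℝ] R k, ContDiff ℝ ∞ s ∧
      (∀ x u y, a x (s x.2 u, u) (y, 0) = 0) ∧
      (∀ g z u, s (g • z) (fderiv ℝ (fun z : R b => g • z) z u) =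
        X.L g (s z u) + fderiv ℝ (X.τ g) z u) ∧
      ∀ z u w, fderiv ℝ s z u w = fderiv ℝ s z w u := by
  obtain ⟨e, he⟩ := exists_dualEquiv c hk
  have hform : IsForm a := ha.toIsForm
  -- the mixed part
  let β : R b → R b →L[ℝ] R k →L[ℝ] ℝ := fun z =>
    (a (0, z)).bilinearComp (ContinuousLinearMap.inr ℝ (R k) (R b))
      (ContinuousLinearMap.inl ℝ (R k) (R b))
  have hβ : ∀ z u y, β z u y = a (0, z) (0, u) (y, 0) := fun z u y => rfl
  have hβs : ContDiff ℝ ∞ β := by
    refine contDiff_clm_apply_iff.2 fun u => contDiff_clm_apply_iff.2 fun y => ?_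
    have h1 : ContDiff ℝ ∞ (fun z : R b => a ((0 : R k), z)) :=
      hform.smooth.comp (contDiff_prodMk_right (0 : R k))
    exact ((h1.clm_apply contDiff_const).clm_apply contDiff_const)
  let s : R b → R b →L[ℝ] R k := fun z => -((e.symm : (R k →L[ℝ] ℝ) →L[ℝ] R k).comp (β z))
  have hs : ∀ z u, s z u = - e.symm (β z u) := fun z u => rfl
  have hss : ContDiff ℝ ∞ s := by
    refine (contDiff_const.clm_comp hβs).neg
  have hcs : ∀ z u, c (s z u) = - β z u := by
    intro z u
    rw [← he, hs, map_neg, ContinuousLinearEquiv.apply_symm_apply]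
  have hsplit : ∀ (y : R k) (u : R b), ((y, u) : V k b) = (y, 0) + (0, u) := by
    intro y u; simp
  have h1 : ∀ x u y, a x (s x.2 u, u) (y, 0) = 0 := by
    intro x u y
    rw [hsplit (s x.2 u) u, map_add, ContinuousLinearMap.add_apply, hac, hcs,
      ContinuousLinearMap.neg_apply, hβ, eq_zero_left hv x]
    ring
  refine ⟨s, hss, h1, ?_, ?_⟩
  · intro g z u
    set D := fderiv ℝ (fun z : R b => g • z) z with hD
    set t := X.L g (s z u) + fderiv ℝ (X.τ g) z u with ht
    -- `t` has the defining property of `s (g • z) (D u)`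
    have h2 : ∀ y, a (0, g • z) (t, D u) (y, 0) = 0 := by
      intro y
      have h3 := congrArg (fun T : V k b →L[ℝ] V k b →L[ℝ] ℝ =>
        T (s z u, u) (X.L g⁻¹ y, 0)) (ha.invariant g ((0 : R k), z))
      have h4 : a (X.φ g (0, z)) = a (0, g • z) := by
        rw [eq_zero_left hv (X.φ g (0, z))]; rfl
      simp only [pull2, ContinuousLinearMap.bilinearComp_apply, h4] at h3
      rw [X.fderiv_φ hB, X.fderiv_φ hB] at h3
      simp only [map_zero, add_zero, X.L_apply_inv] at h3
      rw [h1 ((0 : R k), z) u (X.L g⁻¹ y)] at h3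
      exact h3
    have h5 : ∀ y, c t y = - a (0, g • z) (0, D u) (y, 0) := by
      intro y
      have := h2 y
      rw [hsplit t (D u), map_add, ContinuousLinearMap.add_apply, hac] at this
      linarith
    have h6 : c (s (g • z) (D u)) = c t := by
      ext y
      rw [hcs, ContinuousLinearMap.neg_apply, hβ, h5]
    have h7 : e (s (g • z) (D u)) = e t := by rw [he, he, h6]
    exact e.injective h7
  · intro z u w
    -- derivative of `β`
    have hdβ : ∀ (u w : R b) (y : R k), fderiv ℝ β z u w y =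
        fderiv ℝ a (0, z) (0, u) (0, w) (y, 0) := by
      intro u w y
      have hA := hasFDerivAt_right (k := k) hform.smooth z
      have hL : HasFDerivAt (fun z => β z w y)
          (((ContinuousLinearMap.apply ℝ ℝ ((y, 0) : V k b)).comp
            (ContinuousLinearMap.apply ℝ (V k b →L[ℝ] ℝ) ((0, w) : V k b))).comp
            ((fderiv ℝ a (0, z)).comp (ContinuousLinearMap.inr ℝ (R k) (R b)))) z := by
        exact ((ContinuousLinearMap.apply ℝ ℝ ((y, 0) : V k b)).comp
            (ContinuousLinearMap.apply ℝ (V k b →L[ℝ] ℝ) ((0, w) : V k b))).hasFDerivAt.comp z hA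
      have hR : HasFDerivAt (fun z => β z w y)
          (((ContinuousLinearMap.apply ℝ ℝ y).comp
            (ContinuousLinearMap.apply ℝ (R k →L[ℝ] ℝ) w)).comp (fderiv ℝ β z)) z := by
        exact ((ContinuousLinearMap.apply ℝ ℝ y).comp
            (ContinuousLinearMap.apply ℝ (R k →L[ℝ] ℝ) w)).hasFDerivAt.comp z
            ((hβs.differentiable (by simp)) z).hasFDerivAt
      have := congrArg (fun T : R b →L[ℝ] ℝ => T u) (hR.unique hL)
      simpa using this
    have hsym : ∀ y, fderiv ℝ β z u w y = fderiv ℝ β z w u y := by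
      intro y
      rw [hdβ, hdβ]
      have h3 := hc ((0 : R k), z) (0, u) (0, w) (y, 0)
      have h4 := fderiv_vert_eq_zero a hform.smooth hv ((0 : R k), z) y
      rw [h4] at h3
      have h5 := fderiv_alt_sB hform ((0 : R k), z) (0, w) (y, 0) (0, u)
      simp only [ContinuousLinearMap.zero_apply, add_zero] at h3
      linarith
    have hds : ∀ u w : R b, fderiv ℝ s z u w = - e.symm (fderiv ℝ β z u w) := by
      intro u w
      have hd : HasFDerivAt β (fderiv ℝ β z) z := ((hβs.differentiable (by simp)) z).hasFDerivAt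
      have hL : HasFDerivAt (fun z => s z w)
          (-((e.symm : (R k →L[ℝ] ℝ) →L[ℝ] R k).comp
            ((ContinuousLinearMap.apply ℝ (R k →L[ℝ] ℝ) w).comp (fderiv ℝ β z)))) z := by
        have h8 := ((e.symm : (R k →L[ℝ] ℝ) →L[ℝ] R k).comp
            (ContinuousLinearMap.apply ℝ (R k →L[ℝ] ℝ) w)).hasFDerivAt.comp z hd
        exact h8.neg
      have hR : HasFDerivAt (fun z => s z w)
          ((ContinuousLinearMap.apply ℝ (R k) w).comp (fderiv ℝ s z)) z := by
        exact (ContinuousLinearMap.apply ℝ (R k) w).hasFDerivAt.comp z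
            ((hss.differentiable (by simp)) z).hasFDerivAt
      have := congrArg (fun T : R b →L[ℝ] R k => T u) (hR.unique hL)
      simpa using this
    rw [hds, hds]
    congr 2
    ext y
    exact hsym y

/-- The scaling `(y, u) ↦ (t y, u)`. -/
noncomputable def scaleE (t : ℝ) (ht : t ≠ 0) : V k b ≃ₗ[ℝ] V k b :=
  (LinearEquiv.smulOfNeZero ℝ (R k) t ht).prodCongr (LinearEquiv.refl ℝ (R b))

theorem scaleE_apply (t : ℝ) (ht : t ≠ 0) (x : V k b) : scaleE t ht x = (t • x.1, x.2) := rfl

theorem scaleE_symm_apply (t : ℝ) (ht : t ≠ 0) (x : V k b) :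
    (scaleE t ht).symm x = (t⁻¹ • x.1, x.2) := by
  rw [LinearEquiv.symm_apply_eq, scaleE_apply]
  simp [smul_smul, mul_inv_cancel₀ ht]

/-- The unipotent map `(y, u) ↦ (y - s u, u)`. -/
noncomputable def unip (s : R b →L[ℝ] R k) : V k b →L[ℝ] V k b :=
  (ContinuousLinearMap.fst ℝ (R k) (R b) - s.comp (ContinuousLinearMap.snd ℝ (R k) (R b))).prod
    (ContinuousLinearMap.snd ℝ (R k) (R b))

theorem unip_apply (s : R b →L[ℝ] R k) (x : V k b) : unip s x = (x.1 - s x.2, x.2) := rfl

theorem unip_comp (s t : R b →L[ℝ] R k) (x : V k b) :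
    unip s (unip t x) = unip (s + t) x := by
  simp only [unip_apply, Prod.mk.injEq, and_true]
  simp only [_root_.add_apply]
  abel

/-- Unipotent maps have determinant one. -/
theorem det_unip (s : R b →L[ℝ] R k) : (unip s : V k b →L[ℝ] V k b).det = 1 := by
  have h2 : ((unip (s + s) : V k b →L[ℝ] V k b) : V k b →ₗ[ℝ] V k b) =
      (unip s : V k b →L[ℝ] V k b).toLinearMap ∘ₗ (unip s : V k b →L[ℝ] V k b).toLinearMap := by
    ext x <;> simp [unip_apply] <;> ring
  have h3 : ((scaleE (k := k) (b := b) 2 (by norm_num) : V k b ≃ₗ[ℝ] V k b) :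
        V k b →ₗ[ℝ] V k b) ∘ₗ
      (unip s : V k b →L[ℝ] V k b).toLinearMap ∘ₗ
        ((scaleE (k := k) (b := b) 2 (by norm_num)).symm : V k b →ₗ[ℝ] V k b) =
      ((unip (s + s) : V k b →L[ℝ] V k b) : V k b →ₗ[ℝ] V k b) := by
    apply LinearMap.ext
    intro x
    have h := scaleE_symm_apply (k := k) (b := b) 2 (by norm_num) x
    simp only [LinearMap.comp_apply, LinearEquiv.coe_coe, h, ContinuousLinearMap.coe_coe,
      unip_apply, scaleE_apply]
    refine Prod.ext ?_ rfl
    simp only [smul_sub, smul_smul, _root_.add_apply]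
    rw [mul_inv_cancel₀ (by norm_num : (2 : ℝ) ≠ 0), one_smul, two_smul]
  have h4 := LinearMap.det_conj (unip s : V k b →L[ℝ] V k b).toLinearMap
    (scaleE (k := k) (b := b) 2 (by norm_num))
  rw [h3, h2, LinearMap.det_comp] at h4
  have h5 : (unip s : V k b →L[ℝ] V k b).toLinearMap ∘ₗ
      (unip (-s) : V k b →L[ℝ] V k b).toLinearMap = LinearMap.id := by
    ext x <;> simp [unip_apply]
  have h6 := congrArg LinearMap.det h5
  rw [LinearMap.det_comp, LinearMap.det_id] at h6
  have h7 : LinearMap.det (unip s : V k b →L[ℝ] V k b).toLinearMap ≠ 0 := by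
    intro h; rw [h, zero_mul] at h6; exact zero_ne_one h6
  have h8 : LinearMap.det (unip s : V k b →L[ℝ] V k b).toLinearMap = 1 :=
    mul_left_cancel₀ h7 (by rw [h4, mul_one])
  exact h8

/-- The form on the base `g' z u w = a (0,z) (s z u, u) (s z w, w)` is closed and invariant, and
`a x + liftB q` is the pullback of `liftC c + liftB (g' z + q)` by the unipotent map
`(y, u) ↦ (y - s z u, u)` of determinant one. -/
theorem exists_base_form (hB : IsBase b G) (π : Fin n × Fin 2 ≃ Fin k ⊕ Fin b)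
    (a : V k b → V k b →L[ℝ] V k b →L[ℝ] ℝ)
    (ha : X.Inv2 a) (hc : Closed a) (hv : ∀ v z, a (v, z) = a (0, z))
    (c : R k →L[ℝ] R k →L[ℝ] ℝ) (hcc : X.InvC c) (hac : ∀ x y y', a x (y, 0) (y', 0) = c y y')
    (hk : kerC c = ⊥) :
    ∃ γ : R b → R b →L[ℝ] R b →L[ℝ] ℝ, BInv2 G γ ∧ Closed γ ∧
      ∀ (x : V k b) (q : R b →L[ℝ] R b →L[ℝ] ℝ),
        top (fun l => stdV (π l)) (a x + liftB q) =
          top (fun l => stdV (π l)) (liftC c + liftB (γ x.2 + q)) := by
  obtain ⟨s, hs, hs1, hs2, -⟩ := exists_lift X hB a ha hc hv c hcc hac hk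
  have hform : IsForm a := ha.toIsForm
  let S : R b → R b →L[ℝ] V k b := fun z => (s z).prod (ContinuousLinearMap.id ℝ (R b))
  have hS : ∀ z u, S z u = (s z u, u) := fun z u => rfl
  have hSs : ∀ u, ContDiff ℝ ∞ (fun z => S z u) := fun u =>
    (hs.clm_apply contDiff_const).prodMk contDiff_const
  have ha0 : ContDiff ℝ ∞ (fun z : R b => a ((0 : R k), z)) :=
    hform.smooth.comp (contDiff_prodMk_right (0 : R k))
  let γ : R b → R b →L[ℝ] R b →L[ℝ] ℝ := fun z => (a (0, z)).bilinearComp (S z) (S z)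
  have hγ : ∀ z u w, γ z u w = a (0, z) (s z u, u) (s z w, w) := fun z u w => rfl
  have hγs : ContDiff ℝ ∞ γ := by
    refine contDiff_clm_apply_iff.2 fun u => contDiff_clm_apply_iff.2 fun w => ?_
    exact (ha0.clm_apply (hSs u)).clm_apply (hSs w)
  refine ⟨γ, ⟨⟨hγs, fun z u => hform.alt _ _⟩, ?_⟩, ?_, ?_⟩
  · intro g z
    ext u w
    set D := fderiv ℝ (fun z : R b => g • z) z with hD
    have h3 := congrArg (fun T : V k b →L[ℝ] V k b →L[ℝ] ℝ =>
        T (s z u, u) (s z w, w)) (ha.invariant g ((0 : R k), z))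
    have h4 : a (X.φ g (0, z)) = a (0, g • z) := by
      rw [eq_zero_left hv (X.φ g (0, z))]; rfl
    simp only [pull2, ContinuousLinearMap.bilinearComp_apply, h4] at h3
    rw [X.fderiv_φ hB, X.fderiv_φ hB] at h3
    simp only [← hs2] at h3
    simp only [pull2, ContinuousLinearMap.bilinearComp_apply, hγ]
    exact h3
  · -- closedness
    have hdγ : ∀ z u v w, fderiv ℝ γ z u v w = fderiv ℝ a (0, z) (S z u) (S z v) (S z w) := by
      intro z u v w
      have hA := hasFDerivAt_right (k := k) hform.smooth z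
      have hds : HasFDerivAt s (fderiv ℝ s z) z := ((hs.differentiable (by simp)) z).hasFDerivAt
      have hSd : ∀ v, HasFDerivAt (fun z => S z v)
          (((ContinuousLinearMap.apply ℝ (R k) v).comp (fderiv ℝ s z)).prod 0) z := by
        intro v
        have h1 := (ContinuousLinearMap.apply ℝ (R k) v).hasFDerivAt.comp z hds
        exact HasFDerivAt.prodMk h1 (hasFDerivAt_const v z)
      have h2 := (hA.clm_apply (hSd v)).clm_apply (hSd w)
      have hR : HasFDerivAt (fun z => γ z v w)
          (((ContinuousLinearMap.apply ℝ ℝ w).comp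
            (ContinuousLinearMap.apply ℝ (R b →L[ℝ] ℝ) v)).comp (fderiv ℝ γ z)) z := by
        exact ((ContinuousLinearMap.apply ℝ ℝ w).comp
            (ContinuousLinearMap.apply ℝ (R b →L[ℝ] ℝ) v)).hasFDerivAt.comp z
            ((hγs.differentiable (by simp)) z).hasFDerivAt
      have h3 := congrArg (fun T : R b →L[ℝ] ℝ => T u) (hR.unique h2)
      have h4 : ∀ (y : R k) (u : R b), a ((0 : R k), z) (y, 0) (s z u, u) = 0 := by
        intro y u
        rw [alt_swap hform, hs1 ((0 : R k), z) u y, neg_zero]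
      have h5 : ∀ (y : R k) (u : R b), a ((0 : R k), z) (s z u, u) (y, 0) = 0 := fun y u =>
        hs1 ((0 : R k), z) u y
      have h6 : fderiv ℝ a (0, z) ((0 : R k), u) = fderiv ℝ a (0, z) (S z u) := by
        have h7 : S z u = (s z u, 0) + ((0 : R k), u) := by simp [hS]
        rw [h7, map_add, fderiv_vert_eq_zero a hform.smooth hv, zero_add]
      have h8 : fderiv ℝ γ z u v w = a (0, z) (s z v, v) (fderiv ℝ s z u w, 0) +
          (a (0, z) (fderiv ℝ s z u v, 0) (s z w, w) +
            fderiv ℝ a (0, z) (0, u) (s z v, v) (s z w, w)) := h3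
      rw [h8, h4, h5, h6, zero_add, zero_add, hS z v, hS z w]
    intro z u v w
    rw [hdγ, hdγ, hdγ]
    exact hc _ _ _ _
  · intro x q
    obtain ⟨B, hBb⟩ := exists_basisV π
    have hBe : (fun l => stdV (π l)) = (B : Fin n × Fin 2 → V k b) := by
      funext l; rw [hBb]
    rw [hBe]
    have h1 : a x + liftB q =
        (liftC c + liftB (γ x.2 + q)).bilinearComp (unip (s x.2)) (unip (s x.2)) := by
      apply ContinuousLinearMap.ext
      intro X1
      apply ContinuousLinearMap.ext
      intro X2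
      obtain ⟨y, u⟩ := X1
      obtain ⟨y', u'⟩ := X2
      rw [ContinuousLinearMap.bilinearComp_apply, unip_apply, unip_apply]
      simp only [_root_.add_apply, liftC_apply, liftB_apply]
      have h2 : ((y, u) : V k b) = (y - s x.2 u, 0) + (s x.2 u, u) := by simp
      have h3 : ((y', u') : V k b) = (y' - s x.2 u', 0) + (s x.2 u', u') := by simp
      have h4 : ∀ (y : R k) (u : R b), a x (y, 0) (s x.2 u, u) = 0 := by
        intro y u
        rw [alt_swap hform, hs1, neg_zero]
      have h5 : a x (y, u) (y', u') = c (y - s x.2 u) (y' - s x.2 u') +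
          a x (s x.2 u, u) (s x.2 u', u') := by
        rw [h2, h3]
        simp only [map_add, _root_.add_apply, hac, h4, hs1]
        ring
      rw [h5, hγ, eq_zero_left hv x]
      ring
    rw [h1, top_bilinearComp, det_unip, one_mul]

/-- Lifts of invariant forms on the base are invariant forms on `M`. -/
theorem inv1_lift (hB : IsBase b G) (η : R b → R b →L[ℝ] ℝ) (hη : BInv1 G η) :
    X.Inv1 (fun x => (η x.2).comp (ContinuousLinearMap.snd ℝ (R k) (R b))) := by
  refine ⟨?_, fun m v z => rfl, ?_⟩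
  · exact (hη.smooth.comp contDiff_snd).clm_comp contDiff_const
  · intro g x
    ext u <;> simp only [pull1, ContinuousLinearMap.comp_apply]
    · rw [X.fderiv_φ hB]
      simp
    · rw [X.fderiv_φ hB]
      have h := congrArg (fun T : R b →L[ℝ] ℝ => T u) (hη.invariant g x.2)
      simp only [pull1, ContinuousLinearMap.comp_apply] at h
      simpa [Bundle.φ] using h

theorem d1_lift (η : R b → R b →L[ℝ] ℝ) (hη : ContDiff ℝ ∞ η) (x : V k b) :
    d1 (fun x : V k b => (η x.2).comp (ContinuousLinearMap.snd ℝ (R k) (R b))) x =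
      liftB (d1 η x.2) := by
  have h1 : HasFDerivAt (fun x : V k b => η x.2)
      ((fderiv ℝ η x.2).comp (ContinuousLinearMap.snd ℝ (R k) (R b))) x := by
    have h2 := ((hη.differentiable (by simp)) x.2).hasFDerivAt
    exact h2.comp x (ContinuousLinearMap.snd ℝ (R k) (R b)).hasFDerivAt
  have h3 := h1.clm_comp (hasFDerivAt_const (ContinuousLinearMap.snd ℝ (R k) (R b)) x)
  unfold d1
  rw [h3.fderiv]
  apply ContinuousLinearMap.ext
  intro u
  apply ContinuousLinearMap.ext
  intro w
  rw [liftB_apply]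
  simp

theorem inv2_lift (hB : IsBase b G) (q : R b → R b →L[ℝ] R b →L[ℝ] ℝ) (hq : BInv2 G q) :
    X.Inv2 (fun x => liftB (q x.2)) := by
  have hs : ContDiff ℝ ∞ (fun x : V k b => liftB (k := k) (q x.2)) := by
    refine contDiff_clm_apply_iff.2 fun u => contDiff_clm_apply_iff.2 fun w => ?_
    simp only [liftB_apply]
    exact (((hq.smooth.comp contDiff_snd).clm_apply contDiff_const).clm_apply contDiff_const)
  refine ⟨⟨hs, fun x u => by rw [liftB_apply]; exact hq.alt _ _⟩, fun m v z => rfl, ?_⟩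
  intro g x
  apply ContinuousLinearMap.ext
  intro u
  apply ContinuousLinearMap.ext
  intro w
  simp only [pull2, ContinuousLinearMap.bilinearComp_apply, liftB_apply]
  rw [X.fderiv_φ hB, X.fderiv_φ hB]
  have h := congrArg (fun T : R b →L[ℝ] R b →L[ℝ] ℝ => T u.2 w.2) (hq.invariant g x.2)
  simp only [pull2, ContinuousLinearMap.bilinearComp_apply] at h
  exact h

theorem closed_lift (q : R b → R b →L[ℝ] R b →L[ℝ] ℝ) (hq : ContDiff ℝ ∞ q) (hc : Closed q) :
    Closed (fun x : V k b => liftB (k := k) (q x.2)) := by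
  have hs : ContDiff ℝ ∞ (fun x : V k b => liftB (k := k) (q x.2)) := by
    refine contDiff_clm_apply_iff.2 fun u => contDiff_clm_apply_iff.2 fun w => ?_
    simp only [liftB_apply]
    exact (((hq.comp contDiff_snd).clm_apply contDiff_const).clm_apply contDiff_const)
  have h : ∀ x u v w : V k b, fderiv ℝ (fun x : V k b => liftB (k := k) (q x.2)) x u v w =
      fderiv ℝ q x.2 u.2 v.2 w.2 := by
    intro x u v w
    have h1 : HasFDerivAt (fun x : V k b => q x.2)
        ((fderiv ℝ q x.2).comp (ContinuousLinearMap.snd ℝ (R k) (R b))) x := by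
      have h2 := ((hq.differentiable (by simp)) x.2).hasFDerivAt
      exact h2.comp x (ContinuousLinearMap.snd ℝ (R k) (R b)).hasFDerivAt
    have hL : HasFDerivAt (fun x : V k b => liftB (k := k) (q x.2) v w)
        (((ContinuousLinearMap.apply ℝ ℝ w.2).comp
          (ContinuousLinearMap.apply ℝ (R b →L[ℝ] ℝ) v.2)).comp
          ((fderiv ℝ q x.2).comp (ContinuousLinearMap.snd ℝ (R k) (R b)))) x := by
      exact ((ContinuousLinearMap.apply ℝ ℝ w.2).comp
          (ContinuousLinearMap.apply ℝ (R b →L[ℝ] ℝ) v.2)).hasFDerivAt.comp x h1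
    have hR : HasFDerivAt (fun x : V k b => liftB (k := k) (q x.2) v w)
        (((ContinuousLinearMap.apply ℝ ℝ w).comp
          (ContinuousLinearMap.apply ℝ (V k b →L[ℝ] ℝ) v)).comp
          (fderiv ℝ (fun x : V k b => liftB (k := k) (q x.2)) x)) x := by
      exact ((ContinuousLinearMap.apply ℝ ℝ w).comp
          (ContinuousLinearMap.apply ℝ (V k b →L[ℝ] ℝ) v)).hasFDerivAt.comp x
          ((hs.differentiable (by simp)) x).hasFDerivAt
    have := congrArg (fun T : V k b →L[ℝ] ℝ => T u) (hR.unique hL)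
    simpa using this
  intro x u v w
  rw [h, h, h]
  exact hc _ _ _ _

/-- If the fibre part is nondegenerate, then the base action is oriented (`det_eq_one`,
`det_fderiv_φ`). -/
theorem oriented_base (hB : IsBase b G) (hX : X.Oriented) (c : R k →L[ℝ] R k →L[ℝ] ℝ)
    (hcc : X.InvC c) (hk : kerC c = ⊥) : Oriented b G := by
  intro g z
  have hnd : ∀ w, (∀ u, c w u = 0) → w = 0 := by
    intro w hw
    have h1 : w ∈ kerC c := by
      rw [kerC, LinearMap.mem_ker]
      ext u
      exact congrFun (by funext u; exact hw u) _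
    rw [hk] at h1
    exact (Submodule.mem_bot ℝ).1 h1
  have h1 : (X.L g).det = 1 := det_eq_one c hcc.alt hnd (X.L g) (hcc.invariant g)
  have h2 := hX g ((0 : R k), z)
  rw [X.det_fderiv_φ hB, h1, one_mul] at h2
  exact h2

end Pool.Agent.W_9986fc_h15
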