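import Pool.Agent.W_9986fc_h15.Stokes
import Pool.Agent.W_9986fc_h15.PrimB
import Pool.Agent.W_9986fc_h15.StructB

/-!
Assembly of the theorem for a general base.
-/

set_option autoImplicit false
set_option maxSynthPendingDepth 3

open scoped ContDiff Matrix

namespace Pool.Agent.W_9986fc_h15

variable {k b n : ℕ} {G : Type} [Group G] [MulAction G (R b)] (X : Bundle k b G)

theorem d1_add_gen {E : Type*} [NormedAddCommGroup E] [NormedSpace ℝ E] {η η' : E → E →L[ℝ] ℝ}
    (hη : ContDiff ℝ ∞ η) (hη' : ContDiff ℝ ∞ η') (x : E) :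
    d1 (fun x => η x + η' x) x = d1 η x + d1 η' x := by
  have h1 : DifferentiableAt ℝ η x := (hη.differentiable (by simp)).differentiableAt
  have h2 : DifferentiableAt ℝ η' x := (hη'.differentiable (by simp)).differentiableAt
  unfold d1
  rw [fderiv_fun_add h1 h2]
  ext u w
  simp only [_root_.add_apply, _root_.sub_apply,
    ContinuousLinearMap.flip_apply]
  ring

theorem d1_neg {E : Type*} [NormedAddCommGroup E] [NormedSpace ℝ E] {η : E → E →L[ℝ] ℝ}
    (x : E) : d1 (fun x => - η x) x = - d1 η x := by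
  unfold d1
  rw [fderiv_fun_neg]
  ext u w
  simp only [_root_.neg_apply, _root_.sub_apply,
    ContinuousLinearMap.flip_apply]
  ring

theorem Bundle.Inv1.add {X : Bundle k b G} {η η' : V k b → V k b →L[ℝ] ℝ} (h : X.Inv1 η)
    (h' : X.Inv1 η') : X.Inv1 (fun x => η x + η' x) where
  smooth := h.smooth.add h'.smooth
  periodic := fun m v z => by simp only [h.periodic, h'.periodic]
  invariant := fun g x => by
    have h1 := h.invariant g x
    have h2 := h'.invariant g x
    unfold pull1 at *
    rw [ContinuousLinearMap.add_comp, h1, h2]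

theorem Bundle.Inv1.neg {X : Bundle k b G} {η : V k b → V k b →L[ℝ] ℝ} (h : X.Inv1 η) :
    X.Inv1 (fun x => - η x) where
  smooth := h.smooth.neg
  periodic := fun m v z => by simp only [h.periodic]
  invariant := fun g x => by
    have h1 := h.invariant g x
    unfold pull1 at *
    rw [ContinuousLinearMap.neg_comp, h1]

theorem Bundle.Inv2.add {X : Bundle k b G} {α α' : V k b → V k b →L[ℝ] V k b →L[ℝ] ℝ}
    (h : X.Inv2 α) (h' : X.Inv2 α') : X.Inv2 (fun x => α x + α' x) where
  smooth := h.smooth.add h'.smooth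
  alt := fun x u => by simp only [_root_.add_apply, h.alt, h'.alt, add_zero]
  periodic := fun m v z => by simp only [h.periodic, h'.periodic]
  invariant := fun g x => by
    have h1 := h.invariant g x
    have h2 := h'.invariant g x
    rw [← h1, ← h2]
    rfl

theorem Closed.add {E : Type*} [NormedAddCommGroup E] [NormedSpace ℝ E]
    {α α' : E → E →L[ℝ] E →L[ℝ] ℝ} (hα : ContDiff ℝ ∞ α) (hα' : ContDiff ℝ ∞ α')
    (h : Closed α) (h' : Closed α') : Closed (fun x => α x + α' x) := by
  intro x u v w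
  have h1 : DifferentiableAt ℝ α x := (hα.differentiable (by simp)).differentiableAt
  have h2 : DifferentiableAt ℝ α' x := (hα'.differentiable (by simp)).differentiableAt
  have e1 := h x u v w
  have e2 := h' x u v w
  have e3 : fderiv ℝ (fun x => α x + α' x) x = fderiv ℝ α x + fderiv ℝ α' x := fderiv_fun_add h1 h2
  rw [e3]
  simp only [_root_.add_apply]
  linarith

theorem BInv2.add {α α' : R b → R b →L[ℝ] R b →L[ℝ] ℝ}
    (h : BInv2 G α) (h' : BInv2 G α') : BInv2 G (fun x => α x + α' x) where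
  smooth := h.smooth.add h'.smooth
  alt := fun x u => by simp only [_root_.add_apply, h.alt, h'.alt, add_zero]
  invariant := fun g x => by
    have h1 := h.invariant g x
    have h2 := h'.invariant g x
    rw [← h1, ← h2]
    rfl

theorem BInv2.neg {α : R b → R b →L[ℝ] R b →L[ℝ] ℝ}
    (h : BInv2 G α) : BInv2 G (fun x => - α x) where
  smooth := h.smooth.neg
  alt := fun x u => by simp only [_root_.neg_apply, h.alt, neg_zero]
  invariant := fun g x => by
    have h1 := h.invariant g x
    rw [← h1]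
    rfl

theorem Closed.neg {E : Type*} [NormedAddCommGroup E] [NormedSpace ℝ E]
    {α : E → E →L[ℝ] E →L[ℝ] ℝ} (h : Closed α) : Closed (fun x => - α x) := by
  intro x u v w
  have e1 := h x u v w
  have e3 : fderiv ℝ (fun x => - α x) x = - fderiv ℝ α x := fderiv_fun_neg
  rw [e3]
  simp only [_root_.neg_apply]
  linarith

/-- The total integral of a partition of unity over the one point space is positive. -/
theorem IsPart.pos_of_zero [MulAction G (R 0)] {χ : R 0 → ℝ} (hχ : IsPart G χ) :
    0 < ∫ z, χ z := by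
  have h1 : ∫ z, χ z = χ 0 := by
    rw [show χ = fun _ => χ 0 from funext fun z => congrArg χ (Subsingleton.elim z 0)]
    rw [MeasureTheory.integral_const]
    have : (MeasureTheory.volume : MeasureTheory.Measure (R 0)).real Set.univ = 1 := by
      have := Real.volume_Icc_pi (a := (0 : R 0)) (b := 1)
      rw [show (Set.univ : Set (R 0)) = Set.Icc 0 1 from by
        ext z; simp [Subsingleton.elim z 0]]
      rw [MeasureTheory.measureReal_def, this]; simp
    rw [this, one_smul]
  rw [h1]
  by_contra hle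
  have h2 := hχ.sum 0
  have h3 : ∀ g : G, 0 ≤ - χ (g • (0 : R 0)) := by
    intro g
    rw [Subsingleton.elim (g • (0 : R 0)) 0]
    linarith
  have h4 : 0 ≤ ∑ᶠ g : G, - χ (g • (0 : R 0)) := finsum_nonneg h3
  rw [finsum_neg_distrib, h2] at h4
  linarith

/-- The integral of a function which depends only on the base coordinate. -/
theorem fib_snd (F : R b → ℝ) (z : R b) : fib (k := k) (fun x : V k b => F x.2) z = F z := by
  rw [fib_eq_mean, mean_snd]

/-- `c` is the restriction of the class of `α` to the fibres. -/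
def IsFibre (α : V k b → V k b →L[ℝ] V k b →L[ℝ] ℝ) (c : R k →L[ℝ] R k →L[ℝ] ℝ) : Prop :=
  ∀ z y y', mean (fun x => α x (y, 0) (y', 0)) z = c y y'

theorem mean_fderiv_pair (η : V k b → V k b →L[ℝ] ℝ) (hη : X.Inv1 η) (y y' : R k) (z : R b) :
    mean (fun x => fderiv ℝ η x (y, 0) (y', 0)) z = 0 := by
  have h1 := mean_fderiv_vert η hη.smooth hη.periodic y z
  have hcont : Continuous fun x => fderiv ℝ η x (y, 0) :=
    (hη.smooth.continuous_fderiv (by simp)).clm_apply continuous_const
  have h2 := mean_clm (fun _ : R b => ContinuousLinearMap.apply ℝ ℝ ((y', 0) : V k b))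
    (fun x => fderiv ℝ η x (y, 0)) hcont z
  have h3 : mean (fun x => fderiv ℝ η x (y, 0) (y', 0)) z =
      (mean (fun x => fderiv ℝ η x (y, 0)) z) (y', 0) := h2
  rw [h3, h1]
  rfl

theorem isFibre_of (α a : V k b → V k b →L[ℝ] V k b →L[ℝ] ℝ) (η : V k b → V k b →L[ℝ] ℝ)
    (c : R k →L[ℝ] R k →L[ℝ] ℝ) (hη : X.Inv1 η) (hαa : ∀ x, α x = a x + d1 η x)
    (hcv : ∀ x y y', a x (y, 0) (y', 0) = c y y') : IsFibre α c := by
  intro z y y'
  have e1 : (fun x : V k b => α x (y, 0) (y', 0)) =
      fun x => c y y' + (fderiv ℝ η x (y, 0) (y', 0) + (-1 : ℝ) • fderiv ℝ η x (y', 0) (y, 0)) := by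
    funext x
    rw [hαa x]
    show a x (y, 0) (y', 0) + d1 η x (y, 0) (y', 0) = _
    rw [hcv, d1_apply]
    simp [sub_eq_add_neg]
  have hcont : ∀ u w : V k b, Continuous fun x => fderiv ℝ η x u w := fun u w =>
    ((hη.smooth.continuous_fderiv (by simp)).clm_apply continuous_const).clm_apply continuous_const
  have hP : Continuous fun x : V k b => fderiv ℝ η x (y, 0) (y', 0) := hcont _ _
  have hQ : Continuous fun x : V k b => (-1 : ℝ) • fderiv ℝ η x (y', 0) (y, 0) := by
    have h := (hcont (y', 0) (y, 0)).const_smul (-1 : ℝ)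
    exact h
  have e2 := mean_add_fun (fun _ : V k b => c y y')
    (fun x => fderiv ℝ η x (y, 0) (y', 0) + (-1 : ℝ) • fderiv ℝ η x (y', 0) (y, 0))
    continuous_const (hP.add hQ) z
  have e3 := mean_add_fun (fun x : V k b => fderiv ℝ η x (y, 0) (y', 0))
    (fun x => (-1 : ℝ) • fderiv ℝ η x (y', 0) (y, 0)) hP hQ z
  have e4 := mean_smul_snd (fun _ : R b => (-1 : ℝ))
    (fun x : V k b => fderiv ℝ η x (y', 0) (y, 0)) z
  rw [mean_fderiv_pair X η hη, smul_zero] at e4
  rw [mean_fderiv_pair X η hη, e4, add_zero] at e3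
  rw [e3, mean_const, add_zero] at e2
  rw [e1]
  exact e2
/-- Reduction to a constant fibre form, nondegenerate under the hypothesis on `H^1`. -/
theorem reduction (hB : IsBase b G) (hX : X.Oriented)
    (π : Fin n × Fin 2 ≃ Fin k ⊕ Fin b) (χ : R b → ℝ)
    (α : V k b → V k b →L[ℝ] V k b →L[ℝ] ℝ) (hχ : IsPart G χ) (hα : X.Inv2 α) (hc : Closed α)
    (h1 : ∀ c, X.InvC c → IsFibre α c → kerC c ≠ ⊥ → Module.finrank ℝ (kerC c) ≤ b →
      X.H1Zero (kerC c))
    (hpos : 0 < ∫ z, χ z * fib (fun x => top (fun i => stdV (π i)) (α x)) z) :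
    ∃ (a : V k b → V k b →L[ℝ] V k b →L[ℝ] ℝ) (η : V k b → V k b →L[ℝ] ℝ)
      (c : R k →L[ℝ] R k →L[ℝ] ℝ),
      X.Inv2 a ∧ Closed a ∧ (∀ v z, a (v, z) = a (0, z)) ∧ X.Inv1 η ∧
      (∀ x, α x = a x + d1 η x) ∧ X.InvC c ∧ (∀ x y y', a x (y, 0) (y', 0) = c y y') ∧
      kerC c = ⊥ ∧ 0 < ∫ z, χ z * fib (fun x => top (fun i => stdV (π i)) (a x)) z := by
  obtain ⟨a, η, ha, hac, hv, hη, hαa⟩ := exists_mean_form X hB α hα hc
  have hpos' : 0 < ∫ z, χ z * fib (fun x => top (fun i => stdV (π i)) (a x)) z := by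
    rw [← integral_top_add X hB hX hχ π a ha hac η hη]
    simpa only [hαa] using hpos
  obtain ⟨c, hcc, hcv⟩ := exists_fibre_part X hB a ha hac hv
  refine ⟨a, η, c, ha, hac, hv, hη, hαa, hcc, hcv, ?_, hpos'⟩
  by_contra hne
  by_cases hle : Module.finrank ℝ (kerC c) ≤ b
  · obtain ⟨η', hη', h0⟩ := exists_top_eq_zero X hB π a ha hac hv c hcc hcv hne
      (h1 c hcc (isFibre_of X α a η c hη hαa hcv) hne hle)
    rw [← integral_top_add X hB hX hχ π a ha hac η' hη'] at hpos'
    simp only [h0] at hpos'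
    simp [fib] at hpos'
  · have h0 : ∀ x, top (fun i => stdV (π i)) (a x) = 0 := fun x =>
      top_eq_zero_of_large_kernel π (a x) (ha.alt x) c (hcv x) (not_le.mp hle)
    simp only [h0] at hpos'
    simp [fib] at hpos'

/-- The dimension of the base is even if the fibre form is nondegenerate. -/
theorem exists_base_equiv (π : Fin n × Fin 2 ≃ Fin k ⊕ Fin b) (c : R k →L[ℝ] R k →L[ℝ] ℝ)
    (hc : ∀ u, c u u = 0) (hk : kerC c = ⊥) : ∃ m, Nonempty (Fin m × Fin 2 ≃ Fin b) := by
  have hnd : ∀ w, (∀ u, c w u = 0) → w = 0 := by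
    intro w hw
    have : w ∈ kerC c := by
      unfold kerC
      rw [LinearMap.mem_ker]
      ext u
      exact hw u
    rw [hk] at this
    simpa using this
  obtain ⟨r, hr⟩ := even_of_nondegenerate c hc hnd
  have h1 : k = 2 * r := by rw [← hr]; simp
  have h2 := Fintype.card_congr π
  simp only [Fintype.card_prod, Fintype.card_fin, Fintype.card_sum] at h2
  refine ⟨n - r, ⟨Fintype.equivOfCardEq ?_⟩⟩
  simp only [Fintype.card_prod, Fintype.card_fin]
  omega

/-- The orientation of the base which belongs to the orientation `π` of the total space and to the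
fibre form. -/
theorem exists_orientation (π : Fin n × Fin 2 ≃ Fin k ⊕ Fin b) (c : R k →L[ℝ] R k →L[ℝ] ℝ)
    (hc : ∀ u, c u u = 0) (hk : kerC c = ⊥)
    (hb : b = 0 → 0 < top (fun i => stdV (π i)) (liftC c + liftB (b := b) 0)) :
    ∃ (m : ℕ) (π' : Fin m × Fin 2 ≃ Fin b) (K : ℝ), 0 < K ∧
      ∀ q : R b →L[ℝ] R b →L[ℝ] ℝ, (∀ u, q u u = 0) →
      top (fun i => stdV (π i)) (liftC c + liftB q) = K * top (fun i => stdR (π' i)) q := by
  obtain ⟨m, ⟨π'⟩⟩ := exists_base_equiv π c hc hk
  obtain ⟨K, hK0, hK⟩ := exists_const π π' c hc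
  have hK0 := hK0 hk
  rcases lt_or_gt_of_ne hK0 with hneg | hpos
  · rcases Nat.eq_zero_or_pos m with rfl | hm
    · exfalso
      have hb0 : b = 0 := by
        have h2 := Fintype.card_congr π'
        simp only [Fintype.card_prod, Fintype.card_fin] at h2
        omega
      have h3 := hb hb0
      rw [hK 0 (by simp)] at h3
      have h4 : top (fun i => stdR (π' i)) (0 : R b →L[ℝ] R b →L[ℝ] ℝ) = 1 := by
        unfold top
        rw [Finset.sum_eq_single (1 : Equiv.Perm (Fin 0 × Fin 2))]
        · simp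
        · intro σ _ hσ
          exact absurd (Subsingleton.elim σ 1) hσ
        · simp
      rw [h4] at h3
      linarith
    · let i0 : Fin m := ⟨0, hm⟩
      let ρ : Equiv.Perm (Fin m × Fin 2) := Equiv.swap (i0, 0) (i0, 1)
      refine ⟨m, ρ.trans π', -K, by linarith, fun q hq => ?_⟩
      have h5 := top_perm (fun i => stdR (π' i)) q ρ
      have h6 : Equiv.Perm.sign ρ = -1 := Equiv.Perm.sign_swap (by simp)
      rw [h6] at h5
      have h7 : top (fun i => stdR ((ρ.trans π') i)) q = - top (fun i => stdR (π' i)) q := by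
        have : (fun i => stdR ((ρ.trans π') i)) = fun i => stdR (π' (ρ i)) := rfl
        rw [this, h5]
        simp
      rw [h7, hK q hq]
      ring
  · exact ⟨m, π', K, hpos, hK⟩

/-- The base form with the orientation for which its integral is positive. -/
theorem exists_base_data (hB : IsBase b G) (π : Fin n × Fin 2 ≃ Fin k ⊕ Fin b) {χ : R b → ℝ}
    (hχ : IsPart G χ) (a : V k b → V k b →L[ℝ] V k b →L[ℝ] ℝ) (ha : X.Inv2 a) (hc : Closed a)
    (hv : ∀ v z, a (v, z) = a (0, z)) (c : R k →L[ℝ] R k →L[ℝ] ℝ) (hcc : X.InvC c)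
    (hac : ∀ x y y', a x (y, 0) (y', 0) = c y y') (hk : kerC c = ⊥)
    (hpos : 0 < ∫ z, χ z * fib (fun x => top (fun i => stdV (π i)) (a x)) z) :
    ∃ (γ : R b → R b →L[ℝ] R b →L[ℝ] ℝ) (m : ℕ) (π' : Fin m × Fin 2 ≃ Fin b) (K : ℝ),
      BInv2 G γ ∧ Closed γ ∧ 0 < K ∧
      (∀ (x : V k b) (q : R b →L[ℝ] R b →L[ℝ] ℝ), (∀ u, q u u = 0) →
        top (fun l => stdV (π l)) (a x + liftB q) =
          K * top (fun i => stdR (π' i)) (γ x.2 + q)) ∧
      0 < ∫ z, χ z * top (fun i => stdR (π' i)) (γ z) := by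
  obtain ⟨γ, hγ, hγc, hγt⟩ := exists_base_form X hB π a ha hc hv c hcc hac hk
  have h0 : ∀ x : V k b, top (fun l => stdV (π l)) (a x) =
      top (fun l => stdV (π l)) (liftC c + liftB (γ x.2)) := by
    intro x
    have h := hγt x 0
    have hl : (liftB 0 : V k b →L[ℝ] V k b →L[ℝ] ℝ) = 0 := by
      ext u w <;> simp [liftB]
    rwa [hl, add_zero, add_zero] at h
  have hb : b = 0 → 0 < top (fun i => stdV (π i)) (liftC c + liftB (b := b) 0) := by
    intro hb
    subst hb
    have h2 : ∀ x : V k 0, top (fun l => stdV (π l)) (a x) =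
        top (fun l => stdV (π l)) (liftC c + liftB 0) := by
      intro x
      rw [h0 x]
      have hz : γ x.2 = 0 := by
        refine ContinuousLinearMap.ext fun u => ContinuousLinearMap.ext fun w => ?_
        rw [Subsingleton.elim u 0, map_zero]
        rfl
      rw [hz]
    simp only [h2] at hpos
    rw [show (fun z => χ z * fib (fun _ : V k 0 => top (fun l => stdV (π l)) (liftC c + liftB 0)) z) =
      fun z => χ z * top (fun l => stdV (π l)) (liftC c + liftB (b := 0) 0) from by
        funext z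
        rw [fib_eq_mean, mean_const]] at hpos
    rw [MeasureTheory.integral_mul_const] at hpos
    exact (mul_pos_iff_of_pos_left hχ.pos_of_zero).mp hpos
  obtain ⟨m, π', K, hK, hKq⟩ := exists_orientation π c hcc.alt hk hb
  refine ⟨γ, m, π', K, hγ, hγc, hK, ?_, ?_⟩
  · intro x q hq
    rw [hγt x q, hKq]
    intro u
    simp only [_root_.add_apply, hγ.alt, hq, add_zero]
  · have h1 : ∀ z, χ z * fib (fun x => top (fun i => stdV (π i)) (a x)) z =
        K * (χ z * top (fun i => stdR (π' i)) (γ z)) := by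
      intro z
      have : (fun x : V k b => top (fun i => stdV (π i)) (a x)) =
          fun x => K * top (fun i => stdR (π' i)) (γ x.2) := by
        funext x
        rw [h0 x, hKq _ (hγ.alt x.2)]
      rw [this, fib_snd (fun z => K * top (fun i => stdR (π' i)) (γ z)) z]
      ring
    simp only [h1] at hpos
    rw [MeasureTheory.integral_const_mul] at hpos
    exact (mul_pos_iff_of_pos_left hK).mp hpos

end Pool.Agent.W_9986fc_h15
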