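import Pool.Agent.W_9986fc_h15.General

/-!
The theorem for a general base.
-/

set_option autoImplicit false
set_option maxSynthPendingDepth 3

open scoped ContDiff Matrix

namespace Pool.Agent.W_9986fc_h15

variable {k b n : ℕ} {G : Type} [Group G] [MulAction G (R b)] (X : Bundle k b G)

/-- The theorem for a general base, strong form. -/
theorem general_strong (hB : IsBase b G) (hX : X.Oriented) (hS : Oriented b G → StrongB b G)
    (π : Fin n × Fin 2 ≃ Fin k ⊕ Fin b) (χ : R b → ℝ)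
    (α : V k b → V k b →L[ℝ] V k b →L[ℝ] ℝ) (hχ : IsPart G χ) (hα : X.Inv2 α) (hc : Closed α)
    (h1 : ∀ c, X.InvC c → IsFibre α c → kerC c ≠ ⊥ → Module.finrank ℝ (kerC c) ≤ b →
      X.H1Zero (kerC c))
    (hpos : 0 < ∫ z, χ z * fib (fun x => top (fun i => stdV (π i)) (α x)) z) :
    ∃ η, X.Inv1 η ∧ ∀ x, 0 < top (fun i => stdV (π i)) (α x + d1 η x) := by
  obtain ⟨a, η, c, ha, hac, hv, hη, hαa, hcc, hcv, hk, hpos'⟩ :=
    reduction X hB hX π χ α hχ hα hc h1 hpos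
  obtain ⟨γ, m, π', K, hγ, hγc, hK, hKq, hγpos⟩ :=
    exists_base_data X hB π hχ a ha hac hv c hcc hcv hk hpos'
  obtain ⟨μ, hμ, hμpos⟩ := hS (oriented_base X hB hX c hcc hk) m π' χ γ hχ hγ hγc hγpos
  have hl : X.Inv1 (fun x => (μ x.2).comp (ContinuousLinearMap.snd ℝ (R k) (R b))) :=
    inv1_lift X hB μ hμ
  have e1 : X.Inv1 (fun x => -η x + (μ x.2).comp (ContinuousLinearMap.snd ℝ (R k) (R b))) :=
    hη.neg.add hl
  have e2 : ∀ x, 0 < top (fun i => stdV (π i)) (α x +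
      d1 (fun x => -η x + (μ x.2).comp (ContinuousLinearMap.snd ℝ (R k) (R b))) x) := by
    intro x
    have e3 : d1 (fun x => -η x + (μ x.2).comp (ContinuousLinearMap.snd ℝ (R k) (R b))) x =
        -d1 η x + liftB (d1 μ x.2) := by
      rw [← d1_lift μ hμ.smooth x, ← d1_neg]
      exact d1_add_gen hη.neg.smooth hl.smooth x
    have e4 : α x + (-d1 η x + liftB (d1 μ x.2)) = a x + liftB (d1 μ x.2) := by
      rw [hαa x]
      abel
    rw [e3, e4, hKq x (d1 μ x.2) ((isForm_d1 hμ.smooth).alt x.2)]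
    exact mul_pos hK (hμpos x.2)
  exact ⟨fun x => -η x + (μ x.2).comp (ContinuousLinearMap.snd ℝ (R k) (R b)), e1, e2⟩

/-- The theorem for a general base, weak form. -/
theorem general_weak (hB : IsBase b G) (hX : X.Oriented) (hS : Oriented b G → WeakB b G)
    (π : Fin n × Fin 2 ≃ Fin k ⊕ Fin b) (χ : R b → ℝ)
    (α : V k b → V k b →L[ℝ] V k b →L[ℝ] ℝ) (hχ : IsPart G χ) (hα : X.Inv2 α) (hc : Closed α)
    (h1 : ∀ c, X.InvC c → IsFibre α c → kerC c ≠ ⊥ → Module.finrank ℝ (kerC c) ≤ b →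
      X.H1Zero (kerC c))
    (hpos : 0 < ∫ z, χ z * fib (fun x => top (fun i => stdV (π i)) (α x)) z) :
    ∃ s, X.Inv2 s ∧ Closed s ∧ ∀ x, 0 < top (fun i => stdV (π i)) (s x) := by
  obtain ⟨a, η, c, ha, hac, hv, hη, hαa, hcc, hcv, hk, hpos'⟩ :=
    reduction X hB hX π χ α hχ hα hc h1 hpos
  obtain ⟨γ, m, π', K, hγ, hγc, hK, hKq, hγpos⟩ :=
    exists_base_data X hB π hχ a ha hac hv c hcc hcv hk hpos'
  obtain ⟨s, hs, hsc, hspos⟩ := hS (oriented_base X hB hX c hcc hk) m π' χ γ hχ hγ hγc hγpos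
  have hd : BInv2 G (fun z => s z + -γ z) := hs.add hγ.neg
  have hdc : Closed (fun z => s z + -γ z) := Closed.add hs.smooth hγ.neg.smooth hsc (Closed.neg hγc)
  have hl : X.Inv2 (fun x => liftB (s x.2 + -γ x.2)) := inv2_lift X hB (fun z => s z + -γ z) hd
  have hlc : Closed (fun x : V k b => liftB (k := k) (s x.2 + -γ x.2)) :=
    closed_lift (fun z => s z + -γ z) hd.smooth hdc
  have e1 : X.Inv2 (fun x => a x + liftB (s x.2 + -γ x.2)) := ha.add hl
  have e2 : Closed (fun x => a x + liftB (s x.2 + -γ x.2)) := Closed.add ha.smooth hl.smooth hac hlc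
  have e3 : ∀ x, 0 < top (fun i => stdV (π i)) (a x + liftB (s x.2 + -γ x.2)) := by
    intro x
    rw [hKq x (s x.2 + -γ x.2) (hd.alt x.2)]
    have e4 : γ x.2 + (s x.2 + -γ x.2) = s x.2 := by abel
    rw [e4]
    exact mul_pos hK (hspos x.2)
  exact ⟨fun x => a x + liftB (s x.2 + -γ x.2), e1, e2, e3⟩

theorem strongM_of (hB : IsBase b G) (hX : X.Oriented) (hS : Oriented b G → StrongB b G)
    (h1 : ∀ c, X.InvC c → kerC c ≠ ⊥ → Module.finrank ℝ (kerC c) ≤ b → X.H1Zero (kerC c)) :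
    StrongM X := fun _ π χ α hχ hα hc hpos =>
    general_strong X hB hX hS π χ α hχ hα hc (fun c hcc _ => h1 c hcc) hpos

theorem weakM_of (hB : IsBase b G) (hX : X.Oriented) (hS : Oriented b G → WeakB b G)
    (h1 : ∀ c, X.InvC c → kerC c ≠ ⊥ → Module.finrank ℝ (kerC c) ≤ b → X.H1Zero (kerC c)) :
    WeakM X := fun _ π χ α hχ hα hc hpos =>
    general_weak X hB hX hS π χ α hχ hα hc (fun c hcc _ => h1 c hcc) hpos

end Pool.Agent.W_9986fc_h15
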