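import Pool.Agent.W_9986fc_h15.Cube

/-!
Periodic closed forms on `ℝ^k × ℝ^b` are cohomologous to their means.
-/

set_option autoImplicit false
set_option maxSynthPendingDepth 3

open scoped ContDiff Matrix

namespace Pool.Agent.W_9986fc_h15

section General

variable {E : Type*} [NormedAddCommGroup E] [NormedSpace ℝ E]

/-- Derivative of an evaluation. -/
theorem fderiv_eval {H : Type*} [NormedAddCommGroup H] [NormedSpace ℝ H] {F : E → E →L[ℝ] H}
    (hF : Differentiable ℝ F) (e x u : E) :
    fderiv ℝ (fun y => F y e) x u = fderiv ℝ F x u e := by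
  have h1 : HasFDerivAt (fun y => F y e)
      ((ContinuousLinearMap.apply ℝ H e).comp (fderiv ℝ F x)) x :=
    (ContinuousLinearMap.apply ℝ H e).hasFDerivAt.comp x (hF x).hasFDerivAt
  rw [h1.fderiv]
  rfl

theorem wavg_zero (w : ℝ → ℝ) (e x : E) : wavg w e (fun _ => (0 : ℝ)) x = 0 := by
  unfold wavg
  simp

theorem avg_zero (e x : E) : avg e (fun _ => (0 : ℝ)) x = 0 := by
  unfold avg
  simp

/-- The primitive of a closed 2-form in the direction `e`. -/
noncomputable def primForm (e : E) (α : E → E →L[ℝ] E →L[ℝ] ℝ) (x : E) : E →L[ℝ] ℝ :=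
  prim e α x e

/-- The derivative of a form is alternating. -/
theorem IsForm.fderiv_swap {α : E → E →L[ℝ] E →L[ℝ] ℝ} (hα : IsForm α) (x u v w : E) :
    fderiv ℝ α x u v w = - fderiv ℝ α x u w v := by
  have hd : Differentiable ℝ α := hα.smooth.differentiable (by simp)
  have h0 : ∀ a, fderiv ℝ α x u a a = 0 := by
    intro a
    have h1 : HasFDerivAt (fun y => α y a a)
        ((ContinuousLinearMap.apply ℝ ℝ a).comp
          ((ContinuousLinearMap.apply ℝ (E →L[ℝ] ℝ) a).comp (fderiv ℝ α x))) x :=
      (ContinuousLinearMap.apply ℝ ℝ a).hasFDerivAt.comp x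
        ((ContinuousLinearMap.apply ℝ (E →L[ℝ] ℝ) a).hasFDerivAt.comp x (hd x).hasFDerivAt)
    have h2 : (fun y => α y a a) = fun _ => (0 : ℝ) := by
      funext y
      exact hα.alt y a
    rw [h2] at h1
    have h3 := h1.unique (hasFDerivAt_const (0 : ℝ) x)
    have h4 := congrArg (fun T : E →L[ℝ] ℝ => T u) h3
    simpa using h4
  have h1 := h0 (v + w)
  have h2 := h0 v
  have h3 := h0 w
  simp only [map_add, _root_.add_apply] at h1
  linarith

/-- For a closed form with the period `e`: `α - avg e α = d (primForm e α)`. Proof: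
`fderiv (primForm e α) x u w = prim e (fderiv α) x u e w`; by closedness and alternation
`fderiv α y u e w - fderiv α y w e u = fderiv α y e u w`, and `fderiv_prim_self`. -/
theorem d1_primForm (e : E) (α : E → E →L[ℝ] E →L[ℝ] ℝ) (hα : IsForm α) (hc : Closed α)
    (hper : ∀ x, α (x + e) = α x) (x : E) : d1 (primForm e α) x = α x - avg e α x := by
  have hp : Differentiable ℝ (prim e α) := (contDiff_prim e α hα.smooth).differentiable (by simp)
  have hsmooth' : ContDiff ℝ ∞ (fderiv ℝ α) := hα.smooth.fderiv_right (by simp)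
  have key : ∀ u w, fderiv ℝ (prim e α) x u e w - fderiv ℝ (prim e α) x w e u =
      fderiv ℝ (prim e α) x e u w := by
    intro u w
    rw [fderiv_prim e α hα.smooth x]
    let T : (E →L[ℝ] E →L[ℝ] E →L[ℝ] ℝ) →L[ℝ] ℝ :=
      (ContinuousLinearMap.apply ℝ ℝ w).comp ((ContinuousLinearMap.apply ℝ (E →L[ℝ] ℝ) e).comp
        (ContinuousLinearMap.apply ℝ (E →L[ℝ] E →L[ℝ] ℝ) u)) -
      (ContinuousLinearMap.apply ℝ ℝ u).comp ((ContinuousLinearMap.apply ℝ (E →L[ℝ] ℝ) e).comp
        (ContinuousLinearMap.apply ℝ (E →L[ℝ] E →L[ℝ] ℝ) w)) -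
      (ContinuousLinearMap.apply ℝ ℝ w).comp ((ContinuousLinearMap.apply ℝ (E →L[ℝ] ℝ) u).comp
        (ContinuousLinearMap.apply ℝ (E →L[ℝ] E →L[ℝ] ℝ) e))
    have hT : ∀ D, T D = D u e w - D w e u - D e u w := fun D => rfl
    have h1 := wavg_clm T (fun t => t - 1 / 2) (by fun_prop) e (fderiv ℝ α) hsmooth'.continuous x
    have h2 : (fun y => T (fderiv ℝ α y)) = fun _ => (0 : ℝ) := by
      funext y
      rw [hT]
      have h3 := hc y u e w
      have h4 := hα.fderiv_swap y w e u
      have h5 := hα.fderiv_swap y e u w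
      linarith
    rw [h2] at h1
    have h3 : wavg (fun t => t - 1 / 2) e (fun _ => (0 : ℝ)) x = 0 := by
      unfold wavg
      simp
    rw [h3, hT, wavg_prim] at h1
    linarith
  have hself := fderiv_prim_self e α hα.smooth hper x
  ext u w
  have h1 : ∀ u, fderiv ℝ (primForm e α) x u = fderiv ℝ (prim e α) x u e := fun u =>
    fderiv_eval hp e x u
  have h2 : d1 (primForm e α) x u w =
      fderiv ℝ (primForm e α) x u w - fderiv ℝ (primForm e α) x w u := rfl
  rw [h2, h1, h1, key, hself]

theorem isForm_avg (e : E) (α : E → E →L[ℝ] E →L[ℝ] ℝ) (hα : IsForm α) : IsForm (avg e α) := by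
  refine ⟨contDiff_avg e α hα.smooth, fun x u => ?_⟩
  have h1 := wavg_clm ((ContinuousLinearMap.apply ℝ ℝ u).comp
    (ContinuousLinearMap.apply ℝ (E →L[ℝ] ℝ) u)) (fun _ => 1) continuous_const e α
    hα.smooth.continuous x
  have h2 : (fun y => ((ContinuousLinearMap.apply ℝ ℝ u).comp
    (ContinuousLinearMap.apply ℝ (E →L[ℝ] ℝ) u)) (α y)) = fun _ => (0 : ℝ) := by
    funext y
    exact hα.alt y u
  rw [h2, wavg_zero, wavg_one] at h1
  exact h1.symm

theorem closed_avg (e : E) (α : E → E →L[ℝ] E →L[ℝ] ℝ) (hα : IsForm α) (hc : Closed α) :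
    Closed (avg e α) := by
  intro x u v w
  have hsmooth' : ContDiff ℝ ∞ (fderiv ℝ α) := hα.smooth.fderiv_right (by simp)
  rw [fderiv_avg e α hα.smooth x]
  let T : (E →L[ℝ] E →L[ℝ] E →L[ℝ] ℝ) →L[ℝ] ℝ :=
    (ContinuousLinearMap.apply ℝ ℝ w).comp ((ContinuousLinearMap.apply ℝ (E →L[ℝ] ℝ) v).comp
      (ContinuousLinearMap.apply ℝ (E →L[ℝ] E →L[ℝ] ℝ) u)) +
    (ContinuousLinearMap.apply ℝ ℝ u).comp ((ContinuousLinearMap.apply ℝ (E →L[ℝ] ℝ) w).comp
      (ContinuousLinearMap.apply ℝ (E →L[ℝ] E →L[ℝ] ℝ) v)) +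
    (ContinuousLinearMap.apply ℝ ℝ v).comp ((ContinuousLinearMap.apply ℝ (E →L[ℝ] ℝ) u).comp
      (ContinuousLinearMap.apply ℝ (E →L[ℝ] E →L[ℝ] ℝ) w))
  have hT : ∀ D, T D = D u v w + D v w u + D w u v := fun D => rfl
  have h1 := wavg_clm T (fun _ => 1) continuous_const e (fderiv ℝ α) hsmooth'.continuous x
  have h2 : (fun y => T (fderiv ℝ α y)) = fun _ => (0 : ℝ) := by
    funext y
    rw [hT]
    exact hc y u v w
  rw [h2, wavg_zero, hT, wavg_one] at h1
  exact h1.symm

theorem contDiff_primForm (e : E) (α : E → E →L[ℝ] E →L[ℝ] ℝ) (hα : IsForm α) :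
    ContDiff ℝ ∞ (primForm e α) :=
  (contDiff_prim e α hα.smooth).clm_apply contDiff_const

/-- The analogue for closed 1-forms. -/
theorem fderiv_prim_one (e : E) (θ : E → E →L[ℝ] ℝ) (hθ : ContDiff ℝ ∞ θ)
    (hc : ∀ x u w, fderiv ℝ θ x u w = fderiv ℝ θ x w u) (hper : ∀ x, θ (x + e) = θ x) (x : E) :
    fderiv ℝ (fun y => prim e θ y e) x = θ x - avg e θ x := by
  have hp : Differentiable ℝ (prim e θ) := (contDiff_prim e θ hθ).differentiable (by simp)
  have hsmooth' : ContDiff ℝ ∞ (fderiv ℝ θ) := hθ.fderiv_right (by simp)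
  ext u
  rw [fderiv_eval hp, ← fderiv_prim_self e θ hθ hper x, fderiv_prim e θ hθ x]
  let T : (E →L[ℝ] E →L[ℝ] ℝ) →L[ℝ] ℝ :=
    (ContinuousLinearMap.apply ℝ ℝ e).comp (ContinuousLinearMap.apply ℝ (E →L[ℝ] ℝ) u) -
    (ContinuousLinearMap.apply ℝ ℝ u).comp (ContinuousLinearMap.apply ℝ (E →L[ℝ] ℝ) e)
  have hT : ∀ D, T D = D u e - D e u := fun D => rfl
  have h1 := wavg_clm T (fun t => t - 1 / 2) (by fun_prop) e (fderiv ℝ θ) hsmooth'.continuous x
  have h2 : (fun y => T (fderiv ℝ θ y)) = fun _ => (0 : ℝ) := by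
    funext y
    rw [hT, hc y u e, sub_self]
  rw [h2] at h1
  have h3 : wavg (fun t => t - 1 / 2) e (fun _ => (0 : ℝ)) x = 0 := by
    unfold wavg
    simp
  rw [h3, hT, wavg_prim] at h1
  linarith

end General

variable {k b : ℕ}

/-- The mean of the derivative of a periodic function of mean zero is zero. -/
theorem mean_fderiv_zero {H : Type*} [NormedAddCommGroup H] [NormedSpace ℝ H] [CompleteSpace H]
    (F : V k b → H) (hF : ContDiff ℝ ∞ F) (hper : Per F) (hm : ∀ z, mean F z = 0) (z : R b)
    (u : V k b) : mean (fun x => fderiv ℝ F x u) z = 0 := by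
  have hsmooth' : ContDiff ℝ ∞ (fderiv ℝ F) := hF.fderiv_right (by simp)
  have h1 : (fun x => fderiv ℝ F x u) =
      fun x => fderiv ℝ F x (u.1, 0) + fderiv ℝ F x (0, u.2) := by
    funext x
    rw [← map_add]
    congr 1
    ext <;> simp
  rw [h1, mean_add_fun _ _ (hsmooth'.continuous.clm_apply continuous_const)
    (hsmooth'.continuous.clm_apply continuous_const), mean_fderiv_vert F hF hper, zero_add,
    ← fderiv_mean F hF z u.2]
  have h2 : (mean F : R b → H) = fun _ => 0 := funext hm
  rw [h2]
  simp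

theorem per_avg_mem {H : Type*} [NormedAddCommGroup H] [NormedSpace ℝ H] [CompleteSpace H]
    (w : ℝ → ℝ) (e : V k b) (F : V k b → H) (hF : Per F) : Per (wavg w e F) := by
  rw [per_iff]
  intro m x
  exact wavg_add w e F _ (fun y => (per_iff F).1 hF m y) x

/-- Invariance under all vertical basis translations gives invariance in the fibre. -/
theorem fibre_inv {H : Type*} (F : V k b → H)
    (h : ∀ i : Fin k, ∀ (s : ℝ) x, F (x + s • vert (Pi.single i 1)) = F x) (v : R k) (z : R b) :
    F (v, z) = F (0, z) := by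
  have key : ∀ S : Finset (Fin k),
      F (∑ i ∈ S, v i • (Pi.single i (1 : ℝ) : R k), z) = F (0, z) := by
    intro S
    induction S using Finset.induction_on with
    | empty => simp
    | insert j S hj ih =>
      have h1 := h j (v j) (∑ i ∈ S, v i • (Pi.single i (1 : ℝ) : R k), z)
      rw [ih] at h1
      rw [Finset.sum_insert hj, ← h1]
      congr 1
      refine Prod.ext ?_ ?_
      · simp [vert, add_comm]
      · simp [vert]
  have h1 := key Finset.univ
  have h2 : ∑ i, v i • (Pi.single i (1 : ℝ) : R k) = v := by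
    ext j
    simp [Finset.sum_apply, Pi.single_apply]
  rw [h2] at h1
  exact h1

theorem vert_single_period {H : Type*} [NormedAddCommGroup H] [NormedSpace ℝ H]
    [CompleteSpace H] {F : V k b → H} (hF : Per F) (i : Fin k) (x : V k b) :
    F (x + vert (Pi.single i 1)) = F x := by
  have h1 := (per_iff F).1 hF (Pi.single i 1) x
  have h2 : intV (Pi.single i 1 : Fin k → ℤ) = Pi.single i 1 := by
    ext j
    by_cases h : j = i
    · subst h; simp [intV]
    · simp [intV, h]
  rw [h2] at h1
  exact h1

/-- A periodic closed 2-form is the sum of its mean (a closed form which does not depend on the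
fibre coordinate) and of `d1 η` for a periodic `η` of mean zero. Proof: apply `d1_primForm`
successively to the `k` vectors `stdV (Sum.inl j)`; after the step `j` the form is invariant under
the translations in the directions `stdV (Sum.inl i)`, `i ≤ j`. The mean of `η` is zero by
`mean_prim`; the mean of `d1 η` is then zero, so the invariant form is the mean of `α`. -/
theorem exists_primitive_two (α : V k b → V k b →L[ℝ] V k b →L[ℝ] ℝ) (hα : IsForm α)
    (hc : Closed α) (hper : Per α) :
    ∃ (a : V k b → V k b →L[ℝ] V k b →L[ℝ] ℝ) (η : V k b → V k b →L[ℝ] ℝ),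
      IsForm a ∧ Closed a ∧ (∀ x, a x = mean α x.2) ∧
      ContDiff ℝ ∞ η ∧ Per η ∧ (∀ z, mean η z = 0) ∧ ∀ x, α x = a x + d1 η x := by
  have key : ∀ S : Finset (Fin k), ∃ (a : V k b → V k b →L[ℝ] V k b →L[ℝ] ℝ)
      (η : V k b → V k b →L[ℝ] ℝ), IsForm a ∧ Closed a ∧ Per a ∧
      (∀ i ∈ S, ∀ (s : ℝ) x, a (x + s • vert (Pi.single i 1)) = a x) ∧
      ContDiff ℝ ∞ η ∧ Per η ∧ (∀ z, mean η z = 0) ∧ ∀ x, α x = a x + d1 η x := by
    intro S
    induction S using Finset.induction_on with
    | empty =>
      refine ⟨α, fun _ => 0, hα, hc, hper, by simp, contDiff_const, fun _ _ _ => rfl,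
        fun z => mean_const 0 z, fun x => ?_⟩
      have : d1 (fun _ : V k b => (0 : V k b →L[ℝ] ℝ)) x = 0 := by
        unfold d1
        simp
      rw [this, add_zero]
    | insert j S hj ih =>
      obtain ⟨a, η, ha, hac, hap, hai, hη, hηp, hηm, hsum⟩ := ih
      have hpj : ∀ x, a (x + vert (Pi.single j 1)) = a x := vert_single_period hap j
      refine ⟨avg (vert (Pi.single j 1)) a, fun x => η x + primForm (vert (Pi.single j 1)) a x,
        isForm_avg _ _ ha, closed_avg _ _ ha hac, ?_, ?_, hη.add (contDiff_primForm _ _ ha), ?_,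
        ?_, ?_⟩
      · rw [← wavg_one]
        exact per_avg_mem _ _ _ hap
      · intro i hi s x
        rcases Finset.mem_insert.1 hi with rfl | hi
        · exact avg_add_smul _ _ ha.smooth.continuous hpj x s
        · rw [← wavg_one]
          exact wavg_add _ _ _ _ (fun y => hai i hi s y) x
      · intro m v z
        have h1 := per_avg_mem (fun t => t - 1 / 2) (vert (Pi.single j 1)) a hap m v z
        rw [wavg_prim] at h1
        show η (v + intV m, z) + primForm _ a (v + intV m, z) = η (v, z) + primForm _ a (v, z)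
        rw [hηp m v z]
        unfold primForm
        rw [h1]
      · intro z
        have hpc : Continuous (primForm (vert (Pi.single j 1)) a) :=
          (contDiff_primForm _ _ ha).continuous
        rw [mean_add_fun _ _ hη.continuous hpc, hηm, zero_add]
        have h1 := mean_clm (fun _ : R b => ContinuousLinearMap.apply ℝ (V k b →L[ℝ] ℝ)
          (vert (Pi.single j 1) : V k b)) (prim (vert (Pi.single j 1)) a)
          (contDiff_prim _ _ ha.smooth).continuous z
        rw [mean_prim a ha.smooth.continuous hap, map_zero] at h1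
        exact h1
      · intro x
        have h1 : d1 (fun x => η x + primForm (vert (Pi.single j 1)) a x) x =
            d1 η x + d1 (primForm (vert (Pi.single j 1)) a) x := by
          have hd1 : DifferentiableAt ℝ η x := hη.differentiable (by simp) x
          have hd2 : DifferentiableAt ℝ (primForm (vert (Pi.single j 1)) a) x :=
            (contDiff_primForm _ _ ha).differentiable (by simp) x
          unfold d1
          rw [fderiv_fun_add hd1 hd2]
          refine ContinuousLinearMap.ext fun u => ContinuousLinearMap.ext fun w => ?_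
          simp only [_root_.add_apply, _root_.sub_apply, ContinuousLinearMap.flip_apply]
          ring
        rw [h1, d1_primForm _ _ ha hac hpj, hsum x]
        abel
  obtain ⟨a, η, ha, hac, hap, hai, hη, hηp, hηm, hsum⟩ := key Finset.univ
  refine ⟨a, η, ha, hac, ?_, hη, hηp, hηm, hsum⟩
  intro x
  have hinv : ∀ x : V k b, a x = a (0, x.2) := fun x =>
    fibre_inv a (fun i s y => hai i (Finset.mem_univ i) s y) x.1 x.2
  have h1 : mean a x.2 = a x := by
    have h2 : a = fun x : V k b => a (0, x.2) := funext hinv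
    rw [h2, mean_snd (fun z => a (0, z))]
  have hη' : ContDiff ℝ ∞ (fderiv ℝ η) := hη.fderiv_right (by simp)
  have hd : Continuous (d1 η) := by
    have h3 : d1 η = fun x => fderiv ℝ η x -
        ContinuousLinearMap.flipₗᵢ ℝ (V k b) (V k b) ℝ (fderiv ℝ η x) := rfl
    rw [h3]
    exact hη'.continuous.sub
      ((ContinuousLinearMap.flipₗᵢ ℝ (V k b) (V k b) ℝ).continuous.comp hη'.continuous)
  have h2 : mean α x.2 = mean a x.2 + mean (d1 η) x.2 := by
    rw [← mean_add_fun a (d1 η) ha.smooth.continuous hd]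
    congr 1
    exact funext hsum
  have h3 : mean (d1 η) x.2 = 0 := by
    refine ContinuousLinearMap.ext fun u => ContinuousLinearMap.ext fun w => ?_
    have h4 := mean_clm (fun _ : R b => (ContinuousLinearMap.apply ℝ ℝ w).comp
      (ContinuousLinearMap.apply ℝ (V k b →L[ℝ] ℝ) u)) (d1 η) hd x.2
    have h5 : mean (fun x => d1 η x u w) x.2 = mean (d1 η) x.2 u w := h4
    have hz : ∀ u w : V k b, mean (fun x => fderiv ℝ η x u w) x.2 = 0 := by
      intro u w
      have h6 := mean_clm (fun _ : R b => ContinuousLinearMap.apply ℝ ℝ w)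
        (fun x => fderiv ℝ η x u) (hη'.continuous.clm_apply continuous_const) x.2
      rw [mean_fderiv_zero η hη hηp hηm] at h6
      simpa using h6
    have hcu : ∀ u w : V k b, Continuous fun x => fderiv ℝ η x u w := fun u w =>
      (hη'.continuous.clm_apply continuous_const).clm_apply continuous_const
    have h7 : mean (fun x => d1 η x u w) x.2 = 0 := by
      have h8 : (fun x => d1 η x u w) =
          fun x => fderiv ℝ η x u w + (-1 : ℝ) • fderiv ℝ η x w u := by
        funext y
        have : d1 η y u w = fderiv ℝ η y u w - fderiv ℝ η y w u := rfl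
        rw [this]
        simp
        ring
      have hcw : Continuous fun x => (-1 : ℝ) • fderiv ℝ η x w u := by
        show Continuous ((-1 : ℝ) • fun x => fderiv ℝ η x w u)
        exact (hcu w u).const_smul _
      rw [h8, mean_add_fun _ _ (hcu u w) hcw, hz u w,
        mean_smul_snd (fun _ => (-1 : ℝ)) (fun x => fderiv ℝ η x w u), hz w u]
      simp
    rw [← h5, h7]
    rfl
  rw [h2, h3, add_zero, h1]

/-- A periodic closed 1-form of mean zero is the differential of a periodic function of mean
zero. -/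
theorem exists_primitive_one (θ : V k b → V k b →L[ℝ] ℝ) (hθ : ContDiff ℝ ∞ θ)
    (hc : ∀ x u w, fderiv ℝ θ x u w = fderiv ℝ θ x w u) (hper : Per θ)
    (hm : ∀ z, mean θ z = 0) :
    ∃ h : V k b → ℝ, ContDiff ℝ ∞ h ∧ Per h ∧ (∀ z, mean h z = 0) ∧ ∀ x, fderiv ℝ h x = θ x := by
  have key : ∀ S : Finset (Fin k), ∃ (a : V k b → V k b →L[ℝ] ℝ)
      (h : V k b → ℝ), ContDiff ℝ ∞ a ∧ (∀ x u w, fderiv ℝ a x u w = fderiv ℝ a x w u) ∧ Per a ∧
      (∀ i ∈ S, ∀ (s : ℝ) x, a (x + s • vert (Pi.single i 1)) = a x) ∧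
      ContDiff ℝ ∞ h ∧ Per h ∧ (∀ z, mean h z = 0) ∧ ∀ x, θ x = a x + fderiv ℝ h x := by
    intro S
    induction S using Finset.induction_on with
    | empty =>
      refine ⟨θ, fun _ => 0, hθ, hc, hper, by simp, contDiff_const, fun _ _ _ => rfl,
        fun z => mean_const 0 z, fun x => ?_⟩
      simp
    | insert j S hj ih =>
      obtain ⟨a, h, ha, hac, hap, hai, hh, hhp, hhm, hsum⟩ := ih
      have hpj : ∀ x, a (x + vert (Pi.single j 1)) = a x := vert_single_period hap j
      have hps : ContDiff ℝ ∞ (fun y : V k b => prim (vert (Pi.single j 1)) a y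
          (vert (Pi.single j 1))) :=
        (contDiff_prim _ a ha).clm_apply contDiff_const
      refine ⟨avg (vert (Pi.single j 1)) a, fun x => h x + prim (vert (Pi.single j 1)) a x
          (vert (Pi.single j 1)),
        contDiff_avg _ _ ha, ?_, ?_, ?_, hh.add hps, ?_,
        ?_, ?_⟩
      · intro x u w
        rw [fderiv_avg _ a ha x]
        have hsmooth' : ContDiff ℝ ∞ (fderiv ℝ a) := ha.fderiv_right (by simp)
        let T : (V k b →L[ℝ] V k b →L[ℝ] ℝ) →L[ℝ] ℝ :=
          (ContinuousLinearMap.apply ℝ ℝ w).comp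
            (ContinuousLinearMap.apply ℝ (V k b →L[ℝ] ℝ) u) -
          (ContinuousLinearMap.apply ℝ ℝ u).comp (ContinuousLinearMap.apply ℝ (V k b →L[ℝ] ℝ) w)
        have hT : ∀ D, T D = D u w - D w u := fun D => rfl
        have h1 := wavg_clm T (fun _ => 1) continuous_const (vert (Pi.single j 1)) (fderiv ℝ a)
          hsmooth'.continuous x
        have h2 : (fun y => T (fderiv ℝ a y)) = fun _ => (0 : ℝ) := by
          funext y
          rw [hT, hac y u w, sub_self]
        rw [h2, wavg_zero, hT, wavg_one] at h1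
        linarith
      · rw [← wavg_one]
        exact per_avg_mem _ _ _ hap
      · intro i hi s x
        rcases Finset.mem_insert.1 hi with rfl | hi
        · exact avg_add_smul _ _ ha.continuous hpj x s
        · rw [← wavg_one]
          exact wavg_add _ _ _ _ (fun y => hai i hi s y) x
      · intro m v z
        have h1 := per_avg_mem (fun t => t - 1 / 2) (vert (Pi.single j 1)) a hap m v z
        rw [wavg_prim] at h1
        show h (v + intV m, z) + prim _ a (v + intV m, z) _ = h (v, z) + prim _ a (v, z) _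
        rw [hhp m v z, h1]
      · intro z
        rw [mean_add_fun _ _ hh.continuous hps.continuous, hhm, zero_add]
        have h1 := mean_clm (fun _ : R b => ContinuousLinearMap.apply ℝ ℝ
          (vert (Pi.single j 1) : V k b)) (prim (vert (Pi.single j 1)) a)
          (contDiff_prim _ _ ha).continuous z
        rw [mean_prim a ha.continuous hap] at h1
        simpa using h1
      · intro x
        have hd1 : DifferentiableAt ℝ h x := hh.differentiable (by simp) x
        have hd2 : DifferentiableAt ℝ (fun y : V k b => prim (vert (Pi.single j 1)) a y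
          (vert (Pi.single j 1))) x := hps.differentiable (by simp) x
        rw [fderiv_fun_add hd1 hd2, fderiv_prim_one _ _ ha hac hpj, hsum x]
        abel
  obtain ⟨a, h, ha, hac, hap, hai, hh, hhp, hhm, hsum⟩ := key Finset.univ
  refine ⟨h, hh, hhp, hhm, ?_⟩
  intro x
  have hinv : ∀ x : V k b, a x = a (0, x.2) := fun x =>
    fibre_inv a (fun i s y => hai i (Finset.mem_univ i) s y) x.1 x.2
  have h1 : mean a x.2 = a x := by
    have h2 : a = fun x : V k b => a (0, x.2) := funext hinv
    rw [h2, mean_snd (fun z => a (0, z))]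
  have hh' : ContDiff ℝ ∞ (fderiv ℝ h) := hh.fderiv_right (by simp)
  have h2 : mean θ x.2 = mean a x.2 + mean (fderiv ℝ h) x.2 := by
    rw [← mean_add_fun a (fderiv ℝ h) ha.continuous hh'.continuous]
    congr 1
    exact funext hsum
  have h3 : mean (fderiv ℝ h) x.2 = 0 := by
    refine ContinuousLinearMap.ext fun u => ?_
    have h6 := mean_clm (fun _ : R b => ContinuousLinearMap.apply ℝ ℝ u)
      (fun x => fderiv ℝ h x) hh'.continuous x.2
    have h7 : mean (fun x => fderiv ℝ h x u) x.2 = mean (fderiv ℝ h) x.2 u := h6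
    rw [← h7, mean_fderiv_zero h hh hhp hhm]
    rfl
  rw [hm, h3, add_zero, h1] at h2
  rw [hsum x, ← h2, zero_add]

/-- Uniqueness. -/
theorem eq_of_fderiv_eq (h h' : V k b → ℝ) (hh : ContDiff ℝ ∞ h) (hh' : ContDiff ℝ ∞ h')
    (hm : ∀ z, mean h z = 0) (hm' : ∀ z, mean h' z = 0) (hd : ∀ x, fderiv ℝ h x = fderiv ℝ h' x) :
    h = h' := by
  have h1 : ∀ x, h x - h' x = h 0 - h' 0 := by
    have hdiff : Differentiable ℝ (fun x => h x - h' x) :=
      (hh.differentiable (by simp)).sub (hh'.differentiable (by simp))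
    have hz : ∀ x, fderiv ℝ (fun x => h x - h' x) x = 0 := by
      intro x
      rw [fderiv_fun_sub (hh.differentiable (by simp) x) (hh'.differentiable (by simp) x), hd,
        sub_self]
    intro x
    exact is_const_of_fderiv_eq_zero hdiff hz x 0
  have h2 : h = fun x => h' x + (h 0 - h' 0) := by
    funext x
    rw [← h1 x]
    ring
  have h3 : mean h 0 = mean h' 0 + (h 0 - h' 0) := by
    conv_lhs => rw [h2]
    rw [mean_add_fun _ _ hh'.continuous continuous_const, mean_const]
  rw [hm, hm', zero_add] at h3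
  funext x
  have := h1 x
  rw [← h3] at this
  linarith

end Pool.Agent.W_9986fc_h15
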