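import Pool.Agent.W_9986fc_h15.Conn
import Pool.Agent.W_9986fc_h15.AlgA
import Pool.Agent.W_9986fc_h15.AlgC

/-!
Closed invariant 2-forms which do not depend on the fibre coordinate: the fibre part.
-/

set_option autoImplicit false
set_option maxSynthPendingDepth 3

open scoped ContDiff Matrix

namespace Pool.Agent.W_9986fc_h15

variable {k b n : ℕ} {G : Type} [Group G] [MulAction G (R b)] (X : Bundle k b G)

/-- The derivative of `a` in vertical directions is zero. -/
theorem fderiv_vert_eq_zero (a : V k b → V k b →L[ℝ] V k b →L[ℝ] ℝ) (ha : ContDiff ℝ ∞ a)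
    (hv : ∀ v z, a (v, z) = a (0, z)) (x : V k b) (y : R k) : fderiv ℝ a x (y, 0) = 0 := by
  have hd : Differentiable ℝ a := ha.differentiable (by simp)
  have h1 : a = fun x => a ((ContinuousLinearMap.inr ℝ (R k) (R b)).comp
      (ContinuousLinearMap.snd ℝ (R k) (R b)) x) := by
    funext x
    simpa using hv x.1 x.2
  have h2 : HasFDerivAt (fun x => a ((ContinuousLinearMap.inr ℝ (R k) (R b)).comp
      (ContinuousLinearMap.snd ℝ (R k) (R b)) x))
      ((fderiv ℝ a ((ContinuousLinearMap.inr ℝ (R k) (R b)).comp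
      (ContinuousLinearMap.snd ℝ (R k) (R b)) x)).comp ((ContinuousLinearMap.inr ℝ (R k) (R b)).comp
      (ContinuousLinearMap.snd ℝ (R k) (R b)))) x :=
    HasFDerivAt.comp x (hd _).hasFDerivAt (ContinuousLinearMap.hasFDerivAt _)
  have h3 : fderiv ℝ a x = ((fderiv ℝ a ((ContinuousLinearMap.inr ℝ (R k) (R b)).comp
      (ContinuousLinearMap.snd ℝ (R k) (R b)) x)).comp ((ContinuousLinearMap.inr ℝ (R k) (R b)).comp
      (ContinuousLinearMap.snd ℝ (R k) (R b)))) := by
    rw [← h1] at h2
    exact h2.fderiv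
  rw [h3]
  simp only [ContinuousLinearMap.coe_comp, Function.comp_apply, ContinuousLinearMap.coe_snd',
    ContinuousLinearMap.inr_apply]
  exact map_zero _

/-- In vertical directions also the evaluated derivative vanishes, so the closedness relation for
two vertical vectors gives a constant fibre part. -/
theorem fderiv_vert_vert (a : V k b → V k b →L[ℝ] V k b →L[ℝ] ℝ) (ha : ContDiff ℝ ∞ a)
    (hc : Closed a) (hv : ∀ v z, a (v, z) = a (0, z)) (x u : V k b) (y y' : R k) :
    fderiv ℝ a x u (y, 0) (y', 0) = 0 := by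
  have h := hc x u (y, 0) (y', 0)
  rw [fderiv_vert_eq_zero a ha hv x y, fderiv_vert_eq_zero a ha hv x y'] at h
  simpa using h

/-- The derivative of an alternating form is alternating. -/
theorem fderiv_alt {E : Type*} [NormedAddCommGroup E] [NormedSpace ℝ E]
    (a : E → E →L[ℝ] E →L[ℝ] ℝ) (ha : ContDiff ℝ ∞ a)
    (halt : ∀ x u, a x u u = 0) (x w u : E) : fderiv ℝ a x w u u = 0 := by
  have hd : Differentiable ℝ a := ha.differentiable (by simp)
  have h1 : HasFDerivAt (fun x => a x u) ((fderiv ℝ a x).flip u) x := by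
    have := (hd x).hasFDerivAt.clm_apply (hasFDerivAt_const u x)
    simpa using this
  have h2 : HasFDerivAt (fun x => a x u u) (((fderiv ℝ a x).flip u).flip u) x := by
    have := h1.clm_apply (hasFDerivAt_const u x)
    simpa using this
  have h3 : (fun x => a x u u) = fun _ => 0 := by
    funext x
    exact halt x u
  rw [h3] at h2
  have h4 := h2.unique (hasFDerivAt_const (0 : ℝ) x)
  have h5 := congrArg (fun f : E →L[ℝ] ℝ => f w) h4
  simpa using h5

/-- Skew symmetry of alternating bilinear forms. -/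
theorem skew_of_alt {E : Type*} [NormedAddCommGroup E] [NormedSpace ℝ E]
    (a : E →L[ℝ] E →L[ℝ] ℝ) (halt : ∀ u, a u u = 0) (u w : E) : a u w = - a w u := by
  have h := halt (u + w)
  simp only [map_add, add_apply, halt, zero_add, add_zero] at h
  linarith

/-- The fibre part is constant and invariant. -/
theorem exists_fibre_part (hB : IsBase b G) (a : V k b → V k b →L[ℝ] V k b →L[ℝ] ℝ)
    (ha : X.Inv2 a) (hc : Closed a) (hv : ∀ v z, a (v, z) = a (0, z)) :
    ∃ c : R k →L[ℝ] R k →L[ℝ] ℝ, X.InvC c ∧ ∀ x y y', a x (y, 0) (y', 0) = c y y' := by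
  have hsm := ha.smooth
  have hd : Differentiable ℝ a := hsm.differentiable (by simp)
  have key : ∀ x y y', a x (y, 0) (y', 0) = a 0 (y, 0) (y', 0) := by
    intro x y y'
    have h1 : ∀ x, HasFDerivAt (fun x => a x (y, 0) (y', 0)) (0 : V k b →L[ℝ] ℝ) x := by
      intro x
      have h1 : HasFDerivAt (fun x => a x (y, 0)) ((fderiv ℝ a x).flip (y, 0)) x := by
        have := (hd x).hasFDerivAt.clm_apply (hasFDerivAt_const ((y, 0) : V k b) x)
        simpa using this
      have h2 : HasFDerivAt (fun x => a x (y, 0) (y', 0))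
          (((fderiv ℝ a x).flip (y, 0)).flip (y', 0)) x := by
        have := h1.clm_apply (hasFDerivAt_const ((y', 0) : V k b) x)
        simpa using this
      have h3 : ((fderiv ℝ a x).flip (y, 0)).flip (y', 0) = 0 := by
        ext u <;> simp [fderiv_vert_vert a hsm hc hv]
      rwa [h3] at h2
    exact is_const_of_fderiv_eq_zero (fun x => (h1 x).differentiableAt)
      (fun x => (h1 x).fderiv) x 0
  refine ⟨(a 0).bilinearComp (ContinuousLinearMap.inl ℝ (R k) (R b))
    (ContinuousLinearMap.inl ℝ (R k) (R b)), ⟨?_, ?_⟩, ?_⟩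
  · intro x
    simpa using ha.alt 0 ((x, 0) : V k b)
  · intro g x y
    have h := ha.invariant g 0
    have h2 : pull2 (X.φ g) a 0 (x, 0) (y, 0) = a 0 (x, 0) (y, 0) := by rw [h]
    simp only [pull2, ContinuousLinearMap.bilinearComp_apply, Bundle.fderiv_φ X hB, map_zero,
      add_zero] at h2
    rw [key] at h2
    simpa using h2
  · intro x y y'
    rw [key]
    simp

/-- If the kernel of the fibre part has dimension more than `b`, then the form is degenerate. -/
theorem top_eq_zero_of_large_kernel (π : Fin n × Fin 2 ≃ Fin k ⊕ Fin b)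
    (a : V k b →L[ℝ] V k b →L[ℝ] ℝ) (halt : ∀ u, a u u = 0) (c : R k →L[ℝ] R k →L[ℝ] ℝ)
    (hac : ∀ y y', a (y, 0) (y', 0) = c y y') (hk : b < Module.finrank ℝ (kerC c)) :
    top (fun l => stdV (π l)) a = 0 := by
  obtain ⟨B, hBB⟩ := exists_basisV π
  have hBB' : (fun l => (stdV (π l) : V k b)) = B := by
    funext l
    exact (hBB l).symm
  rw [hBB']
  let F : kerC c →ₗ[ℝ] (Fin b → ℝ) :=
    { toFun := fun y j => a (y, 0) (0, Pi.single j 1)
      map_add' := by
        intro y y'
        funext j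
        have : (((y + y' : kerC c) : R k), (0 : R b)) = ((y : R k), (0 : R b)) + ((y' : R k), (0 : R b)) := by
          simp
        simp only [this, map_add, add_apply, Pi.add_apply]
      map_smul' := by
        intro r y
        funext j
        have : (((r • y : kerC c) : R k), (0 : R b)) = r • ((y : R k), (0 : R b)) := by
          simp
        simp only [this, map_smul, smul_apply, Pi.smul_apply, RingHom.id_apply] }
  have hF : LinearMap.ker F ≠ ⊥ := by
    apply LinearMap.ker_ne_bot_of_finrank_lt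
    simpa using hk
  obtain ⟨y, hy, hy0⟩ := (Submodule.ne_bot_iff _).1 hF
  have hyc : ∀ y', c (y : R k) y' = 0 := by
    intro y'
    have h1 : c (y : R k) = 0 := by
      have := y.2
      simpa [kerC] using this
    rw [h1]
    rfl
  refine top_eq_zero B a halt ((y : R k), 0) ?_ ?_
  · intro h
    apply hy0
    have : (y : R k) = 0 := congrArg Prod.fst h
    exact Subtype.ext this
  · intro u
    have h1 : u = (u.1, 0) + (0, u.2) := by simp
    rw [h1, map_add, hac, hyc, zero_add]
    have h2 : (0, u.2) = ∑ j, u.2 j • ((0, Pi.single j 1) : V k b) := by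
      ext j
      · simp [Prod.fst_sum]
      · simp [Prod.snd_sum, Finset.sum_apply, Pi.single_apply]
    rw [h2, map_sum]
    apply Finset.sum_eq_zero
    intro j _
    have h3 : F y j = 0 := by
      have := LinearMap.mem_ker.1 hy
      rw [this]
      rfl
    rw [map_smul]
    have h4 : a ((y : R k), 0) (0, Pi.single j 1) = 0 := h3
    rw [h4, smul_zero]

/-- If `W = ker c ≠ 0` and `H^1(W^*) = 0`, then the class of `a` contains a form with `W` in its
kernel: the closed equivariant 1-form `β z u x = a (0,z) (0,u) (x,0)`, `x ∈ W`, is `D ψ`; extend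
`ψ` by `exists_equivariant`, take `η = zeta lam ψ` and use `d1_zeta_vert`: for `x ∈ W`,
`(a + d1 η) (x,0) u = c x u.1 - β z u.2 x ... = 0` (choose the sign of `η`). -/
theorem exists_top_eq_zero (hB : IsBase b G) (π : Fin n × Fin 2 ≃ Fin k ⊕ Fin b)
    (a : V k b → V k b →L[ℝ] V k b →L[ℝ] ℝ) (ha : X.Inv2 a) (hc : Closed a)
    (hv : ∀ v z, a (v, z) = a (0, z)) (c : R k →L[ℝ] R k →L[ℝ] ℝ) (hcc : X.InvC c)
    (hac : ∀ x y y', a x (y, 0) (y', 0) = c y y') (hk : kerC c ≠ ⊥) (h1 : X.H1Zero (kerC c)) :
    ∃ η, X.Inv1 η ∧ ∀ x, top (fun l => stdV (π l)) (a x + d1 η x) = 0 := by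
  have hsm := ha.smooth
  have hd : Differentiable ℝ a := hsm.differentiable (by simp)
  have hker : ∀ y : R k, y ∈ kerC c → ∀ y', c y y' = 0 := by
    intro y hy y'
    have h1 : c y = 0 := by simpa [kerC] using hy
    rw [h1]
    rfl
  have hkerL : ∀ g, ∀ y : R k, y ∈ kerC c → ∀ y', c (X.L g y) y' = 0 := by
    intro g y hy y'
    have h2 := hcc.invariant g y (X.L g⁻¹ y')
    rw [Bundle.L_apply_inv, hker y hy] at h2
    exact h2
  set β : R b → R b →L[ℝ] R k →L[ℝ] ℝ := fun z =>
    (a ((ContinuousLinearMap.inr ℝ (R k) (R b)) z)).bilinearComp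
      (ContinuousLinearMap.inr ℝ (R k) (R b)) (ContinuousLinearMap.inl ℝ (R k) (R b)) with hβ
  have hβa : ∀ z u x, β z u x = a (0, z) (0, u) (x, 0) := by
    intro z u x
    simp [hβ]
  let Φ : (V k b →L[ℝ] V k b →L[ℝ] ℝ) →L[ℝ] (R b →L[ℝ] R k →L[ℝ] ℝ) :=
    LinearMap.toContinuousLinearMap
      { toFun := fun f => f.bilinearComp (ContinuousLinearMap.inr ℝ (R k) (R b))
          (ContinuousLinearMap.inl ℝ (R k) (R b))
        map_add' := by
          intro f g
          ext u x
          simp
        map_smul' := by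
          intro r f
          ext u x
          simp }
  have hβΦ : β = fun z => Φ (a ((ContinuousLinearMap.inr ℝ (R k) (R b)) z)) := rfl
  have hβsm : ContDiff ℝ ∞ β := by
    rw [hβΦ]
    exact Φ.contDiff.comp (hsm.comp (ContinuousLinearMap.contDiff _))
  have hβd : ∀ z u w x, fderiv ℝ β z u w x = fderiv ℝ a (0, z) (0, u) (0, w) (x, 0) := by
    intro z u w x
    have h2 : HasFDerivAt β (Φ.comp ((fderiv ℝ a ((ContinuousLinearMap.inr ℝ (R k) (R b)) z)).comp
        (ContinuousLinearMap.inr ℝ (R k) (R b)))) z := by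
      rw [hβΦ]
      exact Φ.hasFDerivAt.comp z ((hd _).hasFDerivAt.comp z (ContinuousLinearMap.hasFDerivAt _))
    rw [h2.fderiv]
    simp [Φ]
  have hcl : ∀ z u w, ∀ x ∈ kerC c, fderiv ℝ β z u w x = fderiv ℝ β z w u x := by
    intro z u w x _
    rw [hβd, hβd]
    have h2 := hc (0, z) (0, u) (0, w) (x, 0)
    rw [fderiv_vert_eq_zero a hsm hv] at h2
    have h3 := skew_of_alt (fderiv ℝ a (0, z) (0, w)) (fderiv_alt a hsm ha.alt (0, z) (0, w))
      (x, 0) (0, u)
    rw [h3] at h2
    simp at h2
    linarith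
  have heq : ∀ g z u, ∀ x ∈ kerC c,
      β (g • z) (fderiv ℝ (fun z : R b => g • z) z u) (X.L g x) = β z u x := by
    intro g z u x hx
    have h2 : pull2 (X.φ g) a (0, z) (0, u) (x, 0) = a (0, z) (0, u) (x, 0) := by
      rw [ha.invariant g (0, z)]
    simp only [pull2, ContinuousLinearMap.bilinearComp_apply, Bundle.fderiv_φ X hB, map_zero,
      add_zero, zero_add] at h2
    rw [hβa, hβa, ← h2]
    have h3 : a (X.φ g (0, z)) = a (0, g • z) := by
      rw [Bundle.φ, hv]
    rw [h3]
    have h4 : ((fderiv ℝ (X.τ g) z u, fderiv ℝ (fun z : R b => g • z) z u) : V k b) =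
        (fderiv ℝ (X.τ g) z u, 0) + (0, fderiv ℝ (fun z : R b => g • z) z u) := by simp
    rw [h4, map_add, add_apply, hac,
      skew_of_alt c hcc.alt, hkerL g x hx, neg_zero, zero_add]
  obtain ⟨ψ, hψ, hψe, hψd⟩ := h1 β hβsm hcl heq
  obtain ⟨ψ', hψ', hψ'e, hψ'W⟩ := exists_equivariant X hB (kerC c) ψ hψ hψe
  obtain ⟨lam, hlam, hl⟩ := exists_connection X hB
  obtain ⟨B, hBB⟩ := exists_basisV π
  have hBB' : (fun l => (stdV (π l) : V k b)) = B := by
    funext l
    exact (hBB l).symm
  refine ⟨zeta lam (fun z => - ψ' z), inv1_zeta X hB lam hlam hl _ hψ'.neg ?_, ?_⟩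
  · intro g z x
    simp [hψ'e g z x]
  · intro x
    obtain ⟨y, hy, hy0⟩ := (Submodule.ne_bot_iff _).1 hk
    rw [hBB']
    refine top_eq_zero B _ ?_ (y, 0) ?_ ?_
    · intro u
      simp [d1, ha.alt]
    · intro h
      exact hy0 (congrArg Prod.fst h)
    · intro u
      rw [add_apply, add_apply,
        d1_zeta_vert lam hlam _ hψ'.neg]
      have h2 : fderiv ℝ (fun z => - ψ' z) x.2 u.2 y = - β x.2 u.2 y := by
        have h3 : fderiv ℝ (fun z => - ψ' z) x.2 = - fderiv ℝ ψ' x.2 := fderiv_neg
        rw [h3, ← hψd x.2 u.2 y hy]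
        have h4 : ∀ (f : R b → R k →L[ℝ] ℝ), ContDiff ℝ ∞ f →
            HasFDerivAt (fun z => f z y) ((fderiv ℝ f x.2).flip y) x.2 := by
          intro f hf
          have := ((hf.differentiable (by simp)) x.2).hasFDerivAt.clm_apply
            (hasFDerivAt_const y x.2)
          simpa using this
        have h5 : (fun z => ψ' z y) = fun z => ψ z y := by
          funext z
          exact hψ'W z y hy
        have h6 := h4 ψ' hψ'
        rw [h5] at h6
        have h7 := congrArg (fun f : R b →L[ℝ] ℝ => f u.2) (h6.unique (h4 ψ hψ))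
        simp only [ContinuousLinearMap.flip_apply] at h7
        simp [h7]
      rw [h2, neg_neg, hβa]
      have h8 : a x (y, 0) u = a x (y, 0) (u.1, 0) + a x (y, 0) (0, u.2) := by
        rw [← map_add]
        simp
      rw [h8, hac, hker y hy, zero_add, skew_of_alt (a x) (ha.alt x)]
      have h9 : a x = a (0, x.2) := hv x.1 x.2
      rw [h9]
      ring

end Pool.Agent.W_9986fc_h15
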