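import Pool.Agent.W_9986fc_h15.Avg

/-!
The Poincaré lemma with compact supports on `ℝ²`, for vector valued functions.
-/

set_option autoImplicit false
set_option maxSynthPendingDepth 3

open scoped ContDiff Matrix

namespace Pool.Agent.W_9986fc_h15

variable {H : Type*} [NormedAddCommGroup H] [NormedSpace ℝ H] [CompleteSpace H]

/-- Parametric integrals over `[0,1]` of smooth functions are smooth: apply `contDiff_avg` to
`Φ : E × ℝ → H` and the vector `(0, 1)`. -/
theorem contDiff_param {E : Type*} [NormedAddCommGroup E] [NormedSpace ℝ E] (Φ : E × ℝ → H)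
    (hΦ : ContDiff ℝ ∞ Φ) : ContDiff ℝ ∞ fun x => ∫ t in (0 : ℝ)..1, Φ (x, t) := by
  have h := contDiff_avg ((0, 1) : E × ℝ) Φ hΦ
  have h2 : (fun x => ∫ t in (0 : ℝ)..1, Φ (x, t)) =
      (avg ((0, 1) : E × ℝ) Φ) ∘ (fun x => (x, (0 : ℝ))) := by
    funext x
    simp [avg]
  rw [h2]
  exact h.comp (contDiff_id.prodMk contDiff_const)

/-- Primitives with respect to the second variable are smooth. -/
theorem contDiff_primitive (g : ℝ × ℝ → H) (hg : ContDiff ℝ ∞ g) (c : ℝ) :
    ContDiff ℝ ∞ fun p : ℝ × ℝ => ∫ t in c..p.2, g (p.1, t) := by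
  have h1 : (fun p : ℝ × ℝ => ∫ t in c..p.2, g (p.1, t)) =
      fun p : ℝ × ℝ => (p.2 - c) • ∫ s in (0 : ℝ)..1, g (p.1, c + (p.2 - c) * s) := by
    funext p
    rw [intervalIntegral.smul_integral_comp_add_mul (fun t => g (p.1, t))]
    simp
  rw [h1]
  refine ContDiff.smul (contDiff_snd.sub contDiff_const) ?_
  refine contDiff_param (fun q : (ℝ × ℝ) × ℝ => g (q.1.1, c + (q.1.2 - c) * q.2)) ?_
  refine hg.comp (ContDiff.prodMk ?_ ?_)
  · exact contDiff_fst.comp contDiff_fst
  · exact contDiff_const.add (((contDiff_snd.comp contDiff_fst).sub contDiff_const).mul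
      contDiff_snd)

/-- The partial derivative of a smooth function on `ℝ²`. -/
theorem fderiv_stdR_eq (F : R 2 → H) (hF : ContDiff ℝ ∞ F) (z : R 2) (i : Fin 2) (F' : H)
    (h : HasDerivAt (fun s : ℝ => F (z + s • stdR i)) F' 0) : fderiv ℝ F z (stdR i) = F' := by
  have hd : DifferentiableAt ℝ F z := (hF.differentiable (by simp)) z
  rw [← hd.lineDeriv_eq_fderiv]
  exact h.deriv

/-- The compactly supported Poincaré lemma. Proof: let `N` be such that `ρ` is supported in
`(-N, N)²`; let `r x = ∫ y, ρ (x, y)` (a smooth function with compact support and integral zero), `β`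
a smooth bump function of integral one supported in `(-N, N)`,
`Q (x, y) = β y • ∫ s in -N..x, r s` and `P (x, y) = ∫ t in -N..y, (ρ (x, t) - β t • r x)`.
(An integral `∫ t in -N..y, f (x, t)` is `(y + N) • ∫ s in 0..1, f (x, -N + s * (y + N))`; so
smoothness follows from `contDiff_param`.) -/
theorem exists_primitive_compact (ρ : R 2 → H) (hρ : ContDiff ℝ ∞ ρ) (hs : HasCompactSupport ρ)
    (h0 : ∫ z, ρ z = 0) : ∃ P Q : R 2 → H, ContDiff ℝ ∞ P ∧ HasCompactSupport P ∧
      ContDiff ℝ ∞ Q ∧ HasCompactSupport Q ∧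
      ∀ z, fderiv ℝ Q z (stdR 0) + fderiv ℝ P z (stdR 1) = ρ z := by
  obtain ⟨N, hN0, hN⟩ := hs.isCompact.isBounded.subset_closedBall_lt 0 0
  set M : ℝ := N + 1 with hM
  have hM0 : 0 < M := by linarith
  have hρ0 : ∀ z : R 2, ∀ i, M ≤ |z i| → ρ z = 0 := by
    intro z i hi
    by_contra hne
    have h1 := hN (subset_tsupport ρ hne)
    rw [mem_closedBall_zero_iff] at h1
    have h2 := norm_le_pi_norm z i
    rw [Real.norm_eq_abs] at h2
    linarith
  -- the function of two real variables
  set f : ℝ × ℝ → H := fun p => ρ ![p.1, p.2] with hf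
  have hfsm : ContDiff ℝ ∞ f := by
    refine hρ.comp ?_
    rw [contDiff_pi]
    intro i
    fin_cases i
    · exact contDiff_fst
    · exact contDiff_snd
  have hf0 : ∀ x y, M ≤ |x| ∨ M ≤ |y| → f (x, y) = 0 := by
    intro x y h
    rcases h with h | h
    · exact hρ0 _ 0 (by simpa using h)
    · exact hρ0 _ 1 (by simpa using h)
  -- the bump function
  let bump : ContDiffBump (0 : ℝ) := ⟨M / 2, M, by linarith, by linarith⟩
  set β : ℝ → ℝ := bump.normed MeasureTheory.volume with hβ
  have hβsm : ContDiff ℝ ∞ β := bump.contDiff_normed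
  have hβsupp : Function.support β = Metric.ball 0 M := bump.support_normed_eq
  have hβ0 : ∀ t, M ≤ |t| → β t = 0 := by
    intro t ht
    by_contra hne
    have h1 : t ∈ Function.support β := hne
    rw [hβsupp, Metric.mem_ball, dist_zero_right, Real.norm_eq_abs] at h1
    linarith
  have hβint : ∫ t in (-M)..M, β t = 1 := by
    rw [intervalIntegral.integral_eq_integral_of_support_subset]
    · exact bump.integral_normed
    · rw [hβsupp]
      intro t ht
      rw [Metric.mem_ball, dist_zero_right, Real.norm_eq_abs, abs_lt] at ht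
      exact ⟨ht.1, ht.2.le⟩
  -- the marginal
  set r : ℝ → H := fun x => ∫ t in (-M)..M, f (x, t) with hr
  have hrsm : ContDiff ℝ ∞ r :=
    (contDiff_primitive f hfsm (-M)).comp (contDiff_id.prodMk contDiff_const)
  have hr0 : ∀ x, M ≤ |x| → r x = 0 := by
    intro x hx
    simp only [hr]
    rw [intervalIntegral.integral_congr (g := fun _ => (0 : H))
      (fun t _ => hf0 x t (Or.inl hx))]
    simp
  have habs1 : ∀ t : ℝ, t ≤ -M → M ≤ |t| := fun t ht => by
    rw [le_abs]; right; linarith
  have habs2 : ∀ t : ℝ, M ≤ t → M ≤ |t| := fun t ht => by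
    rw [le_abs]; left; exact ht
  have hfull : ∀ x, ∫ t, f (x, t) = r x := by
    intro x
    simp only [hr]
    rw [intervalIntegral.integral_eq_integral_of_support_subset]
    intro t ht
    rw [Function.mem_support] at ht
    refine ⟨?_, ?_⟩
    · by_contra hcon
      exact ht (hf0 x t (Or.inr (habs1 t (not_lt.1 hcon))))
    · by_contra hcon
      exact ht (hf0 x t (Or.inr (habs2 t (not_le.1 hcon).le)))
  have hfint : MeasureTheory.Integrable f (MeasureTheory.volume.prod MeasureTheory.volume) := by
    refine Continuous.integrable_of_hasCompactSupport hfsm.continuous ?_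
    refine HasCompactSupport.intro (K := Set.Icc (-M, -M) (M, M)) isCompact_Icc ?_
    rintro ⟨x, y⟩ hxy
    refine hf0 x y ?_
    by_contra hcon
    push Not at hcon
    rw [abs_lt, abs_lt] at hcon
    exact hxy ⟨⟨hcon.1.1.le, hcon.2.1.le⟩, ⟨hcon.1.2.le, hcon.2.2.le⟩⟩
  have hrint : ∫ x in (-M)..M, r x = 0 := by
    rw [intervalIntegral.integral_eq_integral_of_support_subset]
    · have h1 := MeasureTheory.integral_prod f hfint
      simp only [hfull] at h1
      rw [← h1, ← h0]
      exact ((MeasureTheory.volume_preserving_finTwoArrow ℝ).symm _).integral_comp'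
        (g := ρ)
    · intro t ht
      rw [Function.mem_support] at ht
      refine ⟨?_, ?_⟩
      · by_contra hcon
        exact ht (hr0 t (habs1 t (not_lt.1 hcon)))
      · by_contra hcon
        exact ht (hr0 t (habs2 t (not_le.1 hcon).le))
  -- interval integrals of continuous functions
  have hII : ∀ (F : ℝ → H), Continuous F → ∀ a c : ℝ,
      IntervalIntegrable F MeasureTheory.volume a c := fun F hF a c => hF.intervalIntegrable a c
  have hzl : ∀ (F : ℝ → H), (∀ t, t ≤ -M → F t = 0) → ∀ x, x ≤ -M →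
      ∫ t in (-M)..x, F t = 0 := by
    intro F hF x hx
    rw [intervalIntegral.integral_congr (g := fun _ => (0 : H))]
    · simp
    · intro t ht
      rw [Set.uIcc_of_ge hx] at ht
      exact hF t ht.2
  have hzr : ∀ (F : ℝ → H), (∀ t, M ≤ t → F t = 0) → Continuous F →
      ∫ t in (-M)..M, F t = 0 → ∀ x, M ≤ x → ∫ t in (-M)..x, F t = 0 := by
    intro F hF hc hI x hx
    rw [← intervalIntegral.integral_add_adjacent_intervals (hII F hc (-M) M) (hII F hc M x), hI,
      zero_add, intervalIntegral.integral_congr (g := fun _ => (0 : H))]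
    · simp
    · intro t ht
      rw [Set.uIcc_of_le hx] at ht
      exact hF t ht.1
  -- the primitives
  set g : ℝ × ℝ → H := fun p => f p - β p.2 • r p.1 with hg
  have hgsm : ContDiff ℝ ∞ g :=
    hfsm.sub ((hβsm.comp contDiff_snd).smul (hrsm.comp contDiff_fst))
  have hgc : ∀ x, Continuous fun t => g (x, t) := fun x =>
    hgsm.continuous.comp (continuous_const.prodMk continuous_id)
  have hproj : ContDiff ℝ ∞ fun z : R 2 => (z 0, z 1) :=
    (contDiff_apply ℝ ℝ (0 : Fin 2)).prodMk (contDiff_apply ℝ ℝ (1 : Fin 2))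
  have hPsm : ContDiff ℝ ∞ fun z : R 2 => ∫ t in (-M)..(z 1), g (z 0, t) :=
    (contDiff_primitive g hgsm (-M)).comp hproj
  have hRsm : ContDiff ℝ ∞ fun x : ℝ => ∫ s in (-M)..x, r s :=
    (contDiff_primitive (fun p : ℝ × ℝ => r p.2) (hrsm.comp contDiff_snd) (-M)).comp
      ((contDiff_const (c := (0 : ℝ))).prodMk contDiff_id)
  have hQsm : ContDiff ℝ ∞ fun z : R 2 => β (z 1) • ∫ s in (-M)..(z 0), r s :=
    (hβsm.comp (contDiff_apply ℝ ℝ (1 : Fin 2))).smul
      (hRsm.comp (contDiff_apply ℝ ℝ (0 : Fin 2)))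
  have hgint : ∀ x, ∫ t in (-M)..M, g (x, t) = 0 := by
    intro x
    simp only [hg]
    rw [intervalIntegral.integral_sub, intervalIntegral.integral_smul_const, hβint, one_smul]
    · simp [hr]
    · exact hII _ (hfsm.continuous.comp (continuous_const.prodMk continuous_id)) _ _
    · exact hII _ (hβsm.continuous.smul continuous_const) _ _
  have hcpt : ∀ F : R 2 → H, (∀ z, (M ≤ |z 0| ∨ M ≤ |z 1|) → F z = 0) →
      HasCompactSupport F := by
    intro F hF
    refine HasCompactSupport.intro
      (K := Set.Icc (fun _ : Fin 2 => -M) (fun _ : Fin 2 => M)) isCompact_Icc ?_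
    intro z hz
    apply hF
    by_contra hcon
    push Not at hcon
    rw [abs_lt, abs_lt] at hcon
    apply hz
    constructor
    · intro i
      fin_cases i
      · exact hcon.1.1.le
      · exact hcon.2.1.le
    · intro i
      fin_cases i
      · exact hcon.1.2.le
      · exact hcon.2.2.le
  refine ⟨fun z => ∫ t in (-M)..(z 1), g (z 0, t), fun z => β (z 1) • ∫ s in (-M)..(z 0), r s,
    hPsm, ?_, hQsm, ?_, ?_⟩
  · refine hcpt _ fun z hz => ?_
    rcases hz with hz | hz
    · have : ∀ t, g (z 0, t) = 0 := by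
        intro t
        simp only [hg]
        rw [hf0 _ _ (Or.inl hz), hr0 _ hz, smul_zero, sub_zero]
      simp [this]
    · rcases le_abs.1 hz with h | h
      · refine hzr _ (fun t ht => ?_) (hgc _) (hgint _) _ h
        simp only [hg]
        rw [hf0 _ _ (Or.inr (habs2 t ht)), hβ0 _ (habs2 t ht), zero_smul, sub_zero]
      · refine hzl _ (fun t ht => ?_) _ (by linarith)
        simp only [hg]
        rw [hf0 _ _ (Or.inr (habs1 t ht)), hβ0 _ (habs1 t ht), zero_smul, sub_zero]
  · refine hcpt _ fun z hz => ?_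
    rcases hz with hz | hz
    · have : ∫ s in (-M)..(z 0), r s = 0 := by
        rcases le_abs.1 hz with h | h
        · exact hzr _ (fun t ht => hr0 t (habs2 t ht)) hrsm.continuous hrint _ h
        · exact hzl _ (fun t ht => hr0 t (habs1 t ht)) _ (by linarith)
      simp only [this, smul_zero]
    · simp only [hβ0 _ hz, zero_smul]
  · intro z
    have hQ : fderiv ℝ (fun z : R 2 => β (z 1) • ∫ s in (-M)..(z 0), r s) z (stdR 0) =
        β (z 1) • r (z 0) := by
      refine fderiv_stdR_eq _ hQsm z 0 _ ?_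
      have h1 : HasDerivAt (fun u : ℝ => ∫ s in (-M)..u, r s) (r (z 0)) (z 0) :=
        (hrsm.continuous.integral_hasStrictDerivAt (-M) (z 0)).hasDerivAt
      have h2 : HasDerivAt (fun s : ℝ => z 0 + s) 1 0 := (hasDerivAt_id (0 : ℝ)).const_add (z 0)
      have h3 : HasDerivAt (fun u : ℝ => ∫ s in (-M)..u, r s) (r (z 0)) (z 0 + 0) := by
        simpa using h1
      have h4 := (h3.scomp (0 : ℝ) h2).const_smul (β (z 1))
      simp only [one_smul] at h4
      refine h4.congr_of_eventuallyEq (Filter.Eventually.of_forall fun s => ?_)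
      simp [stdR]
    have hP : fderiv ℝ (fun z : R 2 => ∫ t in (-M)..(z 1), g (z 0, t)) z (stdR 1) =
        g (z 0, z 1) := by
      refine fderiv_stdR_eq _ hPsm z 1 _ ?_
      have h1 : HasDerivAt (fun u : ℝ => ∫ t in (-M)..u, g (z 0, t)) (g (z 0, z 1)) (z 1) :=
        ((hgc (z 0)).integral_hasStrictDerivAt (-M) (z 1)).hasDerivAt
      have h2 : HasDerivAt (fun s : ℝ => z 1 + s) 1 0 := (hasDerivAt_id (0 : ℝ)).const_add (z 1)
      have h3 : HasDerivAt (fun u : ℝ => ∫ t in (-M)..u, g (z 0, t)) (g (z 0, z 1))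
          (z 1 + 0) := by
        simpa using h1
      have h4 := h3.scomp (0 : ℝ) h2
      simp only [one_smul] at h4
      refine h4.congr_of_eventuallyEq (Filter.Eventually.of_forall fun s => ?_)
      simp [stdR]
    rw [hQ, hP]
    simp only [hg, hf]
    have hz : (![z 0, z 1] : R 2) = z := by
      funext i
      fin_cases i <;> rfl
    rw [hz]
    abel

end Pool.Agent.W_9986fc_h15
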